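import Mathlib

/-!
# Moments of the inverse of a binomial random variable
-/

set_option autoImplicit false

namespace Pool.Agent.T6.H96.VB

open Finset

theorem choose_le_pow' (s r : ℕ) : (s + r).choose r ≤ (s + 1) ^ r := by
  induction r with
  | zero => simp
  | succ r ih =>
    have h1 : (s + (r + 1)).choose (r + 1) * (r + 1) = (s + r + 1) * (s + r).choose r := by
      have := Nat.add_one_mul_choose_eq (s + r) r
      rw [show s + (r + 1) = s + r + 1 by ring]
      exact this.symm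
    have h2 : (s + r + 1) ≤ (s + 1) * (r + 1) := by nlinarith
    have h3 : (s + (r + 1)).choose (r + 1) * (r + 1) ≤ (s + 1) ^ (r + 1) * (r + 1) := by
      rw [h1]
      calc (s + r + 1) * (s + r).choose r ≤ ((s + 1) * (r + 1)) * (s + 1) ^ r := Nat.mul_le_mul h2 ih
        _ = _ := by ring
    exact Nat.le_of_mul_le_mul_right h3 (Nat.succ_pos r)

theorem pow_le_choose' (N r : ℕ) : (N + 1) ^ r ≤ r.factorial * (N + r).choose r := by
  induction r with
  | zero => simp
  | succ r ih =>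
    have h1 : (N + (r + 1)).choose (r + 1) * (r + 1) = (N + r + 1) * (N + r).choose r := by
      have := Nat.add_one_mul_choose_eq (N + r) r
      rw [show N + (r + 1) = N + r + 1 by ring]
      exact this.symm
    calc (N + 1) ^ (r + 1) = (N + 1) ^ r * (N + 1) := pow_succ _ _
      _ ≤ (r.factorial * (N + r).choose r) * (N + r + 1) := Nat.mul_le_mul ih (by omega)
      _ = r.factorial * ((N + (r + 1)).choose (r + 1) * (r + 1)) := by rw [h1]; ring
      _ = _ := by rw [Nat.factorial_succ]; ring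

theorem binom_total (N : ℕ) (θ : ℝ) : ∑ S : Finset (Fin N), θ ^ S.card * (1 - θ) ^ (N - S.card) = 1 := by
  have h := Finset.sum_powerset_apply_card (x := (univ : Finset (Fin N))) (fun s => θ ^ s * (1 - θ) ^ (N - s))
  rw [Finset.powerset_univ, Finset.card_univ, Fintype.card_fin] at h
  rw [h]
  have h2 := add_pow θ (1 - θ) N
  rw [show θ + (1 - θ) = 1 by ring, one_pow] at h2
  refine Eq.trans ?_ h2.symm
  refine Finset.sum_congr rfl fun s _ => ?_
  rw [nsmul_eq_mul]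
  ring

theorem binom_inv (N r : ℕ) (θ : ℝ) (h0 : 0 < θ) (h1 : θ ≤ 1) :
    ∑ S : Finset (Fin N), θ ^ S.card * (1 - θ) ^ (N - S.card) * (1 / ((S.card : ℝ) + 1) ^ r) ≤
      r.factorial / (θ * (N + 1)) ^ r := by
  have h := Finset.sum_powerset_apply_card (x := (univ : Finset (Fin N)))
    (fun s => θ ^ s * (1 - θ) ^ (N - s) * (1 / ((s : ℝ) + 1) ^ r)) 
  rw [Finset.powerset_univ, Finset.card_univ, Fintype.card_fin] at h
  rw [h]
  have h1' : 0 ≤ 1 - θ := by linarith
  have hC : (0 : ℝ) < ((N + r).choose r : ℕ) := by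
    have : 0 < (N + r).choose r := Nat.choose_pos (by omega)
    exact_mod_cast this
  have h2 : ∀ s ∈ range (N + 1), N.choose s • (θ ^ s * (1 - θ) ^ (N - s) * (1 / ((s : ℝ) + 1) ^ r)) ≤
      (1 / (((N + r).choose r : ℕ) * θ ^ r)) * (θ ^ (s + r) * (1 - θ) ^ (N + r - (s + r)) * ((N + r).choose (s + r) : ℕ)) := by
    intro s hs
    rw [Finset.mem_range] at hs
    have e1 : N + r - (s + r) = N - s := by omega
    rw [e1, nsmul_eq_mul]
    have h3 := Nat.choose_mul (n := N + r) (k := s + r) (s := r) (by omega)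
    rw [Nat.add_sub_cancel, Nat.add_sub_cancel] at h3
    have h3' : (((N + r).choose (s + r) : ℕ) : ℝ) * ((s + r).choose r : ℕ) = ((N + r).choose r : ℕ) * (N.choose s : ℕ) := by
      exact_mod_cast h3
    have h4 : (((s + r).choose r : ℕ) : ℝ) ≤ ((s : ℝ) + 1) ^ r := by exact_mod_cast choose_le_pow' s r
    have h5 : (0 : ℝ) < ((s : ℝ) + 1) ^ r := by positivity
    have h6 : ((N.choose s : ℕ) : ℝ) * (1 / ((s : ℝ) + 1) ^ r) ≤ ((N + r).choose (s + r) : ℕ) / ((N + r).choose r : ℕ) := by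
      rw [mul_one_div, div_le_div_iff₀ h5 hC]
      calc ((N.choose s : ℕ) : ℝ) * ((N + r).choose r : ℕ) = (((N + r).choose (s + r) : ℕ) : ℝ) * ((s + r).choose r : ℕ) := by
            rw [h3']; ring
        _ ≤ _ := by gcongr
    calc ((N.choose s : ℕ) : ℝ) * (θ ^ s * (1 - θ) ^ (N - s) * (1 / ((s : ℝ) + 1) ^ r)) 
        = (θ ^ s * (1 - θ) ^ (N - s)) * (((N.choose s : ℕ) : ℝ) * (1 / ((s : ℝ) + 1) ^ r)) := by ring
      _ ≤ (θ ^ s * (1 - θ) ^ (N - s)) * (((N + r).choose (s + r) : ℕ) / ((N + r).choose r : ℕ)) := by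
          gcongr
      _ = _ := by
          rw [pow_add θ s r]
          field_simp
  refine (Finset.sum_le_sum h2).trans ?_
  rw [← Finset.mul_sum]
  have h7 : ∑ s ∈ range (N + 1), (θ ^ (s + r) * (1 - θ) ^ (N + r - (s + r)) * ((N + r).choose (s + r) : ℕ)) ≤ 1 := by
    have h8 := add_pow θ (1 - θ) (N + r)
    rw [show θ + (1 - θ) = 1 by ring, one_pow] at h8
    refine le_trans ?_ h8.symm.le
    rw [show N + r + 1 = r + (N + 1) by ring, Finset.sum_range_add _ r (N + 1)]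
    have h9 : ∑ s ∈ range (N + 1), (θ ^ (s + r) * (1 - θ) ^ (N + r - (s + r)) * ((N + r).choose (s + r) : ℕ)) = 
        ∑ x ∈ range (N + 1), θ ^ (r + x) * (1 - θ) ^ (N + r - (r + x)) * ((N + r).choose (r + x) : ℕ) := by
      refine Finset.sum_congr rfl fun s _ => ?_
      rw [add_comm s r]
    rw [h9]
    have h10 : 0 ≤ ∑ x ∈ range r, θ ^ x * (1 - θ) ^ (N + r - x) * ((N + r).choose x : ℕ) :=
      Finset.sum_nonneg fun x _ => by positivity
    linarith
  have h8 : (1 / ((((N + r).choose r : ℕ) : ℝ) * θ ^ r)) ≤ r.factorial / (θ * (N + 1)) ^ r := by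
    rw [div_le_div_iff₀ (by positivity) (by positivity), one_mul, mul_pow]
    have h9 : ((N : ℝ) + 1) ^ r ≤ r.factorial * ((N + r).choose r : ℕ) := by exact_mod_cast pow_le_choose' N r
    calc θ ^ r * ((N : ℝ) + 1) ^ r ≤ θ ^ r * (r.factorial * ((N + r).choose r : ℕ)) := by gcongr
      _ = _ := by ring
  calc (1 / ((((N + r).choose r : ℕ) : ℝ) * θ ^ r)) * ∑ s ∈ range (N + 1), (θ ^ (s + r) * (1 - θ) ^ (N + r - (s + r)) * ((N + r).choose (s + r) : ℕ))
      ≤ (1 / ((((N + r).choose r : ℕ) : ℝ) * θ ^ r)) * 1 := by gcongr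
    _ ≤ _ := by rw [mul_one]; exact h8

theorem binom_inv_sqrt (N r : ℕ) (θ : ℝ) (h0 : 0 < θ) (h1 : θ ≤ 1) :
    ∑ S : Finset (Fin N), θ ^ S.card * (1 - θ) ^ (N - S.card) * (1 / Real.sqrt (((S.card : ℝ) + 1) ^ r)) ≤
      Real.sqrt (r.factorial / (θ * (N + 1)) ^ r) := by
  have h1' : 0 ≤ 1 - θ := by linarith
  have hnn : ∀ S : Finset (Fin N), 0 ≤ θ ^ S.card * (1 - θ) ^ (N - S.card) := fun S => by positivity
  have h2 := Finset.sum_mul_sq_le_sq_mul_sq (univ : Finset (Finset (Fin N)))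
    (fun S => Real.sqrt (θ ^ S.card * (1 - θ) ^ (N - S.card)))
    (fun S => Real.sqrt (θ ^ S.card * (1 - θ) ^ (N - S.card)) * (1 / Real.sqrt (((S.card : ℝ) + 1) ^ r)))
  have e1 : ∀ S : Finset (Fin N), Real.sqrt (θ ^ S.card * (1 - θ) ^ (N - S.card)) *
      (Real.sqrt (θ ^ S.card * (1 - θ) ^ (N - S.card)) * (1 / Real.sqrt (((S.card : ℝ) + 1) ^ r))) =
      θ ^ S.card * (1 - θ) ^ (N - S.card) * (1 / Real.sqrt (((S.card : ℝ) + 1) ^ r)) := by
    intro S
    rw [← mul_assoc, Real.mul_self_sqrt (hnn S)]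
  have e2 : ∀ S : Finset (Fin N), Real.sqrt (θ ^ S.card * (1 - θ) ^ (N - S.card)) ^ 2 = 
      θ ^ S.card * (1 - θ) ^ (N - S.card) := fun S => Real.sq_sqrt (hnn S)
  have e3 : ∀ S : Finset (Fin N), (Real.sqrt (θ ^ S.card * (1 - θ) ^ (N - S.card)) * (1 / Real.sqrt (((S.card : ℝ) + 1) ^ r))) ^ 2 =
      θ ^ S.card * (1 - θ) ^ (N - S.card) * (1 / ((S.card : ℝ) + 1) ^ r) := by
    intro S
    rw [mul_pow, Real.sq_sqrt (hnn S), div_pow, one_pow, Real.sq_sqrt (by positivity)]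
  simp only [e1, e2, e3, binom_total, one_mul] at h2
  apply Real.le_sqrt_of_sq_le
  exact h2.trans (binom_inv N r θ h0 h1)

end Pool.Agent.T6.H96.VB
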