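import Pool.Agent.W639.RB.Comb

/-!
# Anti-concentration: a function which is changed by `± c` by each of many exchanges
-/

set_option autoImplicit false

namespace Pool.Agent.T6.H96.VB

open Finset Pool.Agent.W639.RB

section level

variable {N : ℕ}

theorem count_inter (A : Finset (Fin N)) (s : ℕ) :
    ((univ.filter (fun S : Finset (Fin N) => (S ∩ A).card = s)).card : ℝ) ≤
      2 ^ N / Real.sqrt ((A.card : ℝ) + 1) := by
  classical
  have h1 : (univ.filter (fun S : Finset (Fin N) => (S ∩ A).card = s)).card ≤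
      A.card.choose s * 2 ^ (N - A.card) := by
    have h2 : (powersetCard s A ×ˢ (Aᶜ).powerset).card = A.card.choose s * 2 ^ (N - A.card) := by
      rw [Finset.card_product, Finset.card_powersetCard, Finset.card_powerset, Finset.card_compl,
        Fintype.card_fin]
    rw [← h2]
    apply Finset.card_le_card_of_injOn (fun S => (S ∩ A, S \ A))
    · intro S hS
      rw [Finset.mem_coe, Finset.mem_filter] at hS
      rw [Finset.mem_coe, Finset.mem_product, Finset.mem_powersetCard, Finset.mem_powerset]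
      refine ⟨⟨Finset.inter_subset_right, hS.2⟩, ?_⟩
      intro k hk
      rw [Finset.mem_compl]
      exact (Finset.mem_sdiff.1 hk).2
    · intro S _ S' _ h
      simp only [Prod.mk.injEq] at h
      rw [← Finset.sdiff_union_inter S A, ← Finset.sdiff_union_inter S' A, h.1, h.2]
  have h3 : A.card ≤ N := by
    have := Finset.card_le_univ A
    rwa [Fintype.card_fin] at this
  have h4 : ((univ.filter (fun S : Finset (Fin N) => (S ∩ A).card = s)).card : ℝ) ≤
      (A.card.choose s : ℕ) * 2 ^ (N - A.card) := by exact_mod_cast h1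
  refine h4.trans ?_
  have h5 := choose_le_sqrt A.card s
  calc ((A.card.choose s : ℕ) : ℝ) * 2 ^ (N - A.card)
      ≤ 2 ^ A.card / Real.sqrt ((A.card : ℝ) + 1) * 2 ^ (N - A.card) := by gcongr
    _ = (2 ^ A.card * 2 ^ (N - A.card)) / Real.sqrt ((A.card : ℝ) + 1) := by ring
    _ = _ := by rw [← pow_add, Nat.add_sub_cancel' h3]

theorem count_level (A : Finset (Fin N)) (d : Fin N → ℤ) (c : ℤ) (hc : 0 < c)
    (hd : ∀ k ∈ A, d k = c ∨ d k = -c) (g0 t : ℤ) :
    ((univ.filter (fun S : Finset (Fin N) => g0 + ∑ k ∈ S ∩ A, d k = t)).card : ℝ) ≤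
      2 ^ N / Real.sqrt ((A.card : ℝ) + 1) := by
  classical
  set Ng := A.filter (fun k => d k = -c) with hNg
  have hkey : ∀ S : Finset (Fin N), ∑ k ∈ S ∩ A, d k = c * (((symmDiff S Ng) ∩ A).card - Ng.card) := by
    intro S
    have e1 : ((((symmDiff S Ng) ∩ A).card : ℕ) : ℤ) = ∑ k ∈ A, if k ∈ symmDiff S Ng then 1 else 0 := by
      rw [Finset.sum_boole]
      congr 1
      congr 1
      ext k
      rw [Finset.mem_inter, Finset.mem_filter, and_comm]
    have e2 : ((Ng.card : ℕ) : ℤ) = ∑ k ∈ A, if d k = -c then 1 else 0 := by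
      rw [Finset.sum_boole]
    have e3 : ∑ k ∈ S ∩ A, d k = ∑ k ∈ A, if k ∈ S then d k else 0 := by
      rw [← Finset.sum_filter]
      refine Finset.sum_congr ?_ fun _ _ => rfl
      ext k
      rw [Finset.mem_inter, Finset.mem_filter, and_comm]
    rw [e1, e2, e3, ← Finset.sum_sub_distrib, Finset.mul_sum]
    refine Finset.sum_congr rfl fun k hk => ?_
    have hcne : c ≠ -c := by omega
    rcases hd k hk with h | h
    · have h1 : k ∉ Ng := by
        rw [hNg, Finset.mem_filter, not_and]
        intro _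
        rw [h]
        exact hcne
      by_cases hS : k ∈ S
      · rw [if_pos hS, if_pos (by rw [Finset.mem_symmDiff]; exact Or.inl ⟨hS, h1⟩), h, if_neg hcne]
        ring
      · rw [if_neg hS, if_neg (by rw [Finset.mem_symmDiff]; tauto), h, if_neg hcne]
        ring
    · have h1 : k ∈ Ng := by
        rw [hNg, Finset.mem_filter]
        exact ⟨hk, h⟩
      by_cases hS : k ∈ S
      · rw [if_pos hS, if_neg (by rw [Finset.mem_symmDiff]; tauto), h, if_pos rfl]
        ring
      · rw [if_neg hS, if_pos (by rw [Finset.mem_symmDiff]; exact Or.inr ⟨h1, hS⟩), h, if_pos rfl]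
        ring
  by_cases hne : ∃ S0 : Finset (Fin N), g0 + ∑ k ∈ S0 ∩ A, d k = t
  · obtain ⟨S0, hS0⟩ := hne
    refine le_trans ?_ (count_inter A ((symmDiff S0 Ng) ∩ A).card)
    have : (univ.filter (fun S : Finset (Fin N) => g0 + ∑ k ∈ S ∩ A, d k = t)).card ≤
        (univ.filter (fun S : Finset (Fin N) => (S ∩ A).card = ((symmDiff S0 Ng) ∩ A).card)).card := by
      apply Finset.card_le_card_of_injOn (fun S => symmDiff S Ng)
      · intro S hS
        rw [Finset.mem_coe, Finset.mem_filter] at hS ⊢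
        refine ⟨Finset.mem_univ _, ?_⟩
        have h1 := hS.2.trans hS0.symm
        rw [hkey S, hkey S0] at h1
        have h2 := mul_left_cancel₀ (ne_of_gt hc) (add_left_cancel h1)
        have h3 : (((symmDiff S Ng) ∩ A).card : ℤ) = ((symmDiff S0 Ng) ∩ A).card := by linarith
        exact_mod_cast h3
      · intro S _ S' _ h
        exact (symmDiff_left_injective Ng) h
    exact_mod_cast this
  · have : (univ.filter (fun S : Finset (Fin N) => g0 + ∑ k ∈ S ∩ A, d k = t)) = ∅ := by
      apply Finset.filter_eq_empty_iff.2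
      intro S _ h
      exact hne ⟨S, h⟩
    rw [this, Finset.card_empty, Nat.cast_zero]
    positivity

end level

section avg

variable {N : ℕ} {β : Type*} [Fintype β] [DecidableEq β]

/-- apply `ι` at the places in `S` -/
def fl (ι : β → β) (S : Finset (Fin N)) (b : Fin N → β) : Fin N → β := 
  fun k => if k ∈ S then ι (b k) else b k

omit [Fintype β] [DecidableEq β] in
theorem fl_fl (ι : β → β) (hι : Function.Involutive ι) (S : Finset (Fin N)) (b : Fin N → β) :
    fl ι S (fl ι S b) = b := by
  funext k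
  unfold fl
  by_cases h : k ∈ S
  · simp only [h, if_true]
    exact hι _
  · simp only [h, if_false]

theorem avg (W : Fin N → β → ℝ) (hW : ∀ k c, 0 ≤ W k c) (ι : β → β) (hι : Function.Involutive ι) 
    (hWι : ∀ k c, W k (ι c) = W k c) (P : (Fin N → β) → Prop) [DecidablePred P] (g : (Fin N → β) → ℝ)
    (h : ∀ b, ((univ.filter (fun S : Finset (Fin N) => P (fl ι S b))).card : ℝ) ≤ 2 ^ N * g b) :
    ∑ b, (if P b then ∏ k, W k (b k) else 0) ≤ ∑ b, (∏ k, W k (b k)) * g b := by
  have h1 : ∀ S : Finset (Fin N), ∑ b, (if P b then ∏ k, W k (b k) else 0) =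
      ∑ b, (if P (fl ι S b) then ∏ k, W k (b k) else 0) := by
    intro S
    have e := Equiv.sum_comp (Function.Involutive.toPerm (fl ι S) (fl_fl ι hι S)) 
      (fun b => if P b then ∏ k, W k (b k) else 0)
    rw [← e]
    refine Finset.sum_congr rfl fun b _ => ?_
    have e2 : (∏ k, W k (fl ι S b k)) = ∏ k, W k (b k) := by
      refine Finset.prod_congr rfl fun k _ => ?_
      unfold fl
      split_ifs
      · exact hWι _ _
      · rfl
    show (if P (fl ι S b) then ∏ k, W k (fl ι S b k) else 0) = _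
    rw [e2]
  have h2 : (2 : ℝ) ^ N * ∑ b, (if P b then ∏ k, W k (b k) else 0) = 
      ∑ b, (∏ k, W k (b k)) * ((univ.filter (fun S : Finset (Fin N) => P (fl ι S b))).card : ℝ) := by
    have e3 : (2 : ℝ) ^ N * ∑ b, (if P b then ∏ k, W k (b k) else 0) = 
        ∑ S : Finset (Fin N), ∑ b, (if P (fl ι S b) then ∏ k, W k (b k) else 0) := by
      rw [← Finset.sum_congr rfl fun S _ => h1 S, Finset.sum_const, Finset.card_univ, 
        Fintype.card_finset, Fintype.card_fin, nsmul_eq_mul]
      push_cast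
      rfl
    rw [e3, Finset.sum_comm]
    refine Finset.sum_congr rfl fun b _ => ?_
    rw [← Finset.sum_boole, Finset.mul_sum]
    refine Finset.sum_congr rfl fun S _ => ?_
    split_ifs <;> simp
  have h3 : (2 : ℝ) ^ N * ∑ b, (if P b then ∏ k, W k (b k) else 0) ≤ 
      2 ^ N * ∑ b, (∏ k, W k (b k)) * g b := by
    rw [h2, Finset.mul_sum]
    refine Finset.sum_le_sum fun b _ => ?_
    calc (∏ k, W k (b k)) * ((univ.filter (fun S : Finset (Fin N) => P (fl ι S b))).card : ℝ) 
        ≤ (∏ k, W k (b k)) * (2 ^ N * g b) := 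
          mul_le_mul_of_nonneg_left (h b) (Finset.prod_nonneg fun k _ => hW k _)
      _ = _ := by ring
  exact le_of_mul_le_mul_left h3 (by positivity)

/-- the number of active places -/
def na (Act : β → Prop) [DecidablePred Act] (b : Fin N → β) : ℕ := (univ.filter (fun k => Act (b k))).card

omit [DecidableEq β] in
theorem sum_pow (W : Fin N → β → ℝ) (Act : β → Prop) [DecidablePred Act] (x : ℝ) :
    ∑ b : Fin N → β, (∏ k, W k (b k)) * x ^ na Act b = 
      ∏ k, ∑ c, W k c * (if Act c then x else 1) := by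
  classical
  have h1 : ∀ b : Fin N → β, (∏ k, W k (b k)) * x ^ na Act b = 
      ∏ k, (W k (b k) * (if Act (b k) then x else 1)) := by
    intro b
    rw [Finset.prod_mul_distrib]
    congr 1
    rw [Finset.prod_ite, Finset.prod_const, Finset.prod_const_one, mul_one]
    rfl
  simp only [h1]
  have h2 := (Finset.prod_univ_sum (fun _ : Fin N => (univ : Finset β)) 
    (fun (k : Fin N) (c : β) => W k c * (if Act c then x else 1)))
  rw [Fintype.piFinset_univ] at h2
  exact h2.symm

omit [DecidableEq β] in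
theorem sum_inv (W : Fin N → β → ℝ) (hW : ∀ k c, 0 ≤ W k c) (hs : ∀ k, ∑ c, W k c = 1) 
    (Act : β → Prop) [DecidablePred Act] (p : ℝ) (hp : 0 < p) (hp1 : p ≤ 1)
    (hp' : ∀ k, p ≤ ∑ c, if Act c then W k c else 0) :
    ∑ b : Fin N → β, (∏ k, W k (b k)) * (1 / ((na Act b : ℝ) + 1)) ≤ 1 / (p * (N + 1)) := by
  classical
  have h1 : ∀ k : ℕ, (1 : ℝ) / ((k : ℝ) + 1) = ∫ x in (0:ℝ)..1, x ^ k := by
    intro k
    rw [integral_pow]
    simp
  have h2 : ∑ b : Fin N → β, (∏ k, W k (b k)) * (1 / ((na Act b : ℝ) + 1)) = 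
      ∫ x in (0:ℝ)..1, ∏ k : Fin N, ∑ c, W k c * (if Act c then x else 1) := by
    simp only [h1, ← sum_pow]
    rw [intervalIntegral.integral_finsetSum (fun b _ => (by fun_prop : Continuous fun x : ℝ => 
      (∏ k, W k (b k)) * x ^ (na Act b)).intervalIntegrable _ _)]
    refine Finset.sum_congr rfl fun b _ => ?_
    rw [intervalIntegral.integral_const_mul]
  rw [h2]
  have h3 : ∫ x in (0:ℝ)..1, ∏ k : Fin N, ∑ c, W k c * (if Act c then x else 1) ≤ 
      ∫ x in (0:ℝ)..1, (1 - p + p * x) ^ N := by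
    apply intervalIntegral.integral_mono_on (by norm_num)
    · apply Continuous.intervalIntegrable
      refine continuous_finset_prod _ fun k _ => continuous_finset_sum _ fun c _ => ?_
      by_cases hc : Act c
      · simp only [hc, if_true]; fun_prop
      · simp only [hc, if_false]; fun_prop
    · exact (by fun_prop : Continuous fun x : ℝ => (1 - p + p * x) ^ N).intervalIntegrable _ _
    · intro x hx
      have h4 : ∀ k : Fin N, ∑ c, W k c * (if Act c then x else 1) = 
          1 - (∑ c, if Act c then W k c else 0) * (1 - x) := by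
        intro k
        have h6 : ∑ c, W k c * (if Act c then x else 1) = 
            (∑ c, W k c) - (∑ c, if Act c then W k c else 0) * (1 - x) := by
          rw [Finset.sum_mul, ← Finset.sum_sub_distrib]
          refine Finset.sum_congr rfl fun c _ => ?_
          split_ifs <;> ring
        rw [h6, hs k]
      have h5 : (1 - p + p * x) ^ N = ∏ _k : Fin N, (1 - p + p * x) := by
        rw [Finset.prod_const, Finset.card_univ, Fintype.card_fin]
      rw [h5]
      refine Finset.prod_le_prod (fun k _ => Finset.sum_nonneg fun c _ => ?_) fun k _ => ?_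
      · apply mul_nonneg (hW _ _)
        split_ifs
        · exact hx.1
        · norm_num
      · rw [h4]
        have := mul_le_mul_of_nonneg_right (hp' k) (sub_nonneg.2 hx.2)
        linarith
  refine h3.trans ?_
  have h7 : ∫ x in (0:ℝ)..1, (1 - p + p * x) ^ N = 
      (1 - p + p * 1) ^ (N+1) / (p * (N + 1)) - (1 - p + p * 0) ^ (N+1) / (p * (N + 1)) := by
    apply intervalIntegral.integral_eq_sub_of_hasDerivAt
      (f := fun x => (1 - p + p * x) ^ (N+1) / (p * (N + 1)))
    · intro x _
      have h8 : HasDerivAt (fun x : ℝ => 1 - p + p * x) p x := by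
        simpa using ((hasDerivAt_id x).const_mul p).const_add (1 - p)
      have h9 := (h8.fun_pow (N+1)).div_const (p * ((N:ℝ) + 1))
      refine h9.congr_deriv ?_
      have h12 : ((N:ℝ) + 1) ≠ 0 := by positivity
      rw [Nat.add_sub_cancel]
      push_cast
      field_simp
    · exact (by fun_prop : Continuous fun x : ℝ => (1 - p + p * x) ^ N).intervalIntegrable _ _
  rw [h7]
  have h10 : (1 - p + p * 1) = 1 := by ring
  rw [h10, one_pow]
  have h11 : 0 ≤ (1 - p + p * 0) ^ (N+1) / (p * ((N:ℝ) + 1)) := by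
    apply div_nonneg _ (by positivity)
    apply pow_nonneg
    linarith
  linarith

omit [DecidableEq β] in
theorem sum_inv_sqrt (W : Fin N → β → ℝ) (hW : ∀ k c, 0 ≤ W k c) (hs : ∀ k, ∑ c, W k c = 1) 
    (Act : β → Prop) [DecidablePred Act] (p : ℝ) (hp : 0 < p) (hp1 : p ≤ 1)
    (hp' : ∀ k, p ≤ ∑ c, if Act c then W k c else 0) :
    ∑ b : Fin N → β, (∏ k, W k (b k)) * (1 / Real.sqrt ((na Act b : ℝ) + 1)) ≤ 
      Real.sqrt (1 / (p * (N + 1))) := by
  classical
  have h0 : ∑ b : Fin N → β, (∏ k, W k (b k)) = 1 := by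
    have h2 := (Finset.prod_univ_sum (fun _ : Fin N => (univ : Finset β)) (fun (k : Fin N) (c : β) => W k c))
    rw [Fintype.piFinset_univ] at h2
    rw [← h2]
    exact Finset.prod_eq_one fun k _ => hs k
  have h1 := Finset.sum_mul_sq_le_sq_mul_sq (univ : Finset (Fin N → β)) 
    (fun b => Real.sqrt (∏ k, W k (b k))) 
    (fun b => Real.sqrt (∏ k, W k (b k)) * (1 / Real.sqrt ((na Act b : ℝ) + 1)))
  have hnn : ∀ b : Fin N → β, 0 ≤ ∏ k, W k (b k) := fun b => Finset.prod_nonneg fun k _ => hW k _
  have e1 : ∀ b : Fin N → β, Real.sqrt (∏ k, W k (b k)) * 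
      (Real.sqrt (∏ k, W k (b k)) * (1 / Real.sqrt ((na Act b : ℝ) + 1))) = 
      (∏ k, W k (b k)) * (1 / Real.sqrt ((na Act b : ℝ) + 1)) := by
    intro b
    rw [← mul_assoc, Real.mul_self_sqrt (hnn b)]
  have e2 : ∀ b : Fin N → β, Real.sqrt (∏ k, W k (b k)) ^ 2 = ∏ k, W k (b k) := 
    fun b => Real.sq_sqrt (hnn b)
  have e3 : ∀ b : Fin N → β, (Real.sqrt (∏ k, W k (b k)) * (1 / Real.sqrt ((na Act b : ℝ) + 1))) ^ 2 = 
      (∏ k, W k (b k)) * (1 / ((na Act b : ℝ) + 1)) := by
    intro b
    rw [mul_pow, Real.sq_sqrt (hnn b), div_pow, one_pow, Real.sq_sqrt (by positivity)]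
  simp only [e1, e2, e3, h0, one_mul] at h1
  apply Real.le_sqrt_of_sq_le
  exact h1.trans (sum_inv W hW hs Act p hp hp1 hp')

end avg

end Pool.Agent.T6.H96.VB
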