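import Pool.Agent.T6.H96.VB.Swap
import Pool.Agent.T6.H96.VB.Prob

/-!
# Random words: disjoint blocks of four letters
-/

set_option autoImplicit false

namespace Pool.Agent.T6.H96.VB

open Finset LaurentPolynomial Pool.Agent.H891R2.Jones Pool.Agent.W639.RB Pool.Agent.H832R3.VJ

variable {m : ℕ}

/-- the four letters are `σ_i^s, σ_j^t, σ_j^t, σ_i^{-s}` with `|i - j| = 1` -/
def Act (c : Fin 4 → Letter m) : Prop :=
  c 1 = c 2 ∧ c 3 = (!(c 0).1, (c 0).2) ∧
    (((c 0).2 : ℕ) + 1 = ((c 1).2 : ℕ) ∨ ((c 1).2 : ℕ) + 1 = ((c 0).2 : ℕ))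

instance : DecidablePred (Act (m := m)) := fun c => by unfold Act; infer_instance

/-- the difference caused by the exchange of the letters at the places `t` and `t + 3` -/
noncomputable def EE {n : ℕ} (O : Outer m) (w : Fin n → Letter m) (t : ℕ) (i j : ℕ) (s : Bool) : ℤ :=
  (if s then 32 else -32) * (m0 O ((toL w).take t ++ [] ++ (toL w).drop (t + 4)) *
    (m0 O ((toL w).take t ++ [(true, j), (true, i)] ++ (toL w).drop (t + 4)) -
      m0 O ((toL w).take t ++ [(true, i), (true, j)] ++ (toL w).drop (t + 4))))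

theorem toL_len {n : ℕ} (w : Fin n → Letter m) : (toL w).length = n := by simp [toL]

theorem toL_get {n : ℕ} (w : Fin n → Letter m) (s : ℕ) (hs : s < (toL w).length) :
    (toL w)[s] = ((w ⟨s, by rw [toL_len] at hs; exact hs⟩).1,
      ((w ⟨s, by rw [toL_len] at hs; exact hs⟩).2 : ℕ)) := by
  unfold toL
  rw [List.getElem_ofFn]

/-- a letter with the number as a natural number -/
def nl (x : Letter m) : Bool × ℕ := (x.1, (x.2 : ℕ))

theorem toL_split {n : ℕ} (w : Fin n → Letter m) (t : ℕ) (ht : t + 3 < n) :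
    toL w = (toL w).take t ++ [nl (w ⟨t, by omega⟩), nl (w ⟨t + 1, by omega⟩),
      nl (w ⟨t + 2, by omega⟩), nl (w ⟨t + 3, ht⟩)] ++ (toL w).drop (t + 4) := by
  have hl := toL_len w
  have h1 : (toL w).drop t = nl (w ⟨t, by omega⟩) :: nl (w ⟨t + 1, by omega⟩) ::
      nl (w ⟨t + 2, by omega⟩) :: nl (w ⟨t + 3, ht⟩) :: (toL w).drop (t + 4) := by
    rw [List.drop_eq_getElem_cons (by omega : t < (toL w).length), toL_get,
      List.drop_eq_getElem_cons (by omega : t + 1 < (toL w).length), toL_get,
      List.drop_eq_getElem_cons (by omega : t + 1 + 1 < (toL w).length), toL_get,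
      List.drop_eq_getElem_cons (by omega : t + 1 + 1 + 1 < (toL w).length), toL_get]
    rfl
  conv_lhs => rw [← List.take_append_drop t (toL w), h1]
  simp

theorem valid_toL {n : ℕ} (w : Fin n → Letter m) : Valid m (toL w) := toL_mem w

theorem valid_take {w : List (Bool × ℕ)} (h : Valid m w) (t : ℕ) : Valid m (w.take t) :=
  fun x hx => h x (List.mem_of_mem_take hx)

theorem valid_drop {w : List (Bool × ℕ)} (h : Valid m w) (t : ℕ) : Valid m (w.drop t) :=
  fun x hx => h x (List.mem_of_mem_drop hx)

theorem word_swap (hm : 0 < m) {n : ℕ} (O : Outer m) (w w' : Fin n → Letter m) (t : ℕ) (ht : t + 3 < n)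
    (hact : Act (fun l : Fin 4 => w ⟨t + l, by omega⟩)) (h0 : w' ⟨t, by omega⟩ = w ⟨t + 3, ht⟩)
    (h3 : w' ⟨t + 3, ht⟩ = w ⟨t, by omega⟩)
    (hother : ∀ s : Fin n, (s : ℕ) ≠ t → (s : ℕ) ≠ t + 3 → w' s = w s) :
    (K O (toL w') ↔ K O (toL w)) ∧ (K O (toL w) →
      F O (toL w') = F O (toL w) + (if (w ⟨t, by omega⟩).1 then -1 else 1) *
        EE O w t (w ⟨t, by omega⟩).2 (w ⟨t + 1, by omega⟩).2 (w ⟨t + 1, by omega⟩).1 ∧
      |EE O w t (w ⟨t, by omega⟩).2 (w ⟨t + 1, by omega⟩).2 (w ⟨t + 1, by omega⟩).1| = 96) := by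
  obtain ⟨a1, a2, a3⟩ := hact
  change w ⟨t + 1, _⟩ = w ⟨t + 2, _⟩ at a1
  change w ⟨t + 3, _⟩ = (!(w ⟨t, _⟩).1, (w ⟨t, _⟩).2) at a2
  change ((w ⟨t, _⟩).2 : ℕ) + 1 = ((w ⟨t + 1, _⟩).2 : ℕ) ∨
    ((w ⟨t + 1, _⟩).2 : ℕ) + 1 = ((w ⟨t, _⟩).2 : ℕ) at a3
  have hw := toL_split w t ht
  have hw' := toL_split w' t ht
  have e1 : (toL w').take t = (toL w).take t := by
    apply List.ext_getElem
    · simp [toL_len]
    · intro s h1 h2
      rw [List.getElem_take, List.getElem_take, toL_get, toL_get]
      rw [List.length_take, toL_len] at h1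
      rw [hother ⟨s, by omega⟩ (by simp only; omega) (by simp only; omega)]
  have e2 : (toL w').drop (t + 4) = (toL w).drop (t + 4) := by
    apply List.ext_getElem
    · simp [toL_len]
    · intro s h1 h2
      rw [List.getElem_drop, List.getElem_drop, toL_get, toL_get]
      rw [List.length_drop, toL_len] at h1
      rw [hother ⟨t + 4 + s, by omega⟩ (by simp only; omega) (by simp only; omega)]
  have w1 : w' ⟨t + 1, by omega⟩ = w ⟨t + 1, by omega⟩ := hother _ (by simp only; omega) (by simp only; omega)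
  have w2 : w' ⟨t + 2, by omega⟩ = w ⟨t + 2, by omega⟩ := hother _ (by simp only; omega) (by simp only; omega)
  rw [e1, e2, w1, w2, h0, h3, ← a1, a2] at hw'
  rw [← a1, a2] at hw
  have v1 := valid_take (valid_toL w) t
  have v2 := valid_drop (valid_toL w) (t + 4)
  have hEE : ∀ (i j : ℕ) (s : Bool), EE O w t i j s = (if s then 32 else -32) *
    (m0 O ((toL w).take t ++ [] ++ (toL w).drop (t + 4)) *
    (m0 O ((toL w).take t ++ [(true, j), (true, i)] ++ (toL w).drop (t + 4)) -
      m0 O ((toL w).take t ++ [(true, i), (true, j)] ++ (toL w).drop (t + 4)))) := fun _ _ _ => rfl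
  generalize hA : (toL w).take t = A at *
  generalize hB : (toL w).drop (t + 4) = B at *
  generalize hx : w ⟨t, by omega⟩ = x at *
  generalize hy : w ⟨t + 1, by omega⟩ = y at *
  obtain ⟨s, i⟩ := x
  obtain ⟨u, j⟩ := y
  simp only at a3 hw hw' ⊢
  have hi : (i : ℕ) + 1 < m := by omega
  have hj : (j : ℕ) + 1 < m := by omega
  obtain ⟨k1, k2, k3⟩ := exchange hm O A B v1 v2 hi hj a3 u
  rw [hEE]
  cases s
  · -- w has false first
    simp only [nl, Bool.not_false] at hw hw'
    rw [hw, hw']
    refine ⟨k1.trans k2.symm, fun h => ?_⟩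
    obtain ⟨g1, g2⟩ := k3 (k2.1 h)
    refine ⟨?_, ?_⟩
    · simp only [Bool.false_eq_true, if_false]
      linarith
    · rw [abs_mul, g2]
      cases u <;> norm_num
  · simp only [nl, Bool.not_true] at hw hw'
    rw [hw, hw']
    refine ⟨k2.trans k1.symm, fun h => ?_⟩
    obtain ⟨g1, g2⟩ := k3 (k1.1 h)
    refine ⟨?_, ?_⟩
    · simp only [if_true]
      linarith
    · rw [abs_mul, g2]
      cases u <;> norm_num

/-- `EE` depends only on the numbers of the letters -/
theorem EE_congr (hm : 0 < m) {n : ℕ} (O : Outer m) (w w' : Fin n → Letter m) (t : ℕ) (i j : ℕ) (s : Bool)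
    (hi : i + 1 < m) (hj : j + 1 < m) (h : ∀ x, (w' x).2 = (w x).2) : EE O w' t i j s = EE O w t i j s := by
  have h1 : (toL w').map Prod.snd = (toL w).map Prod.snd := by
    unfold toL
    rw [List.map_ofFn, List.map_ofFn]
    congr 1
    funext x
    simp only [Function.comp_apply, h x]
  have key : ∀ l : List (Bool × ℕ), Valid m l →
      m0 O ((toL w').take t ++ l ++ (toL w').drop (t + 4)) =
        m0 O ((toL w).take t ++ l ++ (toL w).drop (t + 4)) := by
    intro l hl
    have h2 := m0_idx hm O ((toL w').take t ++ l ++ (toL w').drop (t + 4))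
      ((toL w).take t ++ l ++ (toL w).drop (t + 4)) []
      (((valid_take (valid_toL w') t).app hl).app (valid_drop (valid_toL w') _))
      (((valid_take (valid_toL w) t).app hl).app (valid_drop (valid_toL w) _)) Valid.nil (by
        simp only [List.map_append, List.map_take, List.map_drop, h1])
    exact h2
  unfold EE
  rw [key _ Valid.nil, key _ (Valid.cons hj (Valid.cons hi Valid.nil)),
    key _ (Valid.cons hi (Valid.cons hj Valid.nil))]

/-- the exchange of the outer letters of an active block -/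
def io (c : Fin 4 → Letter m) : Fin 4 → Letter m := if Act c then ![c 3, c 1, c 2, c 0] else c

theorem act_sw {c : Fin 4 → Letter m} (h : Act c) : Act ![c 3, c 1, c 2, c 0] := by
  obtain ⟨h1, h2, h3⟩ := h
  refine ⟨h1, ?_, ?_⟩
  · show c 0 = (!(c 3).1, (c 3).2)
    rw [h2]
    simp
  · show ((c 3).2 : ℕ) + 1 = ((c 1).2 : ℕ) ∨ ((c 1).2 : ℕ) + 1 = ((c 3).2 : ℕ)
    rw [h2]
    exact h3

theorem io_inv : Function.Involutive (io (m := m)) := by
  intro c
  unfold io
  by_cases h : Act c
  · rw [if_pos h, if_pos (act_sw h)]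
    funext l
    fin_cases l <;> rfl
  · rw [if_neg h, if_neg h]

theorem io_snd (c : Fin 4 → Letter m) (l : Fin 4) : (io c l).2 = (c l).2 := by
  unfold io
  by_cases h : Act c
  · rw [if_pos h]
    obtain ⟨h1, h2, h3⟩ := h
    fin_cases l
    · show (c 3).2 = (c 0).2
      rw [h2]
    · rfl
    · rfl
    · show (c 0).2 = (c 3).2
      rw [h2]
  · rw [if_neg h]

section places

variable {n N : ℕ} (t : Fin N → ℕ) (ht : ∀ k, t k + 3 < n)
  (hd : ∀ k l, k ≠ l → t k + 3 < t l ∨ t l + 3 < t k)

/-- the places of the blocks -/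
def pl (x : Fin N × Fin 4) : Fin n := ⟨t x.1 + x.2, by have := ht x.1; omega⟩

include hd in
theorem pl_inj : Function.Injective (pl t ht) := by
  rintro ⟨k, l⟩ ⟨k', l'⟩ h
  unfold pl at h
  simp only [Fin.mk.injEq] at h
  by_cases hk : k = k'
  · subst hk
    congr 1
    ext
    omega
  · rcases hd k k' hk with h1 | h1
    · have := l.2
      have := l'.2
      omega
    · have := l.2
      have := l'.2
      omega

/-- the word with the blocks `b` and the other letters `r` -/
noncomputable def wd {L : Type} (b : Fin N → Fin 4 → L) (r : {s : Fin n // s ∉ Set.range (pl t ht)} → L) :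
    Fin n → L := by
  classical
  exact fun s => if h : s ∈ Set.range (pl t ht) then b h.choose.1 h.choose.2 else r ⟨s, h⟩

include hd in
theorem wd_pl {L : Type} (b : Fin N → Fin 4 → L) (r : {s : Fin n // s ∉ Set.range (pl t ht)} → L)
    (k : Fin N) (l : Fin 4) : wd t ht b r (pl t ht (k, l)) = b k l := by
  classical
  have h : pl t ht (k, l) ∈ Set.range (pl t ht) := ⟨_, rfl⟩
  unfold wd
  rw [dif_pos h]
  have h1 : h.choose = (k, l) := pl_inj t ht hd h.choose_spec
  rw [h1]

theorem wd_r {L : Type} (b : Fin N → Fin 4 → L) (r : {s : Fin n // s ∉ Set.range (pl t ht)} → L)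
    (s : Fin n) (hs : s ∉ Set.range (pl t ht)) : wd t ht b r s = r ⟨s, hs⟩ := by
  classical
  unfold wd
  rw [dif_neg hs]

include hd in
theorem prod_wd {L : Type} (q : Fin n → L → ℝ) (b : Fin N → Fin 4 → L)
    (r : {s : Fin n // s ∉ Set.range (pl t ht)} → L) [Fintype {s : Fin n // s ∉ Set.range (pl t ht)}] :
    ∏ s, q s (wd t ht b r s) = (∏ k, ∏ l, q (pl t ht (k, l)) (b k l)) * ∏ x, q x.1 (r x) := by
  classical
  have h1 : ∏ s, q s (wd t ht b r s) = (∏ s ∈ univ.filter (fun s => s ∈ Set.range (pl t ht)),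
      q s (wd t ht b r s)) * ∏ s ∈ univ.filter (fun s => ¬ s ∈ Set.range (pl t ht)),
      q s (wd t ht b r s) := (Finset.prod_filter_mul_prod_filter_not _ _ _).symm
  rw [h1]
  congr 1
  · rw [← Fintype.prod_prod_type']
    have h2 : univ.filter (fun s => s ∈ Set.range (pl t ht)) = univ.image (pl t ht) := by
      ext s
      simp
    rw [h2, Finset.prod_image fun x _ y _ h => pl_inj t ht hd h]
    refine Finset.prod_congr rfl fun x _ => ?_
    rw [show x = (x.1, x.2) from rfl, wd_pl t ht hd]
  · rw [Finset.prod_subtype (univ.filter (fun s => ¬ s ∈ Set.range (pl t ht)))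
      (p := fun s => s ∉ Set.range (pl t ht)) (fun s => by simp) (fun s => q s (wd t ht b r s))]
    refine Fintype.prod_congr _ _ fun x => ?_
    rw [wd_r t ht b r x.1 x.2]

include hd in
theorem wd_bij {L : Type} : Function.Bijective
    (fun z : (Fin N → Fin 4 → L) × ({s : Fin n // s ∉ Set.range (pl t ht)} → L) => wd t ht z.1 z.2) := by
  constructor
  · rintro ⟨b, r⟩ ⟨b', r'⟩ h
    simp only at h
    have h1 : b = b' := by
      funext k l
      rw [← wd_pl t ht hd b r k l, ← wd_pl t ht hd b' r' k l, h]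
    have h2 : r = r' := by
      funext x
      rw [← wd_r t ht b r x.1 x.2, ← wd_r t ht b' r' x.1 x.2, h]
    rw [h1, h2]
  · intro w
    refine ⟨(fun k l => w (pl t ht (k, l)), fun x => w x.1), ?_⟩
    funext s
    by_cases hs : s ∈ Set.range (pl t ht)
    · obtain ⟨⟨k, l⟩, rfl⟩ := hs
      exact wd_pl t ht hd _ _ k l
    · exact wd_r t ht _ _ s hs

/-- the blocks change the invariant by `± 96` each -/
theorem count_b (hd : ∀ k l, k ≠ l → t k + 3 < t l ∨ t l + 3 < t k) (hm : 0 < m) (O : Outer m)
    (b : Fin N → Fin 4 → Letter m)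
    (r : {s : Fin n // s ∉ Set.range (pl t ht)} → Letter m) (T : ℤ) [DecidablePred fun S : Finset (Fin N) =>
      K O (toL (wd t ht (fl io S b) r)) ∧ F O (toL (wd t ht (fl io S b) r)) = T] :
    ((univ.filter (fun S : Finset (Fin N) => K O (toL (wd t ht (fl io S b) r)) ∧
      F O (toL (wd t ht (fl io S b) r)) = T)).card : ℝ) ≤ 2 ^ N * (1 / Real.sqrt ((na Act b : ℝ) + 1)) := by
  classical
  set A : Finset (Fin N) := univ.filter (fun k => Act (b k)) with hA
  set w : Finset (Fin N) → Fin n → Letter m := fun S => wd t ht (fl io S b) r with hw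
  set d : Fin N → ℤ := fun k => (if (b k 0).1 then -1 else 1) *
    EE O (w ∅) (t k) (b k 0).2 (b k 1).2 (b k 1).1 with hdd
  have hidx : ∀ S x, (w S x).2 = (w ∅ x).2 := by
    intro S x
    simp only [hw]
    by_cases hx : x ∈ Set.range (pl t ht)
    · obtain ⟨⟨k, l⟩, rfl⟩ := hx
      rw [wd_pl t ht hd, wd_pl t ht hd]
      unfold fl
      by_cases hk : k ∈ S
      · rw [if_pos hk, if_neg (by simp), io_snd]
      · rw [if_neg hk, if_neg (by simp)]
    · rw [wd_r t ht _ _ x hx, wd_r t ht _ _ x hx]
  have main : ∀ S : Finset (Fin N), (K O (toL (w S)) ↔ K O (toL (w ∅))) ∧ (K O (toL (w ∅)) →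
      F O (toL (w S)) = F O (toL (w ∅)) + ∑ k ∈ S ∩ A, d k ∧ ∀ k ∈ S ∩ A, d k = 96 ∨ d k = -96) := by
    intro S
    induction S using Finset.induction_on with
    | empty => exact ⟨Iff.rfl, fun _ => ⟨by simp, by simp⟩⟩
    | insert k S hk ih =>
      obtain ⟨i1, i2⟩ := ih
      by_cases hkA : Act (b k)
      · have hkA' : k ∈ A := by rw [hA, Finset.mem_filter]; exact ⟨Finset.mem_univ _, hkA⟩
        have hp : ∀ (S : Finset (Fin N)) (l : Fin 4), w S ⟨t k + l, by have := ht k; omega⟩ = fl io S b k l :=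
          fun S l => wd_pl t ht hd _ _ k l
        have hkS : ∀ l, fl io S b k l = b k l := by
          intro l; unfold fl; rw [if_neg hk]
        have hkS' : ∀ l, fl io (insert k S) b k l = (![b k 3, b k 1, b k 2, b k 0] : Fin 4 → Letter m) l := by
          intro l
          unfold fl
          rw [if_pos (Finset.mem_insert_self _ _)]
          unfold io
          rw [if_pos hkA]
        have ha : Act (fun l : Fin 4 => w S ⟨t k + l, by have := ht k; omega⟩) := by
          have : (fun l : Fin 4 => w S ⟨t k + l, by have := ht k; omega⟩) = b k := by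
            funext l
            rw [hp, hkS]
          rw [this]
          exact hkA
        have q0 := (hp S 0).trans (hkS 0)
        have q1 := (hp S 1).trans (hkS 1)
        have q3 := (hp S 3).trans (hkS 3)
        have q0' := (hp (insert k S) 0).trans (hkS' 0)
        have q3' := (hp (insert k S) 3).trans (hkS' 3)
        have hz := word_swap hm O (w S) (w (insert k S)) (t k) (ht k) ha
          (q0'.trans q3.symm) (q3'.trans q0.symm) (by
            intro x hx1 hx2
            simp only [hw]
            by_cases hx : x ∈ Set.range (pl t ht)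
            · obtain ⟨⟨k', l⟩, rfl⟩ := hx
              rw [wd_pl t ht hd, wd_pl t ht hd]
              by_cases hkk : k' = k
              · subst hkk
                rw [hkS' l, hkS l]
                fin_cases l
                · exact absurd rfl hx1
                · rfl
                · rfl
                · exact absurd rfl hx2
              · unfold fl
                by_cases hk' : k' ∈ S
                · rw [if_pos hk', if_pos (Finset.mem_insert_of_mem hk')]
                · rw [if_neg hk', if_neg (by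
                    rw [Finset.mem_insert]
                    tauto)]
            · rw [wd_r t ht _ _ x hx, wd_r t ht _ _ x hx])
        obtain ⟨z1, z2⟩ := hz
        refine ⟨z1.trans i1, fun h => ?_⟩
        obtain ⟨j1, j2⟩ := i2 h
        obtain ⟨z3, z4⟩ := z2 (i1.2 h)
        change F O (toL (w (insert k S))) = F O (toL (w S)) + (if (w S ⟨t k + ((0 : Fin 4) : ℕ), _⟩).1 then -1 else 1) *
          EE O (w S) (t k) (w S ⟨t k + ((0 : Fin 4) : ℕ), _⟩).2 (w S ⟨t k + ((1 : Fin 4) : ℕ), _⟩).2
            (w S ⟨t k + ((1 : Fin 4) : ℕ), _⟩).1 at z3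
        change |EE O (w S) (t k) (w S ⟨t k + ((0 : Fin 4) : ℕ), _⟩).2 (w S ⟨t k + ((1 : Fin 4) : ℕ), _⟩).2
            (w S ⟨t k + ((1 : Fin 4) : ℕ), _⟩).1| = 96 at z4
        rw [q0, q1, EE_congr hm O (w ∅) (w S) (t k) _ _ _ (by have := (b k 0).2.2; omega)
          (by have := (b k 1).2.2; omega) (hidx S)] at z3 z4
        have hins : insert k S ∩ A = insert k (S ∩ A) := by
          rw [Finset.insert_inter_of_mem hkA']
        have hknot : k ∉ S ∩ A := fun h => hk (Finset.mem_inter.1 h).1
        have hdk : d k = 96 ∨ d k = -96 := by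
          rw [abs_eq (by norm_num)] at z4
          simp only [hdd]
          rcases z4 with z4 | z4 <;> rw [z4] <;> split_ifs <;> norm_num
        refine ⟨?_, ?_⟩
        · rw [hins, Finset.sum_insert hknot, z3, j1]
          simp only [hdd]
          ring
        · intro k' hk'
          rw [hins, Finset.mem_insert] at hk'
          rcases hk' with rfl | hk'
          · exact hdk
          · exact j2 k' hk'
      · have hkA' : k ∉ A := by rw [hA, Finset.mem_filter]; tauto
        have hww : w (insert k S) = w S := by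
          simp only [hw]
          congr 1
          funext k'
          unfold fl
          by_cases hkk : k' = k
          · subst hkk
            rw [if_pos (Finset.mem_insert_self _ _), if_neg hk]
            unfold io
            rw [if_neg hkA]
          · by_cases hk' : k' ∈ S
            · rw [if_pos hk', if_pos (Finset.mem_insert_of_mem hk')]
            · rw [if_neg hk', if_neg (by
                rw [Finset.mem_insert]
                tauto)]
        rw [hww, Finset.insert_inter_of_notMem hkA']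
        exact ⟨i1, i2⟩
  by_cases hK : K O (toL (w ∅))
  · have h1 := count_level A d 96 (by norm_num) (fun k hk => by
      have := ((main A).2 hK).2 k (by rw [Finset.inter_self]; exact hk)
      exact this) (F O (toL (w ∅))) T
    have h2 : (univ.filter (fun S : Finset (Fin N) => K O (toL (wd t ht (fl io S b) r)) ∧
        F O (toL (wd t ht (fl io S b) r)) = T)).card ≤
        (univ.filter (fun S : Finset (Fin N) => F O (toL (w ∅)) + ∑ k ∈ S ∩ A, d k = T)).card := by
      apply Finset.card_le_card
      intro S hS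
      rw [Finset.mem_filter] at hS ⊢
      refine ⟨Finset.mem_univ _, ?_⟩
      rw [← ((main S).2 hK).1]
      exact hS.2.2
    have h3 : (2 : ℝ) ^ N * (1 / Real.sqrt ((na Act b : ℝ) + 1)) =
        2 ^ N / Real.sqrt ((A.card : ℝ) + 1) := by
      rw [mul_one_div]
      rfl
    rw [h3]
    refine le_trans ?_ h1
    exact_mod_cast h2
  · have h2 : (univ.filter (fun S : Finset (Fin N) => K O (toL (wd t ht (fl io S b) r)) ∧
        F O (toL (wd t ht (fl io S b) r)) = T)) = ∅ := by
      apply Finset.filter_eq_empty_iff.2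
      intro S _ h
      exact hK ((main S).1.1 h.1)
    rw [h2, Finset.card_empty, Nat.cast_zero]
    positivity

open Classical in
/-- the main estimate for independent letters -/
theorem core (hd : ∀ k l, k ≠ l → t k + 3 < t l ∨ t l + 3 < t k) (hm : 0 < m) (O : Outer m)
    (q : Fin n → Letter m → ℝ) (hq : ∀ s x, 0 ≤ q s x) (hs : ∀ s, ∑ x, q s x = 1)
    (hsym : ∀ k x, q (pl t ht (k, 0)) x = q (pl t ht (k, 3)) x) (p : ℝ) (hp : 0 < p) (hp1 : p ≤ 1)
    (hp' : ∀ k, p ≤ ∑ c : Fin 4 → Letter m, if Act c then ∏ l, q (pl t ht (k, l)) (c l) else 0) (T : ℤ) :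
    ∑ w : Fin n → Letter m, (if K O (toL w) ∧ F O (toL w) = T then ∏ s, q s (w s) else 0) ≤
      Real.sqrt (1 / (p * (N + 1))) := by
  set W : Fin N → (Fin 4 → Letter m) → ℝ := fun k c => ∏ l, q (pl t ht (k, l)) (c l) with hW
  have hW0 : ∀ k c, 0 ≤ W k c := fun k c => Finset.prod_nonneg fun l _ => hq _ _
  have hW1 : ∀ k, ∑ c, W k c = 1 := by
    intro k
    have h2 := (Finset.prod_univ_sum (fun _ : Fin 4 => (univ : Finset (Letter m)))
      (fun (l : Fin 4) (x : Letter m) => q (pl t ht (k, l)) x))
    rw [Fintype.piFinset_univ] at h2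
    simp only [hW]
    rw [← h2]
    exact Finset.prod_eq_one fun l _ => hs _
  have hWι : ∀ k c, W k (io c) = W k c := by
    intro k c
    simp only [hW]
    rw [Fin.prod_univ_four, Fin.prod_univ_four]
    unfold io
    by_cases h : Act c
    · rw [if_pos h]
      show q (pl t ht (k, 0)) (c 3) * q (pl t ht (k, 1)) (c 1) * q (pl t ht (k, 2)) (c 2) *
        q (pl t ht (k, 3)) (c 0) = _
      rw [hsym k (c 3), ← hsym k (c 0)]
      ring
    · rw [if_neg h]
  have h1 : ∑ w : Fin n → Letter m, (if K O (toL w) ∧ F O (toL w) = T then ∏ s, q s (w s) else 0) =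
      ∑ r : {s : Fin n // s ∉ Set.range (pl t ht)} → Letter m, (∏ x, q x.1 (r x)) *
        ∑ b : Fin N → Fin 4 → Letter m, (if K O (toL (wd t ht b r)) ∧ F O (toL (wd t ht b r)) = T then
          ∏ k, W k (b k) else 0) := by
    rw [← (Fintype.sum_bijective _ (wd_bij t ht hd (L := Letter m)) _ _ (fun z => rfl)),
      Fintype.sum_prod_type, Finset.sum_comm]
    refine Finset.sum_congr rfl fun r _ => ?_
    rw [Finset.mul_sum]
    refine Finset.sum_congr rfl fun b _ => ?_
    simp only
    rw [prod_wd t ht hd q b r]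
    split_ifs
    · ring
    · ring
  rw [h1]
  have h2 : ∀ r : {s : Fin n // s ∉ Set.range (pl t ht)} → Letter m,
      ∑ b : Fin N → Fin 4 → Letter m, (if K O (toL (wd t ht b r)) ∧ F O (toL (wd t ht b r)) = T then
          ∏ k, W k (b k) else 0) ≤ Real.sqrt (1 / (p * (N + 1))) := by
    intro r
    refine (avg W hW0 io io_inv hWι _ (fun b => 1 / Real.sqrt ((na Act b : ℝ) + 1)) fun b => ?_).trans
      (sum_inv_sqrt W hW0 hW1 Act p hp hp1 hp')
    exact count_b t ht hd hm O b r T
  calc ∑ r : {s : Fin n // s ∉ Set.range (pl t ht)} → Letter m, (∏ x, q x.1 (r x)) *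
        ∑ b : Fin N → Fin 4 → Letter m, (if K O (toL (wd t ht b r)) ∧ F O (toL (wd t ht b r)) = T then
          ∏ k, W k (b k) else 0)
      ≤ ∑ r : {s : Fin n // s ∉ Set.range (pl t ht)} → Letter m, (∏ x, q x.1 (r x)) *
        Real.sqrt (1 / (p * (N + 1))) := by
        refine Finset.sum_le_sum fun r _ => ?_
        exact mul_le_mul_of_nonneg_left (h2 r) (Finset.prod_nonneg fun x _ => hq _ _)
    _ = Real.sqrt (1 / (p * (N + 1))) := by
        rw [← Finset.sum_mul]
        have h3 := (Finset.prod_univ_sum (fun _ : {s : Fin n // s ∉ Set.range (pl t ht)} =>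
          (univ : Finset (Letter m))) (fun x (y : Letter m) => q x.1 y))
        rw [Fintype.piFinset_univ] at h3
        rw [← h3, Finset.prod_eq_one fun x _ => hs _, one_mul]

end places

end Pool.Agent.T6.H96.VB
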