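import Mathlib

/-!
# Blocks whose possible contents depend on the product of the blocks before them
-/

set_option autoImplicit false

namespace Pool.Agent.T6.H96.VB

open Finset

section chain

variable {G β Z : Type*} [Group G] {N : ℕ}

/-- the state before the block number `k` -/
def gs (pb : β → G) (g0 : G) (b : Fin N → β) : ℕ → G
  | 0 => g0
  | (k + 1) => gs pb g0 b k * (if h : k < N then pb (b ⟨k, h⟩) else 1)

theorem gs_cons (pb : β → G) (g0 : G) (c : β) (b : Fin N → β) (k : ℕ) :
    gs pb g0 (Fin.cons c b : Fin (N + 1) → β) (k + 1) = gs pb (g0 * pb c) b k := by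
  induction k with
  | zero =>
    rw [gs, gs, gs, dif_pos (Nat.succ_pos N)]
    rfl
  | succ k ih =>
    rw [gs, ih, gs]
    congr 1
    by_cases h : k < N
    · rw [dif_pos h, dif_pos (Nat.succ_lt_succ h)]
      rfl
    · rw [dif_neg h, dif_neg (by omega)]

/-- the block number `k` is active -/
def isA (pb : β → G) (act : G → Z → β) (g0 : G) (b : Fin N → β) (k : Fin N) : Prop :=
  ∃ z, b k = act (gs pb g0 b k) z

open Classical in
/-- the active blocks in `S` are replaced -/
noncomputable def Rr (pb : β → G) (act : G → Z → β) (g0 : G) (S : Finset (Fin N)) (b : Fin N → β)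
    (z : Fin N → Z) : Fin N → β :=
  fun k => if k ∈ S ∧ isA pb act g0 b k then act (gs pb g0 b k) (z k) else b k

open Classical in
/-- the bits of the active blocks in `S` -/
noncomputable def bt (pb : β → G) (act : G → Z → β) (g0 : G) (S : Finset (Fin N)) (b : Fin N → β) (k : Fin N)
    (d : Z) : Z := if h : k ∈ S ∧ isA pb act g0 b k then h.2.choose else d

variable (pb : β → G) (act : G → Z → β) (g0 : G)

theorem bt_spec (S : Finset (Fin N)) (b : Fin N → β) (k : Fin N) (d : Z) (h : k ∈ S ∧ isA pb act g0 b k) :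
    b k = act (gs pb g0 b k) (bt pb act g0 S b k d) := by
  rw [bt, dif_pos h]
  exact h.2.choose_spec

section

variable (h1 : ∀ g z, pb (act g z) = 1)

include h1

theorem gs_R (S : Finset (Fin N)) (b : Fin N → β) (z : Fin N → Z) (k : ℕ) :
    gs pb g0 (Rr pb act g0 S b z) k = gs pb g0 b k := by
  induction k with
  | zero => rfl
  | succ k ih =>
    rw [gs, gs, ih]
    congr 1
    by_cases h : k < N
    · rw [dif_pos h, dif_pos h]
      unfold Rr
      by_cases h2 : (⟨k, h⟩ : Fin N) ∈ S ∧ isA pb act g0 b ⟨k, h⟩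
      · rw [if_pos h2, h1]
        obtain ⟨_, z', hz'⟩ := h2
        rw [hz', h1]
      · rw [if_neg h2]
    · rw [dif_neg h, dif_neg h]

theorem isA_R (S : Finset (Fin N)) (b : Fin N → β) (z : Fin N → Z) (k : Fin N) :
    isA pb act g0 (Rr pb act g0 S b z) k ↔ isA pb act g0 b k := by
  by_cases h2 : k ∈ S ∧ isA pb act g0 b k
  · refine ⟨fun _ => h2.2, fun _ => ⟨z k, ?_⟩⟩
    rw [gs_R pb act g0 h1]
    unfold Rr
    rw [if_pos h2]
  · unfold isA
    rw [gs_R pb act g0 h1]
    have : Rr pb act g0 S b z k = b k := by rw [Rr, if_neg h2]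
    rw [this]

variable (h2 : ∀ g, Function.Injective (act g))

include h2

/-- the exchange of the bits -/
theorem psi_inv (S : Finset (Fin N)) : Function.Involutive (fun x : (Fin N → β) × (Fin N → Z) =>
    ((Rr pb act g0 S x.1 x.2, fun k => bt pb act g0 S x.1 k (x.2 k)) : (Fin N → β) × (Fin N → Z))) := by
  rintro ⟨b, z⟩
  simp only [Prod.mk.injEq]
  constructor
  · funext k
    by_cases h3 : k ∈ S ∧ isA pb act g0 b k
    · have h4 : k ∈ S ∧ isA pb act g0 (Rr pb act g0 S b z) k := ⟨h3.1, (isA_R pb act g0 h1 S b z k).2 h3.2⟩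
      rw [Rr, if_pos h4, gs_R pb act g0 h1]
      exact (bt_spec pb act g0 S b k _ h3).symm
    · have h4 : ¬ (k ∈ S ∧ isA pb act g0 (Rr pb act g0 S b z) k) := 
        fun h => h3 ⟨h.1, (isA_R pb act g0 h1 S b z k).1 h.2⟩
      rw [Rr, if_neg h4, Rr, if_neg h3]
  · funext k
    by_cases h3 : k ∈ S ∧ isA pb act g0 b k
    · have h4 : k ∈ S ∧ isA pb act g0 (Rr pb act g0 S b z) k := ⟨h3.1, (isA_R pb act g0 h1 S b z k).2 h3.2⟩
      have h5 := bt_spec pb act g0 S (Rr pb act g0 S b z) k (bt pb act g0 S b k (z k)) h4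
      rw [gs_R pb act g0 h1] at h5
      have h6 : Rr pb act g0 S b z k = act (gs pb g0 b k) (z k) := by
        rw [Rr, if_pos h3]
      exact (h2 _ (h6.symm.trans h5)).symm
    · have h4 : ¬ (k ∈ S ∧ isA pb act g0 (Rr pb act g0 S b z) k) := 
        fun h => h3 ⟨h.1, (isA_R pb act g0 h1 S b z k).1 h.2⟩
      rw [bt, dif_neg h4, bt, dif_neg h3]

variable [Fintype β] [Fintype Z] 

open Classical in
/-- the part of the weight of `b` belonging to `S` -/
noncomputable def WS (V : Fin N → β → ℝ) (e : ℝ) (S : Finset (Fin N)) (b : Fin N → β) : ℝ :=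
  ∏ k, (if k ∈ S then (if isA pb act g0 b k then e else 0) else V k (b k) - (if isA pb act g0 b k then e else 0))

open Classical in
theorem avg2 (V : Fin N → β → ℝ) (e : ℝ) (S : Finset (Fin N)) (P : (Fin N → β) → Prop) :
    (Fintype.card Z : ℝ) ^ N * ∑ b : Fin N → β, (if P b then WS pb act g0 V e S b else 0) =
      ∑ b : Fin N → β, WS pb act g0 V e S b *
        ((univ.filter (fun z : Fin N → Z => P (Rr pb act g0 S b z))).card : ℝ) := by
  have hW : ∀ (b : Fin N → β) (z : Fin N → Z), WS pb act g0 V e S (Rr pb act g0 S b z) = WS pb act g0 V e S b := by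
    intro b z
    unfold WS
    refine Finset.prod_congr rfl fun k _ => ?_
    have h3 := isA_R pb act g0 h1 S b z k
    by_cases hk : k ∈ S
    · rw [if_pos hk, if_pos hk]
      exact if_congr h3 rfl rfl
    · rw [if_neg hk, if_neg hk]
      congr 1
      · congr 1
        rw [Rr, if_neg (fun h => hk h.1)]
      · exact if_congr h3 rfl rfl
  have e1 : (Fintype.card Z : ℝ) ^ N * ∑ b : Fin N → β, (if P b then WS pb act g0 V e S b else 0) =
      ∑ x : (Fin N → β) × (Fin N → Z), (if P x.1 then WS pb act g0 V e S x.1 else 0) := by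
    rw [Fintype.sum_prod_type, Finset.mul_sum]
    refine Finset.sum_congr rfl fun b _ => ?_
    simp only
    rw [Finset.sum_const, Finset.card_univ, Fintype.card_fun, Fintype.card_fin, nsmul_eq_mul]
    norm_num
  rw [e1, ← Equiv.sum_comp (Function.Involutive.toPerm _ (psi_inv (N := N) pb act g0 h1 h2 S)),
    Fintype.sum_prod_type]
  refine Finset.sum_congr rfl fun b _ => ?_
  rw [← Finset.sum_boole, Finset.mul_sum]
  refine Finset.sum_congr rfl fun z _ => ?_
  show (if P (Rr pb act g0 S b z) then WS pb act g0 V e S (Rr pb act g0 S b z) else 0) = _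
  rw [hW]
  split_ifs <;> simp

end

/-- the weights are decomposed -/
theorem WS_sum [Fintype β] (V : Fin N → β → ℝ) (e : ℝ) (b : Fin N → β) :
    ∏ k, V k (b k) = ∑ S : Finset (Fin N), WS pb act g0 V e S b := by
  classical
  have h1 : ∏ k, V k (b k) = ∏ k, ((if isA pb act g0 b k then e else 0) + 
      (V k (b k) - (if isA pb act g0 b k then e else 0))) := by
    refine Finset.prod_congr rfl fun k _ => ?_
    ring
  rw [h1, Finset.prod_add]
  rw [Finset.powerset_univ]
  refine Finset.sum_congr rfl fun S _ => ?_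
  have f1 : univ.filter (fun k => k ∈ S) = S := by ext k; simp
  have f2 : univ.filter (fun k => k ∉ S) = univ \ S := by ext k; simp
  have f3 : WS pb act g0 V e S b = (∏ k ∈ univ.filter (fun k => k ∈ S), (if isA pb act g0 b k then e else 0)) *
      ∏ k ∈ univ.filter (fun k => k ∉ S), (V k (b k) - (if isA pb act g0 b k then e else 0)) := by
    unfold WS
    exact Finset.prod_ite _ _
  rw [f3, f1, f2]

theorem WS_nonneg [Fintype β] (V : Fin N → β → ℝ) (e : ℝ) (he : 0 ≤ e) (hV : ∀ k c, e ≤ V k c) (S : Finset (Fin N))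
    (b : Fin N → β) : 0 ≤ WS pb act g0 V e S b := by
  classical
  unfold WS
  refine Finset.prod_nonneg fun k _ => ?_
  have := hV k (b k)
  split_ifs
  · exact he
  · exact le_rfl
  · linarith
  · linarith

theorem WS_zero [Fintype β] (V : Fin N → β → ℝ) (e : ℝ) (S : Finset (Fin N))
    (b : Fin N → β) (k : Fin N) (hk : k ∈ S) (hk' : ¬ isA pb act g0 b k) : WS pb act g0 V e S b = 0 := by
  classical
  unfold WS
  apply Finset.prod_eq_zero (Finset.mem_univ k)
  rw [if_pos hk, if_neg hk']

open Classical in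
/-- the total weight belonging to `S` -/
theorem WS_total [Fintype β] [Fintype Z] (h2 : ∀ g, Function.Injective (act g)) (e : ℝ) (N : ℕ) : 
    ∀ (g0 : G) (V : Fin N → β → ℝ) (_ : ∀ k, ∑ c, V k c = 1) (S : Finset (Fin N)),
    ∑ b : Fin N → β, WS pb act g0 V e S b = ∏ k : Fin N, (if k ∈ S then (Fintype.card Z * e) else 
      1 - (Fintype.card Z * e)) := by
  induction N with
  | zero => 
    intro g0 V _ S
    rw [Fintype.sum_unique]
    simp [WS]
  | succ N ih =>
    intro g0 V hV S
    set S' : Finset (Fin N) := univ.filter (fun k => k.succ ∈ S) with hS'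
    have hmem : ∀ k, k ∈ S' ↔ k.succ ∈ S := by intro k; simp [hS']
    have e0 : ∀ g : G, ∑ c : β, (if (∃ z, c = act g z) then e else 0) = Fintype.card Z * e := by
      intro g
      rw [← Finset.sum_filter, Finset.sum_const, nsmul_eq_mul]
      congr 2
      have : univ.filter (fun c => ∃ z, c = act g z) = univ.image (act g) := by
        ext c
        simp only [Finset.mem_filter, Finset.mem_univ, true_and, Finset.mem_image]
        exact ⟨fun ⟨z, h⟩ => ⟨z, h.symm⟩, fun ⟨z, h⟩ => ⟨z, h.symm⟩⟩
      rw [this, Finset.card_image_of_injective _ (h2 g), Finset.card_univ]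
    have e1 : ∑ b : Fin (N + 1) → β, WS pb act g0 V e S b =
        ∑ c, (if (0 : Fin (N + 1)) ∈ S then (if (∃ z, c = act g0 z) then e else 0) else 
          V 0 c - (if (∃ z, c = act g0 z) then e else 0)) * 
          ∑ b : Fin N → β, WS pb act (g0 * pb c) (fun k => V k.succ) e S' b := by
      rw [← (Fin.consEquiv (fun _ : Fin (N + 1) => β)).sum_comp, Fintype.sum_prod_type]
      refine Finset.sum_congr rfl fun c _ => ?_
      rw [Finset.mul_sum]
      refine Finset.sum_congr rfl fun b _ => ?_
      show WS pb act g0 V e S (Fin.cons c b : Fin (N + 1) → β) = _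
      unfold WS
      rw [Fin.prod_univ_succ]
      have h0 : isA pb act g0 (Fin.cons c b : Fin (N + 1) → β) 0 ↔ ∃ z, c = act g0 z := Iff.rfl
      have h3 : ∀ k : Fin N, isA pb act g0 (Fin.cons c b : Fin (N + 1) → β) k.succ ↔ isA pb act (g0 * pb c) b k := by
        intro k
        unfold isA
        rw [Fin.val_succ, gs_cons, Fin.cons_succ]
      simp only [h0, h3, hmem, Fin.cons_zero, Fin.cons_succ]
    rw [e1, Fin.prod_univ_succ]
    have e2 : ∀ c : β, ∑ b : Fin N → β, WS pb act (g0 * pb c) (fun k => V k.succ) e S' b = 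
        ∏ k : Fin N, (if k.succ ∈ S then (Fintype.card Z * e) else 1 - (Fintype.card Z * e)) := by
      intro c
      rw [ih (g0 * pb c) (fun k => V k.succ) (fun k => hV k.succ) S']
      refine Finset.prod_congr rfl fun k _ => ?_
      exact if_congr (hmem k) rfl rfl
    simp only [e2]
    rw [← Finset.sum_mul]
    congr 1
    by_cases h0 : (0 : Fin (N + 1)) ∈ S
    · simp only [h0, if_true]
      exact e0 g0
    · simp only [h0, if_false]
      rw [Finset.sum_sub_distrib, hV 0, e0 g0]

open Classical in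
/-- the bound for the probability of an event -/
theorem chain_bound [Fintype β] [Fintype Z] [Nonempty Z] (h1 : ∀ g z, pb (act g z) = 1) 
    (h2 : ∀ g, Function.Injective (act g)) (V : Fin N → β → ℝ) (e : ℝ) (he : 0 ≤ e)
    (hV : ∀ k c, e ≤ V k c) (hV1 : ∀ k, ∑ c, V k c = 1) 
    (P : (Fin N → β) → Prop) (φ : ℕ → ℝ) 
    (hP : ∀ S b, (∀ k ∈ S, isA pb act g0 b k) → 
      ((univ.filter (fun z : Fin N → Z => P (Rr pb act g0 S b z))).card : ℝ) ≤ 
        (Fintype.card Z : ℝ) ^ N * φ S.card) :
    ∑ b : Fin N → β, (if P b then ∏ k, V k (b k) else 0) ≤ 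
      ∑ S : Finset (Fin N), (Fintype.card Z * e) ^ S.card * (1 - Fintype.card Z * e) ^ (N - S.card) * φ S.card := by
  have h3 : ∑ b : Fin N → β, (if P b then ∏ k, V k (b k) else 0) = 
      ∑ S : Finset (Fin N), ∑ b : Fin N → β, (if P b then WS pb act g0 V e S b else 0) := by
    rw [Finset.sum_comm]
    refine Finset.sum_congr rfl fun b _ => ?_
    rw [WS_sum pb act g0 V e b]
    split_ifs
    · rfl
    · simp
  rw [h3]
  refine Finset.sum_le_sum fun S _ => ?_
  have h4 := avg2 pb act g0 h1 h2 V e S P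
  have hZ : (0 : ℝ) < (Fintype.card Z : ℝ) ^ N := by
    have : 0 < Fintype.card Z := Fintype.card_pos
    positivity
  have h5 : ∑ b : Fin N → β, WS pb act g0 V e S b *
        ((univ.filter (fun z : Fin N → Z => P (Rr pb act g0 S b z))).card : ℝ) ≤ 
      ∑ b : Fin N → β, WS pb act g0 V e S b * ((Fintype.card Z : ℝ) ^ N * φ S.card) := by
    refine Finset.sum_le_sum fun b _ => ?_
    by_cases hb : ∀ k ∈ S, isA pb act g0 b k
    · exact mul_le_mul_of_nonneg_left (hP S b hb) (WS_nonneg pb act g0 V e he hV S b)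
    · push Not at hb
      obtain ⟨k, hk, hk'⟩ := hb
      rw [WS_zero pb act g0 V e S b k hk hk', zero_mul, zero_mul]
  rw [← h4, ← Finset.sum_mul, WS_total pb act h2 e N g0 V hV1 S] at h5
  have h6 : ∏ k : Fin N, (if k ∈ S then ((Fintype.card Z : ℝ) * e) else 1 - (Fintype.card Z * e)) = 
      (Fintype.card Z * e) ^ S.card * (1 - Fintype.card Z * e) ^ (N - S.card) := by
    rw [Finset.prod_ite, Finset.prod_const, Finset.prod_const]
    congr 2
    · simp
    · have : univ.filter (fun k => k ∉ S) = Sᶜ := by ext k; simp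
      rw [this, Finset.card_compl, Fintype.card_fin]
  rw [h6] at h5
  have h7 : (Fintype.card Z : ℝ) ^ N * ∑ b : Fin N → β, (if P b then WS pb act g0 V e S b else 0) ≤ 
      (Fintype.card Z : ℝ) ^ N * ((Fintype.card Z * e) ^ S.card * (1 - Fintype.card Z * e) ^ (N - S.card) * φ S.card) := by
    linarith
  exact le_of_mul_le_mul_left h7 hZ

end chain

end Pool.Agent.T6.H96.VB
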