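import Pool.Agent.T6.H96.VB.Swap

/-!
# The components of a diagram with a braid word in the box depend only on the permutation
-/

set_option autoImplicit false

namespace Pool.Agent.T6.H96.VB

open Finset LaurentPolynomial Pool.Agent.H891R2.Jones Pool.Agent.W639.RB Pool.Agent.H832R3.VJ
open Pool.Agent.Y463.BS (Strand E X lp card_strand mem_X quot_E)

theorem lp_retract {P Q : Type} (L : List (P × P)) (M : List (Q × Q)) (i : P → Q) (f : Q → P)
    (h0 : ∀ x, f (i x) = x) (h1 : ∀ x y, (x, y) ∈ L → E M (i x) (i y))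
    (h2 : ∀ x y, (x, y) ∈ M → E L (f x) (f y)) (h3 : ∀ x, E M x (i (f x))) : lp M = lp L := by
  unfold Pool.Agent.Y463.BS.lp
  symm
  have hi : ∀ x y, E L x y → E M (i x) (i y) := fun x y h => E.lift i h1 h
  have hf : ∀ x y, E M x y → E L (f x) (f y) := fun x y h => E.lift f h2 h
  refine Nat.card_eq_of_bijective (Quot.lift (fun x => Quot.mk (E M) (i x))
    (fun x y hxy => Quot.sound (hi x y hxy))) ⟨?_, ?_⟩
  · intro x y
    induction x using Quot.ind with
    | mk x =>
      induction y using Quot.ind with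
      | mk y =>
        intro hxy
        have h4 := hf _ _ (quot_E.1 hxy)
        rw [h0, h0] at h4
        exact quot_E.2 h4
  · intro z
    induction z using Quot.ind with
    | mk x => exact ⟨Quot.mk _ (f x), quot_E.2 (h3 x).symm⟩

variable {m : ℕ}

/-- the strands outside the box and strands from the lower side to the upper side -/
def Rl (O : Outer m) (π : Equiv.Perm (Fin m)) : List (O.P × O.P) :=
  X O.crossings ++ O.arcs ++ (List.finRange m).map (fun j => (O.lower j, O.upper (π j)))

theorem mem_Rl (O : Outer m) (π : Equiv.Perm (Fin m)) (x y : O.P) : (x, y) ∈ Rl O π ↔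
    ((∃ c ∈ O.crossings, (x = c.a ∧ y = c.c) ∨ (x = c.b ∧ y = c.d)) ∨ (x, y) ∈ O.arcs) ∨
      ∃ j, x = O.lower j ∧ y = O.upper (π j) := by
  unfold Rl
  rw [List.mem_append, List.mem_append, mem_X, List.mem_map]
  refine or_congr Iff.rfl ?_
  constructor
  · rintro ⟨j, _, h⟩
    simp only [Prod.mk.injEq] at h
    exact ⟨j, h.1.symm, h.2.symm⟩
  · rintro ⟨j, h1, h2⟩
    exact ⟨j, List.mem_finRange j, by rw [h1, h2]⟩

theorem lp_pushS (O : Outer m) (pos : Bool) (p q : Fin m) (hpq : p ≠ q) (π : Equiv.Perm (Fin m)) :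
    lp (Rl (pushS O pos p q) π) = lp (Rl O (π * Equiv.swap p q)) := by
  set f : (pushS O pos p q).P → O.P := Sum.elim id (fun j => O.lower (Equiv.swap p q j)) with hf
  have key : ∀ j, E (Rl (pushS O pos p q) π) (Sum.inr j) (Sum.inl (O.lower (Equiv.swap p q j))) := by
    intro j
    have hc : O.newCrossing p q pos ∈ (pushS O pos p q).crossings :=
      List.mem_append_right _ (List.mem_singleton.2 rfl)
    by_cases h1 : j = p
    · subst h1
      rw [Equiv.swap_apply_left]
      cases pos
      · exact (E.of_mem ((mem_Rl _ _ _ _).2 (Or.inl (Or.inl ⟨_, hc, Or.inr ⟨rfl, rfl⟩⟩)))).symm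
      · exact (E.of_mem ((mem_Rl _ _ _ _).2 (Or.inl (Or.inl ⟨_, hc, Or.inl ⟨rfl, rfl⟩⟩)))).symm
    · by_cases h2 : j = q
      · subst h2
        rw [Equiv.swap_apply_right]
        cases pos
        · exact (E.of_mem ((mem_Rl _ _ _ _).2 (Or.inl (Or.inl ⟨_, hc, Or.inl ⟨rfl, rfl⟩⟩)))).symm
        · exact E.of_mem ((mem_Rl _ _ _ _).2 (Or.inl (Or.inl ⟨_, hc, Or.inr ⟨rfl, rfl⟩⟩)))
      · rw [Equiv.swap_apply_of_ne_of_ne h1 h2]
        have ha : (if O.up j then (Sum.inl (O.lower j), Sum.inr j) else (Sum.inr j, Sum.inl (O.lower j))) ∈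
            (pushS O pos p q).arcs := by
          apply List.mem_append_right
          rw [List.mem_map]
          refine ⟨j, ?_, rfl⟩
          rw [List.mem_filter]
          exact ⟨List.mem_finRange j, by simp [h1, h2]⟩
        by_cases hu : O.up j = true
        · rw [if_pos hu] at ha
          exact (E.of_mem ((mem_Rl _ _ _ _).2 (Or.inl (Or.inr ha)))).symm
        · rw [if_neg hu] at ha
          exact E.of_mem ((mem_Rl _ _ _ _).2 (Or.inl (Or.inr ha)))
  refine lp_retract (Rl O (π * Equiv.swap p q)) (Rl (pushS O pos p q) π) Sum.inl f (fun x => rfl) ?_ ?_ ?_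
  · intro x y h
    rw [mem_Rl] at h
    rcases h with (⟨c, hc, h⟩ | h) | ⟨j, rfl, rfl⟩
    · refine E.of_mem ((mem_Rl _ _ _ _).2 (Or.inl (Or.inl ⟨Crossing.map Sum.inl c, ?_, ?_⟩)))
      · exact List.mem_append_left _ (List.mem_map_of_mem hc)
      · rcases h with ⟨rfl, rfl⟩ | ⟨rfl, rfl⟩
        · exact Or.inl ⟨rfl, rfl⟩
        · exact Or.inr ⟨rfl, rfl⟩
    · refine E.of_mem ((mem_Rl _ _ _ _).2 (Or.inl (Or.inr ?_)))
      apply List.mem_append_left
      exact List.mem_map.2 ⟨(x, y), h, rfl⟩
    · have h1 := key (Equiv.swap p q j)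
      rw [Equiv.swap_apply_self] at h1
      refine h1.symm.trans (E.of_mem ((mem_Rl _ _ _ _).2 (Or.inr ⟨Equiv.swap p q j, rfl, rfl⟩)))
  · intro x y h
    rw [mem_Rl] at h
    rcases h with (⟨c, hc, h⟩ | h) | ⟨j, rfl, rfl⟩
    · have hc' : c ∈ O.crossings.map (Crossing.map .inl) ++ [O.newCrossing p q pos] := hc
      rcases List.mem_append.1 hc' with hc2 | hc2
      · obtain ⟨c', hc3, rfl⟩ := List.mem_map.1 hc2
        rcases h with ⟨rfl, rfl⟩ | ⟨rfl, rfl⟩
        · exact E.of_mem ((mem_Rl _ _ _ _).2 (Or.inl (Or.inl ⟨c', hc3, Or.inl ⟨rfl, rfl⟩⟩)))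
        · exact E.of_mem ((mem_Rl _ _ _ _).2 (Or.inl (Or.inl ⟨c', hc3, Or.inr ⟨rfl, rfl⟩⟩)))
      · obtain rfl := List.mem_singleton.1 hc2
        have e1 : f (Sum.inr p) = O.lower q := by
          show O.lower (Equiv.swap p q p) = _
          rw [Equiv.swap_apply_left]
        have e2 : f (Sum.inr q) = O.lower p := by
          show O.lower (Equiv.swap p q q) = _
          rw [Equiv.swap_apply_right]
        cases pos
        · rcases h with ⟨rfl, rfl⟩ | ⟨rfl, rfl⟩
          · show E _ (O.lower p) (f (Sum.inr q))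
            rw [e2]
            exact E.refl _ _
          · show E _ (O.lower q) (f (Sum.inr p))
            rw [e1]
            exact E.refl _ _
        · rcases h with ⟨rfl, rfl⟩ | ⟨rfl, rfl⟩
          · show E _ (O.lower q) (f (Sum.inr p))
            rw [e1]
            exact E.refl _ _
          · show E _ (f (Sum.inr q)) (O.lower p)
            rw [e2]
            exact E.refl _ _
    · have h' : (x, y) ∈ O.arcs.map (Prod.map .inl .inl) ++
        ((List.finRange m).filter (fun j => j ≠ p ∧ j ≠ q)).map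
          (fun j => if O.up j then (.inl (O.lower j), .inr j) else (.inr j, .inl (O.lower j))) := h
      rcases List.mem_append.1 h' with h' | h'
      · obtain ⟨⟨x', y'⟩, h1, h2⟩ := List.mem_map.1 h'
        simp only [Prod.map_apply, Prod.mk.injEq] at h2
        obtain ⟨rfl, rfl⟩ := h2
        exact E.of_mem ((mem_Rl _ _ _ _).2 (Or.inl (Or.inr h1)))
      · obtain ⟨j, h1, h2⟩ := List.mem_map.1 h'
        rw [List.mem_filter] at h1
        have h3 : j ≠ p ∧ j ≠ q := by simpa using h1.2
        have e1 : f (Sum.inr j) = O.lower j := by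
          show O.lower (Equiv.swap p q j) = _
          rw [Equiv.swap_apply_of_ne_of_ne h3.1 h3.2]
        by_cases hu : O.up j = true
        · rw [if_pos hu, Prod.mk.injEq] at h2
          obtain ⟨rfl, rfl⟩ := h2
          rw [e1]
          exact E.refl _ _
        · rw [if_neg hu, Prod.mk.injEq] at h2
          obtain ⟨rfl, rfl⟩ := h2
          rw [e1]
          exact E.refl _ _
    · show E _ (O.lower (Equiv.swap p q j)) (O.upper (π j))
      refine E.of_mem ((mem_Rl _ _ _ _).2 (Or.inr ⟨Equiv.swap p q j, rfl, ?_⟩))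
      rw [Equiv.Perm.mul_apply, Equiv.swap_apply_self]
  · rintro (x | j)
    · exact E.refl _ _
    · exact key j

/-- the permutation of a word -/
def pm (m : ℕ) : List (Bool × ℕ) → Equiv.Perm (Fin m)
  | [] => 1
  | (x :: w) => (if h : x.2 + 1 < m then Equiv.swap (⟨x.2, Nat.lt_of_succ_lt h⟩ : Fin m) ⟨x.2 + 1, h⟩ 
      else (1 : Equiv.Perm (Fin m))) * pm m w

theorem pm_append (w w' : List (Bool × ℕ)) : pm m (w ++ w') = pm m w * pm m w' := by
  induction w with
  | nil => simp [pm]
  | cons x w ih => rw [List.cons_append, pm, pm, ih, mul_assoc]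

theorem lp_draw (w : List (Bool × ℕ)) : ∀ (O : Outer m) (π : Equiv.Perm (Fin m)), Valid m w →
    lp (Rl (draw O w) π) = lp (Rl O (π * (pm m w)⁻¹)) := by
  induction w with
  | nil => intro O π _; simp [draw, pm]
  | cons x w ih =>
    intro O π hw
    have hx := hw x List.mem_cons_self
    have h1 := ih (O.push x.1 x.2) π (fun y hy => hw y (List.mem_cons_of_mem _ hy))
    have h2 : draw O (x :: w) = draw (O.push x.1 x.2) w := rfl
    rw [h2, h1, push_eq O x.1 x.2 hx, lp_pushS _ _ _ _ (by simp [Fin.ext_iff]), pm, dif_pos hx, mul_inv_rev,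
      Equiv.swap_inv, mul_assoc]

theorem lp_close (O : Outer m) : lp (X O.close.crossings ++ O.close.arcs) = lp (Rl O 1) := by
  refine Pool.Agent.Y463.BS.lp_congr fun x y => ⟨E.mono ?_, E.mono ?_⟩
  · intro p q h
    rcases List.mem_append.1 h with h | h
    · exact E.of_mem (List.mem_append_left _ (List.mem_append_left _ h))
    · have h' : (p, q) ∈ O.arcs ++ (List.finRange m).map (fun j =>
        if O.up j then (O.lower j, O.upper j) else (O.upper j, O.lower j)) := h
      rcases List.mem_append.1 h' with h' | h'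
      · exact E.of_mem (List.mem_append_left _ (List.mem_append_right _ h'))
      · obtain ⟨j, _, h2⟩ := List.mem_map.1 h'
        by_cases hu : O.up j = true
        · rw [if_pos hu, Prod.mk.injEq] at h2
          obtain ⟨rfl, rfl⟩ := h2
          exact E.of_mem ((mem_Rl _ _ _ _).2 (Or.inr ⟨j, rfl, rfl⟩))
        · rw [if_neg hu, Prod.mk.injEq] at h2
          obtain ⟨rfl, rfl⟩ := h2
          exact (E.of_mem ((mem_Rl _ _ _ _).2 (Or.inr ⟨j, rfl, rfl⟩))).symm
  · intro p q h
    have h' : (p, q) ∈ X O.crossings ++ O.arcs ++ (List.finRange m).map 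
      (fun j => (O.lower j, O.upper ((1 : Equiv.Perm (Fin m)) j))) := h
    rcases List.mem_append.1 h' with h' | h'
    · rcases List.mem_append.1 h' with h' | h'
      · exact E.of_mem (List.mem_append_left _ h')
      · exact E.of_mem (List.mem_append_right _ (List.mem_append_left _ h'))
    · obtain ⟨j, _, h2⟩ := List.mem_map.1 h'
      rw [Equiv.Perm.one_apply, Prod.mk.injEq] at h2
      obtain ⟨rfl, rfl⟩ := h2
      have h3 : (if O.up j then (O.lower j, O.upper j) else (O.upper j, O.lower j)) ∈ 
          X O.close.crossings ++ O.close.arcs :=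
        List.mem_append_right _ (List.mem_append_right _ (List.mem_map_of_mem (List.mem_finRange j)))
      by_cases hu : O.up j = true
      · rw [if_pos hu] at h3
        exact E.of_mem h3
      · rw [if_neg hu] at h3
        exact (E.of_mem h3).symm

theorem card_draw (O : Outer m) (w : List (Bool × ℕ)) (hw : Valid m w) :
    Nat.card (Quot (Strand (draw O w).close)) = lp (Rl O (pm m w)⁻¹) := by
  rw [card_strand, lp_close, lp_draw w O 1 hw, one_mul]

theorem up_draw (w : List (Bool × ℕ)) : ∀ (O : Outer m), Valid m w → (draw O w).up = O.up ∘ (pm m w) := by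
  induction w with
  | nil => intro O _; rfl
  | cons x w ih =>
    intro O hw
    have hx := hw x List.mem_cons_self
    have h1 := ih (O.push x.1 x.2) (fun y hy => hw y (List.mem_cons_of_mem _ hy))
    have h2 : draw O (x :: w) = draw (O.push x.1 x.2) w := rfl
    rw [h2, h1, push_eq O x.1 x.2 hx, pm, dif_pos hx]
    rfl

/-- whether the diagram is a knot depends only on the permutation -/
theorem K_perm {O : Outer m} {w w' : List (Bool × ℕ)} (hw : Valid m w) (hw' : Valid m w')
    (h : pm m w = pm m w') (hK : K O w) : K O w' := by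
  have h1 : (draw O w').up = (draw O w).up := by rw [up_draw w' O hw', up_draw w O hw, h]
  have h5 : (draw O w').close.IsClosed := by
    rw [closed_iff, h1]
    exact (Good_draw_iff _ w' O).2 (K_good hK)
  refine ⟨h5, ?_⟩
  rw [card_draw O w' hw', ← h, ← card_draw O w hw]
  exact K_card hK

/-- the value at `A = 1` depends only on the permutation and the parity of the length -/
theorem m0_perm (hm : 0 < m) {O : Outer m} {v : Fin m → Bool} (hg : Good O v) {w w' : List (Bool × ℕ)}
    (hw : Valid m w) (hw' : Valid m w') (h : pm m w = pm m w') (hl : Even (w.length + w'.length)) :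
    m0 O w = m0 O w' := by
  rw [(m0_val hm O w hw v hg).2, (m0_val hm O w' hw' v hg).2, card_draw O w hw, card_draw O w' hw', h]
  congr 1
  rw [pow_add, pow_add]
  congr 1
  rcases Nat.even_or_odd w.length with h1 | h1
  · have h2 : Even w'.length := by
      rw [Nat.even_add] at hl
      exact hl.1 h1
    rw [h1.neg_one_pow, h2.neg_one_pow]
  · have h2 : Odd w'.length := by
      rw [← Nat.not_even_iff_odd] at h1 ⊢
      intro h3
      rw [Nat.even_add] at hl
      exact h1 (hl.2 h3)
    rw [h1.neg_one_pow, h2.neg_one_pow]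

end Pool.Agent.T6.H96.VB
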