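import Pool.Agent.T6.H96.VB.Blocks
import Pool.Agent.T6.H96.VB.Comp

/-!
# Random braid words and Vassiliev invariants of order two
-/

set_option autoImplicit false

namespace Pool.Agent.T6.H96.VB

open Finset LaurentPolynomial Pool.Agent.H891R2.Jones Pool.Agent.W639.RB Pool.Agent.H832R3.VJ
open Pool.Agent.W705.JR (dia)

variable {m : ℕ}

theorem F_of_not_sep {n : ℕ} (O : Outer m) (w : Fin n → Letter m) (X : Dia)
    (h : ¬ Separated 2 (dia O w) X) : F O (toL w) = moment 2 X.D.fPoly := by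
  by_contra hne
  exact h ⟨2, le_rfl, fun Y => moment 2 Y.D.fPoly, isVassiliev_moment 2, hne⟩

open Classical in
theorem partA (hm : 0 < m) (O : Outer m) (n N : ℕ) (t : Fin N → ℕ) (ht : ∀ k, t k + 3 < n)
    (hd : ∀ k l, k ≠ l → t k + 3 < t l ∨ t l + 3 < t k)
    (q : Fin n → Letter m → ℝ) (hq : ∀ s x, 0 ≤ q s x) (hs : ∀ s, ∑ x, q s x = 1)
    (hsym : ∀ k x, q (pl t ht (k, 0)) x = q (pl t ht (k, 3)) x) (p : ℝ) (hp : 0 < p) (hp1 : p ≤ 1)
    (hp' : ∀ k, p ≤ ∑ c : Fin 4 → Letter m, if Act c then ∏ l, q (pl t ht (k, l)) (c l) else 0) (X : Dia) :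
    ∑ w : Fin n → Letter m, (if Pool.Agent.Y463.BS.IsKnot (diagram O w) ∧ ¬ Separated 2 (dia O w) X then
      ∏ s, q s (w s) else 0) ≤ Real.sqrt (1 / (p * (N + 1))) := by
  refine le_trans ?_ (core t ht hd hm O q hq hs hsym p hp hp1 hp' (moment 2 X.D.fPoly))
  refine Finset.sum_le_sum fun w _ => ?_
  by_cases h : Pool.Agent.Y463.BS.IsKnot (diagram O w) ∧ ¬ Separated 2 (dia O w) X
  · have h1 : K O (toL w) ∧ F O (toL w) = moment 2 X.D.fPoly := ⟨h.1, F_of_not_sep O w X h.2⟩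
    rw [if_pos h, if_pos h1]
  · rw [if_neg h]
    split_ifs
    · exact Finset.prod_nonneg fun s _ => hq _ _
    · exact le_rfl

/-- the probability that four independent letters are of the form `σ_i^s σ_j^t σ_j^t σ_i^{-s}`,
`|i - j| = 1` -/
noncomputable def rhoA (q : Letter m → ℝ) : ℝ := ∑ c : Fin 4 → Letter m, if Act c then ∏ l, q (c l) else 0

theorem rhoA_le (q : Letter m → ℝ) (hq : ∀ x, 0 ≤ q x) (hs : ∑ x, q x = 1) : rhoA q ≤ 1 := by
  have h2 := (Finset.prod_univ_sum (fun _ : Fin 4 => (univ : Finset (Letter m)))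
      (fun (_ : Fin 4) (x : Letter m) => q x))
  rw [Fintype.piFinset_univ] at h2
  have h3 : ∑ c : Fin 4 → Letter m, ∏ l, q (c l) = 1 := by
    rw [← h2]
    exact Finset.prod_eq_one fun l _ => hs
  rw [← h3]
  refine Finset.sum_le_sum fun c _ => ?_
  split_ifs
  · exact le_rfl
  · exact Finset.prod_nonneg fun l _ => hq _

theorem act_mk (s u : Bool) (i j : Fin (m - 1)) (h : (i : ℕ) + 1 = j ∨ (j : ℕ) + 1 = i) :
    Act (![(s, i), (u, j), (u, j), (!s, i)] : Fin 4 → Letter m) := ⟨rfl, rfl, h⟩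

theorem four_le (q : Fin 4 → Letter m → ℝ) (hq : ∀ l x, 0 ≤ q l x) (i j : Fin (m - 1))
    (h : (i : ℕ) + 1 = j ∨ (j : ℕ) + 1 = i) :
    ∑ z : Bool × Bool, q 0 (z.1, i) * q 1 (z.2, j) * q 2 (z.2, j) * q 3 (!z.1, i) ≤
      ∑ c : Fin 4 → Letter m, if Act c then ∏ l, q l (c l) else 0 := by
  classical
  have h1 : ∑ z : Bool × Bool, q 0 (z.1, i) * q 1 (z.2, j) * q 2 (z.2, j) * q 3 (!z.1, i) =
      ∑ c ∈ univ.image (fun z : Bool × Bool => (![(z.1, i), (z.2, j), (z.2, j), (!z.1, i)] : Fin 4 → Letter m)),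
        if Act c then ∏ l, q l (c l) else 0 := by
    rw [Finset.sum_image]
    · refine Finset.sum_congr rfl fun z _ => ?_
      rw [if_pos (act_mk z.1 z.2 i j h), Fin.prod_univ_four]
      rfl
    · rintro ⟨s, u⟩ _ ⟨s', u'⟩ _ h
      have h0 := congrFun h 0
      have h1 := congrFun h 1
      simp only [Matrix.cons_val_zero, Matrix.cons_val_one, Prod.mk.injEq, and_true] at h0 h1
      rw [h0, h1]
  rw [h1]
  apply Finset.sum_le_univ_sum_of_nonneg
  intro c
  split_ifs
  · exact Finset.prod_nonneg fun l _ => hq _ _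
  · exact le_rfl

theorem rhoA_pos (hm : 3 ≤ m) (q : Letter m → ℝ) (hq : ∀ x, 0 < q x) : 0 < rhoA q := by
  have h := four_le (m := m) (fun _ => q) (fun _ x => (hq x).le) ⟨0, by omega⟩ ⟨1, by omega⟩ (Or.inl rfl)
  refine lt_of_lt_of_le ?_ h
  apply Finset.sum_pos
  · intro z _
    have h1 := hq (z.1, ⟨0, by omega⟩)
    have h2 := hq (z.2, ⟨1, by omega⟩)
    have h3 := hq (!z.1, ⟨0, by omega⟩)
    positivity
  · exact ⟨(true, true), Finset.mem_univ _⟩

open Classical in
theorem partB (hm : 0 < m) (O : Outer m) (q : Letter m → ℝ) (hq : ∀ x, 0 ≤ q x) (hs : ∑ x, q x = 1)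
    (hr : 0 < rhoA q) (n : ℕ) (hn : 0 < n) (X : Dia) :
    ∑ w : Fin n → Letter m, (if Pool.Agent.Y463.BS.IsKnot (diagram O w) ∧ ¬ Separated 2 (dia O w) X then
      ∏ s, q (w s) else 0) ≤ 2 / Real.sqrt (rhoA q * n) := by
  have ht : ∀ k : Fin (n / 4), (fun k : Fin (n / 4) => 4 * (k : ℕ)) k + 3 < n := by
    intro k
    have := k.2
    simp only
    omega
  have h := partA hm O n (n / 4) (fun k => 4 * (k : ℕ)) ht (by
    intro k l hkl
    have : (k : ℕ) ≠ l := fun h => hkl (Fin.ext h)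
    show 4 * (k : ℕ) + 3 < 4 * (l : ℕ) ∨ 4 * (l : ℕ) + 3 < 4 * (k : ℕ)
    omega) (fun _ => q) (fun _ => hq) (fun _ => hs) (fun _ _ => rfl) (rhoA q) hr (rhoA_le q hq hs)
    (fun _ => le_rfl) X
  refine h.trans ?_
  have h1 : (n : ℝ) ≤ 4 * ((n / 4 : ℕ) + 1) := by
    have : n ≤ 4 * (n / 4 + 1) := by omega
    exact_mod_cast this
  have hn' : (0 : ℝ) < n := by exact_mod_cast hn
  have h2 : 1 / (rhoA q * (((n / 4 : ℕ) : ℝ) + 1)) ≤ 2 ^ 2 / (rhoA q * n) := by
    rw [div_le_div_iff₀ (by positivity) (by positivity)]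
    nlinarith
  refine (Real.sqrt_le_sqrt h2).trans (le_of_eq ?_)
  rw [Real.sqrt_div (by norm_num), Real.sqrt_sq (by norm_num)]

open Classical in
theorem partC (hm : 0 < m) (O : Outer m) (n N : ℕ) (t : Fin N → ℕ) (ht : ∀ k, t k + 3 < n)
    (hd : ∀ k l, k ≠ l → t k + 3 < t l ∨ t l + 3 < t k) (i : Fin n → Fin (m - 1))
    (h03 : ∀ k, i (pl t ht (k, 0)) = i (pl t ht (k, 3))) (h12 : ∀ k, i (pl t ht (k, 1)) = i (pl t ht (k, 2)))
    (h01 : ∀ k, (i (pl t ht (k, 0)) : ℕ) + 1 = i (pl t ht (k, 1)) ∨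
      (i (pl t ht (k, 1)) : ℕ) + 1 = i (pl t ht (k, 0))) (X : Dia) :
    ((univ.filter (fun s : Fin n → Bool => Pool.Agent.Y463.BS.IsKnot (diagram O fun x => (s x, i x)) ∧
      ¬ Separated 2 (dia O fun x => (s x, i x)) X)).card : ℝ) ≤ 2 / Real.sqrt (N + 1) * 2 ^ n := by
  set q : Fin n → Letter m → ℝ := fun x y => if y.2 = i x then 1 / 2 else 0 with hq
  have hq0 : ∀ x y, 0 ≤ q x y := by
    intro x y
    simp only [hq]
    split_ifs <;> norm_num
  have hs : ∀ x, ∑ y, q x y = 1 := by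
    intro x
    simp only [hq]
    rw [Fintype.sum_prod_type, Fintype.sum_bool]
    simp only [Finset.sum_ite_eq', Finset.mem_univ, if_true]
    norm_num
  have h := partA hm O n N t ht hd q hq0 hs (by
    intro k x
    simp only [hq, h03 k]) (1 / 4) (by norm_num) (by norm_num) (by
    intro k
    refine le_trans ?_ (four_le (fun l => q (pl t ht (k, l))) (fun l x => hq0 _ _)
      (i (pl t ht (k, 0))) (i (pl t ht (k, 1))) (h01 k))
    simp only [hq, ← h03 k, ← h12 k, if_true]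
    rw [Finset.sum_const, Finset.card_univ]
    norm_num [Fintype.card_prod, Fintype.card_bool]) X
  have h1 : ((univ.filter (fun s : Fin n → Bool => Pool.Agent.Y463.BS.IsKnot (diagram O fun x => (s x, i x)) ∧
      ¬ Separated 2 (dia O fun x => (s x, i x)) X)).card : ℝ) * (1 / 2) ^ n ≤
      ∑ w : Fin n → Letter m, (if Pool.Agent.Y463.BS.IsKnot (diagram O w) ∧ ¬ Separated 2 (dia O w) X then
      ∏ s, q s (w s) else 0) := by
    have h2 : ((univ.filter (fun s : Fin n → Bool => Pool.Agent.Y463.BS.IsKnot (diagram O fun x => (s x, i x)) ∧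
      ¬ Separated 2 (dia O fun x => (s x, i x)) X)).card : ℝ) * (1 / 2) ^ n =
      ∑ w ∈ univ.image (fun (s : Fin n → Bool) (x : Fin n) => ((s x, i x) : Letter m)),
      (if Pool.Agent.Y463.BS.IsKnot (diagram O w) ∧ ¬ Separated 2 (dia O w) X then
      ∏ s, q s (w s) else 0) := by
      rw [Finset.sum_image, ← Finset.sum_boole, Finset.sum_mul]
      · refine Finset.sum_congr rfl fun s _ => ?_
        have e : ∏ x, q x (s x, i x) = (1 / 2) ^ n := by
          simp only [hq, if_true]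
          rw [Finset.prod_const, Finset.card_univ, Fintype.card_fin]
        rw [e]
        split_ifs <;> simp
      · intro s _ s' _ h
        funext x
        have := congrFun h x
        simp only [Prod.mk.injEq, and_true] at this
        exact this
    rw [h2]
    apply Finset.sum_le_univ_sum_of_nonneg
    intro w
    split_ifs
    · exact Finset.prod_nonneg fun s _ => hq0 _ _
    · exact le_rfl
  have h3 := h1.trans h
  have h4 : Real.sqrt (1 / (1 / 4 * ((N : ℝ) + 1))) = 2 / Real.sqrt (N + 1) := by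
    have : (1 / (1 / 4 * ((N : ℝ) + 1))) = 2 ^ 2 / (N + 1) := by field_simp; norm_num
    rw [this, Real.sqrt_div (by norm_num), Real.sqrt_sq (by norm_num)]
  rw [h4] at h3
  have h5 : (1 / 2 : ℝ) ^ n * 2 ^ n = 1 := by rw [← mul_pow]; norm_num
  calc ((univ.filter (fun s : Fin n → Bool => Pool.Agent.Y463.BS.IsKnot (diagram O fun x => (s x, i x)) ∧
      ¬ Separated 2 (dia O fun x => (s x, i x)) X)).card : ℝ)
      = (((univ.filter (fun s : Fin n → Bool => Pool.Agent.Y463.BS.IsKnot (diagram O fun x => (s x, i x)) ∧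
      ¬ Separated 2 (dia O fun x => (s x, i x)) X)).card : ℝ) * (1 / 2) ^ n) * 2 ^ n := by
        rw [mul_assoc, h5, mul_one]
    _ ≤ _ := by gcongr

/-! ### among the knots -/

theorem pm_toL {n : ℕ} (w : Fin n → Letter m) : pm m (toL w) = perm w := by
  unfold perm toL
  induction n with
  | zero => simp [pm]
  | succ n ih =>
    have h := ih (fun i => w i.succ)
    rw [List.ofFn_succ, List.ofFn_succ, List.prod_cons, pm, h]
    congr 1
    have h2 := (w 0).2.2
    rw [dif_pos (show ((w 0).2 : ℕ) + 1 < m by omega)]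

open Classical in
/-- if there is one knot among the diagrams, there are many -/
theorem many (hm : 2 ≤ m) : ∃ l0 : ℕ, ∀ (O : Outer m) (n0 : ℕ) (w0 : Fin n0 → Letter m),
    Pool.Agent.Y463.BS.IsKnot (diagram O w0) → ∀ n, l0 ≤ n → n % 2 = n0 % 2 →
    (2 * (m - 1)) ^ n ≤ (2 * (m - 1)) ^ l0 *
      (univ.filter (fun w : Fin n → Letter m => Pool.Agent.Y463.BS.IsKnot (diagram O w))).card := by
  obtain ⟨l0, hl0⟩ := exists_len hm
  refine ⟨l0, fun O n0 w0 hw0 n hn hpar => ?_⟩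
  obtain ⟨k, rfl⟩ : ∃ k, n = k + l0 := ⟨n - l0, by omega⟩
  have h1 : ∀ w : Fin k → Letter m, ∃ s : Fin l0 → Letter m, perm s = (perm w)⁻¹ * perm w0 := by
    intro w
    apply hl0
    rw [map_mul, map_inv, sign_perm, sign_perm, Int.units_inv_eq_self, ← pow_add]
    have h3 : ∃ e, k + n0 = l0 + 2 * e ∨ l0 = k + n0 + 2 * e := by
      rcases le_total l0 (k + n0) with h | h
      · exact ⟨(k + n0 - l0) / 2, Or.inl (by omega)⟩
      · exact ⟨(l0 - (k + n0)) / 2, Or.inr (by omega)⟩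
    obtain ⟨e, h3 | h3⟩ := h3
    · rw [h3, pow_add, pow_mul (-1 : ℤˣ) 2 e]; simp
    · rw [h3, pow_add (-1 : ℤˣ) (k + n0) (2 * e), pow_mul (-1 : ℤˣ) 2 e]; simp
  choose s hs using h1
  have h2 : (univ : Finset (Fin k → Letter m)).card ≤
      (univ.filter (fun w : Fin (k + l0) → Letter m =>
        Pool.Agent.Y463.BS.IsKnot (diagram O w))).card := by
    apply Finset.card_le_card_of_injOn (fun w => Fin.append w (s w))
    · intro w _
      rw [Finset.mem_coe, Finset.mem_filter]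
      refine ⟨Finset.mem_univ _, ?_⟩
      have h3 : pm m (toL w0) = pm m (toL (Fin.append w (s w))) := by
        rw [pm_toL, pm_toL, perm_append, hs, mul_inv_cancel_left]
      exact K_perm (valid_toL _) (valid_toL _) h3 hw0
    · intro w _ w' _ h
      funext i
      have := congrFun h (Fin.castAdd l0 i)
      simpa [Fin.append_left] using this
  rw [Finset.card_univ, Fintype.card_fun, Fintype.card_fin] at h2
  have h3 : Fintype.card (Letter m) = 2 * (m - 1) := by simp
  rw [h3] at h2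
  calc (2 * (m - 1)) ^ (k + l0) = (2 * (m - 1)) ^ l0 * (2 * (m - 1)) ^ k := by rw [pow_add]; ring
    _ ≤ _ := Nat.mul_le_mul_left _ h2

open Classical in
theorem partD (hm : 3 ≤ m) : ∃ (C : ℝ) (l0 : ℕ), ∀ (O : Outer m) (n0 : ℕ) (w0 : Fin n0 → Letter m),
    Pool.Agent.Y463.BS.IsKnot (diagram O w0) → ∀ n, 0 < n → l0 ≤ n → n % 2 = n0 % 2 → ∀ X : Dia,
    ((univ.filter (fun w : Fin n → Letter m => Pool.Agent.Y463.BS.IsKnot (diagram O w) ∧
      ¬ Separated 2 (dia O w) X)).card : ℝ) ≤ C / Real.sqrt n *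
      (univ.filter (fun w : Fin n → Letter m => Pool.Agent.Y463.BS.IsKnot (diagram O w))).card := by
  obtain ⟨l0, hl0⟩ := many (m := m) (by omega)
  set D : ℕ := 2 * (m - 1) with hD
  have hDpos : 0 < D := by omega
  have hD' : (0 : ℝ) < D := by exact_mod_cast hDpos
  set q : Letter m → ℝ := fun _ => 1 / D with hq
  have hq0 : ∀ x, 0 < q x := fun x => by simp only [hq]; positivity
  have hs : ∑ x, q x = 1 := by
    simp only [hq]
    rw [Finset.sum_const, Finset.card_univ, nsmul_eq_mul]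
    have : Fintype.card (Letter m) = D := by simp [hD]
    rw [this]
    field_simp
  have hr := rhoA_pos hm q hq0
  refine ⟨2 / Real.sqrt (rhoA q) * D ^ l0, l0, fun O n0 w0 hw0 n hn hln hpar X => ?_⟩
  have h1 := partB (by omega) O q (fun x => (hq0 x).le) hs hr n hn X
  have h2 : ∑ w : Fin n → Letter m, (if Pool.Agent.Y463.BS.IsKnot (diagram O w) ∧
      ¬ Separated 2 (dia O w) X then ∏ s, q (w s) else 0) =
      ((univ.filter (fun w : Fin n → Letter m => Pool.Agent.Y463.BS.IsKnot (diagram O w) ∧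
      ¬ Separated 2 (dia O w) X)).card : ℝ) * (1 / D) ^ n := by
    rw [← Finset.sum_boole, Finset.sum_mul]
    refine Finset.sum_congr rfl fun w _ => ?_
    have e : ∏ s, q (w s) = (1 / D : ℝ) ^ n := by
      simp only [hq]
      rw [Finset.prod_const, Finset.card_univ, Fintype.card_fin]
    rw [e]
    split_ifs <;> simp
  rw [h2] at h1
  have h3 : (D : ℝ) ^ n ≤ (D : ℝ) ^ l0 *
      (univ.filter (fun w : Fin n → Letter m => Pool.Agent.Y463.BS.IsKnot (diagram O w))).card := by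
    exact_mod_cast hl0 O n0 w0 hw0 n hln hpar
  have h5 : (1 / D : ℝ) ^ n * D ^ n = 1 := by rw [← mul_pow, one_div, inv_mul_cancel₀ hD'.ne', one_pow]
  have h6 : Real.sqrt (rhoA q * n) = Real.sqrt (rhoA q) * Real.sqrt n := Real.sqrt_mul hr.le _
  rw [h6] at h1
  calc ((univ.filter (fun w : Fin n → Letter m => Pool.Agent.Y463.BS.IsKnot (diagram O w) ∧
      ¬ Separated 2 (dia O w) X)).card : ℝ)
      = (((univ.filter (fun w : Fin n → Letter m => Pool.Agent.Y463.BS.IsKnot (diagram O w) ∧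
      ¬ Separated 2 (dia O w) X)).card : ℝ) * (1 / D) ^ n) * D ^ n := by rw [mul_assoc, h5, mul_one]
    _ ≤ 2 / (Real.sqrt (rhoA q) * Real.sqrt n) * (D ^ l0 *
      (univ.filter (fun w : Fin n → Letter m => Pool.Agent.Y463.BS.IsKnot (diagram O w))).card) := by
        gcongr
    _ = _ := by
        have h7 : Real.sqrt (rhoA q) ≠ 0 := (Real.sqrt_pos.2 hr).ne'
        have h8 : Real.sqrt n ≠ 0 := (Real.sqrt_pos.2 (by exact_mod_cast hn)).ne'
        field_simp

end Pool.Agent.T6.H96.VB
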