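import Pool.Agent.T6.H96.VB.Walk

/-!
# A bilinear form of two random vectors does not concentrate
-/

set_option autoImplicit false

namespace Pool.Agent.T6.H96.VB

open Finset

/-- `exp (2 π i x)` -/
noncomputable def ex (x : ℝ) : ℂ := Complex.exp (((2 * Real.pi * x : ℝ) : ℂ) * Complex.I)

theorem ex_add (x y : ℝ) : ex (x + y) = ex x * ex y := by
  unfold ex
  rw [← Complex.exp_add]
  congr 1
  push_cast
  ring

theorem norm_ex (x : ℝ) : ‖ex x‖ = 1 := Complex.norm_exp_ofReal_mul_I _

theorem ex_zero : ex 0 = 1 := by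
  unfold ex
  simp

theorem ex_neg (x : ℝ) : ex (-x) = (starRingEnd ℂ) (ex x) := by
  unfold ex
  rw [← Complex.exp_conj]
  congr 1
  rw [map_mul, Complex.conj_ofReal, Complex.conj_I]
  push_cast
  ring

theorem ex_int (n : ℤ) : ex n = 1 := by
  unfold ex
  rw [Complex.exp_eq_one_iff]
  exact ⟨n, by push_cast; ring⟩

theorem ex_sum {ι : Type*} (s : Finset ι) (f : ι → ℝ) : ex (∑ i ∈ s, f i) = ∏ i ∈ s, ex (f i) := by
  classical
  induction s using Finset.induction_on with
  | empty => simp [ex_zero]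
  | insert a s ha ih => rw [Finset.sum_insert ha, Finset.prod_insert ha, ex_add, ih]

theorem ex_nat_mul (n : ℕ) (x : ℝ) : ex (n * x) = ex x ^ n := by
  induction n with
  | zero => simp [ex_zero]
  | succ n ih =>
    rw [pow_succ, ← ih, ← ex_add]
    congr 1
    push_cast
    ring

theorem one_add_ex (x : ℝ) : ‖1 + ex x‖ = 2 * |Real.cos (Real.pi * x)| := by
  have h1 : 1 + ex x = ex (x / 2) * ((2 * Real.cos (Real.pi * x) : ℝ) : ℂ) := by
    have h2 : ((2 * Real.cos (Real.pi * x) : ℝ) : ℂ) = ex (-(x / 2)) + ex (x / 2) := by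
      unfold ex
      push_cast
      rw [Complex.cos]
      have e1 : (2 * (Real.pi : ℂ) * -((x : ℂ) / 2)) * Complex.I = -(Real.pi * x * Complex.I) := by ring
      have e2 : (2 * (Real.pi : ℂ) * ((x : ℂ) / 2)) * Complex.I = (Real.pi * x * Complex.I) := by ring
      rw [e1, e2, ← neg_mul]
      ring
    rw [h2, mul_add, ← ex_add, ← ex_add]
    congr 1
    · rw [← ex_zero]; congr 1; ring
    · congr 1; ring
  rw [h1, norm_mul, norm_ex, one_mul, Complex.norm_real, Real.norm_eq_abs, abs_mul, abs_of_pos (by norm_num : (0:ℝ) < 2)]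

/-- the decoupling -/
theorem decouple {A : ℕ} (g1 g2 : (Fin A → Bool) → ℤ) (B : Fin A → (Fin A → Bool) → ℤ) (θ : ℝ) :
    ‖∑ X : Fin A → Bool, ∑ Y : Fin A → Bool, ex (θ * ((g1 X + g2 Y + ∑ k, if X k then B k Y else 0 : ℤ) : ℝ))‖ ^ 2 ≤
      4 ^ A * ∑ Y : Fin A → Bool, ∑ Y' : Fin A → Bool, ∏ k, |Real.cos (Real.pi * (θ * ((B k Y - B k Y' : ℤ) : ℝ)))| := by
  classical
  set h : (Fin A → Bool) → (Fin A → Bool) → ℂ := fun X Y =>
    ex (θ * ((g2 Y + ∑ k, if X k then B k Y else 0 : ℤ) : ℝ)) with hh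
  have h1 : ‖∑ X : Fin A → Bool, ∑ Y : Fin A → Bool, ex (θ * ((g1 X + g2 Y + ∑ k, if X k then B k Y else 0 : ℤ) : ℝ))‖ ≤
      ∑ X : Fin A → Bool, ‖∑ Y : Fin A → Bool, h X Y‖ := by
    refine (norm_sum_le _ _).trans (Finset.sum_le_sum fun X _ => ?_)
    have e : ∑ Y : Fin A → Bool, ex (θ * ((g1 X + g2 Y + ∑ k, if X k then B k Y else 0 : ℤ) : ℝ)) =
        ex (θ * g1 X) * ∑ Y : Fin A → Bool, h X Y := by
      rw [Finset.mul_sum]
      refine Finset.sum_congr rfl fun Y _ => ?_
      rw [hh]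
      simp only
      rw [← ex_add]
      congr 1
      push_cast
      ring
    rw [e, norm_mul, norm_ex, one_mul]
  have h2 : (∑ X : Fin A → Bool, ‖∑ Y : Fin A → Bool, h X Y‖) ^ 2 ≤
      2 ^ A * ∑ X : Fin A → Bool, ‖∑ Y : Fin A → Bool, h X Y‖ ^ 2 := by
    have h3 := sq_sum_le_card_mul_sum_sq (s := (univ : Finset (Fin A → Bool)))
      (f := fun X => ‖∑ Y : Fin A → Bool, h X Y‖)
    rw [Finset.card_univ, Fintype.card_fun, Fintype.card_bool, Fintype.card_fin] at h3
    push_cast at h3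
    exact h3
  have h3 : ∑ X : Fin A → Bool, ‖∑ Y : Fin A → Bool, h X Y‖ ^ 2 ≤
      2 ^ A * ∑ Y : Fin A → Bool, ∑ Y' : Fin A → Bool, ∏ k, |Real.cos (Real.pi * (θ * ((B k Y - B k Y' : ℤ) : ℝ)))| := by
    have h4 : ((∑ X : Fin A → Bool, ‖∑ Y : Fin A → Bool, h X Y‖ ^ 2 : ℝ) : ℂ) =
        ∑ Y : Fin A → Bool, ∑ Y' : Fin A → Bool, ex (θ * ((g2 Y - g2 Y' : ℤ) : ℝ)) *
          ∏ k, (1 + ex (θ * ((B k Y - B k Y' : ℤ) : ℝ))) := by
      have h5 : ∀ X : Fin A → Bool, ((‖∑ Y : Fin A → Bool, h X Y‖ ^ 2 : ℝ) : ℂ) =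
          ∑ Y : Fin A → Bool, ∑ Y' : Fin A → Bool, ex (θ * ((g2 Y - g2 Y' : ℤ) : ℝ)) *
            ∏ k, (if X k then ex (θ * ((B k Y - B k Y' : ℤ) : ℝ)) else 1) := by
        intro X
        have h6 := Complex.mul_conj (∑ Y : Fin A → Bool, h X Y)
        rw [Complex.normSq_eq_norm_sq] at h6
        rw [← h6, map_sum, Finset.sum_mul_sum]
        refine Finset.sum_congr rfl fun Y _ => Finset.sum_congr rfl fun Y' _ => ?_
        rw [hh]
        simp only
        rw [← ex_neg, ← ex_add]
        have h7 : ∏ k, (if X k then ex (θ * ((B k Y - B k Y' : ℤ) : ℝ)) else 1) =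
            ex (∑ k, if X k then (θ * ((B k Y - B k Y' : ℤ) : ℝ)) else 0) := by
          rw [ex_sum]
          refine Finset.prod_congr rfl fun k _ => ?_
          split_ifs
          · rfl
          · exact ex_zero.symm
        rw [h7, ← ex_add]
        congr 1
        have h8 : (∑ k, if X k then (θ * ((B k Y - B k Y' : ℤ) : ℝ)) else 0) =
            θ * ((∑ k, (if X k then B k Y else 0) : ℤ) : ℝ) - θ * ((∑ k, (if X k then B k Y' else 0) : ℤ) : ℝ) := by
          rw [← mul_sub, ← Int.cast_sub, ← Finset.sum_sub_distrib, Int.cast_sum, Finset.mul_sum]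
          refine Finset.sum_congr rfl fun k _ => ?_
          split_ifs
          · rfl
          · simp
        rw [h8]
        push_cast
        ring
      push_cast
      have h6 : ∀ X : Fin A → Bool, ((‖∑ Y : Fin A → Bool, h X Y‖ : ℝ) : ℂ) ^ 2 =
          ∑ Y : Fin A → Bool, ∑ Y' : Fin A → Bool, ex (θ * ((g2 Y - g2 Y' : ℤ) : ℝ)) *
            ∏ k, (if X k then ex (θ * ((B k Y - B k Y' : ℤ) : ℝ)) else 1) := by
        intro X
        rw [← h5 X]
        push_cast
        rfl
      rw [Finset.sum_congr rfl fun X _ => h6 X, Finset.sum_comm]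
      refine Finset.sum_congr rfl fun Y _ => ?_
      rw [Finset.sum_comm]
      refine Finset.sum_congr rfl fun Y' _ => ?_
      rw [← Finset.mul_sum]
      push_cast
      congr 1
      have h7 := Finset.prod_univ_sum (fun _ : Fin A => (univ : Finset Bool))
        (fun (k : Fin A) (b : Bool) => if b then ex (θ * ((B k Y : ℝ) - (B k Y' : ℝ))) else 1)
      rw [Fintype.piFinset_univ] at h7
      rw [← h7]
      refine Finset.prod_congr rfl fun k _ => ?_
      rw [Fintype.sum_bool]
      simp only [if_true, Bool.false_eq_true, if_false]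
      ring
    have h5 : 0 ≤ ∑ X : Fin A → Bool, ‖∑ Y : Fin A → Bool, h X Y‖ ^ 2 := by positivity
    have h6 : ∑ X : Fin A → Bool, ‖∑ Y : Fin A → Bool, h X Y‖ ^ 2 =
        ‖((∑ X : Fin A → Bool, ‖∑ Y : Fin A → Bool, h X Y‖ ^ 2 : ℝ) : ℂ)‖ := by
      rw [Complex.norm_real, Real.norm_of_nonneg h5]
    rw [h6, h4]
    refine (norm_sum_le _ _).trans ?_
    rw [Finset.mul_sum]
    refine Finset.sum_le_sum fun Y _ => ?_
    refine (norm_sum_le _ _).trans ?_
    rw [Finset.mul_sum]
    refine Finset.sum_le_sum fun Y' _ => ?_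
    rw [norm_mul, norm_ex, one_mul, norm_prod]
    refine le_of_eq ?_
    rw [Finset.prod_congr rfl fun k _ => one_add_ex _, Finset.prod_mul_distrib, Finset.prod_const,
      Finset.card_univ, Fintype.card_fin]
  calc ‖∑ X : Fin A → Bool, ∑ Y : Fin A → Bool, ex (θ * ((g1 X + g2 Y + ∑ k, if X k then B k Y else 0 : ℤ) : ℝ))‖ ^ 2
      ≤ (∑ X : Fin A → Bool, ‖∑ Y : Fin A → Bool, h X Y‖) ^ 2 := by gcongr
    _ ≤ 2 ^ A * ∑ X : Fin A → Bool, ‖∑ Y : Fin A → Bool, h X Y‖ ^ 2 := h2
    _ ≤ 2 ^ A * (2 ^ A * ∑ Y : Fin A → Bool, ∑ Y' : Fin A → Bool,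
        ∏ k, |Real.cos (Real.pi * (θ * ((B k Y - B k Y' : ℤ) : ℝ)))|) := by gcongr
    _ = _ := by
      rw [← mul_assoc, ← mul_pow]
      norm_num

theorem abs_cos_int (x : ℝ) (n : ℤ) : |Real.cos (Real.pi * (x + n))| = |Real.cos (Real.pi * x)| := by
  have h1 : Real.pi * (x + n) = Real.pi * x + n * Real.pi := by ring
  rw [h1, Real.cos_add_int_mul_pi, abs_mul]
  have h2 : |((-1 : ℝ) ^ n)| = 1 := by
    rw [abs_zpow, abs_neg, abs_one, one_zpow]
  rw [h2, one_mul]

theorem gsum (M : ℕ) (hM : 0 < M) (a : ℤ) :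
    0 ≤ (∑ r ∈ range M, ex (r * ((a : ℝ) / M))).re ∧ (a = 0 → (∑ r ∈ range M, ex (r * ((a : ℝ) / M))).re = M) := by
  have hM' : (M : ℝ) ≠ 0 := by positivity
  have h0 : ∑ r ∈ range M, ex (r * ((a : ℝ) / M)) = ∑ r ∈ range M, ex ((a : ℝ) / M) ^ r :=
    Finset.sum_congr rfl fun r _ => ex_nat_mul r _
  rw [h0]
  constructor
  · by_cases h1 : ex ((a : ℝ) / M) = 1
    · rw [h1]
      simp
    · have h2 := geom_sum_eq h1 M
      have h3 : ex ((a : ℝ) / M) ^ M = 1 := by
        rw [← ex_nat_mul, mul_div_cancel₀ _ hM']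
        exact ex_int a
      rw [h3, sub_self, zero_div] at h2
      rw [h2]
      simp
  · rintro rfl
    rw [Int.cast_zero, zero_div, ex_zero]
    simp

/-- the count is bounded by the Fourier coefficients -/
theorem count_le {α : Type*} [Fintype α] (G : α → ℤ) (t : ℤ) (M : ℕ) (hM : 0 < M) (k : ℤ) :
    ((univ.filter fun v => G v = t).card : ℝ) * M ≤
      ∑ r ∈ range M, ‖∑ v, ex (((r : ℝ) * k / M) * (G v : ℝ))‖ := by
  classical
  have hM' : (M : ℝ) ≠ 0 := by positivity
  have h1 : ((univ.filter fun v => G v = t).card : ℝ) * M ≤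
      ∑ v, (∑ r ∈ range M, ex (r * (((k * (G v - t) : ℤ) : ℝ) / M))).re := by
    rw [← Finset.sum_boole, Finset.sum_mul]
    refine Finset.sum_le_sum fun v _ => ?_
    obtain ⟨h2, h3⟩ := gsum M hM (k * (G v - t))
    split_ifs with h
    · rw [one_mul, h3 (by rw [h]; ring)]
    · rw [zero_mul]
      exact h2
  refine h1.trans ?_
  have h2 : ∑ v, (∑ r ∈ range M, ex (r * (((k * (G v - t) : ℤ) : ℝ) / M))).re =
      (∑ r ∈ range M, ex (-((r : ℝ) * k / M * t)) * ∑ v, ex (((r : ℝ) * k / M) * (G v : ℝ))).re := by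
    rw [← Complex.re_sum, Finset.sum_comm]
    congr 1
    refine Finset.sum_congr rfl fun r _ => ?_
    rw [Finset.mul_sum]
    refine Finset.sum_congr rfl fun v _ => ?_
    rw [← ex_add]
    congr 1
    push_cast
    field_simp
    ring
  rw [h2]
  refine (Complex.re_le_norm _).trans ((norm_sum_le _ _).trans (Finset.sum_le_sum fun r _ => ?_))
  rw [norm_mul, norm_ex, one_mul]

/-- the kernel -/
def Bk {A : ℕ} (c1 c2 : ℤ) (k : Fin A) (Y : Fin A → Bool) : ℤ :=
  ∑ l, if Y l then (if l < k then c1 else c2) else 0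

theorem Bk_sub {A : ℕ} (c1 c2 : ℤ) (k : Fin A) (Y Y' : Fin A → Bool) :
    Bk c1 c2 k Y - Bk c1 c2 k Y' = c2 * st (fun l => (Y l, Y' l)) + (c1 - c2) * ps (fun l => (Y l, Y' l)) k := by
  unfold Bk st ps
  rw [← Finset.sum_sub_distrib, Finset.mul_sum, Finset.mul_sum, ← Finset.sum_add_distrib]
  refine Finset.sum_congr rfl fun l _ => ?_
  by_cases h : l < k
  · have h' : (l : ℕ) < k := h
    rw [if_pos h, if_pos h']
    unfold dd
    simp only
    split_ifs <;> ring
  · have h' : ¬ (l : ℕ) < k := h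
    rw [if_neg h, if_neg h']
    unfold dd
    simp only
    split_ifs <;> ring

theorem pairs {A : ℕ} (F : (Fin A → Bool × Bool) → ℝ) :
    ∑ Y : Fin A → Bool, ∑ Y' : Fin A → Bool, F (fun l => (Y l, Y' l)) = ∑ v : Fin A → Bool × Bool, F v := by
  rw [← (Equiv.arrowProdEquivProdArrow (Fin A) (fun _ => Bool) (fun _ => Bool)).symm.sum_comp,
    Fintype.sum_prod_type]
  rfl

theorem pairsC {A : ℕ} (F : (Fin A → Bool × Bool) → ℂ) :
    ∑ Y : Fin A → Bool, ∑ Y' : Fin A → Bool, F (fun l => (Y l, Y' l)) = ∑ v : Fin A → Bool × Bool, F v := by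
  rw [← (Equiv.arrowProdEquivProdArrow (Fin A) (fun _ => Bool) (fun _ => Bool)).symm.sum_comp,
    Fintype.sum_prod_type]
  rfl

/-- the integer valued function -/
def GG {A : ℕ} (c1 c2 : ℤ) (g1 g2 : (Fin A → Bool) → ℤ) (v : Fin A → Bool × Bool) : ℤ :=
  g1 (fun k => (v k).1) + g2 (fun k => (v k).2) + ∑ k, if (v k).1 then Bk c1 c2 k (fun l => (v l).2) else 0

theorem coef {A : ℕ} (c1 c2 : ℤ) (g1 g2 : (Fin A → Bool) → ℤ) (M : ℕ) (hMA : M ≤ A) (hodd : Odd M)
    (k : ℤ) (z : ℤ) (hk : (c1 - c2) * k = 1 + M * z) (r : ℕ) (hr : 0 < r) (hrM : r < M) :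
    ‖∑ v, ex (((r : ℝ) * k / M) * (GG c1 c2 g1 g2 v : ℝ))‖ ≤ 4 ^ A * (79 / 80) ^ (min r (M - r)) := by
  have hM0 : 0 < M := by omega
  have hM' : (M : ℝ) ≠ 0 := by positivity
  have hM'' : (0 : ℝ) < M := by positivity
  set θ : ℝ := (r : ℝ) * k / M with hθ
  set j := min r (M - r) with hj
  have hj0 : 0 < j := by rw [hj]; omega
  have hj2 : 2 * j < M := by
    obtain ⟨q, hq⟩ := hodd
    rw [hj]
    omega
  have h1 := decouple g1 g2 (Bk c1 c2) θ
  have e1 : ∑ v, ex (θ * (GG c1 c2 g1 g2 v : ℝ)) = ∑ X : Fin A → Bool, ∑ Y : Fin A → Bool,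
      ex (θ * ((g1 X + g2 Y + ∑ k, if X k then Bk c1 c2 k Y else 0 : ℤ) : ℝ)) := by
    rw [← pairsC (fun v => ex (θ * (GG c1 c2 g1 g2 v : ℝ)))]
    rfl
  rw [← e1] at h1
  have e2 : ∑ Y : Fin A → Bool, ∑ Y' : Fin A → Bool, ∏ a, |Real.cos (Real.pi * (θ * ((Bk c1 c2 a Y - Bk c1 c2 a Y' : ℤ) : ℝ)))| =
      ∑ v : Fin A → Bool × Bool, ∏ a : Fin A, |Real.cos (Real.pi * ((θ * c2 * st v) + (θ * (c1 - c2)) * ps v a))| := by
    rw [← pairs]
    refine Finset.sum_congr rfl fun Y _ => Finset.sum_congr rfl fun Y' _ => Finset.prod_congr rfl fun a _ => ?_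
    rw [Bk_sub]
    push_cast
    congr 3
    ring
  rw [e2] at h1
  set h := M / (2 * j) with hh
  have hh1 : h * (2 * j) ≤ M := Nat.div_mul_le_self _ _
  have hh2 : M < (h + 1) * (2 * j) := by
    rw [mul_comm]
    exact Nat.lt_mul_div_succ M (by omega)
  have hh0 : 0 < h := Nat.div_pos hj2.le (by omega)
  have hw := walk h hh0 ((j : ℝ) / M) (θ * (c1 - c2)) (by positivity) (by
      rw [div_mul_eq_mul_div, le_div_iff₀ hM'']
      have h3 : M ≤ 4 * (j * h) := by nlinarith
      have : (M : ℝ) ≤ 4 * (j * h) := by exact_mod_cast h3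
      linarith) (by
      rw [div_mul_eq_mul_div, div_le_iff₀ hM'']
      have h3 : 2 * (j * h) ≤ M := by nlinarith
      have : 2 * ((j : ℝ) * h) ≤ M := by exact_mod_cast h3
      linarith) (by
      intro W
      have h3 : θ * (c1 - c2) * W = (r : ℝ) / M * W + ((r * z * W : ℤ) : ℝ) := by
        have h4 : (((c1 - c2) * k : ℤ) : ℝ) = ((1 + M * z : ℤ) : ℝ) := by rw [hk]
        push_cast at h4
        rw [hθ]
        push_cast
        field_simp
        linear_combination (W : ℝ) * h4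
      rw [h3, abs_cos_int]
      rcases le_total r (M - r) with h5 | h5
      · rw [hj, min_eq_left h5]
      · rw [hj, min_eq_right h5, Nat.cast_sub hrM.le]
        have h6 : ((M : ℝ) - r) / M * W = -((r : ℝ) / M * W) + ((W : ℤ) : ℝ) := by
          field_simp
          ring
        rw [h6, abs_cos_int, mul_neg, Real.cos_neg]) j A (by
      refine le_trans ?_ hMA
      nlinarith) (fun v => θ * c2 * st v)
  have h2 : ‖∑ v, ex (θ * (GG c1 c2 g1 g2 v : ℝ))‖ ^ 2 ≤ (4 ^ A * (79 / 80) ^ j) ^ 2 := by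
    refine h1.trans ?_
    calc (4 : ℝ) ^ A * ∑ v : Fin A → Bool × Bool, ∏ a : Fin A, |Real.cos (Real.pi * ((θ * c2 * st v) + (θ * (c1 - c2)) * ps v a))|
        ≤ 4 ^ A * (4 ^ A * (39 / 40) ^ j) := by gcongr
      _ ≤ 4 ^ A * (4 ^ A * ((79 / 80) ^ 2) ^ j) := by
          gcongr
          norm_num
      _ = _ := by rw [mul_pow, ← pow_mul, ← pow_mul, mul_comm 2 j, ← pow_mul, mul_comm A 2, pow_mul]; ring
  exact le_of_sq_le_sq h2 (by positivity)

theorem geo (M : ℕ) : ∑ r ∈ range M, (79 / 80 : ℝ) ^ (r + 1) ≤ 79 := by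
  have h : ∀ M : ℕ, ∑ r ∈ range M, (79 / 80 : ℝ) ^ (r + 1) = 79 - 79 * (79 / 80) ^ M := by
    intro M
    induction M with
    | zero => simp
    | succ M ih => rw [Finset.sum_range_succ, ih, pow_succ]; ring
  rw [h]
  have : (0 : ℝ) ≤ 79 * (79 / 80) ^ M := by positivity
  linarith

theorem lemmaQ0 {A : ℕ} (c1 c2 : ℤ) (hc : |c1 - c2| = 288) (g1 g2 : (Fin A → Bool) → ℤ) (t : ℤ) :
    ((univ.filter fun v : Fin A → Bool × Bool => GG c1 c2 g1 g2 v = t).card : ℝ) * (A + 1) ≤ 1113 * 4 ^ A := by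
  have hcard : ((univ.filter fun v : Fin A → Bool × Bool => GG c1 c2 g1 g2 v = t).card : ℝ) ≤ 4 ^ A := by
    have h1 := Finset.card_filter_le (univ : Finset (Fin A → Bool × Bool)) (fun v => GG c1 c2 g1 g2 v = t)
    have h2 := card_B A
    rw [Finset.sum_const, nsmul_eq_mul, mul_one] at h2
    rw [← h2]
    exact_mod_cast h1
  rcases Nat.eq_zero_or_pos A with rfl | hA
  · norm_num at hcard ⊢
    linarith
  set q := (A - 1) / 6 with hq
  set M := 6 * q + 1 with hM
  have hMA : M ≤ A := by omega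
  have hMA' : A + 1 ≤ M + 6 := by omega
  have hodd : Odd M := ⟨3 * q, by omega⟩
  have hcop : IsCoprime (M : ℤ) (c1 - c2) := by
    have h1 : IsCoprime (M : ℤ) 6 := ⟨1, -q, by rw [hM]; push_cast; ring⟩
    have h2 : IsCoprime (M : ℤ) (6 ^ 5) := h1.pow_right
    refine h2.of_isCoprime_of_dvd_right ?_
    rw [← abs_dvd, hc]
    norm_num
  obtain ⟨z, k, hzk⟩ := hcop
  have hk : (c1 - c2) * k = 1 + M * (-z) := by linarith
  have h1 := count_le (GG c1 c2 g1 g2) t M (by omega) k
  have h2 : ∑ r ∈ range M, ‖∑ v, ex (((r : ℝ) * k / M) * (GG c1 c2 g1 g2 v : ℝ))‖ ≤ 4 ^ A * 159 := by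
    rw [hM, Finset.sum_range_succ']
    have h3 : ‖∑ v, ex ((((0 : ℕ) : ℝ) * k / (6 * q + 1 : ℕ)) * (GG c1 c2 g1 g2 v : ℝ))‖ ≤ 4 ^ A := by
      refine (norm_sum_le _ _).trans (le_of_eq ?_)
      simp only [norm_ex]
      exact card_B A
    have h4 : ∑ r ∈ range (6 * q), ‖∑ v, ex ((((r + 1 : ℕ) : ℝ) * k / (6 * q + 1 : ℕ)) * (GG c1 c2 g1 g2 v : ℝ))‖ ≤
        ∑ r ∈ range (6 * q), (4 ^ A * (79 / 80) ^ (r + 1) + 4 ^ A * (79 / 80) ^ ((6 * q - 1 - r) + 1)) := by
      refine Finset.sum_le_sum fun r hr => ?_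
      rw [Finset.mem_range] at hr
      have h5 := coef c1 c2 g1 g2 M hMA hodd k (-z) hk (r + 1) (by omega) (by omega)
      refine h5.trans ?_
      have h6 : M - (r + 1) = (6 * q - 1 - r) + 1 := by omega
      rw [h6]
      have h7 : (0 : ℝ) ≤ 4 ^ A * (79 / 80) ^ (r + 1) := by positivity
      have h8 : (0 : ℝ) ≤ 4 ^ A * (79 / 80) ^ ((6 * q - 1 - r) + 1) := by positivity
      rcases min_choice (r + 1) ((6 * q - 1 - r) + 1) with h9 | h9 <;> rw [h9] <;> linarith
    rw [Finset.sum_add_distrib, ← Finset.mul_sum, ← Finset.mul_sum,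
      Finset.sum_range_reflect (fun r => (79 / 80 : ℝ) ^ (r + 1)) (6 * q)] at h4
    have h5 := geo (6 * q)
    have h6 : (0 : ℝ) < 4 ^ A := by positivity
    nlinarith
  have h3 := h1.trans h2
  have h4 : (A : ℝ) + 1 ≤ 7 * M := by
    have : A + 1 ≤ 7 * M := by omega
    exact_mod_cast this
  calc ((univ.filter fun v : Fin A → Bool × Bool => GG c1 c2 g1 g2 v = t).card : ℝ) * (A + 1)
      ≤ ((univ.filter fun v : Fin A → Bool × Bool => GG c1 c2 g1 g2 v = t).card : ℝ) * (7 * M) := by gcongr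
    _ = 7 * (((univ.filter fun v : Fin A → Bool × Bool => GG c1 c2 g1 g2 v = t).card : ℝ) * M) := by ring
    _ ≤ 7 * (4 ^ A * 159) := by gcongr
    _ = _ := by ring

/-- a function on the cube which is not changed by changes of one coordinate is constant -/
theorem const_of_update {A : ℕ} {γ : Type*} (f : (Fin A → Bool) → γ)
    (h : ∀ X k, f (Function.update X k true) = f (Function.update X k false)) (X X' : Fin A → Bool) :
    f X = f X' := by
  classical
  have h1 : ∀ X k b, f (Function.update X k b) = f X := by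
    intro X k b
    have h2 := h X k
    have h3 : Function.update X k (X k) = X := Function.update_eq_self k X
    cases b <;> cases hx : X k <;> rw [hx] at h3
    · rw [h3]
    · rw [← h2, h3]
    · rw [h2, h3]
    · rw [h3]
  have h2 : ∀ s : Finset (Fin A), f (fun k => if k ∈ s then X k else X' k) = f X' := by
    intro s
    induction s using Finset.induction_on with
    | empty => simp
    | insert a s ha ih =>
      rw [← ih]
      have h3 : (fun k => if k ∈ insert a s then X k else X' k) =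
          Function.update (fun k => if k ∈ s then X k else X' k) a (X a) := by
        funext k
        by_cases hk : k = a
        · subst hk
          simp
        · rw [Function.update_of_ne hk]
          simp [hk]
      rw [h3, h1]
  have h3 := h2 univ
  simpa using h3

/-- functions with constant mixed differences -/
theorem bilin {A : ℕ} (c1 c2 : ℤ) (G : (Fin A → Bool) → (Fin A → Bool) → ℤ)
    (h : ∀ X Y (k l : Fin A), G (Function.update X k true) (Function.update Y l true) -
      G (Function.update X k true) (Function.update Y l false) -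
      G (Function.update X k false) (Function.update Y l true) +
      G (Function.update X k false) (Function.update Y l false) = if l < k then c1 else c2) :
    ∃ g1 g2 : (Fin A → Bool) → ℤ, ∀ X Y, G X Y = g1 X + g2 Y + ∑ k, if X k then Bk c1 c2 k Y else 0 := by
  classical
  set S : (Fin A → Bool) → (Fin A → Bool) → ℤ := fun X Y => ∑ k, if X k then Bk c1 c2 k Y else 0 with hS
  have hSx : ∀ X Y k, S (Function.update X k true) Y - S (Function.update X k false) Y = Bk c1 c2 k Y := by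
    intro X Y k
    rw [hS]
    simp only
    rw [← Finset.sum_sub_distrib, Finset.sum_eq_single k]
    · simp
    · intro b _ hb
      rw [Function.update_of_ne hb, Function.update_of_ne hb, sub_self]
    · intro h
      exact absurd (Finset.mem_univ _) h
  have hB : ∀ (k : Fin A) Y l, Bk c1 c2 k (Function.update Y l true) - Bk c1 c2 k (Function.update Y l false) =
      if l < k then c1 else c2 := by
    intro k Y l
    unfold Bk
    rw [← Finset.sum_sub_distrib, Finset.sum_eq_single l]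
    · simp
    · intro b _ hb
      rw [Function.update_of_ne hb, Function.update_of_ne hb, sub_self]
    · intro h
      exact absurd (Finset.mem_univ _) h
  set H : (Fin A → Bool) → (Fin A → Bool) → ℤ := fun X Y => G X Y - S X Y with hH
  have h1 : ∀ X k Y Y', H (Function.update X k true) Y - H (Function.update X k false) Y =
      H (Function.update X k true) Y' - H (Function.update X k false) Y' := by
    intro X k
    refine const_of_update (fun Y => H (Function.update X k true) Y - H (Function.update X k false) Y) ?_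
    intro Y l
    have h2 := h X Y k l
    have h3 := hSx X (Function.update Y l true) k
    have h4 := hSx X (Function.update Y l false) k
    have h5 := hB k Y l
    rw [hH]
    simp only
    linarith
  have h2 : ∀ Y Y' X X', H X Y - H X Y' = H X' Y - H X' Y' := by
    intro Y Y'
    refine const_of_update (fun X => H X Y - H X Y') ?_
    intro X k
    have := h1 X k Y Y'
    linarith
  refine ⟨fun X => H X (fun _ => false) - H (fun _ => false) (fun _ => false), fun Y => H (fun _ => false) Y, fun X Y => ?_⟩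
  have h3 := h2 Y (fun _ => false) X (fun _ => false)
  have h4 : G X Y = H X Y + S X Y := by rw [hH]; ring
  rw [h4]
  linarith

/-- **the count**: a function of two vectors of bits with constant mixed differences does not concentrate -/
theorem lemmaQ {N : ℕ} (T : Finset (Fin N)) (c1 c2 : ℤ) (hc : |c1 - c2| = 288)
    (G : (Fin N → Bool) → (Fin N → Bool) → ℤ)
    (hloc : ∀ X X' Y Y', (∀ k ∈ T, X k = X' k) → (∀ k ∈ T, Y k = Y' k) → G X Y = G X' Y')
    (hmix : ∀ X Y, ∀ k ∈ T, ∀ l ∈ T, G (Function.update X k true) (Function.update Y l true) -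
      G (Function.update X k true) (Function.update Y l false) -
      G (Function.update X k false) (Function.update Y l true) +
      G (Function.update X k false) (Function.update Y l false) = if l < k then c1 else c2) (t : ℤ) :
    ((univ.filter fun v : Fin N → Bool × Bool => G (fun k => (v k).1) (fun k => (v k).2) = t).card : ℝ) *
      (T.card + 1) ≤ 1113 * 4 ^ N := by
  classical
  set A := T.card with hA
  set ι : Fin A ↪o Fin N := T.orderEmbOfFin rfl with hι
  have hrange : ∀ k, k ∈ T ↔ ∃ a, ι a = k := by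
    intro k
    have := Finset.range_orderEmbOfFin T (rfl : T.card = A)
    have h2 : k ∈ Set.range ι ↔ k ∈ (T : Set (Fin N)) := by rw [hι, this]
    rw [← Finset.mem_coe, ← h2]
    rfl
  have hinj : Function.Injective ι := ι.injective
  set e : (Fin A → Bool) → Fin N → Bool := fun X => Function.extend ι X (fun _ => false) with he
  have he1 : ∀ X a, e X (ι a) = X a := fun X a => hinj.extend_apply _ _ _
  have he2 : ∀ X a b, e (Function.update X a b) = Function.update (e X) (ι a) b := by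
    intro X a b
    funext k
    by_cases hk : ∃ a', ι a' = k
    · obtain ⟨a', rfl⟩ := hk
      rw [he1]
      by_cases h : a' = a
      · subst h
        simp
      · rw [Function.update_of_ne h, Function.update_of_ne (fun h' => h (hinj h')), he1]
    · rw [Function.update_of_ne (by rintro rfl; exact hk ⟨a, rfl⟩)]
      simp only [he]
      rw [Function.extend_apply' _ _ _ hk, Function.extend_apply' _ _ _ hk]
  have hb := bilin c1 c2 (fun X Y => G (e X) (e Y)) (by
    intro X Y k l
    rw [he2, he2, he2, he2, hmix (e X) (e Y) (ι k) ((hrange _).2 ⟨k, rfl⟩) (ι l) ((hrange _).2 ⟨l, rfl⟩)]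
    simp only [ι.lt_iff_lt])
  obtain ⟨g1, g2, hg⟩ := hb
  have h0 := lemmaQ0 c1 c2 hc g1 g2 t
  have h1 : ((univ.filter fun v : Fin N → Bool × Bool => G (fun k => (v k).1) (fun k => (v k).2) = t).card : ℝ) =
      4 ^ (N - A) * ((univ.filter fun v : Fin A → Bool × Bool => GG c1 c2 g1 g2 v = t).card : ℝ) := by
    have h2 := restr (β := Bool × Bool) ι hinj
      (fun v => if GG c1 c2 g1 g2 v = t then (1 : ℝ) else 0)
    rw [Fintype.card_fin, Fintype.card_fin, Fintype.card_prod, Fintype.card_bool] at h2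
    rw [← Finset.sum_boole, ← Finset.sum_boole]
    norm_num at h2
    rw [← Finset.sum_boole, ← Finset.sum_boole] at h2
    rw [← h2]
    refine Finset.sum_congr rfl fun v _ => ?_
    have h3 : G (fun k => (v k).1) (fun k => (v k).2) = GG c1 c2 g1 g2 (v ∘ ι) := by
      unfold GG
      rw [← hg]
      apply hloc
      · intro k hk
        obtain ⟨a, rfl⟩ := (hrange k).1 hk
        rw [he1]
        rfl
      · intro k hk
        obtain ⟨a, rfl⟩ := (hrange k).1 hk
        rw [he1]
        rfl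
    rw [h3]
  rw [h1]
  have hAN : A ≤ N := by
    have := Finset.card_le_univ T
    rwa [Fintype.card_fin] at this
  calc 4 ^ (N - A) * ((univ.filter fun v : Fin A → Bool × Bool => GG c1 c2 g1 g2 v = t).card : ℝ) * (A + 1)
      = 4 ^ (N - A) * (((univ.filter fun v : Fin A → Bool × Bool => GG c1 c2 g1 g2 v = t).card : ℝ) * (A + 1)) := by ring
    _ ≤ 4 ^ (N - A) * (1113 * 4 ^ A) := by gcongr
    _ = 1113 * (4 ^ (N - A) * 4 ^ A) := by ring
    _ = _ := by rw [← pow_add, Nat.sub_add_cancel hAN]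

end Pool.Agent.T6.H96.VB
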