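import Pool.Agent.T6.H96.VB.Mixed

/-!
# Pure braid words which change only the moments from a given order on
-/

set_option autoImplicit false

namespace Pool.Agent.T6.H96.VB

open Finset LaurentPolynomial Pool.Agent.H891R2.Jones Pool.Agent.W639.RB Pool.Agent.H832R3.VJ
open Pool.Agent.H832R3.VJ.V7 (moment_C_mul moment_T_mul)

variable {m : ℕ}

/-! ### moments -/

theorem q_mul (k : ℕ) (x : ℤ[T;T⁻¹]) (h : ∀ i < k, moment i x = 0) :
    (∀ i < k + 1, moment i ((T 1 - T (-3)) * x) = 0) ∧
      moment (k + 1) ((T 1 - T (-3)) * x) = 4 * (k + 1) * moment k x := by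
  have h1 : ∀ j, moment j ((T 1 - T (-3)) * x) =
      ∑ i ∈ range (j + 1), (j.choose i : ℤ) * (1 ^ (j - i) - (-3) ^ (j - i)) * moment i x := by
    intro j
    rw [sub_mul, moment_sub, moment_T_mul, moment_T_mul, ← Finset.sum_sub_distrib]
    refine Finset.sum_congr rfl fun i _ => ?_
    ring
  constructor
  · intro j hj
    rw [h1]
    apply Finset.sum_eq_zero
    intro i hi
    rw [Finset.mem_range] at hi
    by_cases hik : i < k
    · rw [h i hik, mul_zero]
    · have : j - i = 0 := by omega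
      rw [this, pow_zero, pow_zero, sub_self, mul_zero, zero_mul]
  · rw [h1, Finset.sum_range_succ, Finset.sum_range_succ]
    have h2 : ∑ i ∈ range k, ((k + 1).choose i : ℤ) * (1 ^ (k + 1 - i) - (-3) ^ (k + 1 - i)) * moment i x = 0 := by
      apply Finset.sum_eq_zero
      intro i hi
      rw [Finset.mem_range] at hi
      rw [h i hi, mul_zero]
    rw [h2, Nat.sub_self, Nat.add_sub_cancel_left, pow_zero, pow_zero, pow_one, pow_one, Nat.choose_succ_self_right]
    push_cast
    ring

theorem q_pow (k : ℕ) (x : ℤ[T;T⁻¹]) : (∀ i < k, moment i ((T 1 - T (-3)) ^ k * x) = 0) ∧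
    moment k ((T 1 - T (-3)) ^ k * x) = 4 ^ k * k.factorial * moment 0 x := by
  induction k with
  | zero => exact ⟨fun i hi => absurd hi (Nat.not_lt_zero _), by simp⟩
  | succ k ih =>
    obtain ⟨h1, h2⟩ := q_mul k _ ih.1
    rw [pow_succ', mul_assoc]
    refine ⟨h1, ?_⟩
    rw [h2, ih.2, Nat.factorial_succ]
    push_cast
    ring

theorem T_top (k : ℕ) (x : ℤ[T;T⁻¹]) (h : ∀ i < k, moment i x = 0) (c : ℤ) :
    (∀ i < k, moment i (T c * x) = 0) ∧ moment k (T c * x) = moment k x := by
  constructor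
  · intro j hj
    rw [moment_T_mul]
    apply Finset.sum_eq_zero
    intro i hi
    rw [Finset.mem_range] at hi
    rw [h i (by omega), mul_zero]
  · rw [moment_T_mul, Finset.sum_range_succ]
    have h2 : ∑ i ∈ range k, (k.choose i : ℤ) * c ^ (k - i) * moment i x = 0 := by
      apply Finset.sum_eq_zero
      intro i hi
      rw [Finset.mem_range] at hi
      rw [h i hi, mul_zero]
    rw [h2, Nat.sub_self, pow_zero, Nat.choose_self]
    push_cast
    ring

/-! ### inverse words -/

/-- the inverse word -/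
def iw (w : List (Bool × ℕ)) : List (Bool × ℕ) := (w.map fun x => (!x.1, x.2)).reverse

theorem iw_nil : iw [] = [] := rfl

theorem iw_cons (x : Bool × ℕ) (w : List (Bool × ℕ)) : iw (x :: w) = iw w ++ [(!x.1, x.2)] := by
  simp [iw]

theorem iw_len (w : List (Bool × ℕ)) : (iw w).length = w.length := by simp [iw]

theorem iw_valid {w : List (Bool × ℕ)} (hw : Valid m w) : Valid m (iw w) := by
  intro x hx
  unfold iw at hx
  rw [List.mem_reverse, List.mem_map] at hx
  obtain ⟨y, hy, rfl⟩ := hx
  exact hw y hy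

theorem pm_iw (w : List (Bool × ℕ)) : pm m (iw w) = (pm m w)⁻¹ := by
  induction w with
  | nil => simp [iw_nil, pm_nil]
  | cons x w ih =>
    rw [iw_cons, pm_append, ih, pm_cons, pm_cons, pm_nil, mul_one, mul_inv_rev, inv_eq_iff_mul_eq_one.2 (sw_sq x.2)]

theorem swap2 (i : ℕ) (U : ℕ → ℤ) : (U ∘ Equiv.swap i (i + 1)) ∘ Equiv.swap i (i + 1) = U := by
  funext x
  simp

theorem iw_ac (w : List (Bool × ℕ)) : ∀ U, ac (iw w) (ac w U) = U ∧ cw (iw w) (ac w U) = -cw w U := by
  induction w with
  | nil => intro U; exact ⟨rfl, by simp [iw_nil, cw]⟩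
  | cons x w ih =>
    intro U
    obtain ⟨h1, h2⟩ := ih (U ∘ Equiv.swap x.2 (x.2 + 1))
    rw [iw_cons, ac_append, cw_append]
    have e1 : ac (x :: w) U = ac w (U ∘ Equiv.swap x.2 (x.2 + 1)) := rfl
    have e2 : cw (x :: w) U = (if x.1 then 1 else -1) * (U x.2 * U (x.2 + 1)) + cw w (U ∘ Equiv.swap x.2 (x.2 + 1)) := rfl
    rw [e1, e2, h1, h2]
    constructor
    · exact swap2 x.2 U
    · simp only [cw, Function.comp_apply, Equiv.swap_apply_left, Equiv.swap_apply_right]
      cases x.1 <;> simp <;> ring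

section cancel

variable (hm : 0 < m) (O : Outer m)

include hm

theorem cancel_one (x : Bool × ℕ) (hx : x.2 + 1 < m) (a b : List (Bool × ℕ)) (ha : Valid m a) (hb : Valid m b) :
    Br O (a ++ [x, (!x.1, x.2)] ++ b) = Br O (a ++ b) := by
  obtain ⟨s, i⟩ := x
  cases s
  · have := R2' hm O a b ha hb hx
    rw [List.append_nil] at this
    exact this
  · have := R2 hm O a b ha hb hx
    rw [List.append_nil] at this
    exact this

theorem cancel_right (w : List (Bool × ℕ)) (hw : Valid m w) : ∀ a b : List (Bool × ℕ), Valid m a → Valid m b →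
    Br O (a ++ (w ++ iw w) ++ b) = Br O (a ++ b) := by
  induction w with
  | nil => intro a b _ _; simp [iw_nil]
  | cons x w ih =>
    intro a b ha hb
    have hx : x.2 + 1 < m := hw x List.mem_cons_self
    have hw' : Valid m w := fun y hy => hw y (List.mem_cons_of_mem _ hy)
    have hx' : ((!x.1, x.2) : Bool × ℕ).2 + 1 < m := hx
    have h1 := ih hw' (a ++ [x]) ([(!x.1, x.2)] ++ b) (ha.app (Valid.cons hx Valid.nil))
      ((Valid.cons hx' Valid.nil).app hb)
    have h2 := cancel_one hm O x hx a b ha hb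
    rw [iw_cons]
    simp only [List.append_assoc, List.cons_append, List.nil_append] at h1 h2 ⊢
    rw [h1, h2]

theorem cancel_left (w : List (Bool × ℕ)) (hw : Valid m w) : ∀ a b : List (Bool × ℕ), Valid m a → Valid m b →
    Br O (a ++ (iw w ++ w) ++ b) = Br O (a ++ b) := by
  induction w with
  | nil => intro a b _ _; simp [iw_nil]
  | cons x w ih =>
    intro a b ha hb
    have hx : x.2 + 1 < m := hw x List.mem_cons_self
    have hw' : Valid m w := fun y hy => hw y (List.mem_cons_of_mem _ hy)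
    have h1 := ih hw' a b ha hb
    have h2 := cancel_one hm O (!x.1, x.2) hx (a ++ iw w) (w ++ b) (ha.app (iw_valid hw')) (hw'.app hb)
    rw [iw_cons]
    simp only [List.append_assoc, List.cons_append, List.nil_append, Bool.not_not] at h1 h2 ⊢
    rw [h2, h1]

end cancel

/-! ### the moves -/

/-- the word of level `k + 1` -/
def gw (i j : ℕ) : ℕ → List (Bool × ℕ)
  | 0 => [(true, j), (true, j)]
  | (k + 1) => [(true, i), (true, i)] ++ gw i j k ++ [(false, i), (false, i)] ++ iw (gw i j k)

theorem gw_len (i j k : ℕ) : ∃ l, (gw i j k).length = 2 * (l + 1) := by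
  induction k with
  | zero => exact ⟨0, rfl⟩
  | succ k ih =>
    obtain ⟨l, hl⟩ := ih
    refine ⟨2 * l + 3, ?_⟩
    simp only [gw, List.length_append, iw_len, hl, List.length_cons, List.length_nil]
    ring

theorem gw_valid {i j : ℕ} (hi : i + 1 < m) (hj : j + 1 < m) (k : ℕ) : Valid m (gw i j k) := by
  induction k with
  | zero => exact Valid.cons hj (Valid.cons hj Valid.nil)
  | succ k ih =>
    exact (((Valid.cons hi (Valid.cons hi Valid.nil)).app ih).app (Valid.cons hi (Valid.cons hi Valid.nil))).app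
      (iw_valid ih)

theorem pm_gw (i j k : ℕ) : pm m (gw i j k) = 1 := by
  induction k with
  | zero => rw [gw, pm_cons, pm_cons, pm_nil, mul_one, sw_sq]
  | succ k ih =>
    rw [gw, pm_append, pm_append, pm_append, pm_iw, ih]
    simp only [pm_cons, pm_nil, mul_one, sw_sq, inv_one]

theorem gw_ac (i j k : ℕ) : (∀ U, ac (gw i j k) U = U) ∧ ∀ U, cw (gw i j (k + 1)) U = 0 := by
  have h1 : ∀ U, ac (gw i j k) U = U := by
    induction k with
    | zero => intro U; exact ac_two true true U
    | succ k ih =>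
      intro U
      rw [gw, ac_append, ac_append, ac_append, ac_two, ih, ac_two]
      have := (iw_ac (gw i j k) U).1
      rwa [ih] at this
  refine ⟨h1, fun U => ?_⟩
  rw [gw, cw_append, cw_append, cw_append, ac_append, ac_append, ac_append, ac_two, h1, ac_two]
  have h2 := (iw_ac (gw i j k) U).2
  rw [h1] at h2
  rw [h2]
  simp only [cw, Function.comp_apply, Equiv.swap_apply_left, Equiv.swap_apply_right, if_true,
    Bool.false_eq_true, if_false]
  ring

section moves

variable (hm : 0 < m) (O : Outer m) {i j : ℕ} (hi : i + 1 < m) (hj : j + 1 < m)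

include hm hi

theorem step_move (u : List (Bool × ℕ)) (hu : Valid m u) (a b : List (Bool × ℕ)) (ha : Valid m a) (hb : Valid m b) :
    Br O (a ++ ([(true, i), (true, i)] ++ u ++ [(false, i), (false, i)] ++ iw u) ++ b) - Br O (a ++ b) =
      (T 1 - T (-3)) * (Br O ((a ++ [(true, i)]) ++ u ++ ([(false, i), (false, i)] ++ iw u ++ b)) -
        Br O (a ++ u ++ ([(true, i)] ++ ([(false, i), (false, i)] ++ iw u ++ b)))) := by
  have v1 : Valid m ([(false, i), (false, i)] : List (Bool × ℕ)) := Valid.cons hi (Valid.cons hi Valid.nil)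
  have v2 : Valid m ([(true, i)] : List (Bool × ℕ)) := Valid.cons hi Valid.nil
  have v3 : Valid m ([(true, i), (true, i)] : List (Bool × ℕ)) := Valid.cons hi (Valid.cons hi Valid.nil)
  have vb' : Valid m ([(false, i), (false, i)] ++ iw u ++ b) := (v1.app (iw_valid hu)).app hb
  have h1 := R1 hm O a (u ++ ([(false, i), (false, i)] ++ iw u ++ b)) ha (hu.app vb') hi
  have h2 := R1 hm O (a ++ u) ([(false, i), (false, i)] ++ iw u ++ b) (ha.app hu) vb' hi
  have h3 : Br O ((a ++ u) ++ [(true, i), (true, i)] ++ ([(false, i), (false, i)] ++ iw u ++ b)) = Br O (a ++ b) := by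
    have e1 := cancel_right hm O [(true, i), (true, i)] v3 (a ++ u) (iw u ++ b) (ha.app hu) ((iw_valid hu).app hb)
    have e2 := cancel_right hm O u hu a b ha hb
    have e3 : iw [(true, i), (true, i)] = [(false, i), (false, i)] := rfl
    rw [e3] at e1
    simp only [List.append_assoc] at e1 e2 ⊢
    rw [e1, e2]
  rw [h3] at h2
  simp only [List.append_assoc, List.nil_append] at h1 h2 ⊢
  rw [h1, h2]
  ring

/-- the quotient of the difference of the brackets by the power of `T 1 - T (-3)` -/
noncomputable def HH (O : Outer m) (i j : ℕ) : ℕ → List (Bool × ℕ) → List (Bool × ℕ) → ℤ[T;T⁻¹]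
  | 0, a, b => Br O (a ++ [(true, i), (true, j)] ++ ([(false, i), (false, i)] ++ iw (gw i j 0) ++ b)) -
      Br O (a ++ [(true, j), (true, i)] ++ ([(false, i), (false, i)] ++ iw (gw i j 0) ++ b))
  | (k + 1), a, b => HH O i j k (a ++ [(true, i)]) ([(false, i), (false, i)] ++ iw (gw i j (k + 1)) ++ b) -
      HH O i j k a ([(true, i)] ++ ([(false, i), (false, i)] ++ iw (gw i j (k + 1)) ++ b))

include hj

theorem gw_move (k : ℕ) : ∀ a b : List (Bool × ℕ), Valid m a → Valid m b →
    Br O (a ++ gw i j (k + 1) ++ b) - Br O (a ++ b) = (T 1 - T (-3)) ^ (k + 2) * HH O i j k a b := by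
  have v1 : Valid m ([(false, i), (false, i)] : List (Bool × ℕ)) := Valid.cons hi (Valid.cons hi Valid.nil)
  have v2 : Valid m ([(true, i)] : List (Bool × ℕ)) := Valid.cons hi Valid.nil
  induction k with
  | zero =>
    intro a b ha hb
    have h1 := step_move hm O hi (gw i j 0) (gw_valid hi hj 0) a b ha hb
    have vb' : Valid m ([(false, i), (false, i)] ++ iw (gw i j 0) ++ b) := (v1.app (iw_valid (gw_valid hi hj 0))).app hb
    have h2 := R1 hm O (a ++ [(true, i)]) ([(false, i), (false, i)] ++ iw (gw i j 0) ++ b) (ha.app v2) vb' hj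
    have h3 := R1 hm O a ([(true, i)] ++ ([(false, i), (false, i)] ++ iw (gw i j 0) ++ b)) ha (v2.app vb') hj
    have e0 : gw i j (0 + 1) = [(true, i), (true, i)] ++ gw i j 0 ++ [(false, i), (false, i)] ++ iw (gw i j 0) := rfl
    have e1 : gw i j 0 = [(true, j), (true, j)] := rfl
    rw [e0, h1]
    unfold HH
    rw [e1] at h2 h3 ⊢
    simp only [List.append_assoc, List.nil_append, List.cons_append] at h2 h3 ⊢
    rw [h2, h3]
    ring
  | succ k ih =>
    intro a b ha hb
    have vu := gw_valid hi hj (k + 1)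
    have h1 := step_move hm O hi (gw i j (k + 1)) vu a b ha hb
    have vb' : Valid m ([(false, i), (false, i)] ++ iw (gw i j (k + 1)) ++ b) := (v1.app (iw_valid vu)).app hb
    have h2 := ih (a ++ [(true, i)]) ([(false, i), (false, i)] ++ iw (gw i j (k + 1)) ++ b) (ha.app v2) vb'
    have h3 := ih a ([(true, i)] ++ ([(false, i), (false, i)] ++ iw (gw i j (k + 1)) ++ b)) ha (v2.app vb')
    have e0 : gw i j (k + 1 + 1) = [(true, i), (true, i)] ++ gw i j (k + 1) ++ [(false, i), (false, i)] ++ iw (gw i j (k + 1)) := rfl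
    have e1 : HH O i j (k + 1) a b = HH O i j k (a ++ [(true, i)]) ([(false, i), (false, i)] ++ iw (gw i j (k + 1)) ++ b) -
      HH O i j k a ([(true, i)] ++ ([(false, i), (false, i)] ++ iw (gw i j (k + 1)) ++ b)) := rfl
    have e2 : (a ++ [(true, i)]) ++ ([(false, i), (false, i)] ++ iw (gw i j (k + 1)) ++ b) =
      a ++ ([(true, i)] ++ ([(false, i), (false, i)] ++ iw (gw i j (k + 1)) ++ b)) := by
      rw [List.append_assoc]
    rw [e2] at h2
    rw [e0, h1, e1]
    linear_combination (T 1 - T (-3)) * h2 - (T 1 - T (-3)) * h3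

end moves

/-! ### the values at `A = 1` -/

theorem sign_pm (w : List (Bool × ℕ)) (hw : Valid m w) : Equiv.Perm.sign (pm m w) = (-1) ^ w.length := by
  induction w with
  | nil => simp [pm_nil]
  | cons x w ih =>
    have hx : x.2 + 1 < m := hw x List.mem_cons_self
    rw [pm_cons, map_mul, ih (fun y hy => hw y (List.mem_cons_of_mem _ hy)), List.length_cons, pow_succ]
    unfold sw
    rw [dif_pos hx, Equiv.Perm.sign_swap (by simp [Fin.ext_iff]), mul_comm]

theorem even_of_pm {w w' : List (Bool × ℕ)} (hw : Valid m w) (hw' : Valid m w') (h : pm m w = pm m w') :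
    Even (w.length + w'.length) := by
  have h1 : ((-1 : ℤˣ)) ^ (w.length + w'.length) = 1 := by
    rw [pow_add, ← sign_pm w hw, ← sign_pm w' hw', h, ← map_mul, ← sq, map_pow, Int.units_sq]
  by_contra h2
  rw [Nat.not_even_iff_odd] at h2
  rw [h2.neg_one_pow] at h1
  exact absurd h1 (by decide)

theorem m0_pm (hm : 0 < m) {O : Outer m} {v : Fin m → Bool} (hg : Good O v) {w w' : List (Bool × ℕ)}
    (hw : Valid m w) (hw' : Valid m w') (h : pm m w = pm m w') : m0 O w = m0 O w' :=
  m0_perm hm hg hw hw' h (even_of_pm hw hw' h)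

/-- the basic difference -/
noncomputable def YY (O : Outer m) (i j : ℕ) (a b : List (Bool × ℕ)) : ℤ :=
  m0 O (a ++ [(true, i), (true, j)] ++ b) - m0 O (a ++ [(true, j), (true, i)] ++ b)

/-- the difference at the odd levels -/
noncomputable def ZZ (O : Outer m) (i j : ℕ) (a b : List (Bool × ℕ)) : ℤ :=
  m0 O (a ++ [(true, j)] ++ b) - m0 O (a ++ [(true, i), (true, j), (true, i)] ++ b)

theorem HH_val (hm : 0 < m) (O : Outer m) {v : Fin m → Bool} (hg : Good O v) {i j : ℕ} (hi : i + 1 < m)
    (hj : j + 1 < m) (n : ℕ) : ∀ a b : List (Bool × ℕ), Valid m a → Valid m b →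
    moment 0 (HH O i j (2 * n) a b) = 4 ^ n * YY O i j a b ∧
    moment 0 (HH O i j (2 * n + 1) a b) = 4 ^ n * (2 * ZZ O i j a b) := by
  have v1 : Valid m ([(false, i), (false, i)] : List (Bool × ℕ)) := Valid.cons hi (Valid.cons hi Valid.nil)
  have v2 : Valid m ([(true, i)] : List (Bool × ℕ)) := Valid.cons hi Valid.nil
  have v3 : Valid m ([(true, j)] : List (Bool × ℕ)) := Valid.cons hj Valid.nil
  have v4 : Valid m ([(true, i), (true, j)] : List (Bool × ℕ)) := Valid.cons hi v3
  have v5 : Valid m ([(true, j), (true, i)] : List (Bool × ℕ)) := Valid.cons hj v2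
  have v6 : Valid m ([(true, i), (true, j), (true, i)] : List (Bool × ℕ)) := Valid.cons hi v5
  have vb' : ∀ k (b : List (Bool × ℕ)), Valid m b → Valid m ([(false, i), (false, i)] ++ iw (gw i j k) ++ b) :=
    fun k b hb => (v1.app (iw_valid (gw_valid hi hj k))).app hb
  have pb' : ∀ k (b : List (Bool × ℕ)), pm m ([(false, i), (false, i)] ++ iw (gw i j k) ++ b) = pm m b := by
    intro k b
    rw [pm_append, pm_append, pm_iw, pm_gw, pm_cons, pm_cons, pm_nil, mul_one, sw_sq]
    simp
  -- the first difference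
  have oddstep : ∀ (n : ℕ) , (∀ a b : List (Bool × ℕ), Valid m a → Valid m b →
      moment 0 (HH O i j (2 * n) a b) = 4 ^ n * YY O i j a b) → ∀ a b : List (Bool × ℕ), Valid m a → Valid m b →
      moment 0 (HH O i j (2 * n + 1) a b) = 4 ^ n * (2 * ZZ O i j a b) := by
    intro n h a b ha hb
    have e1 : HH O i j (2 * n + 1) a b = HH O i j (2 * n) (a ++ [(true, i)]) ([(false, i), (false, i)] ++ iw (gw i j (2 * n + 1)) ++ b) -
      HH O i j (2 * n) a ([(true, i)] ++ ([(false, i), (false, i)] ++ iw (gw i j (2 * n + 1)) ++ b)) := rfl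
    rw [e1, moment_sub, h _ _ (ha.app v2) (vb' _ _ hb), h _ _ ha (v2.app (vb' _ _ hb))]
    unfold YY ZZ
    have q1 : m0 O (a ++ [(true, i)] ++ [(true, i), (true, j)] ++ ([(false, i), (false, i)] ++ iw (gw i j (2 * n + 1)) ++ b)) =
        m0 O (a ++ [(true, j)] ++ b) := by
      apply m0_pm hm hg (((ha.app v2).app v4).app (vb' _ _ hb)) ((ha.app v3).app hb)
      simp only [pm_append _ ([(false, i), (false, i)] ++ iw (gw i j (2 * n + 1)) ++ b), pb', pm_append a, pm_append _ b,
        pm_append _ [(true, i), (true, j)], pm_cons, pm_nil, mul_one, mul_assoc, sw_sq']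
    have q2 : m0 O (a ++ [(true, i)] ++ [(true, j), (true, i)] ++ ([(false, i), (false, i)] ++ iw (gw i j (2 * n + 1)) ++ b)) =
        m0 O (a ++ [(true, i), (true, j), (true, i)] ++ b) := by
      apply m0_pm hm hg (((ha.app v2).app v5).app (vb' _ _ hb)) ((ha.app v6).app hb)
      simp only [pm_append _ ([(false, i), (false, i)] ++ iw (gw i j (2 * n + 1)) ++ b), pb', pm_append a, pm_append _ b,
        pm_append _ [(true, j), (true, i)], pm_cons, pm_nil, mul_one, mul_assoc]
    have q3 : m0 O (a ++ [(true, i), (true, j)] ++ ([(true, i)] ++ ([(false, i), (false, i)] ++ iw (gw i j (2 * n + 1)) ++ b))) =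
        m0 O (a ++ [(true, i), (true, j), (true, i)] ++ b) := by
      apply m0_pm hm hg ((ha.app v4).app (v2.app (vb' _ _ hb))) ((ha.app v6).app hb)
      simp only [pm_append _ ([(true, i)] ++ ([(false, i), (false, i)] ++ iw (gw i j (2 * n + 1)) ++ b)),
        pm_append _ ([(false, i), (false, i)] ++ iw (gw i j (2 * n + 1)) ++ b), pb', pm_append a, pm_append _ b,
        pm_cons, pm_nil, mul_one, mul_assoc]
    have q4 : m0 O (a ++ [(true, j), (true, i)] ++ ([(true, i)] ++ ([(false, i), (false, i)] ++ iw (gw i j (2 * n + 1)) ++ b))) =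
        m0 O (a ++ [(true, j)] ++ b) := by
      apply m0_pm hm hg ((ha.app v5).app (v2.app (vb' _ _ hb))) ((ha.app v3).app hb)
      simp only [pm_append _ ([(true, i)] ++ ([(false, i), (false, i)] ++ iw (gw i j (2 * n + 1)) ++ b)),
        pm_append _ ([(false, i), (false, i)] ++ iw (gw i j (2 * n + 1)) ++ b), pb', pm_append a, pm_append _ b,
        pm_cons, pm_nil, mul_one, mul_assoc, sw_sq']
    rw [q1, q2, q3, q4]
    ring
  have evenstep : ∀ (n : ℕ) , (∀ a b : List (Bool × ℕ), Valid m a → Valid m b →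
      moment 0 (HH O i j (2 * n + 1) a b) = 4 ^ n * (2 * ZZ O i j a b)) → ∀ a b : List (Bool × ℕ), Valid m a → Valid m b →
      moment 0 (HH O i j (2 * (n + 1)) a b) = 4 ^ (n + 1) * YY O i j a b := by
    intro n h a b ha hb
    have e1 : HH O i j (2 * (n + 1)) a b = HH O i j (2 * n + 1) (a ++ [(true, i)]) ([(false, i), (false, i)] ++ iw (gw i j (2 * n + 1 + 1)) ++ b) -
      HH O i j (2 * n + 1) a ([(true, i)] ++ ([(false, i), (false, i)] ++ iw (gw i j (2 * n + 1 + 1)) ++ b)) := rfl
    rw [e1, moment_sub, h _ _ (ha.app v2) (vb' _ _ hb), h _ _ ha (v2.app (vb' _ _ hb))]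
    unfold YY ZZ
    have q1 : m0 O (a ++ [(true, i)] ++ [(true, j)] ++ ([(false, i), (false, i)] ++ iw (gw i j (2 * n + 1 + 1)) ++ b)) =
        m0 O (a ++ [(true, i), (true, j)] ++ b) := by
      apply m0_pm hm hg (((ha.app v2).app v3).app (vb' _ _ hb)) ((ha.app v4).app hb)
      simp only [pm_append _ ([(false, i), (false, i)] ++ iw (gw i j (2 * n + 1 + 1)) ++ b), pb', pm_append a, pm_append _ b,
        pm_append _ [(true, j)], pm_cons, pm_nil, mul_one, mul_assoc]
    have q2 : m0 O (a ++ [(true, i)] ++ [(true, i), (true, j), (true, i)] ++ ([(false, i), (false, i)] ++ iw (gw i j (2 * n + 1 + 1)) ++ b)) =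
        m0 O (a ++ [(true, j), (true, i)] ++ b) := by
      apply m0_pm hm hg (((ha.app v2).app v6).app (vb' _ _ hb)) ((ha.app v5).app hb)
      simp only [pm_append _ ([(false, i), (false, i)] ++ iw (gw i j (2 * n + 1 + 1)) ++ b), pb', pm_append a, pm_append _ b,
        pm_append _ [(true, i), (true, j), (true, i)], pm_cons, pm_nil, mul_one, mul_assoc, sw_sq']
    have q3 : m0 O (a ++ [(true, j)] ++ ([(true, i)] ++ ([(false, i), (false, i)] ++ iw (gw i j (2 * n + 1 + 1)) ++ b))) =
        m0 O (a ++ [(true, j), (true, i)] ++ b) := by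
      apply m0_pm hm hg ((ha.app v3).app (v2.app (vb' _ _ hb))) ((ha.app v5).app hb)
      simp only [pm_append _ ([(true, i)] ++ ([(false, i), (false, i)] ++ iw (gw i j (2 * n + 1 + 1)) ++ b)),
        pm_append _ ([(false, i), (false, i)] ++ iw (gw i j (2 * n + 1 + 1)) ++ b), pb', pm_append a, pm_append _ b,
        pm_cons, pm_nil, mul_one, mul_assoc]
    have q4 : m0 O (a ++ [(true, i), (true, j), (true, i)] ++ ([(true, i)] ++ ([(false, i), (false, i)] ++ iw (gw i j (2 * n + 1 + 1)) ++ b))) =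
        m0 O (a ++ [(true, i), (true, j)] ++ b) := by
      apply m0_pm hm hg ((ha.app v6).app (v2.app (vb' _ _ hb))) ((ha.app v4).app hb)
      simp only [pm_append _ ([(true, i)] ++ ([(false, i), (false, i)] ++ iw (gw i j (2 * n + 1 + 1)) ++ b)),
        pm_append _ ([(false, i), (false, i)] ++ iw (gw i j (2 * n + 1 + 1)) ++ b), pb', pm_append a, pm_append _ b,
        pm_cons, pm_nil, mul_one, mul_assoc, sw_sq']
    rw [q1, q2, q3, q4]
    ring
  have main : ∀ n : ℕ, ∀ a b : List (Bool × ℕ), Valid m a → Valid m b →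
      moment 0 (HH O i j (2 * n) a b) = 4 ^ n * YY O i j a b := by
    intro n
    induction n with
    | zero =>
      intro a b ha hb
      have e1 : HH O i j (2 * 0) a b = Br O (a ++ [(true, i), (true, j)] ++ ([(false, i), (false, i)] ++ iw (gw i j 0) ++ b)) -
        Br O (a ++ [(true, j), (true, i)] ++ ([(false, i), (false, i)] ++ iw (gw i j 0) ++ b)) := rfl
      rw [e1, moment_sub, pow_zero, one_mul]
      unfold YY
      congr 1
      · apply m0_pm hm hg ((ha.app v4).app (vb' _ _ hb)) ((ha.app v4).app hb)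
        rw [pm_append _ ([(false, i), (false, i)] ++ iw (gw i j 0) ++ b), pb', pm_append _ b]
      · apply m0_pm hm hg ((ha.app v5).app (vb' _ _ hb)) ((ha.app v5).app hb)
        rw [pm_append _ ([(false, i), (false, i)] ++ iw (gw i j 0) ++ b), pb', pm_append _ b]
    | succ n ih => exact evenstep n (oddstep n ih)
  exact fun a b ha hb => ⟨main n a b ha hb, oddstep n (main n) a b ha hb⟩

/-! ### the moments of the polynomial of a knot -/

/-- the moment number `r` -/
noncomputable def Fm (O : Outer m) (r : ℕ) (w : List (Bool × ℕ)) : ℤ := moment r (draw O w).close.fPoly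

/-- a change of the bracket by a multiple of `(T 1 - T (-3)) ^ k` -/
theorem Fm_diff (hm : 0 < m) (O : Outer m) (w w' : List (Bool × ℕ)) (hw : Valid m w) (hK : K O w)
    (hW : owr (draw O w') = owr (draw O w)) (k : ℕ) (H : ℤ[T;T⁻¹])
    (hB : Br O w' - Br O w = (T 1 - T (-3)) ^ k * H) :
    (∀ r < k, Fm O r w' = Fm O r w) ∧ Fm O k w' - Fm O k w = m0 O w * (4 ^ k * k.factorial * moment 0 H) := by
  obtain ⟨g1, g2, g3⟩ := K_facts hm hw hK
  have h1 : (draw O w').close.fPoly - (draw O w).close.fPoly =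
      C (m0 O w) * (T (-3 * owr (draw O w)) * ((T 1 - T (-3)) ^ k * H)) := by
    rw [fPoly_eq, fPoly_eq, hW, ← hB, g2]
    ring
  obtain ⟨p1, p2⟩ := q_pow k H
  obtain ⟨t1, t2⟩ := T_top k _ p1 (-3 * owr (draw O w))
  constructor
  · intro r hr
    have h2 := congrArg (moment r) h1
    rw [moment_sub, moment_C_mul, t1 r hr, mul_zero] at h2
    exact sub_eq_zero.1 h2
  · have h2 := congrArg (moment k) h1
    rw [moment_sub, moment_C_mul, t2, p2] at h2
    exact h2

/-- the neutral word of length `2 l` -/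
def pd : ℕ → List (Bool × ℕ)
  | 0 => []
  | (l + 1) => (true, 0) :: (false, 0) :: pd l

theorem pd_len (l : ℕ) : (pd l).length = 2 * l := by
  induction l with
  | zero => rfl
  | succ l ih => rw [pd, List.length_cons, List.length_cons, ih]; ring

theorem pd_valid (hm : 2 ≤ m) (l : ℕ) : Valid m (pd l) := by
  induction l with
  | zero => exact Valid.nil
  | succ l ih =>
    exact Valid.cons (show 0 + 1 < m by omega) (Valid.cons (show 0 + 1 < m by omega) ih)

theorem pm_pd (l : ℕ) : pm m (pd l) = 1 := by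
  induction l with
  | zero => rfl
  | succ l ih => rw [pd, pm_cons, pm_cons, ih, mul_one, sw_sq]

theorem pd_ac (l : ℕ) : ∀ U, ac (pd l) U = U ∧ cw (pd l) U = 0 := by
  induction l with
  | zero => intro U; exact ⟨rfl, rfl⟩
  | succ l ih =>
    intro U
    have e1 : ac (pd (l + 1)) U = ac (pd l) ((U ∘ Equiv.swap 0 (0 + 1)) ∘ Equiv.swap 0 (0 + 1)) := rfl
    have e2 : cw (pd (l + 1)) U = (if true then 1 else -1) * (U 0 * U (0 + 1)) +
      ((if false then 1 else -1) * ((U ∘ Equiv.swap 0 (0 + 1)) 0 * (U ∘ Equiv.swap 0 (0 + 1)) (0 + 1)) +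
        cw (pd l) ((U ∘ Equiv.swap 0 (0 + 1)) ∘ Equiv.swap 0 (0 + 1))) := rfl
    rw [e1, e2, swap2]
    refine ⟨(ih U).1, ?_⟩
    rw [(ih U).2]
    simp only [Function.comp_apply, Equiv.swap_apply_left, Equiv.swap_apply_right, if_true,
      Bool.false_eq_true, if_false]
    ring

theorem Br_pd (hm : 2 ≤ m) (O : Outer m) (l : ℕ) : ∀ a b : List (Bool × ℕ), Valid m a → Valid m b →
    Br O (a ++ pd l ++ b) = Br O (a ++ b) := by
  induction l with
  | zero => intro a b _ _; rw [pd, List.append_nil]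
  | succ l ih =>
    intro a b ha hb
    have h1 := cancel_one (by omega : 0 < m) O (true, 0) (show 0 + 1 < m by omega) a (pd l ++ b) ha ((pd_valid hm l).app hb)
    have h2 := ih a b ha hb
    rw [pd]
    simp only [List.append_assoc, List.cons_append, List.nil_append, Bool.not_true] at h1 h2 ⊢
    rw [h1, h2]

/-- the writhe is not changed by words with trivial action -/
theorem owr_ins {O : Outer m} {a u b : List (Bool × ℕ)} (ha : Valid m a) (hu : Valid m u) (hb : Valid m b)
    (h1 : ∀ U, ac u U = U) (h2 : ∀ U, cw u U = 0) : owr (draw O (a ++ u ++ b)) = owr (draw O (a ++ b)) := by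
  rw [(draw_writhe _ O ((ha.app hu).app hb)).1, (draw_writhe _ O (ha.app hb)).1]
  simp only [cw_append, ac_append, h1, h2]
  ring

/-- half of the length of the word of level `2 n + 2` -/
noncomputable def hl (n : ℕ) : ℕ := (gw_len 0 1 (2 * n + 1)).choose + 1

theorem hl_spec (n : ℕ) : (gw 0 1 (2 * n + 1)).length = 2 * hl n := (gw_len 0 1 (2 * n + 1)).choose_spec

/-- the two contents of a slot of level `2 n + 2` -/
noncomputable def MM (n : ℕ) (u : Bool) : List (Bool × ℕ) := if u then gw 0 1 (2 * n + 1) else pd (hl n)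

theorem MM_len (n : ℕ) (u : Bool) : (MM n u).length = 2 * hl n := by
  unfold MM
  split_ifs
  · exact hl_spec n
  · exact pd_len _

theorem MM_valid (hm : 3 ≤ m) (n : ℕ) (u : Bool) : Valid m (MM n u) := by
  unfold MM
  split_ifs
  · exact gw_valid (by omega) (by omega) _
  · exact pd_valid (by omega) _

theorem pm_MM (n : ℕ) (u : Bool) : pm m (MM n u) = 1 := by
  unfold MM
  split_ifs
  · exact pm_gw _ _ _
  · exact pm_pd _

theorem MM_inj (n : ℕ) : Function.Injective (MM n) := by
  have h : gw 0 1 (2 * n + 1) ≠ pd (hl n) := by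
    intro h
    have h1 : gw 0 1 (2 * n + 1) = (true, 0) :: (true, 0) :: (gw 0 1 (2 * n) ++ [(false, 0), (false, 0)] ++ iw (gw 0 1 (2 * n))) := by
      simp [gw]
    have h2 : hl n = (gw_len 0 1 (2 * n + 1)).choose + 1 := rfl
    rw [h1, h2, pd] at h
    injection h with _ h
    injection h with h _
    exact absurd h (by decide)
  intro u u' hu
  unfold MM at hu
  cases u <;> cases u'
  · rfl
  · simp only [Bool.false_eq_true, if_false, if_true] at hu
    exact absurd hu.symm h
  · simp only [Bool.false_eq_true, if_false, if_true] at hu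
    exact absurd hu h
  · rfl

/-- the change of the invariants by a change of the content of a slot of level `2 n + 2` -/
theorem MM_move (hm : 3 ≤ m) (O : Outer m) (n : ℕ) (a b w0 : List (Bool × ℕ)) (ha : Valid m a) (hb : Valid m b)
    (hw0 : Valid m w0) (pa : pm m a = 1) (hp : pm m w0 = pm m b) (hK : K O w0) (u : Bool) :
    (∀ r < 2 * n + 2, Fm O r (a ++ MM n u ++ b) = Fm O r (a ++ b)) ∧
      Fm O (2 * n + 2) (a ++ MM n u ++ b) - Fm O (2 * n + 2) (a ++ b) =
        if u then m0 O w0 * (4 ^ (2 * n + 2) * (2 * n + 2).factorial * (4 ^ n * YY O 0 1 [] w0)) else 0 := by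
  have hm0 : 0 < m := by omega
  have hab : K O (a ++ b) := K_perm hw0 (ha.app hb) (by rw [pm_append, pa, one_mul, hp]) hK
  have hg := K_good hK
  have vg := gw_valid (m := m) (i := 0) (j := 1) (by omega) (by omega) (2 * n + 1)
  have v3 : Valid m ([(true, 0), (true, 1)] : List (Bool × ℕ)) :=
    Valid.cons (show 0 + 1 < m by omega) (Valid.cons (show 1 + 1 < m by omega) Valid.nil)
  have v4 : Valid m ([(true, 1), (true, 0)] : List (Bool × ℕ)) :=
    Valid.cons (show 1 + 1 < m by omega) (Valid.cons (show 0 + 1 < m by omega) Valid.nil)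
  cases u
  · have e : MM n false = pd (hl n) := rfl
    rw [e]
    have h1 := Fm_diff hm0 O (a ++ b) (a ++ pd (hl n) ++ b) (ha.app hb) hab
      (owr_ins ha (pd_valid (by omega) _) hb (fun U => (pd_ac _ U).1) (fun U => (pd_ac _ U).2)) (2 * n + 2) 0
      (by rw [Br_pd (by omega) O _ a b ha hb, sub_self, mul_zero])
    refine ⟨h1.1, ?_⟩
    rw [h1.2]
    have : moment 0 (0 : ℤ[T;T⁻¹]) = 0 := (Pool.Agent.H832R3.VJ.V7.momH 0).map_zero
    rw [this]
    simp
  · have e : MM n true = gw 0 1 (2 * n + 1) := rfl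
    rw [e]
    have h0 := gw_move hm0 O (i := 0) (j := 1) (by omega) (by omega) (2 * n) a b ha hb
    have h1 := Fm_diff hm0 O (a ++ b) (a ++ gw 0 1 (2 * n + 1) ++ b) (ha.app hb) hab
      (owr_ins ha vg hb (fun U => (gw_ac _ _ _).1 U) (fun U => (gw_ac _ _ _).2 U)) (2 * n + 2) _ h0
    refine ⟨h1.1, ?_⟩
    rw [h1.2, (HH_val hm0 O hg (by omega) (by omega) n a b ha hb).1]
    have q0 : m0 O (a ++ b) = m0 O w0 := by
      apply m0_pm hm0 hg (ha.app hb) hw0
      rw [pm_append, pa, one_mul, hp]
    have q1 : YY O 0 1 a b = YY O 0 1 [] w0 := by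
      unfold YY
      congr 1
      · apply m0_pm hm0 hg ((ha.app v3).app hb) ((Valid.nil.app v3).app hw0)
        simp only [pm_append, pa, one_mul, hp, pm_nil]
      · apply m0_pm hm0 hg ((ha.app v4).app hb) ((Valid.nil.app v4).app hw0)
        simp only [pm_append, pa, one_mul, hp, pm_nil]
    rw [q0, q1, if_pos rfl]

/-- the size of the change -/
theorem move_abs (hm : 3 ≤ m) (O : Outer m) (n : ℕ) (w0 : List (Bool × ℕ)) (hw0 : Valid m w0) (hK : K O w0) :
    |m0 O w0 * (4 ^ (2 * n + 2) * (2 * n + 2).factorial * (4 ^ n * YY O 0 1 [] w0))| =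
      4 ^ (2 * n + 2) * (2 * n + 2).factorial * 4 ^ n * 3 := by
  obtain ⟨k, l, h1, h2, h3, h4⟩ := sum_val (by omega : 0 < m) O [] w0 Valid.nil hw0 (i := 0) (j := 1) (by omega)
    (by omega) (Or.inl rfl) hK
  unfold YY
  simp only [List.nil_append] at h1 h2 h4 ⊢
  rw [h1, h2]
  have e : m0 O w0 * (4 ^ (2 * n + 2) * (2 * n + 2).factorial * (4 ^ n * (m0 O w0 * (-2) ^ l - m0 O w0 * (-2) ^ k))) =
      (m0 O w0 * m0 O w0) * (4 ^ (2 * n + 2) * (2 * n + 2).factorial * 4 ^ n) * (-((-2) ^ k - (-2) ^ l)) := by ring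
  rw [e, h4, abs_mul, abs_neg, h3, one_mul, abs_of_nonneg (by positivity)]

end Pool.Agent.T6.H96.VB
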