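import Pool.Agent.T6.H96.VB.Slots
import Pool.Agent.T6.H96.VB.Moves

/-!
# Words with slots for pure words
-/

set_option autoImplicit false

namespace Pool.Agent.T6.H96.VB

open Finset Pool.Agent.H891R2.Jones Pool.Agent.W639.RB

/-- the pieces of a word with slots in the blocks with the numbers in `S` -/
structure Frame (N : ℕ) where
  S : Finset (Fin N)
  A : ℕ → List (Bool × ℕ)
  C : ℕ → List (Bool × ℕ)
  B : ℕ → List (Bool × ℕ)
  ρ : List (Bool × ℕ)

namespace Frame

variable {m N : ℕ} (φ : Frame N)

/-- the block number `k` -/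
def f (I : Fin N → List (Bool × ℕ)) (k : ℕ) : List (Bool × ℕ) :=
  if h : k < N then (if (⟨k, h⟩ : Fin N) ∈ φ.S then φ.A k ++ I ⟨k, h⟩ ++ φ.C k else φ.B k) else []

/-- the word with the contents `I` of the slots -/
def w (I : Fin N → List (Bool × ℕ)) : List (Bool × ℕ) := seg (φ.f I) 0 N ++ φ.ρ

/-- the conditions -/
structure Ok (m : ℕ) : Prop where
  vA : ∀ k, Valid m (φ.A k)
  vC : ∀ k, Valid m (φ.C k)
  vB : ∀ k, Valid m (φ.B k)
  vρ : Valid m φ.ρ
  pAC : ∀ k ∈ φ.S, pm m (φ.A k) * pm m (φ.C k) = 1
  pA : ∀ k ∈ φ.S, pm m (seg (φ.f fun _ => []) 0 k) * pm m (φ.A k) = 1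

/-- pure contents -/
def Pure (m : ℕ) (I : Fin N → List (Bool × ℕ)) : Prop := ∀ k, Valid m (I k) ∧ pm m (I k) = 1

variable {φ}

theorem f_valid (h : φ.Ok m) {I : Fin N → List (Bool × ℕ)} (hI : Pure m I) (k : ℕ) : Valid m (φ.f I k) := by
  unfold f
  split_ifs
  · exact ((h.vA _).app (hI _).1).app (h.vC _)
  · exact h.vB _
  · exact Valid.nil

theorem w_valid (h : φ.Ok m) {I : Fin N → List (Bool × ℕ)} (hI : Pure m I) : Valid m (φ.w I) :=
  (seg_valid _ (f_valid h hI) _ _).app h.vρ

theorem pm_f (φ : Frame N) {I : Fin N → List (Bool × ℕ)} (hI : Pure m I) (k : ℕ) :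
    pm m (φ.f I k) = pm m (φ.f (fun _ => []) k) := by
  unfold f
  split_ifs
  · rw [pm_append, pm_append, pm_append, pm_append, (hI _).2, pm_nil]
  · rfl
  · rfl

theorem pm_segf (φ : Frame N) {I : Fin N → List (Bool × ℕ)} (hI : Pure m I) (n : ℕ) : ∀ a,
    pm m (seg (φ.f I) a n) = pm m (seg (φ.f fun _ => []) a n) := by
  induction n with
  | zero => intro a; rfl
  | succ n ih => intro a; rw [seg, seg, pm_append, pm_append, ih, pm_f φ hI]

theorem nil_pure : Pure m (fun _ : Fin N => []) := fun _ => ⟨Valid.nil, rfl⟩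

theorem pm_w (φ : Frame N) {I : Fin N → List (Bool × ℕ)} (hI : Pure m I) : 
    pm m (φ.w I) = pm m (φ.w fun _ => []) := by
  unfold w
  rw [pm_append, pm_append, pm_segf φ hI]

theorem f_update (φ : Frame N) (I : Fin N → List (Bool × ℕ)) (k : Fin N) (x : List (Bool × ℕ)) (j : ℕ)
    (h : j ≠ k) : φ.f (Function.update I k x) j = φ.f I j := by
  unfold f
  split_ifs with h1 h2
  · rw [Function.update_of_ne (by intro h3; apply h; rw [← h3])]
  · rfl
  · rfl

theorem f_self (φ : Frame N) (I : Fin N → List (Bool × ℕ)) (k : Fin N) (hk : k ∈ φ.S) :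
    φ.f I k = φ.A k ++ I k ++ φ.C k := by
  unfold f
  rw [dif_pos k.2, if_pos hk]

theorem w_congr (φ : Frame N) (I I' : Fin N → List (Bool × ℕ)) (h : ∀ k ∈ φ.S, I k = I' k) : φ.w I = φ.w I' := by
  unfold w
  congr 1
  apply seg_congr
  intro k _ _
  unfold f
  split_ifs with h1 h2
  · rw [h _ h2]
  · rfl
  · rfl

theorem pure_update {I : Fin N → List (Bool × ℕ)} (hI : Pure m I) (k : Fin N) (x : List (Bool × ℕ))
    (hx : Valid m x) (hx' : pm m x = 1) : Pure m (Function.update I k x) := by
  intro j
  by_cases h : j = k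
  · subst h
    rw [Function.update_self]
    exact ⟨hx, hx'⟩
  · rw [Function.update_of_ne h]
    exact hI j

/-- one slot -/
theorem one_slot (h : φ.Ok m) {I : Fin N → List (Bool × ℕ)} (hI : Pure m I) (k : Fin N) (hk : k ∈ φ.S) :
    ∃ a c, Valid m a ∧ Valid m c ∧ pm m a = 1 ∧ pm m c = pm m (φ.w fun _ => []) ∧
      ∀ x, φ.w (Function.update I k x) = a ++ x ++ c := by
  refine ⟨seg (φ.f I) 0 k ++ φ.A k, φ.C k ++ seg (φ.f I) (k + 1) (N - k - 1) ++ φ.ρ,
    (seg_valid _ (f_valid h hI) _ _).app (h.vA _), ((h.vC _).app (seg_valid _ (f_valid h hI) _ _)).app h.vρ, ?_, ?_, ?_⟩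
  · rw [pm_append, pm_segf φ hI]
    exact h.pA k hk
  · have h1 := h.pA k hk
    have h2 := h.pAC k hk
    unfold w
    rw [seg_split1 _ k N k.2, f_self φ _ k hk]
    simp only [pm_append, pm_nil, mul_one, pm_segf φ hI, ← mul_assoc]
    rw [h1, one_mul]
  · intro x
    unfold w
    rw [seg_split1 _ k N k.2, f_self φ _ k hk, Function.update_self,
      seg_congr (φ.f (Function.update I k x)) (φ.f I) k 0 (fun j h1 h2 => f_update φ I k x j (by omega)),
      seg_congr (φ.f (Function.update I k x)) (φ.f I) (N - k - 1) (k + 1)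
        (fun j h1 h2 => f_update φ I k x j (by omega))]
    simp only [List.append_assoc]

/-- two slots -/
theorem two_slots (h : φ.Ok m) {I : Fin N → List (Bool × ℕ)} (hI : Pure m I) (k l : Fin N) (hk : k ∈ φ.S)
    (hl : l ∈ φ.S) (hkl : k < l) :
    ∃ a b c, Valid m a ∧ Valid m b ∧ Valid m c ∧ pm m a = 1 ∧ pm m b = 1 ∧ pm m c = pm m (φ.w fun _ => []) ∧
      ∀ x y, φ.w (Function.update (Function.update I k x) l y) = a ++ x ++ b ++ y ++ c := by
  have hkl' : (k : ℕ) < l := hkl
  have v := f_valid h hI
  refine ⟨seg (φ.f I) 0 k ++ φ.A k, φ.C k ++ seg (φ.f I) (k + 1) (l - k - 1) ++ φ.A l,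
    φ.C l ++ seg (φ.f I) (l + 1) (N - l - 1) ++ φ.ρ,
    (seg_valid _ v _ _).app (h.vA _), ((h.vC _).app (seg_valid _ v _ _)).app (h.vA _),
    ((h.vC _).app (seg_valid _ v _ _)).app h.vρ, ?_, ?_, ?_, ?_⟩
  · rw [pm_append, pm_segf φ hI]
    exact h.pA k hk
  · have h1 := h.pA k hk
    have h2 := h.pAC k hk
    have h3 := h.pA l hl
    rw [seg_split1 _ k l hkl', f_self φ _ k hk] at h3
    simp only [pm_append, pm_nil, mul_one, ← mul_assoc] at h3
    rw [h1, one_mul] at h3
    rw [pm_append, pm_append, pm_segf φ hI]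
    exact h3
  · have h1 := h.pA l hl
    unfold w
    rw [seg_split1 _ l N l.2, f_self φ _ l hl]
    simp only [pm_append, pm_nil, mul_one, pm_segf φ hI, ← mul_assoc]
    rw [h1, one_mul]
  · intro x y
    have e1 : Function.update (Function.update I k x) l y k = x := by
      rw [Function.update_of_ne (ne_of_lt hkl), Function.update_self]
    unfold w
    rw [seg_split2 _ k l N hkl' l.2, f_self φ _ k hk, f_self φ _ l hl, Function.update_self, e1,
      seg_congr (φ.f (Function.update (Function.update I k x) l y)) (φ.f I) k 0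
        (fun j h1 h2 => by rw [f_update φ _ l y j (by omega), f_update φ I k x j (by omega)]),
      seg_congr (φ.f (Function.update (Function.update I k x) l y)) (φ.f I) (l - k - 1) (k + 1)
        (fun j h1 h2 => by rw [f_update φ _ l y j (by omega), f_update φ I k x j (by omega)]),
      seg_congr (φ.f (Function.update (Function.update I k x) l y)) (φ.f I) (N - l - 1) (l + 1)
        (fun j h1 h2 => by rw [f_update φ _ l y j (by omega), f_update φ I k x j (by omega)])]
    simp only [List.append_assoc]

/-! ### the count for the lowest level -/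

/-- the contents of the slots of the lowest level -/
def J0 (z : Bool × Bool) : List (Bool × ℕ) := Bw 0 1 z.1 ++ Bw 1 0 z.2

theorem J0_valid (hm : 3 ≤ m) (z : Bool × Bool) : Valid m (J0 z) :=
  (Bw_valid (by omega) (by omega) _).app (Bw_valid (by omega) (by omega) _)

theorem pm_J0 (z : Bool × Bool) : pm m (J0 z) = 1 := by
  unfold J0
  rw [pm_append, pm_Bw, pm_Bw, one_mul]

theorem J0_pure (hm : 3 ≤ m) (z : Fin N → Bool × Bool) : Pure m (fun k => J0 (z k)) :=
  fun k => ⟨J0_valid hm _, pm_J0 _⟩

open Classical in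
theorem count0 (hm : 3 ≤ m) (h : φ.Ok m) (O : Outer m) (hK : K O (φ.w fun _ => [])) (t : ℤ) :
    ((univ.filter (fun z : Fin N → Bool × Bool => Fm O 2 (φ.w fun k => J0 (z k)) = t)).card : ℝ) *
      (φ.S.card + 1) ≤ 1113 * 4 ^ N := by
  have hm0 : 0 < m := by omega
  set w0 := φ.w (fun _ => []) with hw0
  have vw0 : Valid m w0 := w_valid h nil_pure
  have b01 : ∀ x, Valid m (Bw 0 1 x) := fun x => Bw_valid (by omega) (by omega) x
  have b10 : ∀ x, Valid m (Bw 1 0 x) := fun x => Bw_valid (by omega) (by omega) x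
  refine lemmaQ φ.S (cc O w0 1 0) (cc O w0 0 1)
    (cc_sub hm0 O w0 vw0 (i := 0) (j := 1) (by omega) (by omega) (Or.inl rfl) hK)
    (fun X Y => Fm O 2 (φ.w fun k => J0 (X k, Y k))) ?_ ?_ t
  · intro X X' Y Y' hX hY
    have : (φ.w fun k => J0 (X k, Y k)) = φ.w fun k => J0 (X' k, Y' k) := by
      apply w_congr
      intro k hk
      rw [hX k hk, hY k hk]
    simp only [this]
  · intro X Y k hk l hl
    set I0 : Fin N → List (Bool × ℕ) := fun j => J0 (X j, Y j) with hI0
    have pI0 : Pure m I0 := J0_pure hm (fun j => (X j, Y j))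
    rcases lt_trichotomy k l with hkl | hkl | hkl
    · obtain ⟨a, b, c, va, vb, vc, pa, pb, pc, hw⟩ := two_slots h pI0 k l hk hl hkl
      have e : ∀ x y, (φ.w fun j => J0 (Function.update X k x j, Function.update Y l y j)) =
          a ++ Bw 0 1 x ++ (Bw 1 0 (Y k) ++ b ++ Bw 0 1 (X l)) ++ Bw 1 0 y ++ c := by
        intro x y
        have e1 : (fun j => J0 (Function.update X k x j, Function.update Y l y j)) =
            Function.update (Function.update I0 k (J0 (x, Y k))) l (J0 (X l, y)) := by
          funext j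
          by_cases h1 : j = l
          · subst h1
            rw [Function.update_self, Function.update_self, Function.update_of_ne (ne_of_gt hkl)]
          · rw [Function.update_of_ne h1, Function.update_of_ne h1]
            by_cases h2 : j = k
            · subst h2
              rw [Function.update_self, Function.update_self]
            · rw [Function.update_of_ne h2, Function.update_of_ne h2]
        rw [e1, hw]
        unfold J0
        simp only [List.append_assoc]
      rw [if_neg (not_lt_of_gt hkl)]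
      beta_reduce
      rw [e, e, e, e]
      have pb' : pm m (Bw 1 0 (Y k) ++ b ++ Bw 0 1 (X l)) = 1 := by
        rw [pm_append, pm_append, pm_Bw, pm_Bw, pb, one_mul, one_mul]
      have vb' : Valid m (Bw 1 0 (Y k) ++ b ++ Bw 0 1 (X l)) := ((b10 _).app vb).app (b01 _)
      refine (mixedF hm0 O a _ c w0 va vb' vc vw0 (by omega) (by omega) (Or.inl rfl) pa pb' hK pc.symm ?_).2
      exact even_of_pm vw0 ((va.app vb').app vc) (by rw [pm_append, pm_append, pa, pb', one_mul, one_mul, pc])
    · subst hkl
      obtain ⟨a, c, va, vc, pa, pc, hw⟩ := one_slot h pI0 k hk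
      have e : ∀ x y, (φ.w fun j => J0 (Function.update X k x j, Function.update Y k y j)) =
          a ++ Bw 0 1 x ++ [] ++ Bw 1 0 y ++ c := by
        intro x y
        have e1 : (fun j => J0 (Function.update X k x j, Function.update Y k y j)) =
            Function.update I0 k (J0 (x, y)) := by
          funext j
          by_cases h1 : j = k
          · subst h1
            rw [Function.update_self, Function.update_self, Function.update_self]
          · rw [Function.update_of_ne h1, Function.update_of_ne h1, Function.update_of_ne h1]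
        rw [e1, hw]
        unfold J0
        simp only [List.append_assoc, List.nil_append]
      rw [if_neg (lt_irrefl k)]
      beta_reduce
      rw [e, e, e, e]
      refine (mixedF hm0 O a [] c w0 va Valid.nil vc vw0 (by omega) (by omega) (Or.inl rfl) pa rfl hK pc.symm ?_).2
      exact even_of_pm vw0 ((va.app Valid.nil).app vc) (by rw [pm_append, pm_append, pa, pm_nil, one_mul, one_mul, pc])
    · obtain ⟨a, b, c, va, vb, vc, pa, pb, pc, hw⟩ := two_slots h pI0 l k hl hk hkl
      have e : ∀ x y, (φ.w fun j => J0 (Function.update X k x j, Function.update Y l y j)) =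
          (a ++ Bw 0 1 (X l)) ++ Bw 1 0 y ++ b ++ Bw 0 1 x ++ (Bw 1 0 (Y k) ++ c) := by
        intro x y
        have e1 : (fun j => J0 (Function.update X k x j, Function.update Y l y j)) =
            Function.update (Function.update I0 l (J0 (X l, y))) k (J0 (x, Y k)) := by
          funext j
          by_cases h1 : j = k
          · subst h1
            rw [Function.update_self, Function.update_self, Function.update_of_ne (ne_of_gt hkl)]
          · rw [Function.update_of_ne h1, Function.update_of_ne h1]
            by_cases h2 : j = l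
            · subst h2
              rw [Function.update_self, Function.update_self]
            · rw [Function.update_of_ne h2, Function.update_of_ne h2]
        rw [e1, hw]
        unfold J0
        simp only [List.append_assoc]
      rw [if_pos hkl]
      beta_reduce
      rw [e, e, e, e]
      have pa' : pm m (a ++ Bw 0 1 (X l)) = 1 := by rw [pm_append, pm_Bw, pa, one_mul]
      have va' : Valid m (a ++ Bw 0 1 (X l)) := va.app (b01 _)
      have pc' : pm m (Bw 1 0 (Y k) ++ c) = pm m w0 := by rw [pm_append, pm_Bw, one_mul, pc]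
      have vc' : Valid m (Bw 1 0 (Y k) ++ c) := (b10 _).app vc
      have h5 := (mixedF hm0 O (a ++ Bw 0 1 (X l)) b (Bw 1 0 (Y k) ++ c) w0 va' vb vc' vw0 (i := 1) (j := 0)
        (by omega) (by omega) (Or.inr rfl) pa' pb hK pc'.symm
        (even_of_pm vw0 ((va'.app vb).app vc') (by rw [pm_append, pm_append, pa', pb, one_mul, one_mul, pc']))).2
      rw [← h5]
      show F O _ - F O _ - F O _ + F O _ = F O _ - F O _ - F O _ + F O _
      ring

end Frame

end Pool.Agent.T6.H96.VB
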