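import Pool.Agent.T6.H96.VB.Frames

/-!
# Slots with contents of all even levels
-/

set_option autoImplicit false

namespace Pool.Agent.T6.H96.VB

open Finset Pool.Agent.H891R2.Jones Pool.Agent.W639.RB

variable {m N : ℕ}

/-- bits and subsets -/
def bitE (N : ℕ) : Finset (Fin N) ≃ (Fin N → Bool) where
  toFun U := fun k => decide (k ∈ U)
  invFun u := univ.filter fun k => u k = true
  left_inv U := by ext k; simp
  right_inv u := by funext k; simp

/-- the frame in which the contents `MM n (u k)` are fixed -/
noncomputable def Frame.fix (φ : Frame N) (n : ℕ) (u : Fin N → Bool) : Frame N :=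
  { φ with C := fun k => (if h : k < N then MM n (u ⟨k, h⟩) else []) ++ φ.C k }

theorem Frame.fix_f (φ : Frame N) (n : ℕ) (u : Fin N → Bool) (I : Fin N → List (Bool × ℕ)) (k : ℕ) :
    (φ.fix n u).f I k = φ.f (fun j => I j ++ MM n (u j)) k := by
  unfold Frame.f
  by_cases h : k < N
  · rw [dif_pos h, dif_pos h]
    have e : (φ.fix n u).S = φ.S := rfl
    rw [e]
    by_cases h2 : (⟨k, h⟩ : Fin N) ∈ φ.S
    · rw [if_pos h2, if_pos h2]
      have e1 : (φ.fix n u).A k = φ.A k := rfl
      have e2 : (φ.fix n u).C k = (if h : k < N then MM n (u ⟨k, h⟩) else []) ++ φ.C k := rfl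
      rw [e1, e2, dif_pos h]
      simp only [List.append_assoc]
    · rw [if_neg h2, if_neg h2]
      rfl
  · rw [dif_neg h, dif_neg h]

theorem Frame.fix_w (φ : Frame N) (n : ℕ) (u : Fin N → Bool) (I : Fin N → List (Bool × ℕ)) :
    (φ.fix n u).w I = φ.w (fun j => I j ++ MM n (u j)) := by
  unfold Frame.w
  have e : (φ.fix n u).ρ = φ.ρ := rfl
  rw [e]
  congr 1
  apply seg_congr
  intro k _ _
  exact φ.fix_f n u I k

theorem MM_pure (hm : 3 ≤ m) (n : ℕ) (u : Fin N → Bool) : Frame.Pure m (fun j => MM n (u j)) :=
  fun _ => ⟨MM_valid hm _ _, pm_MM _ _⟩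

theorem Frame.fix_ok (hm : 3 ≤ m) {φ : Frame N} (h : φ.Ok m) (n : ℕ) (u : Fin N → Bool) : (φ.fix n u).Ok m where
  vA := h.vA
  vC := by
    intro k
    show Valid m ((if h : k < N then MM n (u ⟨k, h⟩) else []) ++ φ.C k)
    refine Valid.app ?_ (h.vC k)
    split_ifs
    · exact MM_valid hm _ _
    · exact Valid.nil
  vB := h.vB
  vρ := h.vρ
  pAC := by
    intro k hk
    show pm m (φ.A k) * pm m ((if h : (k : ℕ) < N then MM n (u ⟨k, h⟩) else []) ++ φ.C k) = 1
    rw [dif_pos k.2, pm_append, pm_MM, one_mul]
    exact h.pAC k hk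
  pA := by
    intro k hk
    have e : seg ((φ.fix n u).f fun _ => []) 0 k = seg (φ.f fun j => MM n (u j)) 0 k := by
      apply seg_congr
      intro j _ _
      rw [φ.fix_f n u]
      rfl
    rw [e, Frame.pm_segf φ (MM_pure hm n u)]
    exact h.pA k hk

/-- the invariants have the values `t` -/
def Hit (φ : Frame N) (O : Outer m) {Z : Type} (J : Z → List (Bool × ℕ)) (t : ℕ → ℤ) (p : ℕ) (z : Fin N → Z) : Prop :=
  ∀ i ≤ p, Fm O (2 * i + 2) (φ.w fun k => J (z k)) = t i

open Classical in
/-- contents of the slots for the levels `2, 4, …, 2 p + 2` -/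
theorem levels (hm : 3 ≤ m) (p : ℕ) : ∃ (Z : Type) (_ : Fintype Z) (J : Z → List (Bool × ℕ)) (len : ℕ),
    Nonempty Z ∧ Function.Injective J ∧ (∀ z, Valid m (J z) ∧ pm m (J z) = 1 ∧ (J z).length = len) ∧
    ∀ (N : ℕ) (φ : Frame N), φ.Ok m → ∀ O : Outer m, K O (φ.w fun _ => []) → ∀ t : ℕ → ℤ,
      ((univ.filter (fun z : Fin N → Z => Hit φ O J t p z)).card : ℝ) ≤
        (Fintype.card Z : ℝ) ^ N * (1113 / (((φ.S.card : ℝ) + 1) * Real.sqrt ((φ.S.card : ℝ) + 1) ^ p)) := by
  induction p with
  | zero =>
    refine ⟨Bool × Bool, inferInstance, Frame.J0, 8, inferInstance, ?_, fun z =>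
      ⟨Frame.J0_valid hm z, Frame.pm_J0 z, by unfold Frame.J0; simp [Bw_len]⟩, ?_⟩
    · rintro ⟨x, y⟩ ⟨x', y'⟩ h
      unfold Frame.J0 at h
      have h2 := List.append_inj h (by simp [Bw_len])
      have e1 : x = x' := Bw_inj (by omega) h2.1
      have e2 : y = y' := Bw_inj (by omega) h2.2
      rw [e1, e2]
    · intro N φ hφ O hK t
      have h1 := Frame.count0 hm hφ O hK (t 0)
      have e4 : ((Fintype.card (Bool × Bool) : ℕ) : ℝ) = 4 := by
        rw [Fintype.card_prod, Fintype.card_bool]; norm_num
      rw [e4, pow_zero, mul_one, mul_div_assoc', le_div_iff₀ (by positivity)]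
      have h2 : ((univ.filter (fun z : Fin N → Bool × Bool => Hit φ O Frame.J0 t 0 z)).card : ℝ) ≤
          ((univ.filter (fun z : Fin N → Bool × Bool => Fm O 2 (φ.w fun k => Frame.J0 (z k)) = t 0)).card : ℝ) := by
        apply Nat.cast_le.2
        apply Finset.card_le_card
        intro z hz
        rw [Finset.mem_filter] at hz ⊢
        exact ⟨hz.1, hz.2 0 le_rfl⟩
      have h3 : 0 ≤ (φ.S.card : ℝ) + 1 := by positivity
      have h4 := mul_le_mul_of_nonneg_right h2 h3
      linarith
  | succ p ih =>
    obtain ⟨Z, instZ, J, len, hne, hinj, hJ, hcount⟩ := ih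
    refine ⟨Z × Bool, inferInstance, fun x => J x.1 ++ MM (p + 1) x.2, len + 2 * hl (p + 1), inferInstance, ?_, ?_, ?_⟩
    · rintro ⟨x, y⟩ ⟨x', y'⟩ h
      have h2 := List.append_inj h (by rw [(hJ _).2.2, (hJ _).2.2])
      have e1 : x = x' := hinj h2.1
      have e2 : y = y' := MM_inj _ h2.2
      rw [e1, e2]
    · intro z
      refine ⟨(hJ _).1.app (MM_valid hm _ _), ?_, ?_⟩
      · rw [pm_append, (hJ _).2.1, pm_MM, one_mul]
      · rw [List.length_append, (hJ _).2.2, MM_len]
    · intro N φ hφ O hK t
      set w0 := φ.w (fun _ => []) with hw0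
      have vw0 : Valid m w0 := Frame.w_valid hφ Frame.nil_pure
      set κ : ℤ := m0 O w0 * (4 ^ (2 * (p + 1) + 2) * (2 * (p + 1) + 2).factorial * (4 ^ (p + 1) * YY O 0 1 [] w0)) with hκ
      have hκ' : 0 < |κ| := by
        rw [hκ, move_abs hm O (p + 1) w0 vw0 hK]
        have : 0 < (2 * (p + 1) + 2).factorial := Nat.factorial_pos _
        positivity
      -- the change of the bits of the highest level
      have key : ∀ (z : Fin N → Z) (U : Finset (Fin N)),
          (∀ r < 2 * (p + 1) + 2, Fm O r (φ.w fun j => J (z j) ++ MM (p + 1) (bitE N U j)) =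
            Fm O r (φ.w fun j => J (z j) ++ MM (p + 1) (bitE N ∅ j))) ∧
          Fm O (2 * (p + 1) + 2) (φ.w fun j => J (z j) ++ MM (p + 1) (bitE N U j)) =
            Fm O (2 * (p + 1) + 2) (φ.w fun j => J (z j) ++ MM (p + 1) (bitE N ∅ j)) + ∑ _k ∈ U ∩ φ.S, κ := by
        intro z U
        induction U using Finset.induction_on with
        | empty => exact ⟨fun r _ => rfl, by simp⟩
        | insert k U hk ihU =>
          obtain ⟨i1, i2⟩ := ihU
          set I : Fin N → List (Bool × ℕ) := fun j => J (z j) ++ MM (p + 1) (bitE N U j) with hI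
          have pI : Frame.Pure m I := fun j =>
            ⟨(hJ _).1.app (MM_valid hm _ _), by rw [pm_append, (hJ _).2.1, pm_MM, one_mul]⟩
          have e1 : (fun j => J (z j) ++ MM (p + 1) (bitE N (insert k U) j)) =
              Function.update I k (J (z k) ++ MM (p + 1) true) := by
            funext j
            by_cases h1 : j = k
            · subst h1
              rw [Function.update_self]
              congr 2
              simp [bitE]
            · rw [Function.update_of_ne h1, hI]
              congr 2
              simp [bitE, h1]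
          by_cases hkS : k ∈ φ.S
          · obtain ⟨a, c, va, vc, pa, pc, hw⟩ := Frame.one_slot hφ pI k hkS
            have e2 : φ.w I = (a ++ J (z k)) ++ MM (p + 1) false ++ c := by
              have h2 := hw (I k)
              rw [Function.update_eq_self] at h2
              rw [h2, hI]
              have : bitE N U k = false := by simp [bitE, hk]
              simp only [this, List.append_assoc]
            have e3 : φ.w (Function.update I k (J (z k) ++ MM (p + 1) true)) = (a ++ J (z k)) ++ MM (p + 1) true ++ c := by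
              rw [hw]
              simp only [List.append_assoc]
            have va' : Valid m (a ++ J (z k)) := va.app (hJ _).1
            have pa' : pm m (a ++ J (z k)) = 1 := by rw [pm_append, pa, (hJ _).2.1, one_mul]
            obtain ⟨f1, f2⟩ := MM_move hm O (p + 1) (a ++ J (z k)) c w0 va' vc vw0 pa' pc.symm hK false
            obtain ⟨t1, t2⟩ := MM_move hm O (p + 1) (a ++ J (z k)) c w0 va' vc vw0 pa' pc.symm hK true
            rw [if_neg (by decide)] at f2
            rw [if_pos rfl, ← hκ] at t2
            rw [e1, e3]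
            rw [e2] at i1 i2
            constructor
            · intro r hr
              rw [t1 r hr, ← f1 r hr, i1 r hr]
            · have hins : insert k U ∩ φ.S = insert k (U ∩ φ.S) := Finset.insert_inter_of_mem hkS
              have hk' : k ∉ U ∩ φ.S := fun h => hk (Finset.mem_inter.1 h).1
              rw [hins, Finset.sum_insert hk']
              linarith
          · have e2 : φ.w (Function.update I k (J (z k) ++ MM (p + 1) true)) = φ.w I := by
              apply Frame.w_congr
              intro j hj
              rw [Function.update_of_ne (by rintro rfl; exact hkS hj)]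
            have hins : insert k U ∩ φ.S = U ∩ φ.S := Finset.insert_inter_of_notMem hkS
            rw [e1, e2, hins]
            exact ⟨i1, i2⟩
      have h0 : (((univ.filter (fun z : Fin N → Z × Bool => Hit φ O (fun x : Z × Bool => J x.1 ++ MM (p + 1) x.2) t (p + 1) z)).card : ℕ) : ℝ) =
          ∑ z : Fin N → Z, ∑ U : Finset (Fin N), if Hit φ O (fun x : Z × Bool => J x.1 ++ MM (p + 1) x.2) t (p + 1)
            (fun k => (z k, bitE N U k)) then (1 : ℝ) else 0 := by
        rw [← Finset.sum_boole, ← (Equiv.arrowProdEquivProdArrow (Fin N) (fun _ => Z) (fun _ => Bool)).symm.sum_comp,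
          Fintype.sum_prod_type]
        refine Finset.sum_congr rfl fun z _ => ?_
        rw [← (bitE N).sum_comp]
        rfl
      rw [h0]
      have h1 : ∀ z : Fin N → Z, (∑ U : Finset (Fin N), if Hit φ O (fun x : Z × Bool => J x.1 ++ MM (p + 1) x.2) t (p + 1)
            (fun k => (z k, bitE N U k)) then (1 : ℝ) else 0) ≤
          (if Hit (φ.fix (p + 1) (bitE N ∅)) O J t p z then (1 : ℝ) else 0) *
            (2 ^ N / Real.sqrt ((φ.S.card : ℝ) + 1)) := by
        intro z
        by_cases hz : Hit (φ.fix (p + 1) (bitE N ∅)) O J t p z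
        · rw [if_pos hz, one_mul, Finset.sum_boole]
          have h2 := count_level φ.S (fun _ => κ) |κ| hκ' (fun k _ => by
            rcases abs_choice κ with h | h
            · exact Or.inl h.symm
            · exact Or.inr (by rw [h, neg_neg])) (Fm O (2 * (p + 1) + 2) (φ.w fun j => J (z j) ++ MM (p + 1) (bitE N ∅ j)))
              (t (p + 1))
          refine le_trans ?_ h2
          have h3 : (univ.filter (fun U : Finset (Fin N) => Hit φ O (fun x : Z × Bool => J x.1 ++ MM (p + 1) x.2) t (p + 1)
              (fun k => (z k, bitE N U k)))).card ≤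
              (univ.filter (fun U : Finset (Fin N) =>
                Fm O (2 * (p + 1) + 2) (φ.w fun j => J (z j) ++ MM (p + 1) (bitE N ∅ j)) + ∑ _k ∈ U ∩ φ.S, κ = t (p + 1))).card := by
            apply Finset.card_le_card
            intro U hU
            rw [Finset.mem_filter] at hU ⊢
            refine ⟨Finset.mem_univ _, ?_⟩
            rw [← (key z U).2]
            exact hU.2 (p + 1) le_rfl
          exact_mod_cast h3
        · rw [if_neg hz, zero_mul]
          apply le_of_eq
          apply Finset.sum_eq_zero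
          intro U _
          rw [if_neg]
          intro h
          apply hz
          intro i hi
          rw [Frame.fix_w, ← h i (by omega)]
          exact ((key z U).1 (2 * i + 2) (by omega)).symm
      refine (Finset.sum_le_sum fun z _ => h1 z).trans ?_
      rw [← Finset.sum_mul, Finset.sum_boole]
      have hK' : K O ((φ.fix (p + 1) (bitE N ∅)).w fun _ => []) := by
        rw [Frame.fix_w]
        have pI : Frame.Pure m (fun j : Fin N => [] ++ MM (p + 1) (bitE N ∅ j)) := fun j =>
          ⟨Valid.nil.app (MM_valid hm _ _), by rw [pm_append, pm_MM, pm_nil, one_mul]⟩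
        exact K_perm vw0 (Frame.w_valid hφ pI) (Frame.pm_w φ pI).symm hK
      have h4 := hcount N (φ.fix (p + 1) (bitE N ∅)) (Frame.fix_ok hm hφ _ _) O hK' t
      have e5 : (φ.fix (p + 1) (bitE N ∅)).S = φ.S := rfl
      rw [e5] at h4
      have e6 : ((Fintype.card (Z × Bool) : ℕ) : ℝ) = Fintype.card Z * 2 := by
        rw [Fintype.card_prod, Fintype.card_bool]; push_cast; ring
      rw [e6]
      calc _ ≤ (Fintype.card Z : ℝ) ^ N * (1113 / (((φ.S.card : ℝ) + 1) * Real.sqrt ((φ.S.card : ℝ) + 1) ^ p)) *
            (2 ^ N / Real.sqrt ((φ.S.card : ℝ) + 1)) := by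
            gcongr
        _ = _ := by
            have : Real.sqrt ((φ.S.card : ℝ) + 1) ≠ 0 := by positivity
            rw [mul_pow, pow_succ]
            field_simp

end Pool.Agent.T6.H96.VB
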