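import Pool.Agent.T6.H96.VB.Rate
import Pool.Agent.T6.H96.VB.Binom

/-!
# The rate `1 / n` for invariants of order two
-/

set_option autoImplicit false

namespace Pool.Agent.T6.H96.VB

open Finset Pool.Agent.H891R2.Jones Pool.Agent.W639.RB Pool.Agent.H832R3.VJ
open Pool.Agent.W705.JR (dia)

variable {m : ℕ}

theorem sum_prod_one {ι α : Type} [Fintype ι] [DecidableEq ι] [Fintype α] (q : ι → α → ℝ)
    (hs : ∀ s, ∑ x, q s x = 1) : ∑ w : ι → α, ∏ s, q s (w s) = 1 := by
  have h3 := (Finset.prod_univ_sum (fun _ : ι => (univ : Finset α)) (fun x (y : α) => q x y))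
  rw [Fintype.piFinset_univ] at h3
  rw [← h3, Finset.prod_eq_one fun x _ => hs _]

theorem card_letter (m : ℕ) : Fintype.card (Letter m) = 2 * (m - 1) := by simp

theorem eps_le (hm : 3 ≤ m) (q : Letter m → ℝ) (ε : ℝ) (hq : ∀ x, ε ≤ q x) (hs : ∑ x, q x = 1) : 4 * ε ≤ 1 := by
  have h1 : ∑ _x : Letter m, ε ≤ ∑ x, q x := Finset.sum_le_sum fun x _ => hq x
  rw [hs, Finset.sum_const, Finset.card_univ, card_letter, nsmul_eq_mul] at h1
  by_cases h0 : 0 ≤ ε
  · have h2 : (4 : ℝ) ≤ ((2 * (m - 1) : ℕ) : ℝ) := by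
      have : 4 ≤ 2 * (m - 1) := by omega
      exact_mod_cast this
    nlinarith
  · linarith

open Classical in
theorem rateA (hm : 3 ≤ m) (O : Outer m) (N r : ℕ) (hN : 0 < N * bL hm + r)
    (q : Fin (N * bL hm + r) → Letter m → ℝ) (ε : ℝ) (hε : 0 < ε) (hq : ∀ s x, ε ≤ q s x)
    (hs : ∀ s, ∑ x, q s x = 1) (t : ℤ) :
    ∑ w : Fin (N * bL hm + r) → Letter m, (if K O (toL w) ∧ F O (toL w) = t then ∏ s, q s (w s) else 0) ≤
      1113 / (4 * ε ^ bL hm * (N + 1)) := by
  have hε4 : 4 * ε ≤ 1 := eps_le hm (q ⟨0, hN⟩) ε (hq _) (hs _)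
  have hb : 8 ≤ bL hm := by unfold bL; omega
  have hθ : 4 * ε ^ bL hm ≤ 1 := by
    have h1 : ε ^ bL hm ≤ ε ^ 1 := pow_le_pow_of_le_one hε.le (by linarith) (by omega)
    rw [pow_one] at h1
    linarith
  rw [sum_wrd]
  have h2 : ∀ ρ : Fin r → Letter m, ∑ b : Fin N → Fin (bL hm) → Letter m,
        (if K O (toL (wrd b ρ)) ∧ F O (toL (wrd b ρ)) = t then ∏ k, ∏ l, q (plc r k l) (b k l) else 0) ≤
      1113 / (4 * ε ^ bL hm * (N + 1)) := by
    intro ρ
    have h3 := chain_bound (N := N) (Z := Bool × Bool) pbB (actB hm) 1 (pbB_act hm) (actB_inj hm)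
      (fun (k : Fin N) (c : Fin (bL hm) → Letter m) => ∏ l, q (plc r k l) (c l)) (ε ^ bL hm) (by positivity) (by
        intro k c
        have : ε ^ bL hm = ∏ _l : Fin (bL hm), ε := by
          rw [Finset.prod_const, Finset.card_univ, Fintype.card_fin]
        rw [this]
        exact Finset.prod_le_prod (fun _ _ => hε.le) fun l _ => hq _ _) (fun k =>
          sum_prod_one (fun l => q (plc r k l)) fun l => hs _)
      (fun b => K O (toL (wrd b ρ)) ∧ F O (toL (wrd b ρ)) = t) (fun s => 1113 / ((s : ℝ) + 1)) (by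
        intro S b hS
        have h4 := count_blocks hm S b (toL ρ) (valid_toL ρ) O t hS
        have e4 : ((Fintype.card (Bool × Bool) : ℕ) : ℝ) = 4 := by
          rw [Fintype.card_prod, Fintype.card_bool]; norm_num
        rw [e4]
        simp only [toL_wrd]
        rw [mul_div_assoc', le_div_iff₀ (by positivity)]
        refine h4.trans (le_of_eq ?_)
        ring)
    refine le_trans (le_of_eq ?_) (h3.trans ?_)
    · refine Finset.sum_congr rfl fun b _ => ?_
      congr
    have e4 : ((Fintype.card (Bool × Bool) : ℕ) : ℝ) = 4 := by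
      rw [Fintype.card_prod, Fintype.card_bool]; norm_num
    rw [e4]
    have h5 := binom_inv N 1 (4 * ε ^ bL hm) (by positivity) hθ
    calc ∑ S : Finset (Fin N), (4 * ε ^ bL hm) ^ S.card * (1 - 4 * ε ^ bL hm) ^ (N - S.card) * (1113 / ((S.card : ℝ) + 1))
        = 1113 * ∑ S : Finset (Fin N), (4 * ε ^ bL hm) ^ S.card * (1 - 4 * ε ^ bL hm) ^ (N - S.card) * (1 / ((S.card : ℝ) + 1) ^ 1) := by
          rw [Finset.mul_sum]
          refine Finset.sum_congr rfl fun S _ => ?_
          rw [pow_one]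
          ring
      _ ≤ 1113 * (((1 : ℕ).factorial : ℝ) / (4 * ε ^ bL hm * (N + 1)) ^ 1) := by gcongr
      _ = _ := by
          rw [Nat.factorial_one, pow_one]
          push_cast
          ring
  calc ∑ ρ : Fin r → Letter m, (∏ s, q (Fin.natAdd (N * bL hm) s) (ρ s)) * ∑ b : Fin N → Fin (bL hm) → Letter m,
        (if K O (toL (wrd b ρ)) ∧ F O (toL (wrd b ρ)) = t then ∏ k, ∏ l, q (plc r k l) (b k l) else 0)
      ≤ ∑ ρ : Fin r → Letter m, (∏ s, q (Fin.natAdd (N * bL hm) s) (ρ s)) * (1113 / (4 * ε ^ bL hm * (N + 1))) := by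
        refine Finset.sum_le_sum fun ρ _ => mul_le_mul_of_nonneg_left (h2 ρ) ?_
        exact Finset.prod_nonneg fun s _ => hε.le.trans (hq _ _)
    _ = _ := by
        rw [← Finset.sum_mul, sum_prod_one (fun s => q (Fin.natAdd (N * bL hm) s)) fun s => hs _, one_mul]

open Classical in
theorem rateB (hm : 3 ≤ m) (O : Outer m) (n : ℕ) (hn : 0 < n)
    (q : Fin n → Letter m → ℝ) (ε : ℝ) (hε : 0 < ε) (hq : ∀ s x, ε ≤ q s x)
    (hs : ∀ s, ∑ x, q s x = 1) (X : Dia) :
    ∑ w : Fin n → Letter m, (if Pool.Agent.Y463.BS.IsKnot (diagram O w) ∧ ¬ Separated 2 (dia O w) X then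
      ∏ s, q s (w s) else 0) ≤ 279 * bL hm / (ε ^ bL hm * n) := by
  have hL : 0 < bL hm := by unfold bL; omega
  obtain ⟨N, r, hr, hnr⟩ : ∃ N r, r < bL hm ∧ n = N * bL hm + r :=
    ⟨n / bL hm, n % bL hm, Nat.mod_lt _ hL, (Nat.div_add_mod' n _).symm⟩
  subst hnr
  have h1 := rateA hm O N r hn q ε hε hq hs (moment 2 X.D.fPoly)
  have h2 : ∑ w : Fin (N * bL hm + r) → Letter m, (if Pool.Agent.Y463.BS.IsKnot (diagram O w) ∧ ¬ Separated 2 (dia O w) X then
      ∏ s, q s (w s) else 0) ≤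
      ∑ w : Fin (N * bL hm + r) → Letter m, (if K O (toL w) ∧ F O (toL w) = moment 2 X.D.fPoly then ∏ s, q s (w s) else 0) := by
    refine Finset.sum_le_sum fun w _ => ?_
    by_cases h : Pool.Agent.Y463.BS.IsKnot (diagram O w) ∧ ¬ Separated 2 (dia O w) X
    · have h1 : K O (toL w) ∧ F O (toL w) = moment 2 X.D.fPoly := ⟨h.1, F_of_not_sep O w X h.2⟩
      rw [if_pos h, if_pos h1]
    · rw [if_neg h]
      split_ifs
      · exact Finset.prod_nonneg fun s _ => hε.le.trans (hq _ _)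
      · exact le_rfl
  refine (h2.trans h1).trans ?_
  have hn' : (0 : ℝ) < ((N * bL hm + r : ℕ) : ℝ) := by exact_mod_cast hn
  have h3 : ((N * bL hm + r : ℕ) : ℝ) ≤ bL hm * (N + 1) := by
    have : N * bL hm + r ≤ bL hm * (N + 1) := by nlinarith
    exact_mod_cast this
  have hε' : 0 < ε ^ bL hm := by positivity
  rw [div_le_div_iff₀ (by positivity) (by positivity)]
  have hb : (0 : ℝ) < bL hm := by exact_mod_cast hL
  calc 1113 * (ε ^ bL hm * ((N * bL hm + r : ℕ) : ℝ)) ≤ 1116 * (ε ^ bL hm * (bL hm * (N + 1))) := by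
        apply mul_le_mul (by norm_num) _ (by positivity) (by norm_num)
        gcongr
    _ = _ := by ring

open Classical in
/-- if there is one knot among the diagrams, the probability of a knot is not small -/
theorem many2 (hm : 2 ≤ m) : ∃ l0 : ℕ, ∀ (O : Outer m) (n0 : ℕ) (w0 : Fin n0 → Letter m),
    Pool.Agent.Y463.BS.IsKnot (diagram O w0) → ∀ n, l0 ≤ n → n % 2 = n0 % 2 →
    ∀ (q : Fin n → Letter m → ℝ) (ε : ℝ), 0 < ε → (∀ s x, ε ≤ q s x) → (∀ s, ∑ x, q s x = 1) →
    ε ^ l0 ≤ ∑ w : Fin n → Letter m, (if Pool.Agent.Y463.BS.IsKnot (diagram O w) then ∏ s, q s (w s) else 0) := by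
  obtain ⟨l0, hl0⟩ := exists_len hm
  refine ⟨l0, fun O n0 w0 hw0 n hn hpar q ε hε hq hs => ?_⟩
  obtain ⟨k, rfl⟩ : ∃ k, n = k + l0 := ⟨n - l0, by omega⟩
  have h1 : ∀ w : Fin k → Letter m, ∃ s : Fin l0 → Letter m, perm s = (perm w)⁻¹ * perm w0 := by
    intro w
    apply hl0
    rw [map_mul, map_inv, sign_perm, sign_perm, Int.units_inv_eq_self, ← pow_add]
    have h3 : ∃ e, k + n0 = l0 + 2 * e ∨ l0 = k + n0 + 2 * e := by
      rcases le_total l0 (k + n0) with h | h
      · exact ⟨(k + n0 - l0) / 2, Or.inl (by omega)⟩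
      · exact ⟨(l0 - (k + n0)) / 2, Or.inr (by omega)⟩
    obtain ⟨e, h3 | h3⟩ := h3
    · rw [h3, pow_add, pow_mul (-1 : ℤˣ) 2 e]; simp
    · rw [h3, pow_add (-1 : ℤˣ) (k + n0) (2 * e), pow_mul (-1 : ℤˣ) 2 e]; simp
  choose s hs' using h1
  have h2 : ∀ w : Fin k → Letter m, Pool.Agent.Y463.BS.IsKnot (diagram O (Fin.append w (s w))) := by
    intro w
    have h3 : pm m (toL w0) = pm m (toL (Fin.append w (s w))) := by
      rw [pm_toL, pm_toL, perm_append, hs', mul_inv_cancel_left]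
    exact K_perm (valid_toL _) (valid_toL _) h3 hw0
  have hnn : ∀ w : Fin (k + l0) → Letter m, 0 ≤ (if Pool.Agent.Y463.BS.IsKnot (diagram O w) then ∏ s, q s (w s) else 0) := by
    intro w
    split_ifs
    · exact Finset.prod_nonneg fun s _ => hε.le.trans (hq _ _)
    · exact le_rfl
  calc ε ^ l0 = ε ^ l0 * ∑ w : Fin k → Letter m, ∏ x, q (Fin.castAdd l0 x) (w x) := by
        rw [sum_prod_one (fun x => q (Fin.castAdd l0 x)) fun x => hs _, mul_one]
    _ ≤ ∑ w : Fin k → Letter m, (if Pool.Agent.Y463.BS.IsKnot (diagram O (Fin.append w (s w))) then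
          ∏ x, q x (Fin.append w (s w) x) else 0) := by
        rw [Finset.mul_sum]
        refine Finset.sum_le_sum fun w _ => ?_
        rw [if_pos (h2 w), Fin.prod_univ_add, mul_comm]
        have e1 : ∏ i, q (Fin.castAdd l0 i) (Fin.append w (s w) (Fin.castAdd l0 i)) = ∏ x, q (Fin.castAdd l0 x) (w x) := by
          refine Finset.prod_congr rfl fun i _ => ?_
          rw [Fin.append_left]
        rw [e1]
        apply mul_le_mul_of_nonneg_left _ (Finset.prod_nonneg fun s _ => hε.le.trans (hq _ _))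
        have : ε ^ l0 = ∏ _l : Fin l0, ε := by
          rw [Finset.prod_const, Finset.card_univ, Fintype.card_fin]
        rw [this]
        exact Finset.prod_le_prod (fun _ _ => hε.le) fun l _ => hq _ _
    _ = ∑ w ∈ univ.image (fun w : Fin k → Letter m => Fin.append w (s w)),
          (if Pool.Agent.Y463.BS.IsKnot (diagram O w) then ∏ x, q x (w x) else 0) := by
        rw [Finset.sum_image]
        intro w _ w' _ h
        funext i
        have := congrFun h (Fin.castAdd l0 i)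
        simpa [Fin.append_left] using this
    _ ≤ _ := Finset.sum_le_univ_sum_of_nonneg hnn

end Pool.Agent.T6.H96.VB
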