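import Pool.Agent.T6.H96.VB.Final

/-!
# The mixed difference of the invariant of order two
-/

set_option autoImplicit false

namespace Pool.Agent.T6.H96.VB

open Finset LaurentPolynomial Pool.Agent.H891R2.Jones Pool.Agent.W639.RB Pool.Agent.H832R3.VJ
open Pool.Agent.H953R3.Q2 (m_sum m_one T_mul0 T_mul1 T_mul2 mul0 mul1 mul2 m0_T)
open Pool.Agent.H832R3.VJ.V7 (moment_C_mul moment_term)

variable {m : ℕ}

/-- two words with the same letters -/
def Bw (i j : ℕ) (x : Bool) : List (Bool × ℕ) :=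
  if x then [(true, i), (true, j), (true, j), (false, i)] else [(true, j), (true, j), (true, i), (false, i)]

theorem Bw_valid {i j : ℕ} (hi : i + 1 < m) (hj : j + 1 < m) (x : Bool) : Valid m (Bw i j x) := by
  unfold Bw
  split_ifs
  · exact Valid.cons hi (Valid.cons hj (Valid.cons hj (Valid.cons hi Valid.nil)))
  · exact Valid.cons hj (Valid.cons hj (Valid.cons hi (Valid.cons hi Valid.nil)))

theorem Bw_len (i j : ℕ) (x : Bool) : (Bw i j x).length = 4 := by
  unfold Bw
  split_ifs <;> rfl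

/-- the transposition of a letter -/
def sw (m : ℕ) (i : ℕ) : Equiv.Perm (Fin m) :=
  if h : i + 1 < m then Equiv.swap (⟨i, Nat.lt_of_succ_lt h⟩ : Fin m) ⟨i + 1, h⟩ else 1

theorem pm_cons (x : Bool × ℕ) (w : List (Bool × ℕ)) : pm m (x :: w) = sw m x.2 * pm m w := rfl

theorem pm_nil : pm m [] = 1 := rfl

theorem sw_sq (i : ℕ) : sw m i * sw m i = 1 := by
  unfold sw
  split_ifs
  · exact Equiv.swap_mul_self _ _
  · exact one_mul 1

theorem sw_sq' (i : ℕ) (p : Equiv.Perm (Fin m)) : sw m i * (sw m i * p) = p := by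
  rw [← mul_assoc, sw_sq, one_mul]

theorem sw_braid {i j : ℕ} (hi : i + 1 < m) (hj : j + 1 < m) (hij : i + 1 = j ∨ j + 1 = i) :
    sw m i * (sw m j * sw m i) = sw m j * (sw m i * sw m j) := by
  have key : ∀ i : ℕ, (h : i + 1 + 1 < m) → sw m i * (sw m (i + 1) * sw m i) = sw m (i + 1) * (sw m i * sw m (i + 1)) := by
    intro i h
    have e1 : sw m i = Equiv.swap (⟨i, by omega⟩ : Fin m) ⟨i + 1, by omega⟩ := by
      unfold sw
      rw [dif_pos (by omega : i + 1 < m)]
    have e2 : sw m (i + 1) = Equiv.swap (⟨i + 1, by omega⟩ : Fin m) ⟨i + 1 + 1, h⟩ := by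
      unfold sw
      rw [dif_pos h]
    rw [e1, e2, ← mul_assoc, ← mul_assoc,
      Equiv.swap_mul_swap_mul_swap (x := (⟨i, by omega⟩ : Fin m)) (by simp [Fin.ext_iff])
        (by simp only [ne_eq, Fin.mk.injEq]; omega),
      Equiv.swap_comm (⟨i, by omega⟩ : Fin m) ⟨i + 1, by omega⟩,
      Equiv.swap_comm (⟨i + 1, by omega⟩ : Fin m) ⟨i + 1 + 1, h⟩,
      Equiv.swap_mul_swap_mul_swap (x := (⟨i + 1 + 1, h⟩ : Fin m)) (by simp [Fin.ext_iff])
        (by simp only [ne_eq, Fin.mk.injEq]; omega), Equiv.swap_comm]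
  rcases hij with rfl | rfl
  · exact key i hj
  · exact (key j hi).symm

theorem pm_Bw (i j : ℕ) (x : Bool) : pm m (Bw i j x) = 1 := by
  unfold Bw
  split_ifs
  · simp only [pm_cons, pm_nil, mul_one, sw_sq', sw_sq]
  · simp only [pm_cons, pm_nil, mul_one, sw_sq]

theorem diffB (hm : 0 < m) (O : Outer m) (a b : List (Bool × ℕ)) (ha : Valid m a) (hb : Valid m b)
    {i j : ℕ} (hi : i + 1 < m) (hj : j + 1 < m) :
    Br O (a ++ Bw i j true ++ b) - Br O (a ++ Bw i j false ++ b) =
      (T 1 - T (-3)) * (Br O (a ++ [(true, i), (true, j), (false, i)] ++ b) - Br O (a ++ [(true, j)] ++ b)) := by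
  have v1 : Valid m ([(true, i)] : List (Bool × ℕ)) := Valid.cons hi Valid.nil
  have v1' : Valid m ([(false, i)] : List (Bool × ℕ)) := Valid.cons hi Valid.nil
  have v2 : Valid m ([(true, j), (true, j)] : List (Bool × ℕ)) := Valid.cons hj (Valid.cons hj Valid.nil)
  have e1 : a ++ Bw i j true ++ b = (a ++ [(true, i)]) ++ [(true, j), (true, j)] ++ ([(false, i)] ++ b) := by
    simp [Bw]
  have e2 : a ++ Bw i j false ++ b = (a ++ [(true, j), (true, j)]) ++ [(true, i), (false, i)] ++ b := by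
    simp [Bw]
  have e3 : (a ++ [(true, i)]) ++ [] ++ ([(false, i)] ++ b) = a ++ [(true, i), (false, i)] ++ b := by simp
  have e4 : (a ++ [(true, i)]) ++ [(true, j)] ++ ([(false, i)] ++ b) =
    a ++ [(true, i), (true, j), (false, i)] ++ b := by simp
  have e5 : (a ++ [(true, j), (true, j)]) ++ [] ++ b = a ++ [(true, j), (true, j)] ++ b := by simp
  rw [e1, e2, R1 hm O (a ++ [(true, i)]) ([(false, i)] ++ b) (ha.app v1) (v1'.app hb) hj, e3, e4,
    R2 hm O a b ha hb hi, R2 hm O (a ++ [(true, j), (true, j)]) b (ha.app v2) hb hi, e5,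
    R1 hm O a b ha hb hj]
  ring

/-- the mixed difference of the brackets -/
theorem mixedBr (hm : 0 < m) (O : Outer m) (a b c : List (Bool × ℕ)) (ha : Valid m a) (hb : Valid m b)
    (hc : Valid m c) {i j : ℕ} (hi : i + 1 < m) (hj : j + 1 < m) :
    Br O (a ++ Bw i j true ++ b ++ Bw j i true ++ c) - Br O (a ++ Bw i j true ++ b ++ Bw j i false ++ c) -
      Br O (a ++ Bw i j false ++ b ++ Bw j i true ++ c) + Br O (a ++ Bw i j false ++ b ++ Bw j i false ++ c) =
    ((T 1 - T (-3)) * (T 1 - T (-3))) *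
      (Br O (a ++ [(true, i), (true, j), (false, i)] ++ b ++ [(true, j), (true, i), (false, j)] ++ c) -
      Br O (a ++ [(true, j)] ++ b ++ [(true, j), (true, i), (false, j)] ++ c) -
      Br O (a ++ [(true, i), (true, j), (false, i)] ++ b ++ [(true, i)] ++ c) +
      Br O (a ++ [(true, j)] ++ b ++ [(true, i)] ++ c)) := by
  have v1 : Valid m ([(true, i), (true, j), (false, i)] : List (Bool × ℕ)) :=
    Valid.cons hi (Valid.cons hj (Valid.cons hi Valid.nil))
  have v2 : Valid m ([(true, j)] : List (Bool × ℕ)) := Valid.cons hj Valid.nil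
  have v3 : Valid m ([(true, j), (true, i), (false, j)] : List (Bool × ℕ)) :=
    Valid.cons hj (Valid.cons hi (Valid.cons hj Valid.nil))
  have v4 : Valid m ([(true, i)] : List (Bool × ℕ)) := Valid.cons hi Valid.nil
  have h1 := diffB hm O (a ++ Bw i j true ++ b) c ((ha.app (Bw_valid hi hj true)).app hb) hc hj hi
  have h2 := diffB hm O (a ++ Bw i j false ++ b) c ((ha.app (Bw_valid hi hj false)).app hb) hc hj hi
  have h3 := diffB hm O a (b ++ [(true, j), (true, i), (false, j)] ++ c) ha ((hb.app v3).app hc) hi hj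
  have h4 := diffB hm O a (b ++ [(true, i)] ++ c) ha ((hb.app v4).app hc) hi hj
  simp only [List.append_assoc] at h1 h2 h3 h4 ⊢
  linear_combination h1 - h2 + (T 1 - T (-3)) * h3 - (T 1 - T (-3)) * h4

theorem mixedM (hm : 0 < m) (O : Outer m) (a b c : List (Bool × ℕ)) (ha : Valid m a) (hb : Valid m b)
    (hc : Valid m c) {i j : ℕ} (hi : i + 1 < m) (hj : j + 1 < m) :
    moment 2 (Br O (a ++ Bw i j true ++ b ++ Bw j i true ++ c)) -
      moment 2 (Br O (a ++ Bw i j true ++ b ++ Bw j i false ++ c)) -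
      moment 2 (Br O (a ++ Bw i j false ++ b ++ Bw j i true ++ c)) +
      moment 2 (Br O (a ++ Bw i j false ++ b ++ Bw j i false ++ c)) =
    32 * (m0 O (a ++ [(true, i), (true, j), (false, i)] ++ b ++ [(true, j), (true, i), (false, j)] ++ c) -
      m0 O (a ++ [(true, j)] ++ b ++ [(true, j), (true, i), (false, j)] ++ c) -
      m0 O (a ++ [(true, i), (true, j), (false, i)] ++ b ++ [(true, i)] ++ c) +
      m0 O (a ++ [(true, j)] ++ b ++ [(true, i)] ++ c)) := by
  have h := congrArg (moment 2) (mixedBr hm O a b c ha hb hc hi hj)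
  have c0 : ∀ k : ℤ, moment 0 (T k : ℤ[T;T⁻¹]) = 1 := m0_T
  have c1 : ∀ k : ℤ, moment 1 (T k : ℤ[T;T⁻¹]) = k := by
    intro k
    have h : (T k : ℤ[T;T⁻¹]) = C 1 * T k := by rw [map_one, one_mul]
    rw [h, moment_term]
    ring
  have d0 : moment 0 (T 1 - T (-3) : ℤ[T;T⁻¹]) = 0 := by rw [moment_sub, c0, c0]; ring
  have d1 : moment 1 (T 1 - T (-3) : ℤ[T;T⁻¹]) = 4 := by rw [moment_sub, c1, c1]; ring
  have key : ∀ E : ℤ[T;T⁻¹], moment 2 (((T 1 - T (-3)) * (T 1 - T (-3))) * E) = 32 * moment 0 E := by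
    intro E
    rw [mul2, mul0, mul1, mul2, d0, d1]
    ring
  rw [key, moment_add, moment_sub, moment_sub, moment_add, moment_sub, moment_sub] at h
  exact h

theorem F_knot (hm : 0 < m) (O : Outer m) (w : List (Bool × ℕ)) (hw : Valid m w) (h : K O w) :
    F O w = m0 O w * moment 2 (Br O w) - 9 * owr (draw O w) ^ 2 := by
  obtain ⟨g1, g2, g3⟩ := K_facts hm hw h
  have h4 : m0 O w * m0 O w = 1 := by
    rw [g1, ← pow_add]
    exact Even.neg_one_pow ⟨_, rfl⟩
  unfold F
  rw [fPoly_eq, moment_C_mul, T_mul2, g2]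
  change m0 O w * ((-3 * owr (draw O w)) ^ 2 * m0 O w + 2 * (-3 * owr (draw O w)) * m1 O w + moment 2 (Br O w)) = _
  rw [g3]
  linear_combination (-9 * owr (draw O w) ^ 2) * h4

theorem ac_pure {O : Outer m} {a : List (Bool × ℕ)} (ha : Valid m a) (h : pm m a = 1) :
    ac a (pat O.up) = pat O.up := by
  rw [← (draw_writhe a O ha).2, up_draw a O ha, h]
  rfl

theorem owr_five {O : Outer m} {a u b v c : List (Bool × ℕ)} (ha : Valid m a) (hu : Valid m u)
    (hb : Valid m b) (hv : Valid m v) (hc : Valid m c) (pa : pm m a = 1) (pu : pm m u = 1)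
    (pb : pm m b = 1) (pv : pm m v = 1) :
    owr (draw O (a ++ u ++ b ++ v ++ c)) = owr O + cw a (pat O.up) + cw u (pat O.up) + cw b (pat O.up) +
      cw v (pat O.up) + cw c (pat O.up) := by
  rw [(draw_writhe _ O ((((ha.app hu).app hb).app hv).app hc)).1]
  simp only [cw_append, ac_append]
  rw [ac_pure ha pa, ac_pure hu pu, ac_pure hb pb, ac_pure hv pv]
  ring

/-- the difference of the writhes -/
def dW (O : Outer m) (i j : ℕ) : ℤ := cw (Bw i j true) (pat O.up) - cw (Bw i j false) (pat O.up)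

/-- the mixed difference -/
noncomputable def cc (O : Outer m) (w0 : List (Bool × ℕ)) (i j : ℕ) : ℤ :=
  32 * (m0 O w0 * (m0 O w0 - 2 * m0 O ([(true, i), (true, j)] ++ w0) + m0 O ([(true, j), (true, i)] ++ w0))) -
    18 * (dW O i j * dW O j i)

theorem mixedF (hm : 0 < m) (O : Outer m) (a b c w0 : List (Bool × ℕ)) (ha : Valid m a) (hb : Valid m b)
    (hc : Valid m c) (hw0 : Valid m w0) {i j : ℕ} (hi : i + 1 < m) (hj : j + 1 < m)
    (hij : i + 1 = j ∨ j + 1 = i) (pa : pm m a = 1) (pb : pm m b = 1) (hK : K O w0)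
    (hp : pm m w0 = pm m c) (hl : Even (w0.length + (a ++ b ++ c).length)) :
    (∀ x y, K O (a ++ Bw i j x ++ b ++ Bw j i y ++ c)) ∧
    F O (a ++ Bw i j true ++ b ++ Bw j i true ++ c) - F O (a ++ Bw i j true ++ b ++ Bw j i false ++ c) -
      F O (a ++ Bw i j false ++ b ++ Bw j i true ++ c) + F O (a ++ Bw i j false ++ b ++ Bw j i false ++ c) =
        cc O w0 i j := by
  have hv : ∀ x y, Valid m (a ++ Bw i j x ++ b ++ Bw j i y ++ c) := fun x y =>
    (((ha.app (Bw_valid hi hj x)).app hb).app (Bw_valid hj hi y)).app hc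
  have hpm : ∀ x y, pm m w0 = pm m (a ++ Bw i j x ++ b ++ Bw j i y ++ c) := by
    intro x y
    simp only [pm_append, pm_Bw, pa, pb, one_mul, hp]
  have hk : ∀ x y, K O (a ++ Bw i j x ++ b ++ Bw j i y ++ c) := fun x y =>
    K_perm hw0 (hv x y) (hpm x y) hK
  have hg := K_good hK
  refine ⟨hk, ?_⟩
  have v1 : Valid m ([(true, i), (true, j), (false, i)] : List (Bool × ℕ)) :=
    Valid.cons hi (Valid.cons hj (Valid.cons hi Valid.nil))
  have v2 : Valid m ([(true, j)] : List (Bool × ℕ)) := Valid.cons hj Valid.nil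
  have v3 : Valid m ([(true, j), (true, i), (false, j)] : List (Bool × ℕ)) :=
    Valid.cons hj (Valid.cons hi (Valid.cons hj Valid.nil))
  have v4 : Valid m ([(true, i)] : List (Bool × ℕ)) := Valid.cons hi Valid.nil
  have v5 : Valid m ([(true, i), (true, j)] : List (Bool × ℕ)) := Valid.cons hi (Valid.cons hj Valid.nil)
  have v6 : Valid m ([(true, j), (true, i)] : List (Bool × ℕ)) := Valid.cons hj (Valid.cons hi Valid.nil)
  simp only [List.length_append] at hl
  have q0 : ∀ x y, m0 O (a ++ Bw i j x ++ b ++ Bw j i y ++ c) = m0 O w0 := by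
    intro x y
    refine (m0_perm hm hg hw0 (hv x y) (hpm x y) ?_).symm
    simp only [List.length_append, Bw_len]
    rw [show w0.length + (a.length + 4 + b.length + 4 + c.length) = w0.length + (a.length + b.length + c.length) + 2 * 4 by ring]
    exact hl.add (even_two_mul 4)
  have r1 : m0 O (a ++ [(true, i), (true, j), (false, i)] ++ b ++ [(true, j), (true, i), (false, j)] ++ c) = m0 O w0 := by
    refine (m0_perm hm hg hw0 ((((ha.app v1).app hb).app v3).app hc) ?_ ?_).symm
    · simp only [pm_append, pm_cons, pm_nil, mul_one, pa, pb, one_mul, hp]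
      rw [sw_braid hi hj hij]
      simp only [mul_assoc, sw_sq']
    · simp only [List.length_append, List.length_cons, List.length_nil]
      rw [show w0.length + (a.length + (0 + 1 + 1 + 1) + b.length + (0 + 1 + 1 + 1) + c.length) =
        w0.length + (a.length + b.length + c.length) + 2 * 3 by ring]
      exact hl.add (even_two_mul 3)
  have r2 : m0 O (a ++ [(true, j)] ++ b ++ [(true, j), (true, i), (false, j)] ++ c) = m0 O ([(true, i), (true, j)] ++ w0) := by
    refine (m0_perm hm hg (v5.app hw0) ((((ha.app v2).app hb).app v3).app hc) ?_ ?_).symm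
    · simp only [pm_append, pm_cons, pm_nil, mul_one, pa, pb, one_mul, hp]
      simp only [mul_assoc, sw_sq']
    · simp only [List.length_append, List.length_cons, List.length_nil]
      rw [show (0 + 1 + 1 + w0.length) + (a.length + (0 + 1) + b.length + (0 + 1 + 1 + 1) + c.length) =
        w0.length + (a.length + b.length + c.length) + 2 * 3 by ring]
      exact hl.add (even_two_mul 3)
  have r3 : m0 O (a ++ [(true, i), (true, j), (false, i)] ++ b ++ [(true, i)] ++ c) = m0 O ([(true, i), (true, j)] ++ w0) := by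
    refine (m0_perm hm hg (v5.app hw0) ((((ha.app v1).app hb).app v4).app hc) ?_ ?_).symm
    · simp only [pm_append, pm_cons, pm_nil, mul_one, pa, pb, one_mul, hp]
      simp only [mul_assoc, sw_sq']
    · simp only [List.length_append, List.length_cons, List.length_nil]
      rw [show (0 + 1 + 1 + w0.length) + (a.length + (0 + 1 + 1 + 1) + b.length + (0 + 1) + c.length) =
        w0.length + (a.length + b.length + c.length) + 2 * 3 by ring]
      exact hl.add (even_two_mul 3)
  have r4 : m0 O (a ++ [(true, j)] ++ b ++ [(true, i)] ++ c) = m0 O ([(true, j), (true, i)] ++ w0) := by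
    refine (m0_perm hm hg (v6.app hw0) ((((ha.app v2).app hb).app v4).app hc) ?_ ?_).symm
    · simp only [pm_append, pm_cons, pm_nil, mul_one, pa, pb, one_mul, hp]
    · simp only [List.length_append, List.length_cons, List.length_nil]
      rw [show (0 + 1 + 1 + w0.length) + (a.length + (0 + 1) + b.length + (0 + 1) + c.length) =
        w0.length + (a.length + b.length + c.length) + 2 * 2 by ring]
      exact hl.add (even_two_mul 2)
  have hM := mixedM hm O a b c ha hb hc hi hj
  rw [r1, r2, r3, r4] at hM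
  have hW : ∀ x y, owr (draw O (a ++ Bw i j x ++ b ++ Bw j i y ++ c)) =
    owr O + cw a (pat O.up) + cw (Bw i j x) (pat O.up) + cw b (pat O.up) +
      cw (Bw j i y) (pat O.up) + cw c (pat O.up) := fun x y =>
    owr_five ha (Bw_valid hi hj x) hb (Bw_valid hj hi y) hc pa (pm_Bw _ _ _) pb (pm_Bw _ _ _)
  rw [F_knot hm O _ (hv _ _) (hk _ _), F_knot hm O _ (hv _ _) (hk _ _), F_knot hm O _ (hv _ _) (hk _ _),
    F_knot hm O _ (hv _ _) (hk _ _), q0, q0, q0, q0, hW, hW, hW, hW]
  unfold cc dW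
  linear_combination m0 O w0 * hM

/-- the two orders of the blocks give different mixed differences -/
theorem cc_sub (hm : 0 < m) (O : Outer m) (w0 : List (Bool × ℕ)) (hw0 : Valid m w0) {i j : ℕ}
    (hi : i + 1 < m) (hj : j + 1 < m) (hij : i + 1 = j ∨ j + 1 = i) (hK : K O w0) :
    |cc O w0 j i - cc O w0 i j| = 288 := by
  obtain ⟨k, l, h1, h2, h3, h4⟩ := sum_val hm O [] w0 Valid.nil hw0 hi hj hij hK
  simp only [List.nil_append] at h1 h2 h4
  unfold cc
  rw [show ([(true, i), (true, j)] ++ w0) = (true, i) :: (true, j) :: w0 from rfl,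
    show ([(true, j), (true, i)] ++ w0) = (true, j) :: (true, i) :: w0 from rfl]
  rw [show ([(true, i), (true, j)] ++ w0) = (true, i) :: (true, j) :: w0 from rfl] at h2
  rw [show ([(true, j), (true, i)] ++ w0) = (true, j) :: (true, i) :: w0 from rfl] at h1
  rw [h1, h2]
  have e : 32 * (m0 O w0 * (m0 O w0 - 2 * (m0 O w0 * (-2) ^ k) + m0 O w0 * (-2) ^ l)) - 18 * (dW O j i * dW O i j) -
      (32 * (m0 O w0 * (m0 O w0 - 2 * (m0 O w0 * (-2) ^ l) + m0 O w0 * (-2) ^ k)) - 18 * (dW O i j * dW O j i)) =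
      (m0 O w0 * m0 O w0) * (-96) * ((-2) ^ k - (-2) ^ l) := by ring
  rw [e, h4, abs_mul, h3]
  norm_num

end Pool.Agent.T6.H96.VB
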