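import Pool.Agent.T6.H96.VB.Levels
import Pool.Agent.T6.H96.VB.Linear

/-!
# The rate for invariants of higher order
-/

set_option autoImplicit false

namespace Pool.Agent.T6.H96.VB

open Finset Pool.Agent.H891R2.Jones Pool.Agent.W639.RB Pool.Agent.H832R3.VJ
open Pool.Agent.W705.JR (dia)

variable {m : ℕ}

section blocks

variable (hm : 3 ≤ m) {Z : Type} (J : Z → List (Bool × ℕ)) {len : ℕ}

/-- the content of an active block -/
noncomputable def contJ (g : Equiv.Perm (Fin m)) (z : Z) : List (Bool × ℕ) := pre hm g ++ J z ++ post hm g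

variable (hJ : ∀ z, Valid m (J z) ∧ pm m (J z) = 1 ∧ (J z).length = len)

include hJ

theorem contJ_len (g : Equiv.Perm (Fin m)) (z : Z) : (contJ hm J g z).length = len + 2 * ll hm := by
  have := pre_len hm g
  unfold contJ post
  simp only [List.length_append, (hJ z).2.2, List.length_reverse, List.length_replicate]
  omega

theorem contJ_valid (g : Equiv.Perm (Fin m)) (z : Z) : Valid m (contJ hm J g z) :=
  ((pre_valid hm g).app (hJ z).1).app (post_valid hm g)

theorem pm_contJ (g : Equiv.Perm (Fin m)) (z : Z) : pm m (contJ hm J g z) = 1 := by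
  unfold contJ
  rw [pm_append, pm_append, pm_pre, (hJ z).2.1, pm_post]
  simp

/-- the content as a block -/
noncomputable def actJ (g : Equiv.Perm (Fin m)) (z : Z) : Fin (len + 2 * ll hm) → Letter m :=
  (ex_toL (contJ hm J g z) (contJ_valid hm J hJ g z) (contJ_len hm J hJ g z)).choose

theorem toL_actJ (g : Equiv.Perm (Fin m)) (z : Z) : toL (actJ hm J hJ g z) = contJ hm J g z :=
  (ex_toL (contJ hm J g z) (contJ_valid hm J hJ g z) (contJ_len hm J hJ g z)).choose_spec

theorem actJ_inj (hJi : Function.Injective J) (g : Equiv.Perm (Fin m)) : Function.Injective (actJ hm J hJ g) := by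
  intro z z' h
  apply hJi
  have h1 : contJ hm J g z = contJ hm J g z' := by rw [← toL_actJ hm J hJ, ← toL_actJ hm J hJ, h]
  unfold contJ at h1
  exact List.append_cancel_left (List.append_cancel_right h1)

theorem pbB_actJ (g : Equiv.Perm (Fin m)) (z : Z) : pbB (actJ hm J hJ g z) = 1 := by
  unfold pbB
  rw [toL_actJ, pm_contJ hm J hJ]

variable {N : ℕ} (S : Finset (Fin N)) (b : Fin N → Fin (len + 2 * ll hm) → Letter m) (ρ : List (Bool × ℕ))

omit hJ in
/-- the frame given by the blocks -/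
noncomputable def fr : Frame N where
  S := S
  A := fun k => pre hm (gs pbB 1 b k)
  C := fun k => post hm (gs pbB 1 b k)
  B := bl b
  ρ := ρ

omit hJ in
theorem gs_fr (J : Z → List (Bool × ℕ)) (hJ : ∀ z, Valid m (J z) ∧ pm m (J z) = 1 ∧ (J z).length = len)
    (hS : ∀ k ∈ S, isA pbB (actJ hm J hJ) 1 b k) (n : ℕ) :
    pm m (seg ((fr hm S b ρ).f fun _ => []) 0 n) = gs pbB 1 b n := by
  induction n with
  | zero => rfl
  | succ n ih =>
    rw [seg_add, seg_one, pm_append, ih, gs, Nat.zero_add]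
    congr 1
    unfold Frame.f
    by_cases h : n < N
    · rw [dif_pos h, dif_pos h]
      have e : (fr hm S b ρ).S = S := rfl
      rw [e]
      by_cases h2 : (⟨n, h⟩ : Fin N) ∈ S
      · rw [if_pos h2]
        obtain ⟨z, hz⟩ := hS _ h2
        rw [hz, pbB_actJ hm J hJ]
        show pm m (pre hm (gs pbB 1 b n) ++ [] ++ post hm (gs pbB 1 b n)) = 1
        rw [pm_append, pm_append, pm_pre, pm_nil, pm_post]
        simp
      · rw [if_neg h2]
        show pm m (bl b n) = _
        rw [bl, dif_pos h]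
        rfl
    · rw [dif_neg h, dif_neg h]
      rfl

theorem fr_ok (hS : ∀ k ∈ S, isA pbB (actJ hm J hJ) 1 b k) (hρ : Valid m ρ) : (fr hm S b ρ).Ok m where
  vA := fun k => pre_valid hm _
  vC := fun k => post_valid hm _
  vB := fun k => bl_valid b k
  vρ := hρ
  pAC := by
    intro k _
    show pm m (pre hm _) * pm m (post hm _) = 1
    rw [pm_pre, pm_post, inv_mul_cancel]
  pA := by
    intro k hk
    rw [gs_fr hm S b ρ J hJ hS k]
    show _ * pm m (pre hm _) = 1
    rw [pm_pre, mul_inv_cancel]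

theorem fr_w (hS : ∀ k ∈ S, isA pbB (actJ hm J hJ) 1 b k) (z : Fin N → Z) :
    (fr hm S b ρ).w (fun k => J (z k)) = seg (bl (Rr pbB (actJ hm J hJ) 1 S b z)) 0 N ++ ρ := by
  unfold Frame.w
  have e : (fr hm S b ρ).ρ = ρ := rfl
  rw [e]
  congr 1
  apply seg_congr
  intro k _ hk
  rw [Nat.zero_add] at hk
  unfold Frame.f
  rw [dif_pos hk, bl, dif_pos hk]
  have e : (fr hm S b ρ).S = S := rfl
  rw [e]
  by_cases h2 : (⟨k, hk⟩ : Fin N) ∈ S
  · rw [if_pos h2, Rr, if_pos ⟨h2, hS _ h2⟩, toL_actJ]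
    rfl
  · rw [if_neg h2, Rr, if_neg (fun h => h2 h.1)]
    show bl b k = _
    rw [bl, dif_pos hk]

/-- the values of the invariants of the word -/
def HitW (O : Outer m) (t : ℕ → ℤ) (p : ℕ) (w : List (Bool × ℕ)) : Prop := K O w ∧ ∀ i ≤ p, Fm O (2 * i + 2) w = t i

open Classical in
theorem countJ [Fintype Z] (O : Outer m) (t : ℕ → ℤ) (p : ℕ) (c : ℝ) (hc : 0 ≤ c)
    (hcount : ∀ φ : Frame N, φ.Ok m → K O (φ.w fun _ => []) → φ.S.card = S.card →
      ((univ.filter (fun z : Fin N → Z => Hit φ O J t p z)).card : ℝ) ≤ c)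
    (hS : ∀ k ∈ S, isA pbB (actJ hm J hJ) 1 b k) (hρ : Valid m ρ) :
    ((univ.filter (fun z : Fin N → Z =>
      HitW O t p (seg (bl (Rr pbB (actJ hm J hJ) 1 S b z)) 0 N ++ ρ))).card : ℝ) ≤ c := by
  have hok := fr_ok hm J hJ S b ρ hS hρ
  have pI : ∀ z : Fin N → Z, Frame.Pure m (fun k => J (z k)) := fun z k => ⟨(hJ _).1, (hJ _).2.1⟩
  by_cases hK : K O ((fr hm S b ρ).w fun _ => [])
  · refine le_trans ?_ (hcount (fr hm S b ρ) hok hK rfl)
    apply Nat.cast_le.2
    apply Finset.card_le_card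
    intro z hz
    rw [Finset.mem_filter] at hz ⊢
    refine ⟨hz.1, fun i hi => ?_⟩
    rw [fr_w hm J hJ S b ρ hS z]
    exact hz.2.2 i hi
  · have : (univ.filter (fun z : Fin N → Z =>
      HitW O t p (seg (bl (Rr pbB (actJ hm J hJ) 1 S b z)) 0 N ++ ρ))) = ∅ := by
      apply Finset.filter_eq_empty_iff.2
      intro z _ h
      apply hK
      have h1 := h.1
      rw [← fr_w hm J hJ S b ρ hS z] at h1
      exact K_perm (Frame.w_valid hok (pI z)) (Frame.w_valid hok Frame.nil_pure) (Frame.pm_w _ (pI z)) h1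
    rw [this, Finset.card_empty, Nat.cast_zero]
    exact hc

end blocks

open Classical in
theorem powerA (hm : 3 ≤ m) (p : ℕ) : ∃ L : ℕ, 0 < L ∧ ∀ (O : Outer m) (N r : ℕ), 0 < N * L + r →
    ∀ (q : Fin (N * L + r) → Letter m → ℝ) (ε : ℝ), 0 < ε → (∀ s x, ε ≤ q s x) →
    (∀ s, ∑ x, q s x = 1) → ∀ t : ℕ → ℤ,
    ∑ w : Fin (N * L + r) → Letter m, (if HitW O t p (toL w) then ∏ s, q s (w s) else 0) ≤
      1113 * Real.sqrt ((p + 2).factorial / (ε ^ L * (N + 1)) ^ (p + 2)) := by
  obtain ⟨Z, instZ, J, len, hne, hJi, hJ, hcount⟩ := levels hm p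
  have hlen : 0 < len + 2 * ll hm := by
    by_contra h
    have h1 : len = 0 := by omega
    -- the contents of positive length
    obtain ⟨z⟩ := hne
    have hZ : ∀ z, J z = [] := fun z => List.length_eq_zero_iff.1 (by rw [(hJ z).2.2, h1])
    -- the permutations are reached with words of length 0
    have h2 : ll hm = 0 := by omega
    have h3 := pre_len hm (Equiv.swap (⟨0, by omega⟩ : Fin m) ⟨1, by omega⟩)
    rw [h2] at h3
    have h4 : pre hm (Equiv.swap (⟨0, by omega⟩ : Fin m) ⟨1, by omega⟩) = [] := List.length_eq_zero_iff.1 (by omega)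
    have h5 := pm_pre hm (Equiv.swap (⟨0, by omega⟩ : Fin m) ⟨1, by omega⟩)
    rw [h4, pm_nil] at h5
    have h6 := congrArg (fun g : Equiv.Perm (Fin m) => g ⟨0, by omega⟩) h5
    simp at h6
  refine ⟨len + 2 * ll hm, hlen, fun O N r hN q ε hε hq hs t => ?_⟩
  have hsqrt : ∀ s : ℕ, (1113 : ℝ) / (((s : ℝ) + 1) * Real.sqrt ((s : ℝ) + 1) ^ p) =
      1113 * (1 / Real.sqrt (((s : ℝ) + 1) ^ (p + 2))) := by
    intro s
    have h1 : Real.sqrt (((s : ℝ) + 1) ^ (p + 2)) = ((s : ℝ) + 1) * Real.sqrt ((s : ℝ) + 1) ^ p := by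
      rw [pow_add, Real.sqrt_mul (by positivity), Real.sqrt_sq (by positivity), mul_comm]
      congr 1
      rw [Real.sqrt_eq_iff_eq_sq (by positivity) (by positivity), ← pow_mul, mul_comm p 2, pow_mul,
        Real.sq_sqrt (by positivity)]
    rw [h1]
    ring
  have hZpos : 0 < Fintype.card Z := Fintype.card_pos
  have hθ : (Fintype.card Z : ℝ) * ε ^ (len + 2 * ll hm) ≤ 1 := by
    have h1 : ∑ c : Fin (len + 2 * ll hm) → Letter m, ∏ l, q ⟨0, hN⟩ (c l) = 1 := sum_prod_one (fun _ => q ⟨0, hN⟩) fun _ => hs _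
    have h2 : ∀ c : Fin (len + 2 * ll hm) → Letter m, ε ^ (len + 2 * ll hm) ≤ ∏ l, q ⟨0, hN⟩ (c l) := by
      intro c
      have : ε ^ (len + 2 * ll hm) = ∏ _l : Fin (len + 2 * ll hm), ε := by rw [Finset.prod_const, Finset.card_univ, Fintype.card_fin]
      rw [this]
      exact Finset.prod_le_prod (fun _ _ => hε.le) fun l _ => hq _ _
    have h3 : (Fintype.card (Fin (len + 2 * ll hm) → Letter m) : ℝ) * ε ^ (len + 2 * ll hm) ≤ 1 := by
      rw [← h1]
      calc (Fintype.card (Fin (len + 2 * ll hm) → Letter m) : ℝ) * ε ^ (len + 2 * ll hm) = ∑ _c : Fin (len + 2 * ll hm) → Letter m, ε ^ (len + 2 * ll hm) := by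
            rw [Finset.sum_const, Finset.card_univ, nsmul_eq_mul]
        _ ≤ _ := Finset.sum_le_sum fun c _ => h2 c
    have h4 : (Fintype.card Z : ℝ) ≤ (Fintype.card (Fin (len + 2 * ll hm) → Letter m) : ℝ) := by
      exact_mod_cast Fintype.card_le_of_injective _ (actJ_inj hm J hJ hJi 1)
    have h5 : 0 < ε ^ (len + 2 * ll hm) := by positivity
    nlinarith
  have hθ0 : 0 < (Fintype.card Z : ℝ) * ε ^ (len + 2 * ll hm) := by
    have : (0 : ℝ) < Fintype.card Z := by exact_mod_cast hZpos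
    positivity
  rw [sum_wrd]
  have h2 : ∀ ρ : Fin r → Letter m, ∑ b : Fin N → Fin (len + 2 * ll hm) → Letter m,
        (if HitW O t p (toL (wrd b ρ)) then ∏ k, ∏ l, q (plc r k l) (b k l) else 0) ≤
      1113 * Real.sqrt ((p + 2).factorial / (ε ^ (len + 2 * ll hm) * (N + 1)) ^ (p + 2)) := by
    intro ρ
    have h3 := chain_bound (N := N) (Z := Z) pbB (actJ hm J hJ) 1 (pbB_actJ hm J hJ) (actJ_inj hm J hJ hJi)
      (fun (k : Fin N) (c : Fin (len + 2 * ll hm) → Letter m) => ∏ l, q (plc r k l) (c l)) (ε ^ (len + 2 * ll hm)) (by positivity) (by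
        intro k c
        have : ε ^ (len + 2 * ll hm) = ∏ _l : Fin (len + 2 * ll hm), ε := by
          rw [Finset.prod_const, Finset.card_univ, Fintype.card_fin]
        rw [this]
        exact Finset.prod_le_prod (fun _ _ => hε.le) fun l _ => hq _ _) (fun k =>
          sum_prod_one (fun l => q (plc r k l)) fun l => hs _)
      (fun b => HitW O t p (toL (wrd b ρ))) (fun s => 1113 * (1 / Real.sqrt (((s : ℝ) + 1) ^ (p + 2)))) (by
        intro S b hS
        have h4 := countJ hm J hJ S b (toL ρ) O t p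
          ((Fintype.card Z : ℝ) ^ N * (1113 / (((S.card : ℝ) + 1) * Real.sqrt ((S.card : ℝ) + 1) ^ p))) (by positivity)
          (by
            intro φ hφ hK hcard
            have := hcount N φ hφ O hK t
            rw [hcard] at this
            exact this) hS (valid_toL ρ)
        rw [hsqrt] at h4
        simp only [toL_wrd]
        exact h4)
    refine h3.trans ?_
    have h5 := binom_inv_sqrt N (p + 2) ((Fintype.card Z : ℝ) * ε ^ (len + 2 * ll hm)) hθ0 hθ
    calc ∑ S : Finset (Fin N), ((Fintype.card Z : ℝ) * ε ^ (len + 2 * ll hm)) ^ S.card * (1 - (Fintype.card Z : ℝ) * ε ^ (len + 2 * ll hm)) ^ (N - S.card) *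
          (1113 * (1 / Real.sqrt (((S.card : ℝ) + 1) ^ (p + 2))))
        = 1113 * ∑ S : Finset (Fin N), ((Fintype.card Z : ℝ) * ε ^ (len + 2 * ll hm)) ^ S.card * (1 - (Fintype.card Z : ℝ) * ε ^ (len + 2 * ll hm)) ^ (N - S.card) *
          (1 / Real.sqrt (((S.card : ℝ) + 1) ^ (p + 2))) := by
          rw [Finset.mul_sum]
          refine Finset.sum_congr rfl fun S _ => ?_
          ring
      _ ≤ 1113 * Real.sqrt ((p + 2).factorial / ((Fintype.card Z : ℝ) * ε ^ (len + 2 * ll hm) * (N + 1)) ^ (p + 2)) := by gcongr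
      _ ≤ _ := by
          apply mul_le_mul_of_nonneg_left _ (by norm_num)
          apply Real.sqrt_le_sqrt
          have h1 : (1 : ℝ) ≤ Fintype.card Z := by exact_mod_cast hZpos
          apply div_le_div_of_nonneg_left (by positivity) (by positivity)
          apply pow_le_pow_left₀ (by positivity)
          have h6 : 0 < ε ^ (len + 2 * ll hm) * ((N : ℝ) + 1) := by positivity
          nlinarith
  calc ∑ ρ : Fin r → Letter m, (∏ s, q (Fin.natAdd (N * (len + 2 * ll hm)) s) (ρ s)) * ∑ b : Fin N → Fin (len + 2 * ll hm) → Letter m,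
        (if HitW O t p (toL (wrd b ρ)) then ∏ k, ∏ l, q (plc r k l) (b k l) else 0)
      ≤ ∑ ρ : Fin r → Letter m, (∏ s, q (Fin.natAdd (N * (len + 2 * ll hm)) s) (ρ s)) *
        (1113 * Real.sqrt ((p + 2).factorial / (ε ^ (len + 2 * ll hm) * (N + 1)) ^ (p + 2))) := by
        refine Finset.sum_le_sum fun ρ _ => mul_le_mul_of_nonneg_left (h2 ρ) ?_
        exact Finset.prod_nonneg fun s _ => hε.le.trans (hq _ _)
    _ = _ := by
        rw [← Finset.sum_mul, sum_prod_one (fun s => q (Fin.natAdd (N * (len + 2 * ll hm)) s)) fun s => hs _, one_mul]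

end Pool.Agent.T6.H96.VB
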