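import Pool.Agent.T6.H96.VB.Power

/-!
# The rate for invariants of higher order, and almost sure separation
-/

set_option autoImplicit false

namespace Pool.Agent.T6.H96.VB

open Finset Pool.Agent.H891R2.Jones Pool.Agent.W639.RB Pool.Agent.H832R3.VJ
open Pool.Agent.W705.JR (dia)

variable {m : ℕ}

theorem hit_of_not_sep {n : ℕ} (O : Outer m) (w : Fin n → Letter m) (X : Dia) (p : ℕ)
    (hk : Pool.Agent.Y463.BS.IsKnot (diagram O w)) (h : ¬ Separated (2 * p + 2) (dia O w) X) :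
    HitW O (fun i => moment (2 * i + 2) X.D.fPoly) p (toL w) := by
  refine ⟨hk, fun i hi => ?_⟩
  by_contra hne
  exact h ⟨2 * i + 2, by omega, fun Y => moment (2 * i + 2) Y.D.fPoly, isVassiliev_moment (2 * i + 2), hne⟩

theorem bound_aux (L : ℕ) (hL : 0 < L) (p : ℕ) (ε : ℝ) (hε : 0 < ε) (hε1 : ε ≤ 1) (n N : ℕ) (hn : 0 < n)
    (h : n ≤ L * (N + 1)) : 1113 * Real.sqrt ((p + 2).factorial / (ε ^ L * (N + 1)) ^ (p + 2)) ≤
      ((1113 * (p + 2).factorial * L : ℕ) / (ε ^ L * Real.sqrt n)) ^ (p + 2) := by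
  have hn' : (0 : ℝ) < n := by exact_mod_cast hn
  have hL' : (1 : ℝ) ≤ L := by exact_mod_cast hL
  have h' : (n : ℝ) ≤ L * (N + 1) := by exact_mod_cast h
  have hs : 0 < Real.sqrt n := Real.sqrt_pos.2 hn'
  have hf : (1 : ℝ) ≤ (p + 2).factorial := by exact_mod_cast Nat.factorial_pos (p + 2)
  have hεL : 0 < ε ^ L := by positivity
  have hεL1 : ε ^ L ≤ 1 := pow_le_one₀ hε.le hε1
  have h1 : 1 / (ε ^ L * ((N : ℝ) + 1)) ≤ (L / (ε ^ L * Real.sqrt n)) ^ 2 := by
    rw [div_pow, mul_pow, Real.sq_sqrt hn'.le, div_le_div_iff₀ (by positivity) (by positivity)]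
    calc 1 * ((ε ^ L) ^ 2 * n) ≤ 1 * ((ε ^ L * 1) * (L * (N + 1))) := by
          rw [sq]
          gcongr
      _ = L * (ε ^ L * (N + 1)) := by ring
      _ ≤ L ^ 2 * (ε ^ L * (N + 1)) := by
          have h3 : (L : ℝ) ≤ L ^ 2 := by nlinarith
          gcongr
  have h2 : Real.sqrt ((p + 2).factorial / (ε ^ L * (N + 1)) ^ (p + 2)) ≤
      (p + 2).factorial * (L / (ε ^ L * Real.sqrt n)) ^ (p + 2) := by
    rw [← Real.sqrt_sq (by positivity : 0 ≤ (p + 2).factorial * (L / (ε ^ L * Real.sqrt n)) ^ (p + 2))]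
    apply Real.sqrt_le_sqrt
    have h3 : ((p + 2).factorial : ℝ) / (ε ^ L * (N + 1)) ^ (p + 2) = (p + 2).factorial * (1 / (ε ^ L * ((N : ℝ) + 1))) ^ (p + 2) := by
      rw [div_pow, one_pow]
      ring
    rw [h3, mul_pow]
    have h4 : ((L / (ε ^ L * Real.sqrt n)) ^ (p + 2)) ^ 2 = ((L / (ε ^ L * Real.sqrt n)) ^ 2) ^ (p + 2) := by
      rw [← pow_mul, ← pow_mul, mul_comm (p + 2) 2]
    rw [h4]
    have h5 : ((p + 2).factorial : ℝ) ≤ ((p + 2).factorial : ℝ) ^ 2 := by nlinarith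
    gcongr
  calc 1113 * Real.sqrt ((p + 2).factorial / (ε ^ L * (N + 1)) ^ (p + 2))
      ≤ 1113 * ((p + 2).factorial * (L / (ε ^ L * Real.sqrt n)) ^ (p + 2)) := by gcongr
    _ = (1113 * (p + 2).factorial) * (L / (ε ^ L * Real.sqrt n)) ^ (p + 2) := by ring
    _ ≤ (1113 * (p + 2).factorial) ^ (p + 2) * (L / (ε ^ L * Real.sqrt n)) ^ (p + 2) := by
        gcongr
        exact le_self_pow₀ (by linarith) (by omega)
    _ = _ := by
        rw [← mul_pow]
        congr 1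
        push_cast
        ring

open Classical in
theorem powerB (hm : 3 ≤ m) (p : ℕ) : ∃ L : ℕ, 0 < L ∧ ∀ (O : Outer m) (n : ℕ), 0 < n →
    ∀ (q : Fin n → Letter m → ℝ) (ε : ℝ), 0 < ε → (∀ s x, ε ≤ q s x) →
    (∀ s, ∑ x, q s x = 1) → ∀ X : Dia,
    ∑ w : Fin n → Letter m, (if Pool.Agent.Y463.BS.IsKnot (diagram O w) ∧ ¬ Separated (2 * p + 2) (dia O w) X then
      ∏ s, q s (w s) else 0) ≤ (L / (ε ^ L * Real.sqrt n)) ^ (p + 2) := by
  obtain ⟨L, hL, h⟩ := powerA hm p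
  refine ⟨1113 * (p + 2).factorial * L, by positivity, fun O n hn q ε hε hq hs X => ?_⟩
  have hε4 : 4 * ε ≤ 1 := eps_le hm (q ⟨0, hn⟩) ε (hq _) (hs _)
  have hε1 : ε ≤ 1 := by linarith
  obtain ⟨N, r, hr, hnr⟩ : ∃ N r, r < L ∧ n = N * L + r :=
    ⟨n / L, n % L, Nat.mod_lt _ hL, (Nat.div_add_mod' n _).symm⟩
  subst hnr
  have h1 := h O N r hn q ε hε hq hs (fun i => moment (2 * i + 2) X.D.fPoly)
  have h2 : ∑ w : Fin (N * L + r) → Letter m, (if Pool.Agent.Y463.BS.IsKnot (diagram O w) ∧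
      ¬ Separated (2 * p + 2) (dia O w) X then ∏ s, q s (w s) else 0) ≤
      ∑ w : Fin (N * L + r) → Letter m, (if HitW O (fun i => moment (2 * i + 2) X.D.fPoly) p (toL w) then
        ∏ s, q s (w s) else 0) := by
    refine Finset.sum_le_sum fun w _ => ?_
    by_cases h : Pool.Agent.Y463.BS.IsKnot (diagram O w) ∧ ¬ Separated (2 * p + 2) (dia O w) X
    · rw [if_pos h, if_pos (hit_of_not_sep O w X p h.1 h.2)]
    · rw [if_neg h]
      split_ifs
      · exact Finset.prod_nonneg fun s _ => hε.le.trans (hq _ _)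
      · exact le_rfl
  refine (h2.trans h1).trans ((bound_aux L hL p ε hε hε1 (N * L + r) N hn (by nlinarith)).trans ?_)
  have hn' : (0 : ℝ) < ((N * L + r : ℕ) : ℝ) := by exact_mod_cast hn
  have hs' : 0 < Real.sqrt ((N * L + r : ℕ) : ℝ) := Real.sqrt_pos.2 hn'
  have hle : L ≤ 1113 * (p + 2).factorial * L := by
    have := Nat.factorial_pos (p + 2)
    nlinarith
  have h3 : ε ^ (1113 * (p + 2).factorial * L) ≤ ε ^ L := pow_le_pow_of_le_one hε.le hε1 hle
  gcongr

open Classical in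
/-- the bounds for the probability and the conditional probability -/
theorem powerC (hm : 3 ≤ m) (p : ℕ) : ∃ L : ℕ, ∀ (O : Outer m) (n : ℕ), 0 < n →
    ∀ (q : Fin n → Letter m → ℝ) (ε : ℝ), 0 < ε → (∀ s x, ε ≤ q s x) →
    (∀ s, ∑ x, q s x = 1) → ∀ X : Dia,
    ∑ w : Fin n → Letter m, (if Pool.Agent.Y463.BS.IsKnot (diagram O w) ∧ ¬ Separated (2 * p + 2) (dia O w) X then
      ∏ s, q s (w s) else 0) ≤ (L / (ε ^ L * Real.sqrt n)) ^ (p + 2) ∧
    (∀ (n0 : ℕ) (w0 : Fin n0 → Letter m), Pool.Agent.Y463.BS.IsKnot (diagram O w0) → L ≤ n → n % 2 = n0 % 2 →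
      ∑ w : Fin n → Letter m, (if Pool.Agent.Y463.BS.IsKnot (diagram O w) ∧
        ¬ Separated (2 * p + 2) (dia O w) X then ∏ s, q s (w s) else 0) ≤ (L / (ε ^ L * Real.sqrt n)) ^ (p + 2) *
      ∑ w : Fin n → Letter m, (if Pool.Agent.Y463.BS.IsKnot (diagram O w) then ∏ s, q s (w s) else 0)) := by
  obtain ⟨L, hL, h⟩ := powerB hm p
  obtain ⟨l0, hl0⟩ := many2 (m := m) (by omega)
  refine ⟨L + l0, fun O n hn q ε hε hq hs X => ?_⟩
  have h1 := h O n hn q ε hε hq hs X
  have hε4 : 4 * ε ≤ 1 := eps_le hm (q ⟨0, hn⟩) ε (hq _) (hs _)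
  have hε1 : ε ≤ 1 := by linarith
  have hn' : (0 : ℝ) < n := by exact_mod_cast hn
  have hs' : 0 < Real.sqrt n := Real.sqrt_pos.2 hn'
  have key : (L / (ε ^ L * Real.sqrt n)) ^ (p + 2) ≤ (((L + l0 : ℕ) : ℝ) / (ε ^ (L + l0) * Real.sqrt n)) ^ (p + 2) * ε ^ l0 := by
    have h2 : (((L + l0 : ℕ) : ℝ) / (ε ^ (L + l0) * Real.sqrt n)) ^ (p + 2) * (ε ^ l0) ^ (p + 2) ≤
        (((L + l0 : ℕ) : ℝ) / (ε ^ (L + l0) * Real.sqrt n)) ^ (p + 2) * ε ^ l0 := by
      gcongr
      exact pow_le_of_le_one (by positivity) (pow_le_one₀ hε.le hε1) (by omega)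
    refine le_trans ?_ h2
    rw [← mul_pow]
    have h3 : (((L + l0 : ℕ) : ℝ) / (ε ^ (L + l0) * Real.sqrt n)) * ε ^ l0 = ((L + l0 : ℕ) : ℝ) / (ε ^ L * Real.sqrt n) := by
      rw [pow_add]
      field_simp
    rw [h3]
    gcongr
    omega
  refine ⟨h1.trans (key.trans ?_), fun n0 w0 hw0 hLn hpar => h1.trans (key.trans ?_)⟩
  · have h4 : ε ^ l0 ≤ 1 := pow_le_one₀ hε.le hε1
    have h5 : 0 ≤ (((L + l0 : ℕ) : ℝ) / (ε ^ (L + l0) * Real.sqrt n)) ^ (p + 2) := by positivity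
    nlinarith
  · exact mul_le_mul_of_nonneg_left (hl0 O n0 w0 hw0 n (by omega) hpar q ε hε hq hs) (by positivity)

/-! ### infinite words -/

open MeasureTheory ProbabilityTheory

open Classical in
/-- the probability of a set of words -/
theorem prob_words {Ω : Type*} [MeasurableSpace Ω] (μ : Measure Ω) [IsProbabilityMeasure μ]
    (Xs : ℕ → Ω → Letter m) (hX : ∀ s, Measurable (Xs s)) (hI : iIndepFun Xs μ) (n : ℕ)
    (A : (Fin n → Letter m) → Prop) :
    μ {ω | A (fun s : Fin n => Xs s ω)} = ENNReal.ofReal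
      (∑ w : Fin n → Letter m, (if A w then ∏ s : Fin n, (μ (Xs s ⁻¹' {w s})).toReal else 0)) := by
  have h1 : {ω | A (fun s : Fin n => Xs s ω)} = ⋃ w ∈ univ.filter A, ⋂ s ∈ (univ : Finset (Fin n)), Xs s ⁻¹' {w s} := by
    ext ω
    simp only [Set.mem_ofPred_eq, Set.mem_iUnion, Set.mem_iInter, Set.mem_preimage, Set.mem_singleton_iff,
      Finset.mem_filter, Finset.mem_univ, true_and, forall_true_left, exists_prop]
    constructor
    · intro h
      exact ⟨_, h, fun s => rfl⟩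
    · rintro ⟨w, hw, h⟩
      have : (fun s : Fin n => Xs s ω) = w := funext h
      rw [this]
      exact hw
  have hI' : iIndepFun (fun s : Fin n => Xs s) μ := hI.precomp Fin.val_injective
  rw [h1, measure_biUnion_finset]
  · rw [ENNReal.ofReal_sum_of_nonneg]
    · rw [Finset.sum_filter]
      refine Finset.sum_congr rfl fun w _ => ?_
      split_ifs
      · rw [hI'.measure_inter_preimage_eq_mul univ (fun s _ => MeasurableSet.singleton _),
          ENNReal.ofReal_prod_of_nonneg (fun _ _ => ENNReal.toReal_nonneg)]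
        refine Finset.prod_congr rfl fun s _ => ?_
        rw [ENNReal.ofReal_toReal (measure_ne_top μ _)]
      · simp
    · intro w _
      split_ifs
      · exact Finset.prod_nonneg fun _ _ => ENNReal.toReal_nonneg
      · exact le_rfl
  · intro w _ w' _ hne
    rw [Function.onFun, Set.disjoint_left]
    intro ω hω hω'
    apply hne
    funext s
    simp only [Set.mem_iInter, Set.mem_preimage, Set.mem_singleton_iff, Finset.mem_univ, forall_true_left] at hω hω'
    rw [← hω s, ← hω' s]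
  · intro w _
    exact Finset.measurableSet_biInter _ fun s _ => hX s (MeasurableSet.singleton _)

/-- almost surely all but finitely many of the knots are separated from a given diagram -/
theorem almost_surely (hm : 3 ≤ m) (O : Outer m) (X : Dia) {Ω : Type*} [MeasurableSpace Ω] (μ : Measure Ω)
    [IsProbabilityMeasure μ] (Xs : ℕ → Ω → Letter m) (hX : ∀ s, Measurable (Xs s)) (hI : iIndepFun Xs μ)
    (ε : ℝ) (hε : 0 < ε) (hq : ∀ s x, ε ≤ (μ (Xs s ⁻¹' {x})).toReal) :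
    ∀ᵐ ω ∂μ, ∀ᶠ n in Filter.atTop, Pool.Agent.Y463.BS.IsKnot (diagram O (fun s : Fin n => Xs s ω)) →
      Separated 4 (dia O (fun s : Fin n => Xs s ω)) X := by
  classical
  obtain ⟨L, h⟩ := powerC hm 1
  set E : ℕ → Set Ω := fun n => if n = 0 then ∅ else {ω | Pool.Agent.Y463.BS.IsKnot (diagram O (fun s : Fin n => Xs s ω)) ∧
      ¬ Separated (2 * 1 + 2) (dia O (fun s : Fin n => Xs s ω)) X} with hE
  have hsum : ∀ s, ∑ x, (μ (Xs s ⁻¹' {x})).toReal = 1 := by
    intro s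
    have h1 : μ (⋃ x ∈ (univ : Finset (Letter m)), Xs s ⁻¹' {x}) = ∑ x, μ (Xs s ⁻¹' {x}) := by
      apply measure_biUnion_finset
      · intro x _ y _ hne
        rw [Function.onFun, Set.disjoint_left]
        intro ω hω hω'
        apply hne
        rw [Set.mem_preimage, Set.mem_singleton_iff] at hω hω'
        rw [← hω, ← hω']
      · intro x _
        exact hX s (MeasurableSet.singleton _)
    have h2 : (⋃ x ∈ (univ : Finset (Letter m)), Xs s ⁻¹' {x}) = Set.univ := by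
      ext ω
      simp
    rw [h2, measure_univ] at h1
    rw [← ENNReal.toReal_sum (fun _ _ => measure_ne_top μ _), ← h1]
    rfl
  have hbound : ∀ n, μ (E n) ≤ ENNReal.ofReal ((L / ε ^ L) ^ 3 * (1 / (n : ℝ) ^ (3 / 2 : ℝ))) := by
    intro n
    by_cases hn : n = 0
    · simp only [hE, hn, if_true, measure_empty]
      exact zero_le
    · have hn' : 0 < n := Nat.pos_of_ne_zero hn
      simp only [hE, hn, if_false]
      rw [prob_words μ Xs hX hI n (fun w => Pool.Agent.Y463.BS.IsKnot (diagram O w) ∧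
        ¬ Separated (2 * 1 + 2) (dia O w) X)]
      apply ENNReal.ofReal_le_ofReal
      have h1 := (h O n hn' (fun s x => (μ (Xs s ⁻¹' {x})).toReal) ε hε (fun s x => hq s x) (fun s => hsum s) X).1
      refine le_trans (le_of_eq ?_) (h1.trans (le_of_eq ?_))
      · refine Finset.sum_congr rfl fun w _ => ?_
        congr
      have h2 : Real.sqrt n ^ (1 + 2) = (n : ℝ) ^ (3 / 2 : ℝ) := by
        rw [Real.sqrt_eq_rpow, ← Real.rpow_natCast, ← Real.rpow_mul (by positivity)]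
        norm_num
      rw [← h2, ← one_div_pow, ← mul_pow]
      congr 1
      field_simp
  have htsum : ∑' n, μ (E n) ≠ ⊤ := by
    have hs : Summable (fun n : ℕ => (L / ε ^ L) ^ 3 * (1 / (n : ℝ) ^ (3 / 2 : ℝ))) :=
      (Real.summable_one_div_nat_rpow.2 (by norm_num)).mul_left _
    refine ne_top_of_le_ne_top ?_ (ENNReal.tsum_le_tsum hbound)
    rw [← ENNReal.ofReal_tsum_of_nonneg (fun n => by positivity) hs]
    exact ENNReal.ofReal_ne_top
  filter_upwards [ae_eventually_notMem htsum] with ω hω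
  filter_upwards [hω, Filter.eventually_gt_atTop 0] with n hn hn0 hk
  by_contra hsep
  apply hn
  simp only [hE, (Nat.pos_iff_ne_zero.1 hn0), if_false]
  exact ⟨hk, hsep⟩

end Pool.Agent.T6.H96.VB
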