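import Pool.Agent.T6.H96.VB.Slots

/-!
# The count for given blocks
-/

set_option autoImplicit false

namespace Pool.Agent.T6.H96.VB

open Finset Pool.Agent.H891R2.Jones Pool.Agent.W639.RB

variable {m : ℕ}

section

variable {N : ℕ} (hm : 3 ≤ m) (S : Finset (Fin N)) (b : Fin N → Fin (bL hm) → Letter m) (ρ : List (Bool × ℕ)) 

/-- the permutation of a block -/
def pbB {L : ℕ} (c : Fin L → Letter m) : Equiv.Perm (Fin m) := pm m (toL c)

/-- the word with the bits `X`, `Y` in the active blocks -/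
noncomputable def Wd (X Y : Fin N → Bool) : List (Bool × ℕ) :=
  seg (bl (Rr pbB (actB hm) 1 S b (fun k => (X k, Y k)))) 0 N ++ ρ

theorem pbB_act (g : Equiv.Perm (Fin m)) (z : Bool × Bool) : pbB (actB hm g z) = 1 := by
  unfold pbB
  rw [toL_actB, pm_cont]

theorem bl_active (z : Fin N → Bool × Bool) (k : Fin N) (hk : k ∈ S ∧ isA pbB (actB hm) 1 b k) :
    bl (Rr pbB (actB hm) 1 S b z) k = cont hm (gs pbB 1 b k) (z k) := by
  rw [bl, dif_pos k.2]
  unfold Rr
  rw [if_pos hk, toL_actB]

theorem bl_other (z z' : Fin N → Bool × Bool) (j : ℕ) (h : ∀ h' : j < N, z ⟨j, h'⟩ = z' ⟨j, h'⟩) :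
    bl (Rr pbB (actB hm) 1 S b z) j = bl (Rr pbB (actB hm) 1 S b z') j := by
  unfold bl
  by_cases h' : j < N
  · rw [dif_pos h', dif_pos h']
    congr 1
    unfold Rr
    rw [h h']
  · rw [dif_neg h', dif_neg h']

theorem pm_seg (z : Fin N → Bool × Bool) (k : ℕ) :
    pm m (seg (bl (Rr pbB (actB hm) 1 S b z)) 0 k) = gs pbB 1 b k := by
  rw [← gs_R pbB (actB hm) 1 (pbB_act hm) S b z k]
  exact (gs_pm _ k).symm

theorem pm_mid (z : Fin N → Bool × Bool) (k l : ℕ) (hkl : k < l) (hk : k < N) (ha : (⟨k, hk⟩ : Fin N) ∈ S ∧ isA pbB (actB hm) 1 b ⟨k, hk⟩) :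
    gs pbB 1 b l = gs pbB 1 b k * pm m (seg (bl (Rr pbB (actB hm) 1 S b z)) (k + 1) (l - k - 1)) := by
  rw [← pm_seg hm S b z l, seg_split1 _ k l hkl, pm_append, pm_append, pm_seg]
  have h1 := bl_active hm S b z ⟨k, hk⟩ ha
  simp only at h1
  rw [h1, pm_cont, mul_one]

variable (hρ : Valid m ρ)

include hρ

theorem slots (X Y : Fin N → Bool) (k l : Fin N) (hk : k ∈ S ∧ isA pbB (actB hm) 1 b k)
    (hl : l ∈ S ∧ isA pbB (actB hm) 1 b l) :
    ∃ a b' c, Valid m a ∧ Valid m b' ∧ Valid m c ∧ pm m a = 1 ∧ pm m b' = 1 ∧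
      ((¬ l < k ∧ ∀ x y, Wd hm S b ρ (Function.update X k x) (Function.update Y l y) =
        a ++ Bw 0 1 x ++ b' ++ Bw 1 0 y ++ c) ∨
      (l < k ∧ ∀ x y, Wd hm S b ρ (Function.update X k x) (Function.update Y l y) =
        a ++ Bw 1 0 y ++ b' ++ Bw 0 1 x ++ c)) := by
  set z0 : Fin N → Bool × Bool := fun k => (X k, Y k) with hz0
  set f0 := bl (Rr pbB (actB hm) 1 S b z0) with hf0
  set R : Bool → Bool → Fin N → Bool × Bool := fun x y j =>
    ((Function.update X k x) j, (Function.update Y l y) j) with hR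
  have hWd : ∀ x y, Wd hm S b ρ (Function.update X k x) (Function.update Y l y) =
    seg (bl (Rr pbB (actB hm) 1 S b (R x y))) 0 N ++ ρ := fun x y => rfl
  have hf : ∀ x y (j : ℕ), j ≠ k → j ≠ l → bl (Rr pbB (actB hm) 1 S b (R x y)) j = f0 j := by
    intro x y j h1 h2
    apply bl_other
    intro h'
    simp only [hR, hz0]
    rw [Function.update_of_ne (by intro h; apply h1; rw [← h]), 
      Function.update_of_ne (by intro h; apply h2; rw [← h])]
  have vf : ∀ j, Valid m (f0 j) := fun j => bl_valid _ j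
  have b01 : ∀ x, Valid m (Bw 0 1 x) := fun x => Bw_valid (by omega) (by omega) x
  have b10 : ∀ x, Valid m (Bw 1 0 x) := fun x => Bw_valid (by omega) (by omega) x
  rcases lt_trichotomy k l with hkl | hkl | hkl
  · have hkl' : (k : ℕ) < l := hkl
    have hlN := l.2
    refine ⟨seg f0 0 k ++ pre hm (gs pbB 1 b k),
      Bw 1 0 (Y k) ++ post hm (gs pbB 1 b k) ++ seg f0 (k + 1) (l - k - 1) ++ pre hm (gs pbB 1 b l) ++ Bw 0 1 (X l),
      post hm (gs pbB 1 b l) ++ seg f0 (l + 1) (N - l - 1) ++ ρ,
      (seg_valid _ vf _ _).app (pre_valid hm _),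
      ((((b10 _).app (post_valid hm _)).app (seg_valid _ vf _ _)).app (pre_valid hm _)).app (b01 _),
      ((post_valid hm _).app (seg_valid _ vf _ _)).app hρ, ?_, ?_, Or.inl ⟨not_lt_of_gt hkl, fun x y => ?_⟩⟩
    · rw [pm_append, pm_seg, pm_pre, mul_inv_cancel]
    · rw [pm_append, pm_append, pm_append, pm_append, pm_Bw, pm_Bw, pm_post, pm_pre,
        pm_mid hm S b z0 k l hkl' k.2 hk, ← hf0]
      group
    · rw [hWd, seg_split2 _ k l N hkl' hlN, bl_active hm S b _ k hk, bl_active hm S b _ l hl]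
      rw [seg_congr (bl (Rr pbB (actB hm) 1 S b (R x y))) f0 k 0 (fun j h1 h2 => hf x y j (by omega) (by omega)),
        seg_congr (bl (Rr pbB (actB hm) 1 S b (R x y))) f0 (l - k - 1) (k + 1) (fun j h1 h2 => hf x y j (by omega) (by omega)),
        seg_congr (bl (Rr pbB (actB hm) 1 S b (R x y))) f0 (N - l - 1) (l + 1) (fun j h1 h2 => hf x y j (by omega) (by omega))]
      have e1 : R x y k = (x, Y k) := by
        simp only [hR]
        rw [Function.update_self, Function.update_of_ne (ne_of_lt hkl)]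
      have e2 : R x y l = (X l, y) := by
        simp only [hR]
        rw [Function.update_self, Function.update_of_ne (ne_of_gt hkl)]
      rw [e1, e2]
      unfold cont
      simp only [List.append_assoc]
  · subst hkl
    have hkN := k.2
    refine ⟨seg f0 0 k ++ pre hm (gs pbB 1 b k), [],
      post hm (gs pbB 1 b k) ++ seg f0 (k + 1) (N - k - 1) ++ ρ,
      (seg_valid _ vf _ _).app (pre_valid hm _), Valid.nil,
      ((post_valid hm _).app (seg_valid _ vf _ _)).app hρ, ?_, rfl, Or.inl ⟨lt_irrefl k, fun x y => ?_⟩⟩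
    · rw [pm_append, pm_seg, pm_pre, mul_inv_cancel]
    · rw [hWd, seg_split1 _ k N hkN, bl_active hm S b _ k hk]
      rw [seg_congr (bl (Rr pbB (actB hm) 1 S b (R x y))) f0 k 0 (fun j h1 h2 => hf x y j (by omega) (by omega)),
        seg_congr (bl (Rr pbB (actB hm) 1 S b (R x y))) f0 (N - k - 1) (k + 1) (fun j h1 h2 => hf x y j (by omega) (by omega))]
      have e1 : R x y k = (x, y) := by
        simp only [hR]
        rw [Function.update_self, Function.update_self]
      rw [e1]
      unfold cont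
      simp only [List.append_assoc, List.nil_append]
  · have hkl' : (l : ℕ) < k := hkl
    have hkN := k.2
    refine ⟨seg f0 0 l ++ pre hm (gs pbB 1 b l) ++ Bw 0 1 (X l),
      post hm (gs pbB 1 b l) ++ seg f0 (l + 1) (k - l - 1) ++ pre hm (gs pbB 1 b k),
      Bw 1 0 (Y k) ++ post hm (gs pbB 1 b k) ++ seg f0 (k + 1) (N - k - 1) ++ ρ,
      ((seg_valid _ vf _ _).app (pre_valid hm _)).app (b01 _),
      ((post_valid hm _).app (seg_valid _ vf _ _)).app (pre_valid hm _),
      (((b10 _).app (post_valid hm _)).app (seg_valid _ vf _ _)).app hρ, ?_, ?_, Or.inr ⟨hkl, fun x y => ?_⟩⟩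
    · rw [pm_append, pm_append, pm_seg, pm_pre, pm_Bw, mul_one, mul_inv_cancel]
    · rw [pm_append, pm_append, pm_post, pm_pre, pm_mid hm S b z0 l k hkl' l.2 hl, ← hf0]
      group
    · rw [hWd, seg_split2 _ l k N hkl' hkN, bl_active hm S b _ k hk, bl_active hm S b _ l hl]
      rw [seg_congr (bl (Rr pbB (actB hm) 1 S b (R x y))) f0 l 0 (fun j h1 h2 => hf x y j (by omega) (by omega)),
        seg_congr (bl (Rr pbB (actB hm) 1 S b (R x y))) f0 (k - l - 1) (l + 1) (fun j h1 h2 => hf x y j (by omega) (by omega)),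
        seg_congr (bl (Rr pbB (actB hm) 1 S b (R x y))) f0 (N - k - 1) (k + 1) (fun j h1 h2 => hf x y j (by omega) (by omega))]
      have e1 : R x y k = (x, Y k) := by
        simp only [hR]
        rw [Function.update_self, Function.update_of_ne (ne_of_gt hkl)]
      have e2 : R x y l = (X l, y) := by
        simp only [hR]
        rw [Function.update_self, Function.update_of_ne (ne_of_lt hkl)]
      rw [e1, e2]
      unfold cont
      simp only [List.append_assoc]

theorem Wd_facts (X Y : Fin N → Bool) : Valid m (Wd hm S b ρ X Y) ∧ 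
    pm m (Wd hm S b ρ X Y) = gs pbB 1 b N * pm m ρ ∧ (Wd hm S b ρ X Y).length = N * bL hm + ρ.length := by
  unfold Wd
  refine ⟨(seg_valid _ (fun k => bl_valid _ k) _ _).app hρ, ?_, ?_⟩
  · rw [pm_append, pm_seg]
  · rw [List.length_append, seg_len _ N 0 (by omega)]

open Classical in
/-- the count for given blocks -/
theorem count_blocks (O : Outer m) (t : ℤ) (hS : ∀ k ∈ S, isA pbB (actB hm) 1 b k) :
    ((univ.filter (fun z : Fin N → Bool × Bool => K O (seg (bl (Rr pbB (actB hm) 1 S b z)) 0 N ++ ρ) ∧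
      F O (seg (bl (Rr pbB (actB hm) 1 S b z)) 0 N ++ ρ) = t)).card : ℝ) * (S.card + 1) ≤
        1113 * 4 ^ N := by
  have hm0 : 0 < m := by omega
  set w0 := seg (bl b) 0 N ++ ρ with hw0
  have vw0 : Valid m w0 := (seg_valid _ (fun k => bl_valid _ k) _ _).app hρ
  have pw0 : pm m w0 = gs pbB 1 b N * pm m ρ := by
    rw [hw0, pm_append]
    congr 1
    exact (gs_pm b N).symm
  have lw0 : w0.length = N * bL hm + ρ.length := by
    rw [hw0, List.length_append, seg_len _ N 0 (by omega)]
  by_cases hK : K O w0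
  · have key := lemmaQ S (cc O w0 1 0) (cc O w0 0 1)
      (cc_sub hm0 O w0 vw0 (i := 0) (j := 1) (by omega) (by omega) (Or.inl rfl) hK)
      (fun X Y => F O (Wd hm S b ρ X Y)) (by
        intro X X' Y Y' hX hY
        congr 1
        unfold Wd
        congr 3
        funext k
        unfold Rr
        by_cases hk : k ∈ S ∧ isA pbB (actB hm) 1 b k
        · beta_reduce
          rw [hX k hk.1, hY k hk.1]
        · rw [if_neg hk, if_neg hk]) (by
        intro X Y k hk l hl
        obtain ⟨a, b', c, va, vb, vc, pa, pb', h⟩ := slots hm S b ρ hρ X Y k l ⟨hk, hS k hk⟩ ⟨hl, hS l hl⟩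
        have hpc : pm m w0 = pm m c := by
          obtain ⟨_, h2, _⟩ := Wd_facts hm S b ρ hρ (Function.update X k true) (Function.update Y l true)
          rcases h with ⟨_, h⟩ | ⟨_, h⟩
          · rw [h, pm_append, pm_append, pm_append, pm_append, pa, pb', pm_Bw, pm_Bw] at h2
            rw [pw0, ← h2]
            simp
          · rw [h, pm_append, pm_append, pm_append, pm_append, pa, pb', pm_Bw, pm_Bw] at h2
            rw [pw0, ← h2]
            simp
        have hlc : Even (w0.length + (a ++ b' ++ c).length) := by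
          obtain ⟨_, _, h3⟩ := Wd_facts hm S b ρ hρ (Function.update X k true) (Function.update Y l true)
          rcases h with ⟨_, h⟩ | ⟨_, h⟩
          · rw [h] at h3
            simp only [List.length_append, Bw_len] at h3 ⊢
            refine ⟨a.length + b'.length + c.length + 4, ?_⟩
            omega
          · rw [h] at h3
            simp only [List.length_append, Bw_len] at h3 ⊢
            refine ⟨a.length + b'.length + c.length + 4, ?_⟩
            omega
        rcases h with ⟨h4, h⟩ | ⟨h4, h⟩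
        · rw [if_neg h4, h, h, h, h]
          exact (mixedF hm0 O a b' c w0 va vb vc vw0 (by omega) (by omega) (Or.inl rfl) pa pb' hK hpc hlc).2
        · rw [if_pos h4, h, h, h, h]
          have h5 := (mixedF hm0 O a b' c w0 va vb vc vw0 (i := 1) (j := 0) (by omega) (by omega) (Or.inr rfl) pa pb' hK hpc hlc).2
          rw [← h5]
          ring) t
    refine le_trans ?_ key
    apply mul_le_mul_of_nonneg_right _ (by positivity)
    have h1 : (univ.filter (fun z : Fin N → Bool × Bool => K O (seg (bl (Rr pbB (actB hm) 1 S b z)) 0 N ++ ρ) ∧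
      F O (seg (bl (Rr pbB (actB hm) 1 S b z)) 0 N ++ ρ) = t)).card ≤
      (univ.filter (fun z : Fin N → Bool × Bool => F O (Wd hm S b ρ (fun k => (z k).1) (fun k => (z k).2)) = t)).card := by
      apply Finset.card_le_card
      intro z hz
      rw [Finset.mem_filter] at hz ⊢
      exact ⟨hz.1, hz.2.2⟩
    exact_mod_cast h1
  · have : (univ.filter (fun z : Fin N → Bool × Bool => K O (seg (bl (Rr pbB (actB hm) 1 S b z)) 0 N ++ ρ) ∧
      F O (seg (bl (Rr pbB (actB hm) 1 S b z)) 0 N ++ ρ) = t)) = ∅ := by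
      apply Finset.filter_eq_empty_iff.2
      intro z _ h
      apply hK
      obtain ⟨h1, h2, h3⟩ := Wd_facts hm S b ρ hρ (fun k => (z k).1) (fun k => (z k).2)
      exact K_perm h1 vw0 (by rw [h2, pw0]) h.1
    rw [this, Finset.card_empty, Nat.cast_zero, zero_mul]
    positivity

end

end Pool.Agent.T6.H96.VB
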