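import Pool.Agent.W639.RB.Knots

/-!
# Relations between the brackets of the diagrams with braid words in a box
-/

set_option autoImplicit false

namespace Pool.Agent.T6.H96.VB

open Finset LaurentPolynomial Pool.Agent.H891R2.Jones Pool.Agent.W639.RB

section alg

variable {K R : Type*} [Field K] [Ring R] [Algebra K R] {A d : K} {e : ℕ → R} {i j : ℕ}

/-- the relations between two neighbouring generators -/
structure Nb (d : K) (e : ℕ → R) (i j : ℕ) : Prop where
  sq : e i * e i = d • e i
  sq' : e j * e j = d • e j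
  tw : e i * e j * e i = e i
  tw' : e j * e i * e j = e j

theorem nb_of {M : ℕ} (h : IsTL M d e) (hi : i + 1 < M) (hj : j + 1 < M) (hij : i + 1 = j ∨ j + 1 = i) :
    Nb d e i j := by
  rcases hij with rfl | rfl
  · exact ⟨h.sq _ hi, h.sq _ hj, h.up _ hj, h.down _ hj⟩
  · exact ⟨h.sq _ hi, h.sq _ hj, h.down _ hi, h.up _ hi⟩

variable (hA : A ≠ 0) (hd : d = -A^2 - A⁻¹^2)

include hA hd

theorem tl_quad (h : e i * e i = d • e i) :
    sg A e i * sg A e i = A⁻¹ ^ 2 • (1 : R) + (A - A⁻¹ ^ 3) • sg A e i := by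
  subst hd
  simp only [sg, add_mul, mul_add, smul_mul_assoc, mul_smul_comm, one_mul, mul_one, h, smul_smul,
    smul_add]
  match_scalars <;> field_simp <;> ring

omit hd in
theorem tl_skein : A • sg A e i - A⁻¹ • sg A⁻¹ e i = (A ^ 2 - A⁻¹ ^ 2) • (1 : R) := by
  simp only [sg, smul_smul, smul_add, inv_inv]
  match_scalars <;> field_simp <;> ring

theorem tl_inv (h : e i * e i = d • e i) : sg A e i * sg A⁻¹ e i = 1 := by
  subst hd
  simp only [sg, add_mul, mul_add, smul_mul_assoc, mul_smul_comm, one_mul, mul_one, h, smul_smul,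
    smul_add, inv_inv]
  match_scalars <;> field_simp <;> ring

theorem tl_inv' (h : e i * e i = d • e i) : sg A⁻¹ e i * sg A e i = 1 := by
  subst hd
  simp only [sg, add_mul, mul_add, smul_mul_assoc, mul_smul_comm, one_mul, mul_one, h, smul_smul,
    smul_add, inv_inv]
  match_scalars <;> field_simp <;> ring

theorem tl_conj (h : Nb d e i j) : sg A e i * sg A e j * sg A⁻¹ e i =
    A ^ 5 • (1 : R) - A ^ 4 • (sg A e i + sg A e j) + A ^ 3 • (sg A e j * sg A e i) +
      A⁻¹ • (sg A e i * sg A e j) := by
  have h1 := h.sq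
  have h2 := h.sq'
  have h3 := h.tw
  have h4 := h.tw'
  subst hd
  simp only [sg, add_mul, mul_add, smul_mul_assoc, mul_smul_comm, one_mul, mul_one, h1, h2, h3, h4,
    smul_smul, smul_add, inv_inv]
  match_scalars <;> field_simp <;> ring

theorem tl_conj' (h : Nb d e i j) : sg A⁻¹ e i * sg A e j * sg A e i =
    A ^ 5 • (1 : R) - A ^ 4 • (sg A e i + sg A e j) + A ^ 3 • (sg A e i * sg A e j) +
      A⁻¹ • (sg A e j * sg A e i) := by
  have h1 := h.sq
  have h2 := h.sq'
  have h3 := h.tw
  have h4 := h.tw'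
  subst hd
  simp only [sg, add_mul, mul_add, smul_mul_assoc, mul_smul_comm, one_mul, mul_one, h1, h2, h3, h4,
    smul_smul, smul_add, inv_inv]
  match_scalars <;> field_simp <;> ring

end alg

variable {m : ℕ}

/-- the bracket of the diagram with the word `w` in the box -/
noncomputable def Br (O : Outer m) (w : List (Bool × ℕ)) : ℤ[T;T⁻¹] := (draw O w).close.bracket

/-- all letters are generators of the braid group on `m` strands -/
def Valid (m : ℕ) (w : List (Bool × ℕ)) : Prop := ∀ x ∈ w, x.2 + 1 < m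

theorem Valid.app {w w' : List (Bool × ℕ)} (h : Valid m w) (h' : Valid m w') : Valid m (w ++ w') := by
  intro x hx
  rcases List.mem_append.1 hx with hx | hx
  · exact h x hx
  · exact h' x hx

theorem Valid.left {w w' : List (Bool × ℕ)} (h : Valid m (w ++ w')) : Valid m w :=
  fun x hx => h x (List.mem_append_left _ hx)

theorem Valid.right {w w' : List (Bool × ℕ)} (h : Valid m (w ++ w')) : Valid m w' :=
  fun x hx => h x (List.mem_append_right _ hx)

theorem Valid.nil : Valid m [] := fun _ hx => absurd hx (by simp)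

theorem Valid.cons {x : Bool × ℕ} {w : List (Bool × ℕ)} (hx : x.2 + 1 < m) (h : Valid m w) :
    Valid m (x :: w) := by
  intro y hy
  rcases List.mem_cons.1 hy with rfl | hy
  · exact hx
  · exact h y hy

/-- the linear functional given by the outside -/
noncomputable def Lf (A : ℂ) (N : ℕ) (O : Outer m) :
    Module.End ℂ ((Fin m → Fin N) → ((Fin m → Fin N) → ℂ)) →ₗ[ℂ] ℂ where
  toFun S := Zg A N O (S (fun x y => ind (x = y)))
  map_add' := by
    intro S S'
    unfold Zg
    rw [← Finset.sum_add_distrib]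
    refine Finset.sum_congr rfl fun u _ => ?_
    exact mul_add (WW A O.arcs O.crossings u) (S (fun x y => ind (x = y)) (u ∘ O.lower) (u ∘ O.upper))
      (S' (fun x y => ind (x = y)) (u ∘ O.lower) (u ∘ O.upper))
  map_smul' := by
    intro r S
    unfold Zg
    simp only [RingHom.id_apply, smul_eq_mul]
    rw [Finset.mul_sum]
    refine Finset.sum_congr rfl fun u _ => ?_
    exact mul_left_comm (WW A O.arcs O.crossings u) r
      (S (fun x y => ind (x = y)) (u ∘ O.lower) (u ∘ O.upper))

theorem ev_Br (hm : 0 < m) (O : Outer m) (w : List (Bool × ℕ)) (hw : Valid m w) (N : ℕ) (hN : 3 ≤ N) :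
    (N : ℂ) * ev N hN (Br O w) = Lf (Ar N) N O (rho (Ar N) m N w) := by
  have : Nonempty (draw O w).P := ⟨(draw O w).lower ⟨0, hm⟩⟩
  unfold Br
  rw [ev_bracket N hN (draw O w).close, Z_close, Zg_draw _ _ hw]
  rfl

/-- relations in the representations give relations between brackets -/
theorem transfer (hm : 0 < m) (O : Outer m) (a b : List (Bool × ℕ)) (ha : Valid m a) (hb : Valid m b)
    (l : List (ℤ[T;T⁻¹] × List (Bool × ℕ))) (hl : ∀ t ∈ l, Valid m t.2)
    (h : ∀ N (hN : 3 ≤ N), (l.map fun t => ev N hN t.1 • rho (Ar N) m N t.2).sum = 0) :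
    (l.map fun t => t.1 * Br O (a ++ t.2 ++ b)).sum = 0 := by
  by_contra hne
  obtain ⟨N, hN, hev⟩ := exists_ev_ne _ hne
  apply hev
  have hN0 : (N : ℂ) ≠ 0 := by
    rw [Nat.cast_ne_zero]; omega
  apply mul_left_cancel₀ hN0
  rw [mul_zero]
  have key : ∀ l : List (ℤ[T;T⁻¹] × List (Bool × ℕ)), (∀ t ∈ l, Valid m t.2) →
      (N : ℂ) * ev N hN (l.map fun t => t.1 * Br O (a ++ t.2 ++ b)).sum =
        Lf (Ar N) N O (rho (Ar N) m N a * (l.map fun t => ev N hN t.1 • rho (Ar N) m N t.2).sum *
          rho (Ar N) m N b) := by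
    intro l
    induction l with
    | nil => intro _; simp
    | cons t l ih =>
      intro hl
      have h1 := ih fun t ht => hl t (List.mem_cons_of_mem _ ht)
      have h2 := ev_Br hm O (a ++ t.2 ++ b) ((ha.app (hl t List.mem_cons_self)).app hb) N hN
      rw [rho_append, rho_append] at h2
      rw [List.map_cons, List.sum_cons, List.map_cons, List.sum_cons, mul_add, add_mul, map_add,
        map_add, map_mul, mul_add, h1, mul_smul_comm, smul_mul_assoc, map_smul, ← h2, smul_eq_mul]
      ring
  rw [key l hl, h N hN, mul_zero, zero_mul, map_zero]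

theorem rho_one (A : ℂ) (N : ℕ) (x : Bool × ℕ) : rho A m N [x] = lt A m N x := by simp [rho]

theorem rho_nil (A : ℂ) (N : ℕ) : rho A m N [] = 1 := by simp [rho]

theorem rho_cons (A : ℂ) (N : ℕ) (x : Bool × ℕ) (w : List (Bool × ℕ)) :
    rho A m N (x :: w) = lt A m N x * rho A m N w := by simp [rho]

theorem lt_true (A : ℂ) (N i : ℕ) : lt A m N (true, i) = sg A (ee m N ((Fin m → Fin N) → ℂ)) i := rfl

theorem lt_false (A : ℂ) (N i : ℕ) : lt A m N (false, i) = sg A⁻¹ (ee m N ((Fin m → Fin N) → ℂ)) i := rfl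

section rel

variable (hm : 0 < m) (O : Outer m) (a b : List (Bool × ℕ)) (ha : Valid m a) (hb : Valid m b)
  {i j : ℕ} (hi : i + 1 < m)

include hm ha hb hi

theorem R1 : Br O (a ++ [(true, i), (true, i)] ++ b) =
    T (-2) * Br O (a ++ [] ++ b) + (T 1 - T (-3)) * Br O (a ++ [(true, i)] ++ b) := by
  have h := transfer hm O a b ha hb [(1, [(true, i), (true, i)]), (-T (-2), []),
    (-(T 1 - T (-3)), [(true, i)])] (by
      intro t ht
      simp only [List.mem_cons, List.not_mem_nil, or_false] at ht
      rcases ht with rfl | rfl | rfl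
      · exact Valid.cons hi (Valid.cons hi Valid.nil)
      · exact Valid.nil
      · exact Valid.cons hi Valid.nil) (by
      intro N hN
      have h1 := tl_quad (A := Ar N) (R := Module.End ℂ ((Fin m → Fin N) → ((Fin m → Fin N) → ℂ)))
        (Ar_ne N hN) (Ar_d N hN) ((isTL_ee (W := (Fin m → Fin N) → ℂ) m N).sq i hi)
      simp only [List.map_cons, List.map_nil, List.sum_cons, List.sum_nil, rho_cons, rho_nil, mul_one,
        lt_true, map_neg, map_sub, map_one, ev_T, one_smul, h1]
      have e1 : (Ar N) ^ (-2 : ℤ) = (Ar N)⁻¹ ^ 2 := by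
        rw [zpow_neg, inv_pow]; rfl
      have e2 : (Ar N) ^ (-3 : ℤ) = (Ar N)⁻¹ ^ 3 := by
        rw [zpow_neg, inv_pow]; rfl
      rw [e1, e2, zpow_one]
      module)
  simp only [List.map_cons, List.map_nil, List.sum_cons, List.sum_nil] at h
  linear_combination h

theorem R1n : Br O (a ++ [(false, i), (false, i)] ++ b) =
    T 2 * Br O (a ++ [] ++ b) + (T (-1) - T 3) * Br O (a ++ [(false, i)] ++ b) := by
  have h := transfer hm O a b ha hb [(1, [(false, i), (false, i)]), (-T 2, []),
    (-(T (-1) - T 3), [(false, i)])] (by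
      intro t ht
      simp only [List.mem_cons, List.not_mem_nil, or_false] at ht
      rcases ht with rfl | rfl | rfl
      · exact Valid.cons hi (Valid.cons hi Valid.nil)
      · exact Valid.nil
      · exact Valid.cons hi Valid.nil) (by
      intro N hN
      have h1 := tl_quad (A := (Ar N)⁻¹) (R := Module.End ℂ ((Fin m → Fin N) → ((Fin m → Fin N) → ℂ)))
        (d := (N : ℂ)) (inv_ne_zero (Ar_ne N hN)) (by rw [inv_inv]; linear_combination Ar_d N hN) 
        ((isTL_ee (W := (Fin m → Fin N) → ℂ) m N).sq i hi)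
      rw [inv_inv] at h1
      simp only [List.map_cons, List.map_nil, List.sum_cons, List.sum_nil, rho_cons, rho_nil, mul_one,
        lt_false, map_neg, map_sub, map_one, ev_T, one_smul, h1]
      have e1 : (Ar N) ^ (2 : ℤ) = (Ar N) ^ 2 := rfl
      have e2 : (Ar N) ^ (3 : ℤ) = (Ar N) ^ 3 := rfl
      have e3 : (Ar N) ^ (-1 : ℤ) = (Ar N)⁻¹ := by rw [zpow_neg, zpow_one]
      rw [e1, e2, e3]
      module)
  simp only [List.map_cons, List.map_nil, List.sum_cons, List.sum_nil] at h
  linear_combination h

theorem R2 : Br O (a ++ [(true, i), (false, i)] ++ b) = Br O (a ++ [] ++ b) := by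
  have h := transfer hm O a b ha hb [(1, [(true, i), (false, i)]), (-1, [])] (by
      intro t ht
      simp only [List.mem_cons, List.not_mem_nil, or_false] at ht
      rcases ht with rfl | rfl
      · exact Valid.cons hi (Valid.cons hi Valid.nil)
      · exact Valid.nil) (by
      intro N hN
      have h1 := tl_inv (A := Ar N) (R := Module.End ℂ ((Fin m → Fin N) → ((Fin m → Fin N) → ℂ)))
        (Ar_ne N hN) (Ar_d N hN) ((isTL_ee (W := (Fin m → Fin N) → ℂ) m N).sq i hi)
      simp only [List.map_cons, List.map_nil, List.sum_cons, List.sum_nil, rho_cons, rho_nil, mul_one,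
        lt_true, lt_false, map_neg, map_one, one_smul, h1]
      module)
  simp only [List.map_cons, List.map_nil, List.sum_cons, List.sum_nil] at h
  linear_combination h

theorem R2' : Br O (a ++ [(false, i), (true, i)] ++ b) = Br O (a ++ [] ++ b) := by
  have h := transfer hm O a b ha hb [(1, [(false, i), (true, i)]), (-1, [])] (by
      intro t ht
      simp only [List.mem_cons, List.not_mem_nil, or_false] at ht
      rcases ht with rfl | rfl
      · exact Valid.cons hi (Valid.cons hi Valid.nil)
      · exact Valid.nil) (by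
      intro N hN
      have h1 := tl_inv' (A := Ar N) (R := Module.End ℂ ((Fin m → Fin N) → ((Fin m → Fin N) → ℂ)))
        (Ar_ne N hN) (Ar_d N hN) ((isTL_ee (W := (Fin m → Fin N) → ℂ) m N).sq i hi)
      simp only [List.map_cons, List.map_nil, List.sum_cons, List.sum_nil, rho_cons, rho_nil, mul_one,
        lt_true, lt_false, map_neg, map_one, one_smul, h1]
      module)
  simp only [List.map_cons, List.map_nil, List.sum_cons, List.sum_nil] at h
  linear_combination h

theorem R3 : T 1 * Br O (a ++ [(true, i)] ++ b) - T (-1) * Br O (a ++ [(false, i)] ++ b) =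
    (T 2 - T (-2)) * Br O (a ++ [] ++ b) := by
  have h := transfer hm O a b ha hb [(T 1, [(true, i)]), (-T (-1), [(false, i)]),
    (-(T 2 - T (-2)), [])] (by
      intro t ht
      simp only [List.mem_cons, List.not_mem_nil, or_false] at ht
      rcases ht with rfl | rfl | rfl
      · exact Valid.cons hi Valid.nil
      · exact Valid.cons hi Valid.nil
      · exact Valid.nil) (by
      intro N hN
      have h1 := tl_skein (A := Ar N) (R := Module.End ℂ ((Fin m → Fin N) → ((Fin m → Fin N) → ℂ)))
        (e := ee m N ((Fin m → Fin N) → ℂ)) (i := i) (Ar_ne N hN) 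
      simp only [List.map_cons, List.map_nil, List.sum_cons, List.sum_nil, rho_cons, rho_nil, mul_one,
        lt_true, lt_false, map_neg, map_sub, ev_T]
      have e1 : (Ar N) ^ (-2 : ℤ) = (Ar N)⁻¹ ^ 2 := by
        rw [zpow_neg, inv_pow]; rfl
      have e2 : (Ar N) ^ (2 : ℤ) = (Ar N) ^ 2 := rfl
      have e3 : (Ar N) ^ (-1 : ℤ) = (Ar N)⁻¹ := by rw [zpow_neg, zpow_one]
      rw [e1, e2, e3, zpow_one]
      refine Eq.trans ?_ (sub_eq_zero.2 h1)
      module)
  simp only [List.map_cons, List.map_nil, List.sum_cons, List.sum_nil] at h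
  linear_combination h

variable (hj : j + 1 < m) (hij : i + 1 = j ∨ j + 1 = i)

include hj hij

theorem R4 : Br O (a ++ [(true, i), (true, j), (false, i)] ++ b) =
    T 5 * Br O (a ++ [] ++ b) - T 4 * (Br O (a ++ [(true, i)] ++ b) + Br O (a ++ [(true, j)] ++ b)) +
      T 3 * Br O (a ++ [(true, j), (true, i)] ++ b) + T (-1) * Br O (a ++ [(true, i), (true, j)] ++ b) := by
  have h := transfer hm O a b ha hb [(1, [(true, i), (true, j), (false, i)]), (-T 5, []),
    (T 4, [(true, i)]), (T 4, [(true, j)]), (-T 3, [(true, j), (true, i)]), 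
    (-T (-1), [(true, i), (true, j)])] (by
      intro t ht
      simp only [List.mem_cons, List.not_mem_nil, or_false] at ht
      rcases ht with rfl | rfl | rfl | rfl | rfl | rfl
      · exact Valid.cons hi (Valid.cons hj (Valid.cons hi Valid.nil))
      · exact Valid.nil
      · exact Valid.cons hi Valid.nil
      · exact Valid.cons hj Valid.nil
      · exact Valid.cons hj (Valid.cons hi Valid.nil)
      · exact Valid.cons hi (Valid.cons hj Valid.nil)) (by
      intro N hN
      have h1 := tl_conj (A := Ar N) (R := Module.End ℂ ((Fin m → Fin N) → ((Fin m → Fin N) → ℂ)))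
        (Ar_ne N hN) (Ar_d N hN) (nb_of (isTL_ee (W := (Fin m → Fin N) → ℂ) m N) hi hj hij)
      rw [mul_assoc] at h1
      simp only [List.map_cons, List.map_nil, List.sum_cons, List.sum_nil, rho_cons, rho_nil, mul_one,
        lt_true, lt_false, map_neg, map_one, ev_T, one_smul, h1]
      have e1 : (Ar N) ^ (5 : ℤ) = (Ar N) ^ 5 := rfl
      have e2 : (Ar N) ^ (4 : ℤ) = (Ar N) ^ 4 := rfl
      have e3 : (Ar N) ^ (-1 : ℤ) = (Ar N)⁻¹ := by rw [zpow_neg, zpow_one]
      have e4 : (Ar N) ^ (3 : ℤ) = (Ar N) ^ 3 := rfl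
      rw [e1, e2, e3, e4]
      module)
  simp only [List.map_cons, List.map_nil, List.sum_cons, List.sum_nil] at h
  linear_combination h

theorem R4' : Br O (a ++ [(false, i), (true, j), (true, i)] ++ b) =
    T 5 * Br O (a ++ [] ++ b) - T 4 * (Br O (a ++ [(true, i)] ++ b) + Br O (a ++ [(true, j)] ++ b)) +
      T 3 * Br O (a ++ [(true, i), (true, j)] ++ b) + T (-1) * Br O (a ++ [(true, j), (true, i)] ++ b) := by
  have h := transfer hm O a b ha hb [(1, [(false, i), (true, j), (true, i)]), (-T 5, []),
    (T 4, [(true, i)]), (T 4, [(true, j)]), (-T 3, [(true, i), (true, j)]), 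
    (-T (-1), [(true, j), (true, i)])] (by
      intro t ht
      simp only [List.mem_cons, List.not_mem_nil, or_false] at ht
      rcases ht with rfl | rfl | rfl | rfl | rfl | rfl
      · exact Valid.cons hi (Valid.cons hj (Valid.cons hi Valid.nil))
      · exact Valid.nil
      · exact Valid.cons hi Valid.nil
      · exact Valid.cons hj Valid.nil
      · exact Valid.cons hi (Valid.cons hj Valid.nil)
      · exact Valid.cons hj (Valid.cons hi Valid.nil)) (by
      intro N hN
      have h1 := tl_conj' (A := Ar N) (R := Module.End ℂ ((Fin m → Fin N) → ((Fin m → Fin N) → ℂ)))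
        (Ar_ne N hN) (Ar_d N hN) (nb_of (isTL_ee (W := (Fin m → Fin N) → ℂ) m N) hi hj hij)
      rw [mul_assoc] at h1
      simp only [List.map_cons, List.map_nil, List.sum_cons, List.sum_nil, rho_cons, rho_nil, mul_one,
        lt_true, lt_false, map_neg, map_one, ev_T, one_smul, h1]
      have e1 : (Ar N) ^ (5 : ℤ) = (Ar N) ^ 5 := rfl
      have e2 : (Ar N) ^ (4 : ℤ) = (Ar N) ^ 4 := rfl
      have e3 : (Ar N) ^ (-1 : ℤ) = (Ar N)⁻¹ := by rw [zpow_neg, zpow_one]
      have e4 : (Ar N) ^ (3 : ℤ) = (Ar N) ^ 3 := rfl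
      rw [e1, e2, e3, e4]
      module)
  simp only [List.map_cons, List.map_nil, List.sum_cons, List.sum_nil] at h
  linear_combination h

end rel

end Pool.Agent.T6.H96.VB
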