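import Pool.Agent.T6.H96.VB.Rel
import Pool.Agent.Y463.BS.Last
import Pool.Agent.W705.JR.Vas

/-!
# Closed curves, directions and writhes of the diagrams with braid words in a box
-/

set_option autoImplicit false

namespace Pool.Agent.T6.H96.VB

open Finset LaurentPolynomial Pool.Agent.H891R2.Jones Pool.Agent.W639.RB Pool.Agent.H832R3.VJ
open Pool.Agent.Y463.BS (lp E X pts al cor Two W_eq m_bracket card_strand knot_moments count_pts_append)
open Pool.Agent.H953R3.Q2 (m_sum m_one T_mul0 T_mul1 T_mul2 mul0 mul1 mul2)

variable {m : ℕ}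

/-! ### one letter -/

/-- `push` with the two places as elements of `Fin m` -/
def pushS (O : Outer m) (pos : Bool) (p q : Fin m) : Outer m where
  P := O.P ⊕ Fin m
  arcs := O.arcs.map (Prod.map .inl .inl) ++
    ((List.finRange m).filter (fun j => j ≠ p ∧ j ≠ q)).map
      (fun j => if O.up j then (.inl (O.lower j), .inr j) else (.inr j, .inl (O.lower j)))
  crossings := O.crossings.map (Crossing.map .inl) ++ [O.newCrossing p q pos]
  lower := .inr
  upper := fun j => .inl (O.upper j)
  up := O.up ∘ Equiv.swap p q

theorem push_eq (O : Outer m) (pos : Bool) (i : ℕ) (h : i + 1 < m) :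
    O.push pos i = pushS O pos ⟨i, Nat.lt_of_succ_lt h⟩ ⟨i+1, h⟩ := by
  rw [Outer.push, dif_pos h]
  rfl

theorem Sst_pushS (O : Outer m) (v : Fin m → Bool) (pos : Bool) (p q : Fin m) (hpq : p ≠ q) (x : O.P) :
    Sst (pushS O pos p q) v (Sum.inl x) = Sst O v x := by
  unfold pushS
  unfold Sst
  dsimp only
  rw [List.map_append, List.sum_append, List.map_map, List.map_map, sum_filter_map,
    ← Fin.sum_univ_def, List.map_append, List.sum_append, List.map_map, List.map_singleton,
    List.sum_singleton]
  have e1 : ((fun z : (O.P ⊕ Fin m) × (O.P ⊕ Fin m) => if z.1 = Sum.inl x then (1:ℕ) else 0) ∘ 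
      Prod.map Sum.inl Sum.inl) = fun z : O.P × O.P => if z.1 = x then 1 else 0 := by
    funext z; simp
  have e2 : (cst (Sum.inl x : O.P ⊕ Fin m) ∘ Crossing.map Sum.inl) = cst x := by
    funext c
    simp only [Function.comp_apply, cst, Crossing.map]
    congr 1
    · split_ifs <;> simp_all
    · split_ifs <;> simp_all
  have e3 : (∑ j, if (O.up ∘ Equiv.swap p q) j = true ∧ (Sum.inr j : O.P ⊕ Fin m) = Sum.inl x 
      then (1:ℕ) else 0) = 0 := by
    apply Finset.sum_eq_zero; intro j _; simp
  have e4 : (∑ j, if ¬ v j = true ∧ (Sum.inl (O.upper j) : O.P ⊕ Fin m) = Sum.inl x then (1:ℕ) else 0)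
      = ∑ j, if ¬ v j = true ∧ O.upper j = x then 1 else 0 := by
    refine Finset.sum_congr rfl fun j _ => ?_
    simp
  have e5 : (∑ j, if j ≠ p ∧ j ≠ q then ((fun z : (O.P ⊕ Fin m) × (O.P ⊕ Fin m) => 
        if z.1 = Sum.inl x then (1:ℕ) else 0) ∘ 
        (fun j => if O.up j = true then (Sum.inl (O.lower j), Sum.inr j) 
          else (Sum.inr j, Sum.inl (O.lower j)))) j else 0) + 
        cst (Sum.inl x) (O.newCrossing p q pos) = 
      ∑ j, if O.up j = true ∧ O.lower j = x then 1 else 0 := by
    have e6 : ∀ j, (if O.up j = true ∧ O.lower j = x then (1:ℕ) else 0) = 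
        (if j ≠ p ∧ j ≠ q then (if O.up j = true ∧ O.lower j = x then (1:ℕ) else 0) else 0) + 
        ((if j = p then (if O.up j = true ∧ O.lower j = x then (1:ℕ) else 0) else 0) + 
        (if j = q then (if O.up j = true ∧ O.lower j = x then (1:ℕ) else 0) else 0)) := by
      intro j
      by_cases h1 : j = p
      · subst h1; simp [hpq]
      · by_cases h2 : j = q
        · subst h2; simp [h1]
        · simp [h1, h2]
    rw [Finset.sum_congr rfl (fun j _ => e6 j), Finset.sum_add_distrib, Finset.sum_add_distrib,
      Finset.sum_ite_eq' Finset.univ p, Finset.sum_ite_eq' Finset.univ q]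
    simp only [Finset.mem_univ, if_true]
    congr 1
    · refine Finset.sum_congr rfl fun j _ => ?_
      by_cases hj : j ≠ p ∧ j ≠ q
      · rw [if_pos hj, if_pos hj]
        cases hu : O.up j <;> simp [hu]
      · rw [if_neg hj, if_neg hj]
    · unfold cst Outer.newCrossing
      cases pos <;> cases hp : O.up p <;> cases hq : O.up q <;> simp [add_comm]
  rw [e1, e2, e3, e4]
  omega

theorem Good_back (O : Outer m) (v : Fin m → Bool) (pos : Bool) (i : ℕ) (hO : Good (O.push pos i) v) :
    Good O v := by
  by_cases h : i + 1 < m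
  · refine ⟨fun x => ?_, fun x => ?_⟩
    · rw [push_eq O pos i h] at hO
      rw [← Sst_pushS O v pos ⟨i, Nat.lt_of_succ_lt h⟩ ⟨i+1, h⟩ (by simp [Fin.ext_iff]) x]
      exact hO.1 _
    · have h2 := hO.2
      rw [rev_push, push_eq O.rev pos i h] at h2
      rw [← Sst_pushS O.rev (fun j => !(v j)) pos ⟨i, Nat.lt_of_succ_lt h⟩ ⟨i+1, h⟩ (by simp [Fin.ext_iff]) x]
      exact h2 _
  · unfold Outer.push at hO
    rw [dif_neg h] at hO
    exact hO

theorem Good_draw_iff (v : Fin m → Bool) (w : List (Bool × ℕ)) : ∀ O : Outer m,
    Good (draw O w) v ↔ Good O v := by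
  induction w with
  | nil => intro O; exact Iff.rfl
  | cons x w ih =>
    intro O
    have h2 : draw O (x :: w) = draw (O.push x.1 x.2) w := rfl
    rw [h2, ih]
    exact ⟨Good_back O v x.1 x.2, Good_push O v x.1 x.2⟩

theorem draw_append (O : Outer m) (w w' : List (Bool × ℕ)) : draw O (w ++ w') = draw (draw O w) w' := by
  unfold draw
  rw [List.foldl_append]

/-! ### every point has two ends -/

theorem two_of_good (O : Outer m) (v : Fin m → Bool) (h : Good O v) :
    Two (al O.close.arcs O.close.crossings) := by
  intro x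
  right
  have h1 := h.1 x
  have h2 := h.2 x
  unfold Sst at h1 h2
  unfold Outer.rev at h2
  dsimp only at h2
  unfold al pts
  rw [List.count_append, List.count_append]
  have hc : (O.close.crossings.flatMap cor).count x = (O.crossings.map (cst x)).sum + 
      ((O.crossings.map Crossing.rev).map (cst x)).sum := by
    show (O.crossings.flatMap cor).count x = _
    generalize O.crossings = l
    induction l with
    | nil => rfl
    | cons c l ih =>
      rw [List.flatMap_cons, List.count_append, ih, List.map_cons, List.map_cons, List.map_cons,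
        List.sum_cons, List.sum_cons]
      have : (cor c).count x = cst x c + cst x c.rev := by
        obtain ⟨c1, c2, c3, c4, f, g⟩ := c
        cases f <;> cases g <;> simp only [cor, cst, Crossing.rev, List.count_cons, List.count_nil, 
          beq_iff_eq, if_true, if_false, Bool.not_true, Bool.not_false, Bool.false_eq_true] <;> omega
      rw [this]
      omega
  have hA : ∀ l : List (O.P × O.P), (l.map Prod.fst).count x = 
      (l.map (fun z => if z.1 = x then 1 else 0)).sum := by
    intro l
    rw [count_eq_sum, List.map_map]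
    rfl
  have hB : ∀ l : List (O.P × O.P), (l.map Prod.snd).count x = 
      ((l.map Prod.swap).map (fun z => if z.1 = x then 1 else 0)).sum := by
    intro l
    rw [count_eq_sum, List.map_map, List.map_map]
    rfl
  have ha : (O.close.arcs.map Prod.fst).count x + (O.close.arcs.map Prod.snd).count x = 
      (O.arcs.map (fun z => if z.1 = x then 1 else 0)).sum + 
      ((O.arcs.map Prod.swap).map (fun z => if z.1 = x then 1 else 0)).sum + 
      ((∑ j, if O.lower j = x then 1 else 0) + (∑ j, if O.upper j = x then 1 else 0)) := by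
    have e0 : O.close.arcs = O.arcs ++ (List.finRange m).map (fun j => 
      if O.up j then (O.lower j, O.upper j) else (O.upper j, O.lower j)) := rfl
    have e1 : (((List.finRange m).map (fun j => 
        if O.up j then (O.lower j, O.upper j) else (O.upper j, O.lower j))).map Prod.fst).count x + 
        (((List.finRange m).map (fun j => 
        if O.up j then (O.lower j, O.upper j) else (O.upper j, O.lower j))).map Prod.snd).count x = 
        (∑ j, if O.lower j = x then 1 else 0) + (∑ j, if O.upper j = x then 1 else 0) := by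
      rw [count_eq_sum, count_eq_sum, List.map_map, List.map_map, List.map_map, List.map_map,
        ← Fin.sum_univ_def, ← Fin.sum_univ_def, ← Finset.sum_add_distrib, ← Finset.sum_add_distrib]
      refine Finset.sum_congr rfl fun j _ => ?_
      simp only [Function.comp_apply]
      cases hu : O.up j
      · simp [add_comm]
      · simp
    rw [e0, List.map_append, List.map_append, List.count_append, List.count_append, hA O.arcs, 
      hB O.arcs]
    omega
  have s1 : (∑ j, if O.lower j = x then 1 else 0) = 
      (∑ j, if O.up j = true ∧ O.lower j = x then 1 else 0) + 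
      (∑ j, if (!(O.up j)) = true ∧ O.lower j = x then 1 else 0) := by
    rw [← Finset.sum_add_distrib]
    refine Finset.sum_congr rfl fun j _ => ?_
    cases hu : O.up j <;> simp
  have s2 : (∑ j, if O.upper j = x then 1 else 0) = 
      (∑ j, if ¬ v j = true ∧ O.upper j = x then 1 else 0) + 
      (∑ j, if ¬ (!(v j)) = true ∧ O.upper j = x then 1 else 0) := by
    rw [← Finset.sum_add_distrib]
    refine Finset.sum_congr rfl fun j _ => ?_
    cases hu : v j <;> simp
  rw [hc, ha, s1, s2]
  omega

/-! ### directions and writhe -/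

/-- the directions after a word -/
def ac : List (Bool × ℕ) → (ℕ → ℤ) → (ℕ → ℤ)
  | [], U => U
  | (x :: w), U => ac w (U ∘ Equiv.swap x.2 (x.2 + 1))

/-- the writhe of a word -/
def cw : List (Bool × ℕ) → (ℕ → ℤ) → ℤ
  | [], _ => 0
  | (x :: w), U => (if x.1 then 1 else -1) * (U x.2 * U (x.2 + 1)) + cw w (U ∘ Equiv.swap x.2 (x.2 + 1))

theorem ac_append (w w' : List (Bool × ℕ)) : ∀ U, ac (w ++ w') U = ac w' (ac w U) := by
  induction w with
  | nil => intro U; rfl
  | cons i w ih => intro U; exact ih _

theorem cw_append (w w' : List (Bool × ℕ)) : ∀ U, cw (w ++ w') U = cw w U + cw w' (ac w U) := by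
  induction w with
  | nil => intro U; simp [cw, ac]
  | cons i w ih =>
    intro U
    simp only [List.cons_append, cw, ac, ih]
    ring

theorem draw_writhe (w : List (Bool × ℕ)) : ∀ O : Outer m, Valid m w →
    owr (draw O w) = owr O + cw w (pat O.up) ∧ pat (draw O w).up = ac w (pat O.up) := by
  induction w with
  | nil => intro O _; simp [draw, cw, ac]
  | cons x w ih =>
    intro O hw
    obtain ⟨h1, h2⟩ := ih (O.push x.1 x.2) (fun j hj => hw j (List.mem_cons_of_mem _ hj))
    obtain ⟨h3, h4⟩ := push_writhe O x.1 x.2 (hw x List.mem_cons_self)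
    have h5 : draw O (x :: w) = draw (O.push x.1 x.2) w := rfl
    rw [h5, h1, h2, h3, h4]
    refine ⟨?_, rfl⟩
    simp only [cw]
    ring

theorem pat_inj {u v : Fin m → Bool} (h : pat u = pat v) : u = v := by
  funext j
  have := congrFun h j
  simp only [pat, Fin.is_lt, dif_pos] at this
  revert this
  cases u j <;> cases v j <;> simp

theorem pat_sq (u : Fin m → Bool) (i : ℕ) (h : i < m) : pat u i = 1 ∨ pat u i = -1 := by
  unfold pat
  rw [dif_pos h]
  split_ifs
  · exact Or.inl rfl
  · exact Or.inr rfl

end Pool.Agent.T6.H96.VB
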