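import Pool.Agent.T6.H96.VB.Mixed
import Pool.Agent.T6.H96.VB.Fourier
import Pool.Agent.T6.H96.VB.Chain

/-!
# Words composed of blocks
-/

set_option autoImplicit false

namespace Pool.Agent.T6.H96.VB

open Finset Pool.Agent.H891R2.Jones Pool.Agent.W639.RB

variable {m : ℕ}

/-- the concatenation of the pieces with the numbers `a, …, a + n - 1` -/
def seg (f : ℕ → List (Bool × ℕ)) : ℕ → ℕ → List (Bool × ℕ)
  | _, 0 => []
  | a, (n + 1) => f a ++ seg f (a + 1) n

theorem seg_add (f : ℕ → List (Bool × ℕ)) (n : ℕ) : ∀ a n', seg f a (n + n') = seg f a n ++ seg f (a + n) n' := by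
  induction n with
  | zero => intro a n'; simp [seg]
  | succ n ih =>
    intro a n'
    rw [show n + 1 + n' = (n + n') + 1 by ring, seg, seg, ih, List.append_assoc,
      show a + 1 + n = a + (n + 1) by ring]

theorem seg_one (f : ℕ → List (Bool × ℕ)) (a : ℕ) : seg f a 1 = f a := by simp [seg]

theorem seg_congr (f g : ℕ → List (Bool × ℕ)) (n : ℕ) : ∀ a, (∀ k, a ≤ k → k < a + n → f k = g k) →
    seg f a n = seg g a n := by
  induction n with
  | zero => intro a _; rfl
  | succ n ih =>
    intro a h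
    rw [seg, seg, h a le_rfl (by omega), ih (a + 1) fun k h1 h2 => h k (by omega) (by omega)]

theorem seg_valid (f : ℕ → List (Bool × ℕ)) (hf : ∀ k, Valid m (f k)) (n : ℕ) : ∀ a, Valid m (seg f a n) := by
  induction n with
  | zero => intro a; exact Valid.nil
  | succ n ih => intro a; exact (hf a).app (ih _)

theorem seg_split1 (f : ℕ → List (Bool × ℕ)) (k N : ℕ) (h : k < N) :
    seg f 0 N = seg f 0 k ++ f k ++ seg f (k + 1) (N - k - 1) := by
  have h1 : N = k + (1 + (N - k - 1)) := by omega
  conv_lhs => rw [h1]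
  rw [seg_add, seg_add, seg_one, List.append_assoc, Nat.zero_add]

theorem seg_split2 (f : ℕ → List (Bool × ℕ)) (k l N : ℕ) (h : k < l) (h' : l < N) :
    seg f 0 N = seg f 0 k ++ f k ++ seg f (k + 1) (l - k - 1) ++ f l ++ seg f (l + 1) (N - l - 1) := by
  rw [seg_split1 f l N h', seg_split1 f k l h]

/-- the pieces given by the blocks -/
def bl {N L : ℕ} (b : Fin N → Fin L → Letter m) (k : ℕ) : List (Bool × ℕ) :=
  if h : k < N then toL (b ⟨k, h⟩) else []

theorem bl_valid {N L : ℕ} (b : Fin N → Fin L → Letter m) (k : ℕ) : Valid m (bl b k) := by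
  unfold bl
  split_ifs
  · exact valid_toL _
  · exact Valid.nil

theorem seg_len {N L : ℕ} (b : Fin N → Fin L → Letter m) (n : ℕ) : ∀ a, a + n ≤ N →
    (seg (bl b) a n).length = n * L := by
  induction n with
  | zero => intro a _; simp [seg]
  | succ n ih =>
    intro a ha
    rw [seg, List.length_append, ih (a + 1) (by omega), bl, dif_pos (by omega), toL_len]
    ring

theorem gs_pm {N L : ℕ} (b : Fin N → Fin L → Letter m) (k : ℕ) :
    gs (fun c : Fin L → Letter m => pm m (toL c)) 1 b k = pm m (seg (bl b) 0 k) := by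
  induction k with
  | zero => rfl
  | succ k ih =>
    rw [gs, ih, seg_add, seg_one, pm_append, Nat.zero_add]
    congr 1
    unfold bl
    by_cases h : k < N
    · rw [dif_pos h, dif_pos h]
    · rw [dif_neg h, dif_neg h]
      rfl

theorem flat_seg (f : ℕ → List (Bool × ℕ)) (N : ℕ) : ∀ a,
    (List.ofFn (fun k : Fin N => f (a + k))).flatten = seg f a N := by
  induction N with
  | zero => intro a; simp [seg]
  | succ N ih =>
    intro a
    rw [List.ofFn_succ, List.flatten_cons, seg, ← ih (a + 1)]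
    congr 3
    funext k
    simp only [Fin.val_succ]
    congr 1
    ring

/-- the word given by the blocks and the rest -/
def wrd {N L r : ℕ} {α : Type} (b : Fin N → Fin L → α) (ρ : Fin r → α) : Fin (N * L + r) → α :=
  Fin.append (fun s => b (finProdFinEquiv.symm s).1 (finProdFinEquiv.symm s).2) ρ

theorem toL_wrd {N L r : ℕ} (b : Fin N → Fin L → Letter m) (ρ : Fin r → Letter m) :
    toL (wrd b ρ) = seg (bl b) 0 N ++ toL ρ := by
  unfold wrd toL
  have h0 : ∀ (n n' : ℕ) (u : Fin n → Letter m) (v : Fin n' → Letter m),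
      (List.ofFn fun i => (((Fin.append u v i).1, ((Fin.append u v i).2 : ℕ)) : Bool × ℕ)) =
        (List.ofFn fun i => (((u i).1, ((u i).2 : ℕ)) : Bool × ℕ)) ++ List.ofFn fun i => (((v i).1, ((v i).2 : ℕ)) : Bool × ℕ) := by
    intro n n' u v
    rw [← List.ofFn_fin_append]
    congr 1
    funext i
    refine Fin.addCases (fun j => ?_) (fun j => ?_) i
    · rw [Fin.append_left, Fin.append_left]
    · rw [Fin.append_right, Fin.append_right]
  rw [h0]
  congr 1
  rw [List.ofFn_mul]
  have h1 := flat_seg (bl b) N 0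
  rw [← h1]
  congr 2
  funext k
  rw [Nat.zero_add, bl, dif_pos k.2]
  unfold toL
  congr 1
  funext l
  have h2 : (⟨(k : ℕ) * L + l, by
      calc (k : ℕ) * L + l < k * L + L := by omega
        _ = (k + 1) * L := by ring
        _ ≤ N * L := Nat.mul_le_mul_right _ k.2⟩ : Fin (N * L)) = finProdFinEquiv (k, l) := by
    ext
    simp only [finProdFinEquiv_apply_val]
    ring
  rw [h2, Equiv.symm_apply_apply]

/-- the place number `l` of the block number `k` -/
def plc {N L : ℕ} (r : ℕ) (k : Fin N) (l : Fin L) : Fin (N * L + r) := Fin.castAdd r (finProdFinEquiv (k, l))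

theorem sum_wrd {N L r : ℕ} {α : Type} [Fintype α] (q : Fin (N * L + r) → α → ℝ)
    (f : (Fin (N * L + r) → α) → Prop) [DecidablePred f] :
    ∑ w : Fin (N * L + r) → α, (if f w then ∏ s, q s (w s) else 0) =
      ∑ ρ : Fin r → α, (∏ s, q (Fin.natAdd (N * L) s) (ρ s)) * ∑ b : Fin N → Fin L → α,
        (if f (wrd b ρ) then ∏ k, ∏ l, q (plc r k l) (b k l) else 0) := by
  classical
  rw [← (Fin.appendEquiv (N * L) r).sum_comp, Fintype.sum_prod_type, Finset.sum_comm]
  refine Finset.sum_congr rfl fun ρ _ => ?_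
  rw [Finset.mul_sum, ← ((Equiv.arrowCongr finProdFinEquiv (Equiv.refl α)).sum_comp),
    ← ((Equiv.curry (Fin N) (Fin L) α).symm.sum_comp)]
  refine Finset.sum_congr rfl fun b _ => ?_
  have h1 : (Fin.appendEquiv (N * L) r) (((Equiv.arrowCongr finProdFinEquiv (Equiv.refl α)) ((Equiv.curry (Fin N) (Fin L) α).symm b)), ρ) =
    wrd b ρ := rfl
  rw [h1]
  have h2 : ∏ s, q s (wrd b ρ s) = (∏ k, ∏ l, q (plc r k l) (b k l)) * ∏ s, q (Fin.natAdd (N * L) s) (ρ s) := by
    unfold wrd plc
    rw [Fin.prod_univ_add]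
    congr 1
    · rw [← finProdFinEquiv.prod_comp, Fintype.prod_prod_type]
      refine Finset.prod_congr rfl fun k _ => Finset.prod_congr rfl fun l _ => ?_
      rw [Fin.append_left, Equiv.symm_apply_apply]
    · refine Finset.prod_congr rfl fun s _ => ?_
      rw [Fin.append_right]
  rw [h2]
  split_ifs
  · ring
  · ring

/-! ### the contents of the active blocks -/

theorem ex_pre (hm : 2 ≤ m) (g : Equiv.Perm (Fin m)) : ∃ w : List (Bool × ℕ), Valid m w ∧ pm m w = g := by
  obtain ⟨l, w, hw⟩ := reach hm g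
  exact ⟨toL w, valid_toL w, by rw [pm_toL, hw]⟩

/-- a word with the inverse permutation -/
noncomputable def pre (hm : 3 ≤ m) (g : Equiv.Perm (Fin m)) : List (Bool × ℕ) :=
  (ex_pre (by omega : 2 ≤ m) g⁻¹).choose

theorem pre_valid (hm : 3 ≤ m) (g : Equiv.Perm (Fin m)) : Valid m (pre hm g) :=
  (ex_pre (by omega : 2 ≤ m) g⁻¹).choose_spec.1

theorem pm_pre (hm : 3 ≤ m) (g : Equiv.Perm (Fin m)) : pm m (pre hm g) = g⁻¹ :=
  (ex_pre (by omega : 2 ≤ m) g⁻¹).choose_spec.2

/-- the maximal length -/
noncomputable def ll (hm : 3 ≤ m) : ℕ := univ.sup fun g => (pre hm g).length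

theorem pre_len (hm : 3 ≤ m) (g : Equiv.Perm (Fin m)) : (pre hm g).length ≤ ll hm :=
  Finset.le_sup (f := fun g => (pre hm g).length) (Finset.mem_univ g)

/-- the second half of the block -/
noncomputable def post (hm : 3 ≤ m) (g : Equiv.Perm (Fin m)) : List (Bool × ℕ) :=
  (pre hm g).reverse ++ List.replicate (2 * (ll hm - (pre hm g).length)) (true, 0)

theorem post_valid (hm : 3 ≤ m) (g : Equiv.Perm (Fin m)) : Valid m (post hm g) := by
  refine Valid.app ?_ ?_
  · intro x hx
    exact pre_valid hm g x (List.mem_reverse.1 hx)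
  · intro x hx
    rw [(List.mem_replicate.1 hx).2]
    show 0 + 1 < m
    omega

theorem sw_inv (i : ℕ) : (sw m i)⁻¹ = sw m i := by
  rw [inv_eq_iff_mul_eq_one, sw_sq]

theorem pm_reverse (w : List (Bool × ℕ)) : pm m w.reverse = (pm m w)⁻¹ := by
  induction w with
  | nil => simp [pm_nil]
  | cons x w ih =>
    rw [List.reverse_cons, pm_append, ih, pm_cons, pm_cons, pm_nil, mul_one, mul_inv_rev, sw_inv]

theorem pm_replicate (k : ℕ) : pm m (List.replicate (2 * k) (true, 0)) = 1 := by
  induction k with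
  | zero => simp [pm_nil]
  | succ k ih =>
    rw [show 2 * (k + 1) = 2 * k + 1 + 1 by ring, List.replicate_succ, List.replicate_succ, pm_cons, pm_cons, ih,
      mul_one, sw_sq]

theorem pm_post (hm : 3 ≤ m) (g : Equiv.Perm (Fin m)) : pm m (post hm g) = g := by
  unfold post
  rw [pm_append, pm_reverse, pm_pre, pm_replicate, inv_inv, mul_one]

/-- the content of an active block -/
noncomputable def cont (hm : 3 ≤ m) (g : Equiv.Perm (Fin m)) (z : Bool × Bool) : List (Bool × ℕ) :=
  pre hm g ++ Bw 0 1 z.1 ++ Bw 1 0 z.2 ++ post hm g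

/-- the length of the blocks -/
noncomputable def bL (hm : 3 ≤ m) : ℕ := 8 + 2 * ll hm

theorem cont_len (hm : 3 ≤ m) (g : Equiv.Perm (Fin m)) (z : Bool × Bool) : (cont hm g z).length = bL hm := by
  have := pre_len hm g
  unfold cont post bL
  simp only [List.length_append, Bw_len, List.length_reverse, List.length_replicate]
  omega

theorem cont_valid (hm : 3 ≤ m) (g : Equiv.Perm (Fin m)) (z : Bool × Bool) : Valid m (cont hm g z) :=
  (((pre_valid hm g).app (Bw_valid (by omega) (by omega) _)).app (Bw_valid (by omega) (by omega) _)).app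
    (post_valid hm g)

theorem pm_cont (hm : 3 ≤ m) (g : Equiv.Perm (Fin m)) (z : Bool × Bool) : pm m (cont hm g z) = 1 := by
  unfold cont
  rw [pm_append, pm_append, pm_append, pm_pre, pm_Bw, pm_Bw, pm_post]
  simp

theorem Bw_inj {i j : ℕ} (h : i ≠ j) {x x' : Bool} (hx : Bw i j x = Bw i j x') : x = x' := by
  unfold Bw at hx
  cases x <;> cases x' <;> simp_all

theorem cont_inj (hm : 3 ≤ m) (g : Equiv.Perm (Fin m)) : Function.Injective (cont hm g) := by
  rintro ⟨x, y⟩ ⟨x', y'⟩ h
  unfold cont at h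
  have h1 := List.append_cancel_right h
  have h2 := List.append_inj h1 (by simp [Bw_len])
  have h3 := List.append_cancel_left h2.1
  have e1 : x = x' := Bw_inj (by omega) h3
  have e2 : y = y' := Bw_inj (by omega) h2.2
  rw [e1, e2]

theorem ex_toL {L : ℕ} (w : List (Bool × ℕ)) (hw : Valid m w) (hL : w.length = L) :
    ∃ c : Fin L → Letter m, toL c = w := by
  subst hL
  refine ⟨fun s => ((w[s]).1, ⟨(w[s]).2, by have := hw (w[s]) (List.getElem_mem _); omega⟩), ?_⟩
  apply List.ext_getElem
  · rw [toL_len]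
  · intro s h1 h2
    rw [toL_get]
    rfl

/-- the content as a block -/
noncomputable def actB (hm : 3 ≤ m) (g : Equiv.Perm (Fin m)) (z : Bool × Bool) : Fin (bL hm) → Letter m :=
  (ex_toL (cont hm g z) (cont_valid hm g z) (cont_len hm g z)).choose

theorem toL_actB (hm : 3 ≤ m) (g : Equiv.Perm (Fin m)) (z : Bool × Bool) : toL (actB hm g z) = cont hm g z :=
  (ex_toL (cont hm g z) (cont_valid hm g z) (cont_len hm g z)).choose_spec

theorem actB_inj (hm : 3 ≤ m) (g : Equiv.Perm (Fin m)) : Function.Injective (actB hm g) := by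
  intro z z' h
  apply cont_inj hm g
  rw [← toL_actB, ← toL_actB, h]

/-- the weights of the letters -/
noncomputable def qq (q : Letter m → ℝ) (x : Bool × ℕ) : ℝ := if h : x.2 < m - 1 then q (x.1, ⟨x.2, h⟩) else 0

theorem prod_toL (q : Letter m → ℝ) {n : ℕ} (c : Fin n → Letter m) : ∏ l, q (c l) = ((toL c).map (qq q)).prod := by
  unfold toL
  rw [List.map_ofFn, List.prod_ofFn]
  refine Finset.prod_congr rfl fun l _ => ?_
  simp only [Function.comp_apply, qq]
  rw [dif_pos (c l).2.2]

theorem Bw_prod (q : Letter m → ℝ) (i j : ℕ) (x x' : Bool) :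
    ((Bw i j x).map (qq q)).prod = ((Bw i j x').map (qq q)).prod := by
  have h : ∀ x, ((Bw i j x).map (qq q)).prod = ((Bw i j true).map (qq q)).prod := by
    intro x
    unfold Bw
    cases x
    · simp only [Bool.false_eq_true, if_false, if_true, List.map_cons, List.map_nil, List.prod_cons, List.prod_nil]
      ring
    · rfl
  rw [h, h x']

theorem actB_weight (hm : 3 ≤ m) (q : Letter m → ℝ) (g : Equiv.Perm (Fin m)) (z z' : Bool × Bool) :
    ∏ l, q (actB hm g z l) = ∏ l, q (actB hm g z' l) := by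
  rw [prod_toL, prod_toL, toL_actB, toL_actB]
  unfold cont
  simp only [List.map_append, List.prod_append]
  rw [Bw_prod q 0 1 z.1 z'.1, Bw_prod q 1 0 z.2 z'.2]

end Pool.Agent.T6.H96.VB
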