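import Pool.Agent.T6.H96.VB.Val

/-!
# The exchange of the two outer letters of `σ_i^{±1} σ_j^t σ_j^t σ_i^{∓1}`
-/

set_option autoImplicit false

namespace Pool.Agent.T6.H96.VB

open Finset LaurentPolynomial Pool.Agent.H891R2.Jones Pool.Agent.W639.RB Pool.Agent.H832R3.VJ
open Pool.Agent.Y463.BS (Strand)
open Pool.Agent.H953R3.Q2 (m_sum m_one T_mul0 T_mul1 T_mul2 mul0 mul1 mul2 m0_T)
open Pool.Agent.H832R3.VJ.V7 (moment_C_mul moment_term)

variable {m : ℕ}

/-- at `A = 1` the signs of the letters do not matter -/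
theorem m0_idx (hm : 0 < m) (O : Outer m) (w : List (Bool × ℕ)) : ∀ (w' p : List (Bool × ℕ)), 
    Valid m w → Valid m w' → Valid m p → w.map Prod.snd = w'.map Prod.snd → 
      m0 O (p ++ w) = m0 O (p ++ w') := by
  induction w with
  | nil =>
    intro w' p _ _ _ h
    have : w' = [] := by
      rw [List.map_nil] at h
      exact List.map_eq_nil_iff.1 h.symm
    rw [this]
  | cons x w ih =>
    intro w' p hw hw' hp h
    rcases w' with _ | ⟨y, w'⟩
    · simp at h
    rw [List.map_cons, List.map_cons, List.cons.injEq] at h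
    obtain ⟨h1, h2⟩ := h
    have hx : x.2 + 1 < m := hw x List.mem_cons_self
    have hw1 : Valid m w := fun z hz => hw z (List.mem_cons_of_mem _ hz)
    have hw1' : Valid m w' := fun z hz => hw' z (List.mem_cons_of_mem _ hz)
    have h3 : m0 O (p ++ [x] ++ w) = m0 O (p ++ [y] ++ w) := by
      obtain ⟨s, i⟩ := x
      obtain ⟨t, j⟩ := y
      simp only at h1 hx
      subst h1
      have h4 := m0_flip hm O p w hp hw1 hx
      cases s <;> cases t
      · rfl
      · exact h4.symm
      · exact h4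
      · rfl
    have h5 := ih w' (p ++ [y]) hw1 hw1' (hp.app (Valid.cons (hw' y List.mem_cons_self) Valid.nil)) h2
    have e1 : p ++ x :: w = p ++ [x] ++ w := by simp
    have e2 : p ++ y :: w' = p ++ [y] ++ w' := by simp
    rw [e1, e2, h3, h5]

theorem pow_cases (k l : ℕ) (h : (-2 : ℤ) ^ k + (-2) ^ l = 5 ∨ (-2 : ℤ) ^ k + (-2) ^ l = -1) :
    |(-2 : ℤ) ^ k - (-2) ^ l| = 3 := by
  rcases Nat.eq_zero_or_pos k with rfl | hk
  · rw [pow_zero] at h ⊢
    rcases h with h | h
    · have : (-2 : ℤ) ^ l = 4 := by linarith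
      rw [this]; norm_num
    · have : (-2 : ℤ) ^ l = -2 := by linarith
      rw [this]; norm_num
  · rcases Nat.eq_zero_or_pos l with rfl | hl
    · rw [pow_zero] at h ⊢
      rcases h with h | h
      · have : (-2 : ℤ) ^ k = 4 := by linarith
        rw [this]; norm_num
      · have : (-2 : ℤ) ^ k = -2 := by linarith
        rw [this]; norm_num
    · exfalso
      obtain ⟨k', rfl⟩ := Nat.exists_eq_add_of_lt hk
      obtain ⟨l', rfl⟩ := Nat.exists_eq_add_of_lt hl
      rw [pow_succ, pow_succ] at h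
      omega

section loc

variable (hm : 0 < m) (O : Outer m) (a b : List (Bool × ℕ)) (ha : Valid m a) (hb : Valid m b)
  {i j : ℕ} (hi : i + 1 < m) (hj : j + 1 < m)

include hm ha hb hi hj

theorem m0_four (s₁ s₂ s₃ s₄ : Bool) : 
    m0 O (a ++ [(s₁, i), (s₂, j), (s₃, j), (s₄, i)] ++ b) = m0 O (a ++ [] ++ b) := by
  have v2 : Valid m ([(true, i)] : List (Bool × ℕ)) := Valid.cons hi Valid.nil
  have h1 : m0 O ([] ++ (a ++ [(s₁, i), (s₂, j), (s₃, j), (s₄, i)] ++ b)) = 
      m0 O ([] ++ ((a ++ [(true, i)]) ++ [(true, j), (true, j)] ++ ([(true, i)] ++ b))) := by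
    apply m0_idx hm O
    · exact (ha.app (Valid.cons hi (Valid.cons hj (Valid.cons hj (Valid.cons hi Valid.nil))))).app hb
    · exact ((ha.app v2).app (Valid.cons hj (Valid.cons hj Valid.nil))).app (v2.app hb)
    · exact Valid.nil
    · simp
  rw [List.nil_append, List.nil_append] at h1
  rw [h1, (m_sq hm O (a ++ [(true, i)]) ([(true, i)] ++ b) (ha.app v2) (v2.app hb) hj).1]
  have e : (a ++ [(true, i)]) ++ [] ++ ([(true, i)] ++ b) = a ++ [(true, i), (true, i)] ++ b := by simp
  rw [e, (m_sq hm O a b ha hb hi).1]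

variable (hij : i + 1 = j ∨ j + 1 = i)

include hij

/-- the values for the two products of the transpositions -/
theorem sum_val (h : K O (a ++ [] ++ b)) : ∃ k l : ℕ, 
    m0 O (a ++ [(true, j), (true, i)] ++ b) = m0 O (a ++ [] ++ b) * (-2) ^ k ∧ 
    m0 O (a ++ [(true, i), (true, j)] ++ b) = m0 O (a ++ [] ++ b) * (-2) ^ l ∧ 
    |(-2 : ℤ) ^ k - (-2) ^ l| = 3 ∧ m0 O (a ++ [] ++ b) * m0 O (a ++ [] ++ b) = 1 := by
  have v1 : Valid m ([(true, i)] : List (Bool × ℕ)) := Valid.cons hi Valid.nil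
  have v1' : Valid m ([(false, i)] : List (Bool × ℕ)) := Valid.cons hi Valid.nil
  have v2 : Valid m ([(true, i), (true, i)] : List (Bool × ℕ)) := Valid.cons hi v1
  have v3 : Valid m ([(true, j)] : List (Bool × ℕ)) := Valid.cons hj Valid.nil
  have v4 : Valid m ([(true, j), (true, j)] : List (Bool × ℕ)) := Valid.cons hj v3
  have v5 : Valid m ([(true, i), (true, j), (true, j), (false, i)] : List (Bool × ℕ)) := 
    Valid.cons hi (Valid.cons hj (Valid.cons hj v1'))
  have v0 : Valid m (a ++ [] ++ b) := (ha.app Valid.nil).app hb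
  obtain ⟨f1, f2, f3⟩ := K_facts hm v0 h
  set s := m0 O (a ++ [] ++ b) with hs
  have hss : s * s = 1 := by
    rw [f1, ← pow_add]
    exact Even.neg_one_pow ⟨_, rfl⟩
  set w0 := owr (draw O (a ++ [] ++ b)) with hw0
  set U := ac a (pat O.up) with hU
  have hU' : U = pat (draw O a).up := (draw_writhe a O ha).2.symm
  have hUi : U i = 1 ∨ U i = -1 := by rw [hU']; exact pat_sq _ _ (by omega)
  have hUj : U j = 1 ∨ U j = -1 := by rw [hU']; exact pat_sq _ _ (by omega)
  have hUi' : U (i + 1) = 1 ∨ U (i + 1) = -1 := by rw [hU']; exact pat_sq _ _ (by omega)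
  have hUj' : U (j + 1) = 1 ∨ U (j + 1) = -1 := by rw [hU']; exact pat_sq _ _ (by omega)
  -- the letter i
  have p1 : 4 * m0 O (a ++ [(true, i)] ++ b) = s * (6 * (U i * U (i + 1)) + 2) := by
    obtain ⟨q1, q2⟩ := m_sq hm O a b ha hb hi
    obtain ⟨q3, q4⟩ := Kp hm O a b ha hb v2 (fun U => ac_two true true U) q1
    obtain ⟨g1, g2, g3⟩ := K_facts hm ((ha.app v2).app hb) (q3.1 h)
    rw [q4, q1, cw_two, q2, f3, ← hs, ← hw0, ← hU] at g3
    linarith
  have p2 : 4 * m0 O (a ++ [(true, j)] ++ b) = s * (6 * (U j * U (j + 1)) + 2) := by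
    obtain ⟨q1, q2⟩ := m_sq hm O a b ha hb hj
    obtain ⟨q3, q4⟩ := Kp hm O a b ha hb v4 (fun U => ac_two true true U) q1
    obtain ⟨g1, g2, g3⟩ := K_facts hm ((ha.app v4).app hb) (q3.1 h)
    rw [q4, q1, cw_two, q2, f3, ← hs, ← hw0, ← hU] at g3
    linarith
  have p3 : 4 * m0 O (a ++ [(true, i), (true, j), (false, i)] ++ b) = 
      s * (6 * ((U i * U (i + 1)) * (U j * U (j + 1))) + 2) := by
    have q1 := m0_four hm O a b ha hb hi hj true true true false
    obtain ⟨q3, q4⟩ := Kp hm O a b ha hb v5 (fun U => ac_four _ _ _ _ _ _ U) q1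
    obtain ⟨g1, g2, g3⟩ := K_facts hm ((ha.app v5).app hb) (q3.1 h)
    have c1 := cw_four true true hij U hUi hUj
    rw [Bool.not_true] at c1
    rw [q4, q1, c1, ← hs, ← hw0] at g3
    have r1 := (m_sq hm O (a ++ [(true, i)]) ([(false, i)] ++ b) (ha.app v1) (v1'.app hb) hj).2
    have e1 : (a ++ [(true, i)]) ++ [(true, j), (true, j)] ++ ([(false, i)] ++ b) = 
      a ++ [(true, i), (true, j), (true, j), (false, i)] ++ b := by simp
    have e2 : (a ++ [(true, i)]) ++ [] ++ ([(false, i)] ++ b) = a ++ [(true, i), (false, i)] ++ b := by simp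
    have e3 : (a ++ [(true, i)]) ++ [(true, j)] ++ ([(false, i)] ++ b) = 
      a ++ [(true, i), (true, j), (false, i)] ++ b := by simp
    have e4 : m0 O (a ++ [(true, i), (false, i)] ++ b) = s := by
      rw [hs]; unfold m0; rw [R2 hm O a b ha hb hi]
    have e5 : m1 O (a ++ [(true, i), (false, i)] ++ b) = m1 O (a ++ [] ++ b) := by
      unfold m1; rw [R2 hm O a b ha hb hi]
    rw [e1, e2, e3, e4, e5, f3] at r1
    rw [r1] at g3
    simp only [if_true] at g3
    linarith
  have p4 : m0 O (a ++ [(true, i), (true, j), (false, i)] ++ b) = 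
      s - (m0 O (a ++ [(true, i)] ++ b) + m0 O (a ++ [(true, j)] ++ b)) + 
      m0 O (a ++ [(true, j), (true, i)] ++ b) + m0 O (a ++ [(true, i), (true, j)] ++ b) := by
    have r := congrArg (moment 0) (R4 hm O a b ha hb hi hj hij)
    rw [moment_add, moment_add, moment_sub, T_mul0, T_mul0, T_mul0, T_mul0, moment_add] at r
    exact r
  have hv : ∀ x y : ℕ, x + 1 < m → y + 1 < m → ∃ k : ℕ, 
      m0 O (a ++ [(true, x), (true, y)] ++ b) = s * (-2) ^ k := by
    intro x y hx hy
    have v6 : Valid m ([(true, x), (true, y)] : List (Bool × ℕ)) := Valid.cons hx (Valid.cons hy Valid.nil)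
    obtain ⟨_, q⟩ := m0_val hm O (a ++ [(true, x), (true, y)] ++ b) ((ha.app v6).app hb) _ (K_good h)
    refine ⟨Nat.card (Quot (Strand (draw O (a ++ [(true, x), (true, y)] ++ b)).close)) - 1, q.trans ?_⟩
    congr 1
    rw [f1]
    have : O.crossings.length + (a ++ [(true, x), (true, y)] ++ b).length = 
        O.crossings.length + (a ++ [] ++ b).length + 2 := by
      simp only [List.length_append, List.length_cons, List.length_nil]
      omega
    rw [this, pow_add]
    norm_num
  obtain ⟨k, hk⟩ := hv j i hj hi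
  obtain ⟨l, hl⟩ := hv i j hi hj
  refine ⟨k, l, hk, hl, pow_cases k l ?_, hss⟩
  rw [hk, hl] at p4
  have p5 : s * (4 * ((-2) ^ k + (-2) ^ l)) = 
      s * (6 * (U i * U (i + 1) + U j * U (j + 1) + (U i * U (i + 1)) * (U j * U (j + 1))) + 2) := by
    linarith
  have hs0 : s ≠ 0 := by
    intro h0
    rw [h0] at hss
    norm_num at hss
  have p6 := mul_left_cancel₀ hs0 p5
  have h1 : U i * U (i + 1) = 1 ∨ U i * U (i + 1) = -1 := by
    rcases hUi with h | h <;> rcases hUi' with h' | h' <;> rw [h, h'] <;> norm_num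
  have h2 : U j * U (j + 1) = 1 ∨ U j * U (j + 1) = -1 := by
    rcases hUj with h | h <;> rcases hUj' with h' | h' <;> rw [h, h'] <;> norm_num
  rcases h1 with h1 | h1 <;> rcases h2 with h2 | h2 <;> rw [h1, h2] at p6
  · left; linarith
  · right; linarith
  · right; linarith
  · right; linarith

/-- the difference of the brackets -/
theorem diff_Br (t : Bool) : 
    (moment 0 (Br O (a ++ [(true, i), (t, j), (t, j), (false, i)] ++ b) - 
      Br O (a ++ [(false, i), (t, j), (t, j), (true, i)] ++ b)) = 0) ∧ 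
    (moment 1 (Br O (a ++ [(true, i), (t, j), (t, j), (false, i)] ++ b) - 
      Br O (a ++ [(false, i), (t, j), (t, j), (true, i)] ++ b)) = 0) ∧ 
    (moment 2 (Br O (a ++ [(true, i), (t, j), (t, j), (false, i)] ++ b) - 
      Br O (a ++ [(false, i), (t, j), (t, j), (true, i)] ++ b)) = 
        (if t then 32 else -32) * (m0 O (a ++ [(true, j), (true, i)] ++ b) - 
          m0 O (a ++ [(true, i), (true, j)] ++ b))) := by
  have v1 : Valid m ([(true, i)] : List (Bool × ℕ)) := Valid.cons hi Valid.nil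
  have v1' : Valid m ([(false, i)] : List (Bool × ℕ)) := Valid.cons hi Valid.nil
  have e2 : (a ++ [(true, i)]) ++ [] ++ ([(false, i)] ++ b) = a ++ [(true, i), (false, i)] ++ b := by simp
  have e2' : (a ++ [(false, i)]) ++ [] ++ ([(true, i)] ++ b) = a ++ [(false, i), (true, i)] ++ b := by simp
  set Δ := Br O (a ++ [(true, j), (true, i)] ++ b) - Br O (a ++ [(true, i), (true, j)] ++ b) with hΔ
  have hm0 : m0 O (a ++ [(true, j), (true, i)] ++ b) - m0 O (a ++ [(true, i), (true, j)] ++ b) = 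
    moment 0 Δ := by
    rw [hΔ, moment_sub]; rfl
  rw [hm0]
  have g2 : Br O (a ++ [(true, i), (true, j), (false, i)] ++ b) - 
      Br O (a ++ [(false, i), (true, j), (true, i)] ++ b) = (T 3 - T (-1)) * Δ := by
    rw [R4 hm O a b ha hb hi hj hij, R4' hm O a b ha hb hi hj hij, hΔ]
    ring
  clear_value Δ
  have c0 : ∀ k : ℤ, moment 0 (T k : ℤ[T;T⁻¹]) = 1 := m0_T
  have c1 : ∀ k : ℤ, moment 1 (T k : ℤ[T;T⁻¹]) = k := by
    intro k
    have h : (T k : ℤ[T;T⁻¹]) = C 1 * T k := by rw [map_one, one_mul]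
    rw [h, moment_term]
    ring
  have d0 : moment 0 ((T 3 - T (-1)) * Δ : ℤ[T;T⁻¹]) = 0 := by
    rw [mul0, moment_sub, c0, c0]; ring
  have d1 : moment 1 ((T 3 - T (-1)) * Δ : ℤ[T;T⁻¹]) = 4 * moment 0 Δ := by
    rw [mul1, moment_sub, moment_sub, c0, c0, c1, c1]; ring
  cases t
  · -- t = false
    have e1 : (a ++ [(true, i)]) ++ [(false, j), (false, j)] ++ ([(false, i)] ++ b) = 
      a ++ [(true, i), (false, j), (false, j), (false, i)] ++ b := by simp
    have e3 : (a ++ [(true, i)]) ++ [(false, j)] ++ ([(false, i)] ++ b) = 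
      a ++ [(true, i), (false, j), (false, i)] ++ b := by simp
    have e4 : (a ++ [(true, i)]) ++ [(true, j)] ++ ([(false, i)] ++ b) = 
      a ++ [(true, i), (true, j), (false, i)] ++ b := by simp
    have e1' : (a ++ [(false, i)]) ++ [(false, j), (false, j)] ++ ([(true, i)] ++ b) = 
      a ++ [(false, i), (false, j), (false, j), (true, i)] ++ b := by simp
    have e3' : (a ++ [(false, i)]) ++ [(false, j)] ++ ([(true, i)] ++ b) = 
      a ++ [(false, i), (false, j), (true, i)] ++ b := by simp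
    have e4' : (a ++ [(false, i)]) ++ [(true, j)] ++ ([(true, i)] ++ b) = 
      a ++ [(false, i), (true, j), (true, i)] ++ b := by simp
    have r1 := R1n hm O (a ++ [(true, i)]) ([(false, i)] ++ b) (ha.app v1) (v1'.app hb) hj
    have r1' := R1n hm O (a ++ [(false, i)]) ([(true, i)] ++ b) (ha.app v1') (v1.app hb) hj
    rw [e1, e2, e3, R2 hm O a b ha hb hi] at r1
    rw [e1', e2', e3', R2' hm O a b ha hb hi] at r1'
    have r3 := R3 hm O (a ++ [(true, i)]) ([(false, i)] ++ b) (ha.app v1) (v1'.app hb) hj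
    have r3' := R3 hm O (a ++ [(false, i)]) ([(true, i)] ++ b) (ha.app v1') (v1.app hb) hj
    rw [e2, e3, e4, R2 hm O a b ha hb hi] at r3
    rw [e2', e3', e4', R2' hm O a b ha hb hi] at r3'
    set Y := Br O (a ++ [(true, i), (false, j), (false, i)] ++ b) - 
      Br O (a ++ [(false, i), (false, j), (true, i)] ++ b) with hY
    have hu : Br O (a ++ [(true, i), (false, j), (false, j), (false, i)] ++ b) - 
        Br O (a ++ [(false, i), (false, j), (false, j), (true, i)] ++ b) = (T (-1) - T 3) * Y := by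
      rw [r1, r1', hY]; ring
    have hY2 : T (-1) * Y = T 1 * ((T 3 - T (-1)) * Δ) := by
      rw [← g2, hY]
      linear_combination r3' - r3
    have y0 := congrArg (moment 0) hY2
    have y1 := congrArg (moment 1) hY2
    rw [T_mul0, T_mul0, d0] at y0
    rw [T_mul1, T_mul1, d0, d1, y0] at y1
    have c2 : moment 0 (T (-1) - T 3 : ℤ[T;T⁻¹]) = 0 := by rw [moment_sub, c0, c0]; ring
    have c3 : moment 1 (T (-1) - T 3 : ℤ[T;T⁻¹]) = -4 := by rw [moment_sub, c1, c1]; ring
    rw [hu]
    refine ⟨?_, ?_, ?_⟩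
    · rw [mul0, c2]; ring
    · rw [mul1, c2, y0]; ring
    · rw [mul2, c2, c3, y0]
      simp only [Bool.false_eq_true, if_false]
      linarith
  · -- t = true
    have e1 : (a ++ [(true, i)]) ++ [(true, j), (true, j)] ++ ([(false, i)] ++ b) = 
      a ++ [(true, i), (true, j), (true, j), (false, i)] ++ b := by simp
    have e3 : (a ++ [(true, i)]) ++ [(true, j)] ++ ([(false, i)] ++ b) = 
      a ++ [(true, i), (true, j), (false, i)] ++ b := by simp
    have e1' : (a ++ [(false, i)]) ++ [(true, j), (true, j)] ++ ([(true, i)] ++ b) = 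
      a ++ [(false, i), (true, j), (true, j), (true, i)] ++ b := by simp
    have e3' : (a ++ [(false, i)]) ++ [(true, j)] ++ ([(true, i)] ++ b) = 
      a ++ [(false, i), (true, j), (true, i)] ++ b := by simp
    have r1 := R1 hm O (a ++ [(true, i)]) ([(false, i)] ++ b) (ha.app v1) (v1'.app hb) hj
    have r1' := R1 hm O (a ++ [(false, i)]) ([(true, i)] ++ b) (ha.app v1') (v1.app hb) hj
    rw [e1, e2, e3, R2 hm O a b ha hb hi] at r1
    rw [e1', e2', e3', R2' hm O a b ha hb hi] at r1'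
    have hu : Br O (a ++ [(true, i), (true, j), (true, j), (false, i)] ++ b) - 
        Br O (a ++ [(false, i), (true, j), (true, j), (true, i)] ++ b) = 
          (T 1 - T (-3)) * ((T 3 - T (-1)) * Δ) := by
      rw [r1, r1', ← g2]; ring
    have c2 : moment 0 (T 1 - T (-3) : ℤ[T;T⁻¹]) = 0 := by rw [moment_sub, c0, c0]; ring
    have c3 : moment 1 (T 1 - T (-3) : ℤ[T;T⁻¹]) = 4 := by rw [moment_sub, c1, c1]; ring
    rw [hu]
    refine ⟨?_, ?_, ?_⟩
    · rw [mul0, c2]; ring
    · rw [mul1, c2, d0]; ring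
    · rw [mul2, c2, c3, d0, d1]
      simp only [if_true]
      ring

/-- **the exchange**: it changes the invariant of order two of a knot by `± 96` -/
theorem exchange (t : Bool) : 
    (K O (a ++ [(true, i), (t, j), (t, j), (false, i)] ++ b) ↔ K O (a ++ [] ++ b)) ∧ 
    (K O (a ++ [(false, i), (t, j), (t, j), (true, i)] ++ b) ↔ K O (a ++ [] ++ b)) ∧ 
    (K O (a ++ [] ++ b) → 
      F O (a ++ [(true, i), (t, j), (t, j), (false, i)] ++ b) - 
        F O (a ++ [(false, i), (t, j), (t, j), (true, i)] ++ b) = 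
          (if t then 32 else -32) * (m0 O (a ++ [] ++ b) * (m0 O (a ++ [(true, j), (true, i)] ++ b) - 
            m0 O (a ++ [(true, i), (true, j)] ++ b))) ∧ 
      |m0 O (a ++ [] ++ b) * (m0 O (a ++ [(true, j), (true, i)] ++ b) - 
            m0 O (a ++ [(true, i), (true, j)] ++ b))| = 3) := by
  have v5 : Valid m ([(true, i), (t, j), (t, j), (false, i)] : List (Bool × ℕ)) := 
    Valid.cons hi (Valid.cons hj (Valid.cons hj (Valid.cons hi Valid.nil)))
  have v6 : Valid m ([(false, i), (t, j), (t, j), (true, i)] : List (Bool × ℕ)) := 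
    Valid.cons hi (Valid.cons hj (Valid.cons hj (Valid.cons hi Valid.nil)))
  have q1 := m0_four hm O a b ha hb hi hj true t t false
  have q1' := m0_four hm O a b ha hb hi hj false t t true
  obtain ⟨q3, q4⟩ := Kp hm O a b ha hb v5 (fun U => ac_four _ _ _ _ _ _ U) q1
  obtain ⟨q3', q4'⟩ := Kp hm O a b ha hb v6 (fun U => ac_four _ _ _ _ _ _ U) q1'
  refine ⟨q3.symm, q3'.symm, fun h => ?_⟩
  set U := ac a (pat O.up) with hU
  have hU' : U = pat (draw O a).up := (draw_writhe a O ha).2.symm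
  have hUi : U i = 1 ∨ U i = -1 := by rw [hU']; exact pat_sq _ _ (by omega)
  have hUj : U j = 1 ∨ U j = -1 := by rw [hU']; exact pat_sq _ _ (by omega)
  have c1 := cw_four true t hij U hUi hUj
  have c2 := cw_four false t hij U hUi hUj
  rw [Bool.not_true] at c1
  rw [Bool.not_false] at c2
  have hw : owr (draw O (a ++ [(true, i), (t, j), (t, j), (false, i)] ++ b)) = 
      owr (draw O (a ++ [(false, i), (t, j), (t, j), (true, i)] ++ b)) := by
    rw [q4, q4', c1, c2]
  obtain ⟨k, l, hk, hl, h3, h4⟩ := sum_val hm O a b ha hb hi hj hij h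
  obtain ⟨g1, g2, g3⟩ := K_facts hm ((ha.app v5).app hb) (q3.1 h)
  rw [q1] at g2
  obtain ⟨z0, z1, z2⟩ := diff_Br hm O a b ha hb hi hj hij t
  constructor
  · unfold F
    rw [fPoly_eq, fPoly_eq, ← hw, moment_C_mul, moment_C_mul, ← mul_sub, ← moment_sub, ← mul_sub, 
      T_mul2, z0, z1, z2, g2]
    ring
  · rw [hk, hl]
    have : m0 O (a ++ [] ++ b) * (m0 O (a ++ [] ++ b) * (-2) ^ k - m0 O (a ++ [] ++ b) * (-2) ^ l) = 
        (-2) ^ k - (-2) ^ l := by
      linear_combination ((-2) ^ k - (-2) ^ l) * h4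
    rw [this, h3]

end loc

end Pool.Agent.T6.H96.VB
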