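import Pool.Agent.T6.H96.VB.Shape

/-!
# The invariant of order two and the exchange of two letters
-/

set_option autoImplicit false

namespace Pool.Agent.T6.H96.VB

open Finset LaurentPolynomial Pool.Agent.H891R2.Jones Pool.Agent.W639.RB Pool.Agent.H832R3.VJ
open Pool.Agent.Y463.BS (lp E X pts al cor Two W_eq m_bracket card_strand knot_moments count_pts_append
  Strand)
open Pool.Agent.H953R3.Q2 (m_sum m_one T_mul0 T_mul1 T_mul2 mul0 mul1 mul2)
open Pool.Agent.H832R3.VJ.V7 (moment_C_mul)

variable {m : ℕ}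

/-- the diagram with the word `w` in the box is a diagram of a knot -/
def K (O : Outer m) (w : List (Bool × ℕ)) : Prop := Pool.Agent.Y463.BS.IsKnot (draw O w).close

/-- the invariant of order two -/
noncomputable def F (O : Outer m) (w : List (Bool × ℕ)) : ℤ := moment 2 (draw O w).close.fPoly

/-- the value of the bracket at `A = 1` -/
noncomputable def m0 (O : Outer m) (w : List (Bool × ℕ)) : ℤ := moment 0 (Br O w)

/-- the derivative of the bracket at `A = 1` -/
noncomputable def m1 (O : Outer m) (w : List (Bool × ℕ)) : ℤ := moment 1 (Br O w)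

theorem m0_val (hm : 0 < m) (O : Outer m) (w : List (Bool × ℕ)) (hw : Valid m w) (v : Fin m → Bool)
    (hg : Good O v) : 0 < Nat.card (Quot (Strand (draw O w).close)) ∧ 
      m0 O w = (-1) ^ (O.crossings.length + w.length) * 
        (-2) ^ (Nat.card (Quot (Strand (draw O w).close)) - 1) := by
  have : Nonempty (draw O w).P := ⟨(draw O w).lower ⟨0, hm⟩⟩
  have h1 := (m_bracket (draw O w).close).1
  rw [W_eq _ _ (two_of_good (draw O w) v ((Good_draw_iff v w O).2 hg))] at h1
  have h2 : (draw O w).close.crossings.length = O.crossings.length + w.length :=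
    (Pool.Agent.W705.JR.draw_size w O hw).1
  rw [h2] at h1
  unfold Pool.Agent.Y463.BS.v at h1
  rw [← card_strand] at h1
  have h3 : 0 < Nat.card (Quot (Strand (draw O w).close)) := by
    have : Nonempty (Quot (Strand (draw O w).close)) := ⟨Quot.mk _ (Classical.arbitrary _)⟩
    exact Nat.card_pos
  refine ⟨h3, ?_⟩
  obtain ⟨c, hc⟩ : ∃ c, Nat.card (Quot (Strand (draw O w).close)) = c + 1 :=
    ⟨Nat.card (Quot (Strand (draw O w).close)) - 1, by omega⟩
  rw [hc] at h1 ⊢
  rw [Nat.add_sub_cancel]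
  have h4 : (-2 : ℤ) * m0 O w = -2 * ((-1) ^ (O.crossings.length + w.length) * (-2) ^ c) := by
    rw [show m0 O w = moment 0 (draw O w).close.bracket from rfl, h1]
    ring
  exact mul_left_cancel₀ (by norm_num) h4

theorem fPoly_eq (O : Outer m) (w : List (Bool × ℕ)) : (draw O w).close.fPoly = 
    C (if Even (owr (draw O w)) then 1 else -1) * (T (-3 * owr (draw O w)) * Br O w) := by
  unfold Diagram.fPoly
  rw [close_writhe]
  by_cases h : Even (owr (draw O w))
  · rw [if_pos h, if_pos h, map_one, one_mul, one_mul]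
    rfl
  · rw [if_neg h, if_neg h, map_neg, map_one]
    show -1 * T (-3 * owr (draw O w)) * Br O w = _
    ring

theorem K_good {O : Outer m} {w : List (Bool × ℕ)} (h : K O w) : Good O (draw O w).up :=
  (Good_draw_iff _ w O).1 ((closed_iff _).1 h.1)

theorem K_card {O : Outer m} {w : List (Bool × ℕ)} (h : K O w) :
    Nat.card (Quot (Strand (draw O w).close)) = 1 := h.2

theorem K_facts (hm : 0 < m) {O : Outer m} {w : List (Bool × ℕ)} (hw : Valid m w) (h : K O w) :
    m0 O w = (-1) ^ (O.crossings.length + w.length) ∧ 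
    (if Even (owr (draw O w)) then (1 : ℤ) else -1) = m0 O w ∧
    m1 O w = 3 * owr (draw O w) * m0 O w := by
  have : Nonempty (draw O w).P := ⟨(draw O w).lower ⟨0, hm⟩⟩
  obtain ⟨h1, h2⟩ := knot_moments (draw O w).close h
  have h3 := (m0_val hm O w hw _ (K_good h)).2
  rw [K_card h] at h3
  simp only [le_refl, Nat.sub_self, pow_zero, mul_one] at h3
  rw [fPoly_eq, moment_C_mul, T_mul0] at h1
  rw [fPoly_eq, moment_C_mul, T_mul1] at h2
  have h4 : (if Even (owr (draw O w)) then (1 : ℤ) else -1) * 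
      (if Even (owr (draw O w)) then (1 : ℤ) else -1) = 1 := by split_ifs <;> norm_num
  have h5 : (if Even (owr (draw O w)) then (1 : ℤ) else -1) ≠ 0 := by split_ifs <;> norm_num
  refine ⟨h3, ?_, ?_⟩
  · have : m0 O w = (if Even (owr (draw O w)) then (1 : ℤ) else -1) * 
      ((if Even (owr (draw O w)) then (1 : ℤ) else -1) * moment 0 (Br O w)) := by
      rw [← mul_assoc, h4, one_mul]; rfl
    rw [this, h1, mul_one]
  · have h6 := (mul_eq_zero.1 h2).resolve_left h5
    show moment 1 (Br O w) = 3 * owr (draw O w) * moment 0 (Br O w)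
    linarith

theorem K_of (hm : 0 < m) {O : Outer m} {w w' : List (Bool × ℕ)} (hw : Valid m w) (hw' : Valid m w')
    (h : K O w) (h1 : pat (draw O w').up = pat (draw O w).up) (h2 : m0 O w' ^ 2 = m0 O w ^ 2) : K O w' := by
  have h3 := K_good h
  have h4 : (draw O w').up = (draw O w).up := pat_inj h1
  refine ⟨?_, ?_⟩
  · have h5 : (draw O w').close.IsClosed := by
      rw [closed_iff, h4]
      exact (Good_draw_iff _ w' O).2 h3
    exact h5
  · obtain ⟨h5, h6⟩ := m0_val hm O w' hw' _ h3
    have h7 := (K_facts hm hw h).1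
    rw [h6, h7] at h2
    obtain ⟨c, hc⟩ : ∃ c, Nat.card (Quot (Strand (draw O w').close)) = c + 1 :=
      ⟨Nat.card (Quot (Strand (draw O w').close)) - 1, by omega⟩
    have h8 : ∀ k : ℕ, ((-1 : ℤ) ^ k) ^ 2 = 1 := by
      intro k
      rw [← pow_mul, mul_comm, pow_mul]
      norm_num
    rw [hc, Nat.add_sub_cancel, mul_pow, h8, h8, one_mul, ← pow_mul, mul_comm c 2, pow_mul] at h2
    norm_num at h2
    rw [hc]
    have h9 : c = 0 := by
      by_contra hne
      obtain ⟨d, rfl⟩ := Nat.exists_eq_succ_of_ne_zero hne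
      have : (1 : ℤ) ≤ 4 ^ d := one_le_pow₀ (by norm_num)
      rw [pow_succ] at h2
      linarith
    rw [h9]

section loc

variable (hm : 0 < m) (O : Outer m) (a b : List (Bool × ℕ)) (ha : Valid m a) (hb : Valid m b)
  {i j : ℕ} (hi : i + 1 < m)

include hm ha hb hi

theorem m0_flip : m0 O (a ++ [(true, i)] ++ b) = m0 O (a ++ [(false, i)] ++ b) := by
  have h := congrArg (moment 0) (R3 hm O a b ha hb hi)
  rw [moment_sub, T_mul0, T_mul0, sub_mul, moment_sub, T_mul0, T_mul0, sub_self] at h
  exact sub_eq_zero.1 h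

theorem m_sq : m0 O (a ++ [(true, i), (true, i)] ++ b) = m0 O (a ++ [] ++ b) ∧
    m1 O (a ++ [(true, i), (true, i)] ++ b) = 
      -2 * m0 O (a ++ [] ++ b) + m1 O (a ++ [] ++ b) + 4 * m0 O (a ++ [(true, i)] ++ b) := by
  have h := R1 hm O a b ha hb hi
  have h0 := congrArg (moment 0) h
  have h1 := congrArg (moment 1) h
  rw [moment_add, T_mul0, sub_mul, moment_sub, T_mul0, T_mul0] at h0
  rw [moment_add, T_mul1, sub_mul, moment_sub, T_mul1, T_mul1] at h1
  unfold m0 m1
  constructor
  · linarith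
  · linarith

omit hi in
theorem Kp {x : List (Bool × ℕ)} (hx : Valid m x) (hac : ∀ U, ac x U = U) 
    (h0 : m0 O (a ++ x ++ b) = m0 O (a ++ [] ++ b)) : 
    (K O (a ++ [] ++ b) ↔ K O (a ++ x ++ b)) ∧ 
      owr (draw O (a ++ x ++ b)) = owr (draw O (a ++ [] ++ b)) + cw x (ac a (pat O.up)) := by
  have hv : Valid m (a ++ x ++ b) := (ha.app hx).app hb
  have hv' : Valid m (a ++ [] ++ b) := (ha.app Valid.nil).app hb
  obtain ⟨h1, h2⟩ := draw_writhe (a ++ x ++ b) O hv
  obtain ⟨h1', h2'⟩ := draw_writhe (a ++ [] ++ b) O hv'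
  have h3 : pat (draw O (a ++ x ++ b)).up = pat (draw O (a ++ [] ++ b)).up := by
    rw [h2, h2', ac_append, ac_append, ac_append, ac_append, hac]
    rfl
  refine ⟨⟨fun h => K_of hm hv' hv h h3 (by rw [h0]), fun h => K_of hm hv hv' h h3.symm (by rw [h0])⟩, ?_⟩
  rw [h1, h1', cw_append, cw_append, cw_append, cw_append, ac_append, ac_append, hac]
  simp only [cw, ac]
  ring

omit hm ha hb hi in
theorem ac_two (s s' : Bool) (U : ℕ → ℤ) : ac [(s, i), (s', i)] U = U := by
  simp only [ac]
  exact swap_comp_swap U i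

omit hm ha hb hi in
theorem cw_two (U : ℕ → ℤ) : cw [(true, i), (true, i)] U = 2 * (U i * U (i + 1)) := by
  simp only [cw, Function.comp_apply, Equiv.swap_apply_left, Equiv.swap_apply_right, if_true]
  ring

end loc

theorem ac_four (s₁ s₂ s₃ s₄ : Bool) (i j : ℕ) (U : ℕ → ℤ) : 
    ac [(s₁, i), (s₂, j), (s₃, j), (s₄, i)] U = U := by
  simp only [ac]
  rw [swap_comp_swap, swap_comp_swap]

theorem cw_four (s t : Bool) {i j : ℕ} (hij : i + 1 = j ∨ j + 1 = i) (U : ℕ → ℤ)
    (hi : U i = 1 ∨ U i = -1) (hj : U j = 1 ∨ U j = -1) : 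
    cw [(s, i), (t, j), (t, j), (!s, i)] U = 
      2 * (if t then 1 else -1) * ((U i * U (i + 1)) * (U j * U (j + 1))) := by
  simp only [cw]
  rw [swap_comp_swap]
  simp only [Function.comp_apply]
  rcases hij with rfl | rfl
  · have e1 : Equiv.swap i (i + 1) (i + 1) = i := Equiv.swap_apply_right _ _
    have e2 : Equiv.swap i (i + 1) (i + 1 + 1) = i + 1 + 1 := 
      Equiv.swap_apply_of_ne_of_ne (by omega) (by omega)
    have e3 : Equiv.swap i (i + 1) i = i + 1 := Equiv.swap_apply_left _ _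
    have e4 : Equiv.swap (i + 1) (i + 1 + 1) (i + 1) = i + 1 + 1 := Equiv.swap_apply_left _ _
    have e5 : Equiv.swap (i + 1) (i + 1 + 1) (i + 1 + 1) = i + 1 := Equiv.swap_apply_right _ _
    simp only [e1, e2, e3, e4, e5]
    rcases hj with h | h <;> rw [h] <;> cases s <;> cases t <;> simp only [if_true, if_false, 
      Bool.not_true, Bool.not_false, Bool.false_eq_true] <;> ring
  · have e1 : Equiv.swap (j + 1) (j + 1 + 1) j = j := 
      Equiv.swap_apply_of_ne_of_ne (by omega) (by omega)
    have e2 : Equiv.swap (j + 1) (j + 1 + 1) (j + 1) = j + 1 + 1 := Equiv.swap_apply_left _ _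
    have e3 : Equiv.swap (j + 1) (j + 1 + 1) (j + 1 + 1) = j + 1 := Equiv.swap_apply_right _ _
    have e4 : Equiv.swap j (j + 1) (j + 1) = j := Equiv.swap_apply_right _ _
    have e5 : Equiv.swap j (j + 1) j = j + 1 := Equiv.swap_apply_left _ _
    simp only [e1, e2, e3, e4, e5]
    rcases hi with h | h <;> rw [h] <;> cases s <;> cases t <;> simp only [if_true, if_false, 
      Bool.not_true, Bool.not_false, Bool.false_eq_true] <;> ring

end Pool.Agent.T6.H96.VB
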