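import Mathlib

/-!
# A random walk with killing
-/

set_option autoImplicit false

namespace Pool.Agent.T6.H96.VB

open Finset

/-- the step of the walk -/
def dd (z : Bool × Bool) : ℤ := (if z.1 then 1 else 0) - (if z.2 then 1 else 0)

/-- the endpoint of the walk -/
def st {n : ℕ} (v : Fin n → Bool × Bool) : ℤ := ∑ i, dd (v i)

theorem abs_dd (z : Bool × Bool) : |dd z| ≤ 1 := by
  obtain ⟨a, b⟩ := z
  cases a <;> cases b <;> simp [dd]

theorem abs_st {n : ℕ} (v : Fin n → Bool × Bool) : |st v| ≤ n := by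
  unfold st
  refine (Finset.abs_sum_le_sum_abs _ _).trans ?_
  refine (Finset.sum_le_card_nsmul _ _ 1 fun i _ => abs_dd _).trans ?_
  simp

theorem sum_consB {n : ℕ} (f : ℤ → ℝ) : ∑ v : Fin (n + 1) → Bool × Bool, f (st v) =
    ∑ v : Fin n → Bool × Bool, ∑ z : Bool × Bool, f (dd z + st v) := by
  rw [← (Fin.consEquiv (fun _ : Fin (n + 1) => Bool × Bool)).sum_comp, Fintype.sum_prod_type,
    Finset.sum_comm]
  refine Finset.sum_congr rfl fun v _ => Finset.sum_congr rfl fun z _ => ?_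
  congr 1
  show st (Fin.cons z v) = _
  unfold st
  rw [Fin.sum_univ_succ]
  rfl

theorem card_B (n : ℕ) : ∑ _v : Fin n → Bool × Bool, (1 : ℝ) = 4 ^ n := by
  rw [Finset.sum_const, Finset.card_univ, Fintype.card_fun, Fintype.card_fin, Fintype.card_prod,
    Fintype.card_bool, nsmul_eq_mul]
  norm_num

theorem sumB (f : ℤ → ℝ) : ∑ z : Bool × Bool, f (dd z) = 2 * f 0 + f 1 + f (-1) := by
  rw [Fintype.sum_prod_type, Fintype.sum_bool, Fintype.sum_bool, Fintype.sum_bool]
  simp only [dd, if_true, Bool.false_eq_true, if_false]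
  norm_num
  ring

theorem mom (n : ℕ) : (∑ v : Fin n → Bool × Bool, (st v : ℝ) = 0) ∧
    (∑ v : Fin n → Bool × Bool, (st v : ℝ) ^ 2 = 4 ^ n * (n / 2)) ∧
    (∑ v : Fin n → Bool × Bool, (st v : ℝ) ^ 3 = 0) ∧
    (∑ v : Fin n → Bool × Bool, (st v : ℝ) ^ 4 = 4 ^ n * ((3 * n ^ 2 - n) / 4)) := by
  induction n with
  | zero =>
    refine ⟨?_, ?_, ?_, ?_⟩ <;>
      · refine (Fintype.sum_unique (ι := Fin 0 → Bool × Bool) _).trans ?_
        simp [st]
  | succ n ih =>
    obtain ⟨h1, h2, h3, h4⟩ := ih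
    have h0 := card_B n
    refine ⟨?_, ?_, ?_, ?_⟩
    · rw [sum_consB (fun x => (x : ℝ))]
      have : ∀ v : Fin n → Bool × Bool, ∑ z : Bool × Bool, (((dd z + st v : ℤ) : ℝ)) = 4 * (st v : ℝ) := by
        intro v
        rw [sumB (fun x => ((x + st v : ℤ) : ℝ))]
        push_cast
        ring
      simp only [this, ← Finset.mul_sum, h1, mul_zero]
    · rw [sum_consB (fun x => (x : ℝ) ^ 2)]
      have : ∀ v : Fin n → Bool × Bool, ∑ z : Bool × Bool, (((dd z + st v : ℤ) : ℝ)) ^ 2 =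
          4 * (st v : ℝ) ^ 2 + 2 * 1 := by
        intro v
        rw [sumB (fun x => ((x + st v : ℤ) : ℝ) ^ 2)]
        push_cast
        ring
      simp only [this, Finset.sum_add_distrib, ← Finset.mul_sum, h2, h0]
      push_cast
      ring
    · rw [sum_consB (fun x => (x : ℝ) ^ 3)]
      have : ∀ v : Fin n → Bool × Bool, ∑ z : Bool × Bool, (((dd z + st v : ℤ) : ℝ)) ^ 3 =
          4 * (st v : ℝ) ^ 3 + 6 * (st v : ℝ) := by
        intro v
        rw [sumB (fun x => ((x + st v : ℤ) : ℝ) ^ 3)]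
        push_cast
        ring
      simp only [this, Finset.sum_add_distrib, ← Finset.mul_sum, h3, h1]
      ring
    · rw [sum_consB (fun x => (x : ℝ) ^ 4)]
      have : ∀ v : Fin n → Bool × Bool, ∑ z : Bool × Bool, (((dd z + st v : ℤ) : ℝ)) ^ 4 =
          4 * (st v : ℝ) ^ 4 + (12 * (st v : ℝ) ^ 2 + 2 * 1) := by
        intro v
        rw [sumB (fun x => ((x + st v : ℤ) : ℝ) ^ 4)]
        push_cast
        ring
      simp only [this, Finset.sum_add_distrib, ← Finset.mul_sum, h4, h2, h0]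
      push_cast
      ring

theorem exp_neg_le (y : ℝ) (hy : 0 ≤ y) : Real.exp (-y) ≤ 1 - y + y ^ 2 / 2 := by
  have h1 := Real.quadratic_le_exp_of_nonneg hy
  have h2 : Real.exp (-y) * Real.exp y = 1 := by rw [← Real.exp_add]; simp
  have h3 : 0 < 1 + y + y ^ 2 / 2 := by positivity
  have h4 : Real.exp (-y) * (1 + y + y ^ 2 / 2) ≤ 1 :=
    (mul_le_mul_of_nonneg_left h1 (Real.exp_pos _).le).trans h2.le
  have h5 : (1 - y + y ^ 2 / 2) * (1 + y + y ^ 2 / 2) = 1 + y ^ 4 / 4 := by ring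
  have h6 : Real.exp (-y) * (1 + y + y ^ 2 / 2) ≤ (1 - y + y ^ 2 / 2) * (1 + y + y ^ 2 / 2) := by
    rw [h5]
    have : 0 ≤ y ^ 4 / 4 := by positivity
    linarith
  exact le_of_mul_le_mul_right h6 h3

theorem exp_bound (h : ℕ) (b : ℝ) (hb : 1 / 4 ≤ b * h) (hb' : b * h ≤ 1 / 2) :
    ∑ v : Fin h → Bool × Bool, Real.exp (-(h * b ^ 2 * (st v : ℝ) ^ 2)) ≤ 4 ^ h * (39 / 40) := by
  obtain ⟨_, h2, _, h4⟩ := mom h
  have h0 := card_B h
  have h1 : ∑ v : Fin h → Bool × Bool, Real.exp (-(h * b ^ 2 * (st v : ℝ) ^ 2)) ≤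
      ∑ v : Fin h → Bool × Bool, (1 - h * b ^ 2 * (st v : ℝ) ^ 2 + (h * b ^ 2) ^ 2 / 2 * (st v : ℝ) ^ 4) := by
    refine Finset.sum_le_sum fun v _ => (exp_neg_le _ (by positivity)).trans (le_of_eq (by ring))
  refine h1.trans ?_
  rw [Finset.sum_add_distrib, Finset.sum_sub_distrib, ← Finset.mul_sum, ← Finset.mul_sum, h0, h2, h4]
  have h5 : (4 : ℝ) ^ h - h * b ^ 2 * (4 ^ h * (h / 2)) + (h * b ^ 2) ^ 2 / 2 * (4 ^ h * ((3 * h ^ 2 - h) / 4)) ≤
      4 ^ h * (1 - (b * h) ^ 2 / 2 + 3 / 8 * (b * h) ^ 4) := by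
    have : 0 ≤ (h * b ^ 2) ^ 2 / 2 * ((4 : ℝ) ^ h * (h / 4)) := by positivity
    nlinarith
  refine h5.trans ?_
  apply mul_le_mul_of_nonneg_left _ (by positivity)
  set x := b * h
  have hx2 : 1 / 16 ≤ x ^ 2 := by nlinarith
  have hx2' : x ^ 2 ≤ 1 / 4 := by nlinarith
  have : x ^ 4 = x ^ 2 * x ^ 2 := by ring
  rw [this]
  nlinarith

/-- restriction to some of the coordinates -/
theorem restr {α γ β : Type*} [Fintype α] [Fintype γ] [Fintype β] [DecidableEq α] [DecidableEq γ]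
    (ι : γ → α) (hι : Function.Injective ι) (F : (γ → β) → ℝ) :
    ∑ v : α → β, F (v ∘ ι) = (Fintype.card β : ℝ) ^ (Fintype.card α - Fintype.card γ) * ∑ u : γ → β, F u := by
  classical
  let e : γ ⊕ {a // a ∉ Set.range ι} ≃ α :=
    ((Equiv.ofInjective ι hι).sumCongr (Equiv.refl _)).trans (Equiv.Set.sumCompl (Set.range ι))
  have he : ∀ c, e (Sum.inl c) = ι c := fun c => rfl
  have h1 : ∑ v : α → β, F (v ∘ ι) = ∑ w : γ ⊕ {a // a ∉ Set.range ι} → β, F (w ∘ Sum.inl) := by
    rw [← Equiv.sum_comp (Equiv.arrowCongr e (Equiv.refl β))]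
    refine Finset.sum_congr rfl fun w _ => ?_
    congr 1
    funext c
    show w (e.symm (ι c)) = w (Sum.inl c)
    rw [← he, Equiv.symm_apply_apply]
  rw [h1, ← Equiv.sum_comp (Equiv.sumArrowEquivProdArrow γ {a // a ∉ Set.range ι} β).symm,
    Fintype.sum_prod_type, Finset.mul_sum]
  refine Finset.sum_congr rfl fun u _ => ?_
  have h2 : ∀ r : {a // a ∉ Set.range ι} → β,
      F (((Equiv.sumArrowEquivProdArrow γ {a // a ∉ Set.range ι} β).symm (u, r)) ∘ Sum.inl) = F u := by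
    intro r
    congr 1
  simp only [h2]
  rw [Finset.sum_const, Finset.card_univ, nsmul_eq_mul, Fintype.card_fun]
  have h3 : Fintype.card {a // a ∉ Set.range ι} = Fintype.card α - Fintype.card γ := by
    have h4 := Fintype.card_congr e
    rw [Fintype.card_sum] at h4
    omega
  rw [h3]
  push_cast
  rfl

/-- partial sums -/
def ps {n : ℕ} (v : Fin n → Bool × Bool) (a : ℕ) : ℤ := ∑ l : Fin n, if (l : ℕ) < a then dd (v l) else 0

theorem ps_append {n k : ℕ} (v : Fin n → Bool × Bool) (w : Fin k → Bool × Bool) :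
    (∀ a ≤ n, ps (Fin.append v w) a = ps v a) ∧ ∀ a, ps (Fin.append v w) (n + a) = st v + ps w a := by
  constructor
  · intro a ha
    unfold ps
    rw [Fin.sum_univ_add]
    have : ∑ i : Fin k, (if ((Fin.natAdd n i : Fin (n + k)) : ℕ) < a then dd (Fin.append v w (Fin.natAdd n i)) else 0) = 0 := by
      apply Finset.sum_eq_zero
      intro i _
      rw [if_neg]
      rw [Fin.val_natAdd]
      omega
    rw [this, add_zero]
    refine Finset.sum_congr rfl fun i _ => ?_
    rw [Fin.append_left, Fin.val_castAdd]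
  · intro a
    unfold ps st
    rw [Fin.sum_univ_add]
    congr 1
    · refine Finset.sum_congr rfl fun i _ => ?_
      rw [Fin.append_left, Fin.val_castAdd, if_pos (by omega)]
    · refine Finset.sum_congr rfl fun i _ => ?_
      rw [Fin.append_right, Fin.val_natAdd]
      by_cases h : (i : ℕ) < a
      · rw [if_pos h, if_pos (by omega)]
      · rw [if_neg h, if_neg (by omega)]

theorem ps_window {h : ℕ} (v : Fin (h + h) → Bool × Bool) (i : Fin h) :
    ps v (h + i) - ps v i = st (v ∘ fun t : Fin h => (⟨i + t, by omega⟩ : Fin (h + h))) := by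
  unfold ps st
  rw [← Finset.sum_sub_distrib]
  have h1 : ∀ l : Fin (h + h), ((if (l : ℕ) < h + i then dd (v l) else 0) - (if (l : ℕ) < i then dd (v l) else 0)) =
      if (i : ℕ) ≤ l ∧ (l : ℕ) < h + i then dd (v l) else 0 := by
    intro l
    by_cases h2 : (l : ℕ) < i
    · rw [if_pos h2, if_pos (by omega), if_neg (by omega)]
      ring
    · by_cases h3 : (l : ℕ) < h + i
      · rw [if_neg h2, if_pos h3, if_pos (by omega)]
        ring
      · rw [if_neg h2, if_neg h3, if_neg (by omega)]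
        ring
  simp only [h1]
  rw [← Finset.sum_filter]
  have h4 : univ.filter (fun l : Fin (h + h) => (i : ℕ) ≤ l ∧ (l : ℕ) < h + i) =
      univ.image (fun t : Fin h => (⟨i + t, by omega⟩ : Fin (h + h))) := by
    ext l
    simp only [Finset.mem_filter, Finset.mem_univ, true_and, Finset.mem_image]
    constructor
    · rintro ⟨h5, h6⟩
      exact ⟨⟨l - i, by omega⟩, by ext; simp only; omega⟩
    · rintro ⟨t, rfl⟩
      have := t.2
      simp only
      omega
  rw [h4, Finset.sum_image]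
  · rfl
  · intro t _ t' _ h5
    simp only [Fin.mk.injEq] at h5
    ext
    omega

theorem cos_pair (u s : ℝ) : |Real.cos u| * |Real.cos (u + s)| ≤ 1 / 2 * (1 + |Real.cos s|) := by
  have h1 : Real.cos u * Real.cos (u + s) = 1 / 2 * (Real.cos (u + (u + s)) + Real.cos s) := by
    have e1 := Real.cos_add u (u + s)
    have e2 := Real.cos_sub (u + s) u
    rw [show u + s - u = s by ring] at e2
    rw [e1, e2]
    ring
  rw [← abs_mul, h1, abs_mul]
  have h2 := abs_add_le (Real.cos (u + (u + s))) (Real.cos s)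
  have h3 := Real.abs_cos_le_one (u + (u + s))
  rw [abs_of_pos (by norm_num : (0 : ℝ) < 1 / 2)]
  linarith

theorem pair_bound (h : ℕ) (b β : ℝ) (hb0 : 0 ≤ b) (hb' : b * h ≤ 1 / 2)
    (hβ : ∀ W : ℤ, |Real.cos (Real.pi * (β * W))| = |Real.cos (Real.pi * (b * W))|) (u : ℝ) (x : ℤ) (W : ℤ)
    (hW : |W| ≤ h) :
    |Real.cos (Real.pi * (u + β * x))| * |Real.cos (Real.pi * (u + β * (x + W : ℤ)))| ≤
      Real.exp (-(b ^ 2 * (W : ℝ) ^ 2)) := by
  have h1 := cos_pair (Real.pi * (u + β * x)) (Real.pi * (β * W))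
  have e : Real.pi * (u + β * x) + Real.pi * (β * W) = Real.pi * (u + β * (x + W : ℤ)) := by
    push_cast
    ring
  rw [e, hβ] at h1
  refine h1.trans ?_
  have hW' : |(W : ℝ)| ≤ h := by
    have : ((|W| : ℤ) : ℝ) ≤ ((h : ℤ) : ℝ) := by exact_mod_cast hW
    rwa [Int.cast_abs, Int.cast_natCast] at this
  have h2 : |b * W| ≤ 1 / 2 := by
    rw [abs_mul, abs_of_nonneg hb0]
    exact (mul_le_mul_of_nonneg_left hW' hb0).trans hb'
  have h3 : |Real.pi * (b * W)| ≤ Real.pi := by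
    rw [abs_mul, abs_of_pos Real.pi_pos]
    nlinarith [Real.pi_pos]
  have h4 := Real.cos_le_one_sub_mul_cos_sq h3
  have h5 : 0 ≤ Real.cos (Real.pi * (b * W)) := by
    apply Real.cos_nonneg_of_neg_pi_div_two_le_of_le
    · rw [abs_le] at h2
      nlinarith [Real.pi_pos]
    · rw [abs_le] at h2
      nlinarith [Real.pi_pos]
  rw [abs_of_nonneg h5]
  have h6 : 2 / Real.pi ^ 2 * (Real.pi * (b * W)) ^ 2 = 2 * (b ^ 2 * (W : ℝ) ^ 2) := by
    have := Real.pi_pos.ne'
    field_simp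
  rw [h6] at h4
  have h7 := Real.add_one_le_exp (-(b ^ 2 * (W : ℝ) ^ 2))
  linarith

/-- the window -/
theorem window (h : ℕ) (hh : 0 < h) (b β : ℝ) (hb0 : 0 ≤ b) (hb' : b * h ≤ 1 / 2)
    (hβ : ∀ W : ℤ, |Real.cos (Real.pi * (β * W))| = |Real.cos (Real.pi * (b * W))|) (u : ℝ)
    (v : Fin (h + h) → Bool × Bool) :
    ∏ a : Fin (h + h), |Real.cos (Real.pi * (u + β * ps v a))| ≤
      (1 / h) * ∑ i : Fin h, Real.exp (-(h * b ^ 2 *
        (st (v ∘ fun t : Fin h => (⟨i + t, by omega⟩ : Fin (h + h))) : ℝ) ^ 2)) := by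
  have hh' : (0 : ℝ) < h := by exact_mod_cast hh
  set W : Fin h → ℤ := fun i => st (v ∘ fun t : Fin h => (⟨i + t, by omega⟩ : Fin (h + h))) with hW
  have h1 : ∏ a : Fin (h + h), |Real.cos (Real.pi * (u + β * ps v a))| ≤
      ∏ i : Fin h, Real.exp (-(b ^ 2 * (W i : ℝ) ^ 2)) := by
    rw [Fin.prod_univ_add, ← Finset.prod_mul_distrib]
    refine Finset.prod_le_prod (fun i _ => by positivity) fun i _ => ?_
    have h2 := pair_bound h b β hb0 hb' hβ u (ps v i) (W i) (abs_st _)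
    have h3 : ps v i + W i = ps v (h + i) := by
      have := ps_window v i
      simp only [hW]
      omega
    rw [h3] at h2
    exact h2
  refine h1.trans ?_
  rw [← Real.exp_sum]
  have h4 := convexOn_exp.map_sum_le (t := (univ : Finset (Fin h))) (w := fun _ => (1 / h : ℝ))
    (p := fun i => -(h * b ^ 2 * (W i : ℝ) ^ 2)) (fun _ _ => by positivity) (by
      rw [Finset.sum_const, Finset.card_univ, Fintype.card_fin, nsmul_eq_mul]
      field_simp) (fun _ _ => Set.mem_univ _)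
  have h5 : ∑ i : Fin h, (1 / h : ℝ) • -(h * b ^ 2 * (W i : ℝ) ^ 2) = ∑ i : Fin h, -(b ^ 2 * (W i : ℝ) ^ 2) := by
    refine Finset.sum_congr rfl fun i _ => ?_
    rw [smul_eq_mul]
    field_simp
  rw [h5] at h4
  refine h4.trans (le_of_eq ?_)
  rw [Finset.mul_sum]
  rfl

theorem window_sum (h : ℕ) (hh : 0 < h) (b : ℝ) (hb : 1 / 4 ≤ b * h) (hb' : b * h ≤ 1 / 2) :
    ∑ v : Fin (h + h) → Bool × Bool, ((1 / h : ℝ) * ∑ i : Fin h, Real.exp (-(h * b ^ 2 *
        (st (v ∘ fun t : Fin h => (⟨i + t, by omega⟩ : Fin (h + h))) : ℝ) ^ 2))) ≤ 4 ^ (h + h) * (39 / 40) := by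
  have hh' : (0 : ℝ) < h := by exact_mod_cast hh
  rw [← Finset.mul_sum, Finset.sum_comm]
  have h1 : ∀ i : Fin h, ∑ v : Fin (h + h) → Bool × Bool, Real.exp (-(h * b ^ 2 *
        (st (v ∘ fun t : Fin h => (⟨i + t, by omega⟩ : Fin (h + h))) : ℝ) ^ 2)) ≤ 4 ^ (h + h) * (39 / 40) := by
    intro i
    have h2 := restr (β := Bool × Bool) (fun t : Fin h => (⟨i + t, by omega⟩ : Fin (h + h))) (by
      intro t t' h5
      simp only [Fin.mk.injEq] at h5
      ext
      omega) (fun u => Real.exp (-(h * b ^ 2 * (st u : ℝ) ^ 2)))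
    rw [h2, Fintype.card_fin, Fintype.card_fin, Nat.add_sub_cancel]
    have h3 := exp_bound h b hb hb'
    have h4 : ((Fintype.card (Bool × Bool) : ℕ) : ℝ) = 4 := by
      rw [Fintype.card_prod, Fintype.card_bool]; norm_num
    rw [h4]
    calc (4 : ℝ) ^ h * ∑ u : Fin h → Bool × Bool, Real.exp (-(h * b ^ 2 * (st u : ℝ) ^ 2))
        ≤ 4 ^ h * (4 ^ h * (39 / 40)) := mul_le_mul_of_nonneg_left h3 (by positivity)
      _ = _ := by rw [pow_add]; ring
  calc (1 / h : ℝ) * ∑ i : Fin h, ∑ v : Fin (h + h) → Bool × Bool, Real.exp (-(h * b ^ 2 *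
        (st (v ∘ fun t : Fin h => (⟨i + t, by omega⟩ : Fin (h + h))) : ℝ) ^ 2))
      ≤ (1 / h : ℝ) * ∑ _i : Fin h, 4 ^ (h + h) * (39 / 40) := by
        apply mul_le_mul_of_nonneg_left (Finset.sum_le_sum fun i _ => h1 i) (by positivity)
    _ = _ := by
      rw [Finset.sum_const, Finset.card_univ, Fintype.card_fin, nsmul_eq_mul]
      field_simp

/-- the walk with killing -/
theorem walk (h : ℕ) (hh : 0 < h) (b β : ℝ) (hb0 : 0 ≤ b) (hb : 1 / 4 ≤ b * h) (hb' : b * h ≤ 1 / 2)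
    (hβ : ∀ W : ℤ, |Real.cos (Real.pi * (β * W))| = |Real.cos (Real.pi * (b * W))|) (J : ℕ) :
    ∀ (A : ℕ), J * (h + h) ≤ A → ∀ u : (Fin A → Bool × Bool) → ℝ,
      ∑ v : Fin A → Bool × Bool, ∏ a : Fin A, |Real.cos (Real.pi * (u v + β * ps v a))| ≤
        4 ^ A * (39 / 40) ^ J := by
  induction J with
  | zero =>
    intro A _ u
    rw [pow_zero, mul_one, ← card_B]
    refine Finset.sum_le_sum fun v _ => ?_
    exact Finset.prod_le_one (fun _ _ => abs_nonneg _) fun _ _ => Real.abs_cos_le_one _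
  | succ J ih =>
    intro A hA u
    obtain ⟨A', rfl⟩ : ∃ A', A = (h + h) + A' := ⟨A - (h + h), by
      have : h + h ≤ A := by nlinarith
      omega⟩
    have hA' : J * (h + h) ≤ A' := by nlinarith
    rw [← (Fin.appendEquiv (h + h) A').sum_comp, Fintype.sum_prod_type]
    have h1 : ∀ (v : Fin (h + h) → Bool × Bool),
        ∑ w : Fin A' → Bool × Bool, ∏ a : Fin ((h + h) + A'),
          |Real.cos (Real.pi * (u (Fin.append v w) + β * ps (Fin.append v w) a))| ≤
        ((1 / h : ℝ) * ∑ i : Fin h, Real.exp (-(h * b ^ 2 *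
          (st (v ∘ fun t : Fin h => (⟨i + t, by omega⟩ : Fin (h + h))) : ℝ) ^ 2))) * (4 ^ A' * (39 / 40) ^ J) := by
      intro v
      have h2 : ∀ w : Fin A' → Bool × Bool, ∏ a : Fin ((h + h) + A'),
          |Real.cos (Real.pi * (u (Fin.append v w) + β * ps (Fin.append v w) a))| ≤
          ((1 / h : ℝ) * ∑ i : Fin h, Real.exp (-(h * b ^ 2 *
            (st (v ∘ fun t : Fin h => (⟨i + t, by omega⟩ : Fin (h + h))) : ℝ) ^ 2))) *
          ∏ a : Fin A', |Real.cos (Real.pi * ((u (Fin.append v w) + β * st v) + β * ps w a))| := by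
        intro w
        rw [Fin.prod_univ_add]
        have h3 := window h hh b β hb0 hb' hβ (u (Fin.append v w)) v
        have e1 : ∏ i : Fin (h + h), |Real.cos (Real.pi * (u (Fin.append v w) +
            β * ps (Fin.append v w) ((Fin.castAdd A' i : Fin ((h + h) + A')) : ℕ)))| =
            ∏ i : Fin (h + h), |Real.cos (Real.pi * (u (Fin.append v w) + β * ps v i))| := by
          refine Finset.prod_congr rfl fun i _ => ?_
          rw [Fin.val_castAdd, (ps_append v w).1 _ (by omega)]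
        have e2 : ∏ i : Fin A', |Real.cos (Real.pi * (u (Fin.append v w) +
            β * ps (Fin.append v w) ((Fin.natAdd (h + h) i : Fin ((h + h) + A')) : ℕ)))| =
            ∏ a : Fin A', |Real.cos (Real.pi * ((u (Fin.append v w) + β * st v) + β * ps w a))| := by
          refine Finset.prod_congr rfl fun i _ => ?_
          rw [Fin.val_natAdd, (ps_append v w).2]
          push_cast
          congr 3
          ring
        rw [e1, e2]
        exact mul_le_mul_of_nonneg_right h3 (Finset.prod_nonneg fun _ _ => abs_nonneg _)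
      refine (Finset.sum_le_sum fun w _ => h2 w).trans ?_
      rw [← Finset.mul_sum]
      exact mul_le_mul_of_nonneg_left (ih A' hA' fun w => u (Fin.append v w) + β * st v) (by positivity)
    refine (Finset.sum_le_sum fun v _ => h1 v).trans ?_
    rw [← Finset.sum_mul]
    calc (∑ v : Fin (h + h) → Bool × Bool, (1 / h : ℝ) * ∑ i : Fin h, Real.exp (-(h * b ^ 2 *
          (st (v ∘ fun t : Fin h => (⟨i + t, by omega⟩ : Fin (h + h))) : ℝ) ^ 2))) * (4 ^ A' * (39 / 40) ^ J)
        ≤ (4 ^ (h + h) * (39 / 40)) * (4 ^ A' * (39 / 40) ^ J) :=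
          mul_le_mul_of_nonneg_right (window_sum h hh b hb hb') (by positivity)
      _ = _ := by rw [pow_add 4 (h + h) A', pow_succ]; ring

end Pool.Agent.T6.H96.VB
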